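import Mathlib
import Pool.Agent.MP_e633d5_co.Defs

-- part MP_e633d5_co.Circuits
section

/-! Cycles are the minimal non-empty subgraphs without a vertex of degree one; the number of cycles
under subdivision of an edge, addition of a pendant vertex and relabelling. -/

namespace Pool.Agent.MP_e633d5_co

open SimpleGraph

variable {V W : Type}

/-- Non-empty spanning subgraphs without a vertex of degree one. -/
def NL (G : SimpleGraph V) : Set (SimpleGraph V) := {H | H ≤ G ∧ H ≠ ⊥ ∧ ∀ v, dg H v ≠ 1}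

/-- The number of cycles. -/
noncomputable def cyc (G : SimpleGraph V) : ℕ := (cycleSets G).ncard

theorem dg_eq_zero [Finite V] {G : SimpleGraph V} {v : V} : dg G v = 0 ↔ ∀ w, ¬G.Adj v w := by
  rw [dg, Set.ncard_eq_zero (Set.toFinite _), Set.eq_empty_iff_forall_notMem]
  rfl

theorem dg_pos [Finite V] {G : SimpleGraph V} {v w : V} (h : G.Adj v w) : 0 < dg G v :=
  Nat.pos_of_ne_zero fun h0 => dg_eq_zero.1 h0 w h

theorem dg_mono [Finite V] {G H : SimpleGraph V} (h : H ≤ G) (v : V) : dg H v ≤ dg G v :=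
  Set.ncard_le_ncard (fun _ hw => h hw) (Set.toFinite _)

theorem dg_eq_degree (G : SimpleGraph V) (v : V) [Fintype (G.neighborSet v)] :
    dg G v = G.degree v := by
  rw [dg, ← card_neighborSet_eq_degree, Set.ncard_eq_toFinset_card', Set.toFinset_card]

theorem not_isAcyclic [Finite V] {H : SimpleGraph V} (h0 : H ≠ ⊥) (h1 : ∀ v, dg H v ≠ 1) :
    ¬H.IsAcyclic := by
  intro hac
  obtain ⟨a, b, hab⟩ := ne_bot_iff_exists_adj.1 h0
  have : Nonempty V := ⟨a⟩
  obtain ⟨u, v, p, hp, hmax⟩ := Walk.exists_isPath_forall_isPath_length_le_length H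
  have hnil : ¬p.Nil := by
    have := hmax a b hab.toWalk (by simp [hab.ne])
    rw [Walk.not_nil_iff_lt_length]
    exact lt_of_lt_of_le (by simp) this
  refine h1 u (Set.ncard_eq_one.2 ⟨p.snd, Set.eq_singleton_iff_unique_mem.2
    ⟨p.adj_snd hnil, fun w hadj => ?_⟩⟩)
  apply hac.eq_snd_of_adj_start hp hadj
  have : ¬(p.cons (G := H) (Adj.symm hadj)).IsPath := fun h => by
    have := hmax _ _ _ h
    simp at this
  by_contra hw
  exact this (hp.cons hw)

/-- The spanning subgraph formed by the edges of a walk. -/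
def wg {G : SimpleGraph V} {u v : V} (c : G.Walk u v) : SimpleGraph V := c.toSubgraph.spanningCoe

theorem wg_adj {G : SimpleGraph V} {u v : V} (c : G.Walk u v) (x y : V) :
    (wg c).Adj x y ↔ s(x, y) ∈ c.edges := by
  simp [wg, Walk.adj_toSubgraph_iff_mem_edges]

theorem wg_edgeSet {G : SimpleGraph V} {u v : V} (c : G.Walk u v) :
    (wg c).edgeSet = {e | e ∈ c.edges} := by
  ext e
  induction e using Sym2.ind with
  | _ x y => simp [wg_adj]

theorem wg_le {G : SimpleGraph V} {u v : V} (c : G.Walk u v) : wg c ≤ G := fun x y h =>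
  c.adj_of_mem_edges ((wg_adj c x y).1 h)

theorem wg_mem_NL {G : SimpleGraph V} {v : V} {c : G.Walk v v} (hc : c.IsCycle) : wg c ∈ NL G := by
  refine ⟨wg_le c, ?_, fun w hw => ?_⟩
  · rw [ne_bot_iff_exists_adj]
    exact ⟨v, c.snd, (wg_adj c _ _).2 (c.mk_start_snd_mem_edges hc.not_nil)⟩
  · have := hc.isCycles_spanningCoe_toSubgraph (v := w)
      (Set.nonempty_of_ncard_ne_zero (by rw [dg, wg] at hw; omega))
    rw [dg, wg] at hw
    omega

theorem wg_minimal [Finite V] {G : SimpleGraph V} {v : V} {c : G.Walk v v} (hc : c.IsCycle) :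
    Minimal (· ∈ NL G) (wg c) := by
  refine ⟨wg_mem_NL hc, fun H hH hle => ?_⟩
  have key : ∀ x, 0 < dg H x → ∀ y, (wg c).Adj x y → H.Adj x y := by
    intro x hx y hy
    have h1 : dg (wg c) x = 2 := hc.isCycles_spanningCoe_toSubgraph (v := x) ⟨y, hy⟩
    have h2 := hH.2.2 x
    have h3 : H.neighborSet x = (wg c).neighborSet x :=
      Set.eq_of_subset_of_ncard_le (fun _ hw => hle hw) (by rw [dg] at hx h1 h2; omega)
    exact (Set.ext_iff.1 h3 y).2 hy
  obtain ⟨a, b, hab⟩ := ne_bot_iff_exists_adj.1 hH.2.1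
  have prop : ∀ {x y} (q : (wg c).Walk x y), 0 < dg H x → 0 < dg H y := by
    intro x y q
    induction q with
    | nil => exact id
    | cons h _ ih => exact fun hx => ih (dg_pos (key _ hx _ h).symm)
  intro x y hxy
  have ha : a ∈ c.toSubgraph.verts := c.toSubgraph.edge_vert (hle hab)
  have hx : x ∈ c.toSubgraph.verts := c.toSubgraph.edge_vert hxy
  obtain ⟨q⟩ := (c.toSubgraph_connected.preconnected ⟨a, ha⟩ ⟨x, hx⟩).map
    (⟨Subtype.val, fun h => h⟩ : c.toSubgraph.coe →g wg c)
  exact key x (prop q (dg_pos hab)) y hxy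

theorem exists_wg_of_minimal [Finite V] {G H : SimpleGraph V} (h : Minimal (· ∈ NL G) H) :
    ∃ (v : V) (c : G.Walk v v), c.IsCycle ∧ H = wg c := by
  have h1 := not_isAcyclic h.prop.2.1 h.prop.2.2
  simp only [IsAcyclic, not_forall, not_not] at h1
  obtain ⟨v, c, hc⟩ := h1
  refine ⟨v, c.mapLe h.prop.1, hc.mapLe _, ?_⟩
  have h2 : wg (c.mapLe h.prop.1) ≤ H := fun x y hxy => by
    rw [wg_adj, Walk.edges_mapLe_eq_edges] at hxy
    exact c.adj_of_mem_edges hxy
  exact le_antisymm (h.le_of_le (wg_mem_NL (hc.mapLe _)) h2) h2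

theorem cyc_eq [Finite V] (G : SimpleGraph V) : cyc G = {H | Minimal (· ∈ NL G) H}.ncard := by
  rw [cyc, ← Set.ncard_image_of_injective _ edgeSet_injective]
  congr 1
  ext s
  constructor
  · rintro ⟨v, c, hc, rfl⟩
    exact ⟨wg c, wg_minimal hc, wg_edgeSet c⟩
  · rintro ⟨H, hH, rfl⟩
    obtain ⟨v, c, hc, rfl⟩ := exists_wg_of_minimal hH
    exact ⟨v, c, hc, wg_edgeSet c⟩

theorem cyc_transfer [Finite V] [Finite W] {G : SimpleGraph V} {G' : SimpleGraph W}
    (f : SimpleGraph V → SimpleGraph W)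
    (hf : ∀ ⦃x y⦄, x ∈ NL G → y ∈ NL G → (f x ≤ f y ↔ x ≤ y)) (himg : f '' NL G = NL G') :
    cyc G' = cyc G := by
  rw [cyc_eq, cyc_eq, ← himg, ← image_monotone_setOfPred_minimal_mem hf]
  refine Set.InjOn.ncard_image fun x hx y hy h => ?_
  exact le_antisymm ((hf hx.prop hy.prop).1 h.le) ((hf hy.prop hx.prop).1 h.ge)

/-! ### Relabelling -/

theorem dg_map (e : V ↪ W) (G : SimpleGraph V) (v : V) : dg (G.map e) (e v) = dg G v := by
  rw [dg, dg, ← Set.ncard_image_of_injective _ e.injective]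
  congr 1
  ext w
  simp

theorem dg_map_of_notMem [Finite W] (e : V ↪ W) (G : SimpleGraph V) {w : W}
    (h : w ∉ Set.range e) : dg (G.map e) w = 0 := by
  rw [dg_eq_zero]
  intro x hx
  obtain ⟨a, b, -, rfl, -⟩ := (map_adj e G _ _).1 hx
  exact h ⟨a, rfl⟩

theorem map_comap_eq (e : V ↪ W) {H : SimpleGraph W} (h : ∀ x y, H.Adj x y → x ∈ Set.range e) :
    (H.comap e).map e = H := by
  ext x y
  rw [map_adj]
  constructor
  · rintro ⟨a, b, hab, rfl, rfl⟩; exact hab
  · intro hxy
    obtain ⟨a, rfl⟩ := h x y hxy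
    obtain ⟨b, rfl⟩ := h y _ hxy.symm
    exact ⟨a, b, hxy, rfl, rfl⟩

theorem cyc_map [Finite V] [Finite W] (e : V ↪ W) (G : SimpleGraph V) :
    cyc (G.map e) = cyc G := by
  refine cyc_transfer (fun H => H.map e) (fun x y _ _ => ?_) ?_
  · rw [map_le_iff_le_comap, comap_map_eq]
  ext H
  constructor
  · rintro ⟨K, hK, rfl⟩
    refine ⟨map_monotone e hK.1, ?_, fun w => ?_⟩
    · obtain ⟨a, b, hab⟩ := ne_bot_iff_exists_adj.1 hK.2.1
      exact ne_bot_iff_exists_adj.2 ⟨e a, e b, map_adj_apply.2 hab⟩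
    · by_cases hw : w ∈ Set.range e
      · obtain ⟨v, rfl⟩ := hw
        rw [dg_map]; exact hK.2.2 v
      · rw [dg_map_of_notMem e K hw]; omega
  · intro hH
    have h1 : (H.comap e).map e = H := map_comap_eq e fun x y hxy => by
      obtain ⟨a, b, -, rfl, -⟩ := (map_adj e G _ _).1 (hH.1 hxy)
      exact ⟨a, rfl⟩
    refine ⟨H.comap e, ⟨?_, fun h0 => hH.2.1 ?_, fun v => ?_⟩, h1⟩
    · exact (comap_monotone e hH.1).trans (comap_map_eq e G).le
    · rw [← h1, h0]; exact le_bot_iff.1 ((map_le_iff_le_comap _ _ _).2 bot_le)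
    · rw [← dg_map e, h1]; exact hH.2.2 _

/-! ### Pendant vertices -/

theorem dg_pend_self {G : SimpleGraph V} {v a : V} (hv : ∀ w, ¬G.Adj v w) (hva : v ≠ a) :
    dg (G ⊔ edge v a) v = 1 := by
  refine Set.ncard_eq_one.2 ⟨a, ?_⟩
  ext w
  simp only [mem_neighborSet, sup_adj, edge_adj, Set.mem_singleton_iff]
  grind

theorem dg_pend_att [Finite V] {G : SimpleGraph V} {v a : V} (hv : ∀ w, ¬G.Adj v w)
    (hva : v ≠ a) : dg (G ⊔ edge v a) a = dg G a + 1 := by
  rw [dg, dg, ← Set.ncard_insert_of_notMem (a := v) (s := G.neighborSet a)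
    fun h => hv a (Adj.symm h)]
  congr 1
  ext w
  simp only [mem_neighborSet, sup_adj, edge_adj, Set.mem_insert_iff]
  grind

theorem dg_pend_ne {G : SimpleGraph V} {v a x : V} (h1 : x ≠ v) (h2 : x ≠ a) :
    dg (G ⊔ edge v a) x = dg G x := by
  rw [dg, dg]
  congr 1
  ext w
  simp only [mem_neighborSet, sup_adj, edge_adj]
  grind

theorem cyc_pend [Finite V] {G : SimpleGraph V} {v a : V} (hv : ∀ w, ¬G.Adj v w) (hva : v ≠ a) :
    cyc (G ⊔ edge v a) = cyc G := by
  refine cyc_transfer id (fun _ _ _ _ => Iff.rfl) ?_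
  rw [Set.image_id]
  ext H
  refine ⟨fun h => ⟨h.1.trans le_sup_left, h.2⟩, fun h => ⟨fun x y hxy => ?_, h.2⟩⟩
  have h1 : dg H v = 0 := by
    have := dg_mono h.1 v
    have := h.2.2 v
    rw [dg_pend_self hv hva] at *
    omega
  rw [dg_eq_zero] at h1
  rcases h.1 hxy with h2 | h2
  · exact h2
  · rw [edge_adj] at h2
    rcases h2.1 with ⟨rfl, rfl⟩ | ⟨rfl, rfl⟩
    · exact absurd hxy (h1 _)
    · exact absurd hxy.symm (h1 _)

/-! ### Subdivision -/

/-- Subdivision of the edge `a b`, if present, by the vertex `v`. -/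
def subdiv (v a b : V) (H : SimpleGraph V) : SimpleGraph V where
  Adj x y := x ≠ y ∧ ((H.Adj x y ∧ ¬(x = a ∧ y = b) ∧ ¬(x = b ∧ y = a)) ∨
    (H.Adj a b ∧ ((x = v ∧ (y = a ∨ y = b)) ∨ (y = v ∧ (x = a ∨ x = b)))))
  symm := ⟨fun x y h => by have := H.adj_comm x y; grind⟩
  loopless := ⟨fun x h => h.1 rfl⟩

/-- Suppression of the vertex `v` with neighbours `a` and `b`. -/
def suppr (v a b : V) (H : SimpleGraph V) : SimpleGraph V where
  Adj x y := x ≠ y ∧ ((H.Adj x y ∧ x ≠ v ∧ y ≠ v) ∨
    (H.Adj v a ∧ ((x = a ∧ y = b) ∨ (x = b ∧ y = a))))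
  symm := ⟨fun x y h => by have := H.adj_comm x y; grind⟩
  loopless := ⟨fun x h => h.1 rfl⟩

theorem subdiv_of_not_adj {v a b : V} {H : SimpleGraph V} (h : ¬H.Adj a b) :
    subdiv v a b H = H := by
  ext x y
  have := H.adj_comm a b
  have := @Adj.ne _ H x y
  simp only [subdiv]
  grind

theorem subdiv_comm (v a b : V) (H : SimpleGraph V) : subdiv v a b H = subdiv v b a H := by
  ext x y
  have := H.adj_comm a b
  simp only [subdiv]
  grind

theorem dg_subdiv_self {v a b : V} {H : SimpleGraph V} (hv : ∀ w, ¬H.Adj v w) (h : H.Adj a b) :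
    dg (subdiv v a b H) v = 2 := by
  refine Set.ncard_eq_two.2 ⟨a, b, h.ne, ?_⟩
  ext w
  have := h.symm
  simp only [mem_neighborSet, subdiv, Set.mem_insert_iff, Set.mem_singleton_iff]
  grind

theorem dg_subdiv_end [Finite V] {v a b : V} {H : SimpleGraph V} (hv : ∀ w, ¬H.Adj v w)
    (h : H.Adj a b) : dg (subdiv v a b H) a = dg H a := by
  rw [dg, dg, ← Set.ncard_exchange (a := v) (b := b) (s := H.neighborSet a)
    (fun h => hv a (Adj.symm h)) h]
  congr 1
  ext w
  have := h.symm
  have := h.ne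
  have := @Adj.ne _ H a w
  simp only [mem_neighborSet, subdiv, Set.mem_insert_iff, Set.mem_singleton_iff, Set.mem_sdiff]
  grind

theorem dg_subdiv_ne [Finite V] {v a b x : V} {H : SimpleGraph V} (hv : ∀ w, ¬H.Adj v w)
    (hx : x ≠ v) : dg (subdiv v a b H) x = dg H x := by
  by_cases h : H.Adj a b
  · by_cases h1 : x = a
    · rw [h1, dg_subdiv_end hv h]
    by_cases h2 : x = b
    · rw [h2, subdiv_comm, dg_subdiv_end hv h.symm]
    rw [dg, dg]
    congr 1
    ext w
    have := @Adj.ne _ H x w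
    simp only [mem_neighborSet, subdiv]
    grind
  · rw [subdiv_of_not_adj h]

theorem suppr_isolated {v a b : V} (H : SimpleGraph V) (ha : v ≠ a) (hb : v ≠ b) (w : V) :
    ¬(suppr v a b H).Adj v w := by
  simp only [suppr]
  grind

theorem subdiv_suppr {v a b : V} {H : SimpleGraph V} (hab : a ≠ b) (hb : v ≠ b)
    (h1 : ∀ w, H.Adj v w → w = a ∨ w = b) (h2 : H.Adj v a ↔ H.Adj v b) (h3 : ¬H.Adj a b) :
    subdiv v a b (suppr v a b H) = H := by
  ext x y
  have := H.adj_comm a b
  have := H.adj_comm x y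
  have := @Adj.ne _ H x y
  have := h1 x
  have := h1 y
  simp only [subdiv, suppr]
  grind

theorem cyc_subdiv [Finite V] {v a b : V} {G : SimpleGraph V} (hv : ∀ w, ¬G.Adj v w)
    (h : G.Adj a b) : cyc (subdiv v a b G) = cyc G := by
  have ha : v ≠ a := by rintro rfl; exact hv _ h
  have hb : v ≠ b := by rintro rfl; exact hv _ h.symm
  have hab := h.ne
  have hle : ∀ {x y : SimpleGraph V}, x ≤ G → y ≤ G →
      (subdiv v a b x ≤ subdiv v a b y ↔ x ≤ y) := by
    intro x y hx hy
    refine ⟨fun hxy s t hst => ?_, fun hxy s t hst => ?_⟩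
    · have h1 := @hxy s t
      have h2 := @hxy v a
      have h3 : s ≠ v := by rintro rfl; exact hv _ (hx hst)
      have h4 : ¬y.Adj v a := fun h => hv _ (hy h)
      have h5 : t ≠ v := by rintro rfl; exact hv _ (hx hst.symm)
      have h6 := x.adj_comm a b
      have h7 := y.adj_comm a b
      have h8 := hst.ne
      have h9 := hst.symm
      simp only [subdiv] at h1 h2
      grind
    · have h1 := @hxy s t
      have h2 := @hxy a b
      simp only [subdiv] at hst ⊢
      grind
  refine cyc_transfer (subdiv v a b) (fun x y hx hy => hle hx.1 hy.1) ?_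
  ext H
  constructor
  · rintro ⟨K, hK, rfl⟩
    have hKv : ∀ w, ¬K.Adj v w := fun w hw => hv w (hK.1 hw)
    refine ⟨(hle hK.1 le_rfl).2 hK.1, fun h0 => hK.2.1 ?_, fun w => ?_⟩
    · rw [← le_bot_iff, ← hle hK.1 bot_le, h0]; exact bot_le
    · by_cases hw : w = v
      · by_cases hKab : K.Adj a b
        · rw [hw, dg_subdiv_self hKv hKab]; omega
        · rw [subdiv_of_not_adj hKab]; exact hK.2.2 w
      · rw [dg_subdiv_ne hKv hw]; exact hK.2.2 w
  · intro hH
    have h1 : ∀ w, H.Adj v w → w = a ∨ w = b := fun w hw => by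
      have := hH.1 hw
      simp only [subdiv] at this
      grind
    have h2 : H.Adj v a ↔ H.Adj v b := by
      by_contra hne
      refine hH.2.2 v (Set.ncard_eq_one.2 ?_)
      by_cases h3 : H.Adj v a
      · exact ⟨a, by ext w; have := h1 w; simp only [mem_neighborSet, Set.mem_singleton_iff]; grind⟩
      · exact ⟨b, by ext w; have := h1 w; simp only [mem_neighborSet, Set.mem_singleton_iff]; grind⟩
    have h3 : ¬H.Adj a b := fun hw => by
      have := hH.1 hw
      simp only [subdiv] at this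
      grind
    have h4 := subdiv_suppr hab hb h1 h2 h3
    refine ⟨suppr v a b H, ⟨fun s t hst => ?_, fun h0 => hH.2.1 ?_, fun w => ?_⟩, h4⟩
    · have h5 := @hH.1 s t
      have := h.symm
      simp only [subdiv, suppr] at h5 hst
      grind
    · rw [← h4, h0, subdiv_of_not_adj (by simp)]
    · by_cases hw : w = v
      · rw [hw, dg_eq_zero.2 (suppr_isolated H ha hb)]; omega
      · rw [← dg_subdiv_ne (a := a) (b := b) (suppr_isolated H ha hb) hw, h4]; exact hH.2.2 w

end Pool.Agent.MP_e633d5_co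

end

-- part MP_e633d5_co.Reduce
section

/-! Reduction of a graph to its reduced core and the converse construction. -/

namespace Pool.Agent.MP_e633d5_co

open SimpleGraph Finset

variable {V W : Type}

/-- Any two non-isolated vertices are joined by a walk. -/
def ConnS (G : SimpleGraph V) : Prop := ∀ x y, 0 < dg G x → 0 < dg G y → G.Reachable x y

/-- The total excess of the degrees over two, isolated vertices being ignored. -/
noncomputable def ex [Fintype V] (G : SimpleGraph V) : ℤ :=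
  ∑ v, if dg G v = 0 then 0 else (dg G v : ℤ) - 2

theorem reach_of_adj {G G' : SimpleGraph V} (π : V → V)
    (h : ∀ x y, G.Adj x y → G'.Reachable (π x) (π y)) {x y : V} (hxy : G.Reachable x y) :
    G'.Reachable (π x) (π y) := by
  obtain ⟨q⟩ := hxy
  induction q with
  | nil => rfl
  | cons h' _ ih => exact (h _ _ h').trans ih

theorem sum_two [Fintype V] {f g : V → ℤ} {v a : V} (hva : v ≠ a)
    (h : ∀ x, x ≠ v → x ≠ a → f x = g x) (h2 : f v + f a = g v + g a) : ∑ x, f x = ∑ x, g x := by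
  classical
  rw [← sub_eq_zero, ← sum_sub_distrib, ← sum_subset (subset_univ {v, a}), sum_pair hva]
  · linarith
  · intro x _ hx
    simp only [mem_insert, mem_singleton, not_or] at hx
    rw [h x hx.1 hx.2, sub_self]

theorem ex_pend [Fintype V] {G : SimpleGraph V} {v a : V} (hv : ∀ w, ¬G.Adj v w) (hva : v ≠ a)
    (ha : 0 < dg G a) : ex (G ⊔ edge v a) = ex G := by
  refine sum_two hva (fun x h1 h2 => by rw [dg_pend_ne h1 h2]) ?_
  rw [dg_pend_self hv hva, dg_pend_att hv hva, dg_eq_zero.2 hv]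
  simp [ha.ne']
  ring

theorem ex_subdiv [Fintype V] {G : SimpleGraph V} {v a b : V} (hv : ∀ w, ¬G.Adj v w)
    (h : G.Adj a b) : ex (subdiv v a b G) = ex G := by
  refine sum_congr rfl fun x _ => ?_
  by_cases hx : x = v
  · rw [hx, dg_subdiv_self hv h, dg_eq_zero.2 hv]; simp
  · rw [dg_subdiv_ne hv hx]

theorem connS_pend [Finite V] {G : SimpleGraph V} {v a : V} (hv : ∀ w, ¬G.Adj v w) (hva : v ≠ a)
    (ha : 0 < dg G a) : ConnS (G ⊔ edge v a) ↔ ConnS G := by
  classical
  constructor
  · intro h x y hx hy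
    have hx' : x ≠ v := by rintro rfl; rw [dg_eq_zero.2 hv] at hx; omega
    have hy' : y ≠ v := by rintro rfl; rw [dg_eq_zero.2 hv] at hy; omega
    have := reach_of_adj (G' := G) (fun x => if x = v then a else x) (fun s t hst => ?_)
      (h x y (hx.trans_le (dg_mono le_sup_left x)) (hy.trans_le (dg_mono le_sup_left y)))
    · simpa [hx', hy'] using this
    rcases hst with hst | hst
    · have h1 : s ≠ v := by rintro rfl; exact hv _ hst
      have h2 : t ≠ v := by rintro rfl; exact hv _ hst.symm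
      simpa [h1, h2] using hst.reachable
    · rw [edge_adj] at hst
      rcases hst.1 with ⟨rfl, rfl⟩ | ⟨rfl, rfl⟩ <;> simp
  · intro h
    have key : ∀ x, 0 < dg (G ⊔ edge v a) x → (G ⊔ edge v a).Reachable x a := by
      intro x hx
      by_cases h1 : x = v
      · exact Adj.reachable (Or.inr (by simp [edge_adj, h1, hva]))
      by_cases h2 : x = a
      · rw [h2]
      rw [dg_pend_ne h1 h2] at hx
      exact (h x a hx ha).mono le_sup_left
    exact fun x y hx hy => (key x hx).trans (key y hy).symm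

theorem connS_subdiv [Finite V] {G : SimpleGraph V} {v a b : V} (hv : ∀ w, ¬G.Adj v w)
    (hab : G.Adj a b) : ConnS (subdiv v a b G) ↔ ConnS G := by
  classical
  have ha : v ≠ a := by rintro rfl; exact hv _ hab
  have hb : v ≠ b := by rintro rfl; exact hv _ hab.symm
  have h1 : (subdiv v a b G).Adj v a := by simp [subdiv, hab, ha]
  have h2 : (subdiv v a b G).Adj v b := by simp [subdiv, hab, hb]
  constructor
  · intro h x y hx hy
    have hx' : x ≠ v := by rintro rfl; rw [dg_eq_zero.2 hv] at hx; omega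
    have hy' : y ≠ v := by rintro rfl; rw [dg_eq_zero.2 hv] at hy; omega
    have := reach_of_adj (G' := G) (fun x => if x = v then a else x) (fun s t hst => ?_)
      (h x y (by rwa [dg_subdiv_ne hv hx']) (by rwa [dg_subdiv_ne hv hy']))
    · simpa [hx', hy'] using this
    rcases hst.2 with ⟨hst', -⟩ | ⟨-, ⟨rfl, rfl | rfl⟩ | ⟨rfl, rfl | rfl⟩⟩
    · have h1 : s ≠ v := by rintro rfl; exact hv _ hst'
      have h2 : t ≠ v := by rintro rfl; exact hv _ hst'.symm
      simpa [h1, h2] using hst'.reachable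
    · simp
    · simpa [hb.symm] using hab.reachable
    · simp
    · simpa [hb.symm] using hab.symm.reachable
  · intro h
    have key : ∀ x, 0 < dg (subdiv v a b G) x → (subdiv v a b G).Reachable x a := by
      intro x hx
      by_cases h3 : x = v
      · exact h3 ▸ h1.reachable
      rw [dg_subdiv_ne hv h3] at hx
      refine reach_of_adj id (fun s t hst => ?_) (h x a hx (dg_pos hab))
      by_cases h4 : s = a ∧ t = b
      · rw [h4.1, h4.2]; exact h1.symm.reachable.trans h2.reachable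
      by_cases h5 : s = b ∧ t = a
      · rw [h5.1, h5.2]; exact h2.symm.reachable.trans h1.reachable
      exact Adj.reachable ⟨hst.ne, Or.inl ⟨hst, h4, h5⟩⟩
    exact fun x y hx hy => (key x hx).trans (key y hy).symm

theorem exists_two_le_dg [Finite V] {G : SimpleGraph V} (h : 0 < cyc G) : ∃ w, 2 ≤ dg G w := by
  obtain ⟨s, v, c, hc, -⟩ := Set.nonempty_of_ncard_ne_zero h.ne'
  have h1 := wg_mem_NL hc
  obtain ⟨a, b, hab⟩ := ne_bot_iff_exists_adj.1 h1.2.1
  have := dg_pos hab
  have := h1.2.2 a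
  exact ⟨a, le_trans (by omega) (dg_mono h1.1 a)⟩

theorem two_le_of_leaf [Finite V] {G : SimpleGraph V} (hc : ConnS G) (h : 0 < cyc G) {v a : V}
    (hv : G.neighborSet v = {a}) : 2 ≤ dg G a := by
  have hva : G.Adj v a := (Set.ext_iff.1 hv a).2 rfl
  have h0 := dg_pos hva.symm
  by_contra hlt
  obtain ⟨u, hu⟩ := Set.ncard_eq_one.1 (show dg G a = 1 by omega)
  obtain rfl : v = u := (Set.ext_iff.1 hu v).1 hva.symm
  obtain ⟨w, hw⟩ := exists_two_le_dg h
  have key : ∀ {x y} (q : G.Walk x y), (x = v ∨ x = a) → (y = v ∨ y = a) := by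
    intro x y q
    induction q with
    | nil => exact id
    | cons h' _ ih =>
      rintro (rfl | rfl)
      · exact ih (Or.inr ((Set.ext_iff.1 hv _).1 h'))
      · exact ih (Or.inl ((Set.ext_iff.1 hu _).1 h'))
  obtain ⟨q⟩ := hc v w (dg_pos hva) (by omega)
  rcases key q (Or.inl rfl) with rfl | rfl
  · rw [dg, hv, Set.ncard_singleton] at hw; omega
  · omega

/-- Every graph connected on its support and containing a cycle reduces to a core. -/
theorem exists_core [Fintype V] (n : ℕ) : ∀ G : SimpleGraph V, ∑ v, dg G v ≤ n → ConnS G →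
    0 < cyc G → ∃ H : SimpleGraph V, ConnS H ∧ cyc H = cyc G ∧ ex H = ex G ∧
      (∀ v, dg H v ≤ dg G v) ∧ (∀ v, dg H v ≠ 1) ∧
      ∀ v a b, a ≠ b → H.neighborSet v = {a, b} → H.Adj a b := by
  induction n using Nat.strong_induction_on with
  | _ n ih =>
  intro G hn hc h0
  have step : ∀ (G' : SimpleGraph V) (v : V), (∀ x, dg G' x ≤ dg G x) → dg G' v < dg G v →
      ConnS G' → cyc G' = cyc G → ex G' = ex G → ∃ H : SimpleGraph V, ConnS H ∧ cyc H = cyc G ∧
      ex H = ex G ∧ (∀ v, dg H v ≤ dg G v) ∧ (∀ v, dg H v ≠ 1) ∧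
      ∀ v a b, a ≠ b → H.neighborSet v = {a, b} → H.Adj a b := by
    intro G' v h1 h2 h3 h4 h5
    obtain ⟨H, a1, a2, a3, a4, a5⟩ := ih _ (lt_of_lt_of_le
      (sum_lt_sum (fun x _ => h1 x) ⟨v, mem_univ _, h2⟩) hn) G' le_rfl h3 (h4 ▸ h0)
    exact ⟨H, a1, a2.trans h4, a3.trans h5, fun x => (a4 x).trans (h1 x), a5⟩
  by_cases h1 : ∃ v, dg G v = 1
  · obtain ⟨v, hv⟩ := h1
    obtain ⟨a, ha⟩ := Set.ncard_eq_one.1 hv
    have hva : G.Adj v a := (Set.ext_iff.1 ha a).2 rfl
    have b1 : ∀ w, ¬(G \ edge v a).Adj v w := fun w hw => by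
      have := (Set.ext_iff.1 ha w).1 hw.1
      exact hw.2 (by simp [edge_adj, Set.mem_singleton_iff.1 this, hva.ne])
    have b2 : G \ edge v a ⊔ edge v a = G :=
      sdiff_sup_cancel ((edge_le_iff G).2 (Or.inr hva))
    have b3 : 0 < dg (G \ edge v a) a := by
      have := dg_pend_att b1 hva.ne
      have := two_le_of_leaf hc h0 ha
      rw [b2] at *
      omega
    refine step (G \ edge v a) v (fun x => dg_mono sdiff_le x) ?_ ?_ ?_ ?_
    · rw [dg_eq_zero.2 b1]; omega
    · rw [← connS_pend b1 hva.ne b3, b2]; exact hc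
    · rw [← cyc_pend b1 hva.ne, b2]
    · rw [← ex_pend b1 hva.ne b3, b2]
  by_cases h2 : ∃ v a b, a ≠ b ∧ G.neighborSet v = {a, b} ∧ ¬G.Adj a b
  · obtain ⟨v, a, b, hab, hv, hn⟩ := h2
    have hva : G.Adj v a := (Set.ext_iff.1 hv a).2 (by simp)
    have hvb : G.Adj v b := (Set.ext_iff.1 hv b).2 (by simp)
    have b1 := suppr_isolated G hva.ne hvb.ne
    have b2 := subdiv_suppr hab hvb.ne (fun w hw => (Set.ext_iff.1 hv w).1 hw)
      (iff_of_true hva hvb) hn
    have b3 : (suppr v a b G).Adj a b := by simp [suppr, hab, hva]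
    refine step (suppr v a b G) v (fun x => ?_) ?_ ?_ ?_ ?_
    · by_cases hx : x = v
      · rw [hx, dg_eq_zero.2 b1]; omega
      · rw [← dg_subdiv_ne (a := a) (b := b) b1 hx, b2]
    · rw [dg_eq_zero.2 b1]; exact dg_pos hva
    · rw [← connS_subdiv b1 b3, b2]; exact hc
    · rw [← cyc_subdiv b1 b3, b2]
    · rw [← ex_subdiv b1 b3, b2]
  push Not at h1 h2
  exact ⟨G, hc, rfl, rfl, fun _ => le_rfl, h1, h2⟩

/-- Conversely a dominated graph extends to a realisation of the whole sequence. -/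
theorem exists_extend [Fintype V] (d : V → ℕ) (hd : ∀ v, 1 ≤ d v) (n : ℕ) :
    ∀ G : SimpleGraph V, (univ.filter fun v => dg G v = 0).card = n → ConnS G → G ≠ ⊥ →
      (∀ v, dg G v ≤ d v) → ∑ v, ((d v : ℤ) - 2) = ex G →
      ∃ G' : SimpleGraph V, G'.Connected ∧ cyc G' = cyc G ∧ ∀ v, dg G' v = d v := by
  classical
  induction n with
  | zero =>
    intro G hn hc h0 hle hs
    have h1 : ∀ v, dg G v ≠ 0 := by simpa using hn
    obtain ⟨a, -, -⟩ := ne_bot_iff_exists_adj.1 h0
    have : Nonempty V := ⟨a⟩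
    refine ⟨G, ⟨fun x y => hc x y (Nat.pos_of_ne_zero (h1 x)) (Nat.pos_of_ne_zero (h1 y))⟩, rfl,
      fun v => ?_⟩
    simp only [ex, h1, if_false] at hs
    have := (sum_eq_sum_iff_of_le fun i _ => show (dg G i : ℤ) - 2 ≤ (d i : ℤ) - 2 by
      have := hle i; omega).1 hs.symm v (mem_univ _)
    omega
  | succ n ih =>
    intro G hn hc h0 hle hs
    have step : ∀ (G' : SimpleGraph V) (v : V), dg G v = 0 → dg G' v ≠ 0 →
        (∀ x, x ≠ v → (dg G' x = 0 ↔ dg G x = 0)) → ConnS G' → (∀ v, dg G' v ≤ d v) →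
        cyc G' = cyc G → ex G' = ex G →
        ∃ G' : SimpleGraph V, G'.Connected ∧ cyc G' = cyc G ∧ ∀ v, dg G' v = d v := by
      intro G' v h1 h2 h3 h4 h5 h6 h7
      rw [← h6]
      refine ih G' ?_ h4 (fun h => h2 (by rw [h, dg_eq_zero]; simp)) h5 (hs.trans h7.symm)
      have : (univ.filter fun v => dg G' v = 0) = (univ.filter fun v => dg G v = 0).erase v := by
        ext x
        by_cases hx : x = v
        · simp [hx, h2]
        · simp [hx, h3 x hx]
      rw [this, card_erase_of_mem (by simpa using h1), hn]; rfl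
    by_cases h1 : ∃ v, dg G v = 0 ∧ 2 ≤ d v
    · obtain ⟨v, hv, hv2⟩ := h1
      obtain ⟨a, b, hab⟩ := ne_bot_iff_exists_adj.1 h0
      have b1 := dg_eq_zero.1 hv
      refine step (subdiv v a b G) v hv (by rw [dg_subdiv_self b1 hab]; omega)
        (fun x hx => by rw [dg_subdiv_ne b1 hx]) ((connS_subdiv b1 hab).2 hc) (fun x => ?_)
        (cyc_subdiv b1 hab) (ex_subdiv b1 hab)
      by_cases hx : x = v
      · rw [hx, dg_subdiv_self b1 hab]; exact hv2
      · rw [dg_subdiv_ne b1 hx]; exact hle x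
    push Not at h1
    obtain ⟨v, hv⟩ := card_pos.1 (show 0 < (univ.filter fun v => dg G v = 0).card by omega)
    rw [mem_filter] at hv
    obtain ⟨a, ha0, ha⟩ : ∃ a, 0 < dg G a ∧ dg G a < d a := by
      by_contra hne
      push Not at hne
      refine absurd hs (ne_of_lt (sum_lt_sum (fun x _ => ?_) ⟨v, mem_univ _, ?_⟩))
      · split_ifs with hx
        · have := h1 x hx; omega
        · have := hne x (Nat.pos_of_ne_zero hx); omega
      · have := h1 v hv.2
        rw [if_pos hv.2]; omega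
    have b1 := dg_eq_zero.1 hv.2
    have hva : v ≠ a := by rintro rfl; omega
    refine step (G ⊔ edge v a) v hv.2 (by rw [dg_pend_self b1 hva]; omega) (fun x hx => ?_)
      ((connS_pend b1 hva ha0).2 hc) (fun x => ?_) (cyc_pend b1 hva) (ex_pend b1 hva ha0)
    · by_cases hx' : x = a
      · rw [hx', dg_pend_att b1 hva]; omega
      · rw [dg_pend_ne hx hx']
    · by_cases hx : x = v
      · rw [hx, dg_pend_self b1 hva]; exact hd v
      by_cases hx' : x = a
      · rw [hx', dg_pend_att b1 hva]; omega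
      · rw [dg_pend_ne hx hx']; exact hle x

end Pool.Agent.MP_e633d5_co

end

-- part MP_e633d5_co.Main
section

/-! The size of a reduced core, and the finite basis theorem. -/

namespace Pool.Agent.MP_e633d5_co

open SimpleGraph Finset

variable {V W : Type}

theorem finite_cycleSets [Finite V] (G : SimpleGraph V) : (cycleSets G).Finite := Set.toFinite _

theorem sum_dg [Fintype V] (G : SimpleGraph V) : ∑ v, dg G v = 2 * G.edgeSet.ncard := by
  classical
  simp only [dg_eq_degree]
  rw [sum_degrees_eq_twice_card_edges, ← Set.ncard_coe_finset, coe_edgeFinset]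

/-- The cyclomatic number is at most the number of cycles. -/
theorem edges_le [Fintype V] {G : SimpleGraph V} (h : G.Connected) :
    G.edgeSet.ncard + 1 ≤ Fintype.card V + cyc G := by
  classical
  obtain ⟨T, hT, hT'⟩ := h.exists_isTree_le
  have h1 : T.edgeSet.ncard + 1 = Fintype.card V := by
    rw [← hT'.card_edgeFinset, ← Set.ncard_coe_finset, coe_edgeFinset]
  have h2 : ∀ e ∈ G.edgeSet \ T.edgeSet, ∃ s ∈ cycleSets G, e ∈ s ∧ s ⊆ insert e T.edgeSet := by
    intro e he
    induction e using Sym2.ind with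
    | _ x y =>
    obtain ⟨p, hp⟩ := hT'.connected.exists_isPath y x
    have hxy : G.Adj x y := he.1
    refine ⟨_, ⟨x, (p.mapLe hT).cons hxy, ?_, rfl⟩, by simp, fun f hf => ?_⟩
    · rw [Walk.cons_isCycle_iff, Walk.edges_mapLe_eq_edges]
      exact ⟨hp.mapLe _, fun h' => he.2 (p.edges_subset_edgeSet h')⟩
    · simp only [Walk.edges_cons, Walk.edges_mapLe_eq_edges, List.mem_cons,
        Set.mem_ofPred_eq] at hf
      exact hf.imp id fun h' => p.edges_subset_edgeSet h'
  choose! φ a1 a2 a3 using h2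
  have h3 : (G.edgeSet \ T.edgeSet).ncard ≤ cyc G :=
    Set.ncard_le_ncard_of_injOn φ a1 (fun e he e' he' hee => by
      rcases a3 e' he' (hee ▸ a2 e he) with h4 | h4
      · exact h4
      · exact absurd h4 he.2) (finite_cycleSets G)
  have h4 := Set.ncard_sdiff_add_ncard_of_subset (edgeSet_mono hT)
  omega

theorem nbr_of_two [Finite V] {G : SimpleGraph V} {v a b : V} (h : dg G v = 2) (hab : a ≠ b)
    (ha : G.Adj v a) (hb : G.Adj v b) (w : V) (hw : G.Adj v w) : w = a ∨ w = b := by
  have : ({a, b} : Set V) = G.neighborSet v := Set.eq_of_subset_of_ncard_le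
    (by rintro x (rfl | rfl) <;> assumption) (by rw [Set.ncard_pair hab]; exact h.le)
  exact (Set.ext_iff.1 this w).2 hw

theorem card_core_le [Fintype V] {G : SimpleGraph V} (h : G.Connected) (h0 : 0 < cyc G)
    (h2 : ∀ v, 2 ≤ dg G v) (hr : ∀ v a b, a ≠ b → G.neighborSet v = {a, b} → G.Adj a b) :
    Fintype.card V + 1 ≤ 4 * cyc G := by
  classical
  by_cases h3 : Fintype.card V ≤ 3
  · omega
  have a0 : ∀ v, dg G v = 2 → ∃ s ∈ cycleSets G, ∃ a b, G.Adj v a ∧ G.Adj a b ∧ G.Adj b v ∧
      s = {s(v, a), s(a, b), s(b, v)} := by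
    intro v hv
    obtain ⟨a, b, hab, hN⟩ := Set.ncard_eq_two.1 hv
    have ha : G.Adj v a := (Set.ext_iff.1 hN a).2 (by simp)
    have hb : G.Adj v b := (Set.ext_iff.1 hN b).2 (by simp)
    have hab' := hr v a b hab hN
    refine ⟨_, ⟨v, .cons ha (.cons hab' (.cons hb.symm .nil)), ?_, rfl⟩, a, b, ha, hab', hb.symm,
      ?_⟩
    · have := ha.ne
      have := hb.ne
      simp [Walk.isCycle_def, Walk.isTrail_def]
      grind
    · ext e; simp
  choose! φ a1 a2 using a0
  have a3 : (univ.filter fun v => dg G v = 2).card ≤ 2 * (finite_cycleSets G).toFinset.card := by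
    refine card_le_mul_card_image_of_maps_to (f := φ) (fun v hv => ?_) 2 fun s _ => ?_
    · simpa using a1 v (mem_filter.1 hv).2
    by_contra hlt
    obtain ⟨v, hv⟩ := card_pos.1 (lt_trans two_pos (not_le.1 hlt))
    simp only [mem_filter, mem_univ, true_and] at hv
    obtain ⟨a, b, b1, b2, b3, b4⟩ := a2 v hv.1
    have b5 : ((univ.filter fun v => dg G v = 2).filter fun v => φ v = s) ⊆ {v, a, b} := by
      intro w hw
      simp only [mem_filter, mem_univ, true_and] at hw
      obtain ⟨a', b', -, -, -, c4⟩ := a2 w hw.1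
      have : s(w, a') ∈ φ v := by rw [hv.2, ← hw.2, c4]; simp
      rw [b4] at this
      simp only [Set.mem_insert_iff, Set.mem_singleton_iff, Sym2.eq_iff] at this
      simp only [mem_insert, mem_singleton]
      tauto
    have b6 := eq_of_subset_of_card_le b5 (card_le_three.trans (by omega))
    have b7 : dg G a = 2 := (mem_filter.1 (mem_filter.1 (b6.ge (by simp))).1).2
    have b8 : dg G b = 2 := (mem_filter.1 (mem_filter.1 (b6.ge (by simp))).1).2
    have key : ∀ {x y} (q : G.Walk x y), x ∈ ({v, a, b} : Finset V) →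
        y ∈ ({v, a, b} : Finset V) := by
      intro x y q
      induction q with
      | nil => exact id
      | cons h' _ ih =>
        intro hx
        refine ih ?_
        simp only [mem_insert, mem_singleton] at hx ⊢
        rcases hx with rfl | rfl | rfl
        · have := nbr_of_two hv.1 b2.ne b1 b3.symm _ h'; tauto
        · have := nbr_of_two b7 b3.ne b2 b1.symm _ h'; tauto
        · have := nbr_of_two b8 b1.ne b3 b2.symm _ h'; tauto
    refine h3 (le_trans (card_le_card (t := {v, a, b}) fun w _ => ?_) card_le_three)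
    obtain ⟨q⟩ := h v w
    exact key q (by simp)
  rw [← Set.ncard_eq_toFinset_card] at a3
  have a4 : ∑ _v : V, 3 ≤ ∑ v, (dg G v + if dg G v = 2 then 1 else 0) := sum_le_sum fun v _ => by
    have := h2 v
    split_ifs <;> omega
  rw [sum_add_distrib, sum_dg, ← card_filter, sum_const, card_univ, smul_eq_mul] at a4
  have a5 := edges_le h
  rw [cyc] at *
  omega

theorem ex_map [Fintype V] [Fintype W] (e : V ↪ W) (G : SimpleGraph V) : ex (G.map e) = ex G := by
  classical
  rw [ex, ex, ← sum_subset (subset_univ (univ.map e)), sum_map]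
  · simp only [dg_map]
  · intro w _ hw
    rw [dg_map_of_notMem e G (by simpa using hw)]; simp

theorem connS_map [Finite V] [Finite W] (e : V ↪ W) (G : SimpleGraph V) :
    ConnS (G.map e) ↔ ConnS G := by
  constructor
  · intro h x y hx hy
    have : Nonempty V := ⟨x⟩
    obtain ⟨q⟩ := h (e x) (e y) (by rwa [dg_map]) (by rwa [dg_map])
    have key : ∀ {s t} (q : (G.map e).Walk s t), G.Reachable (Function.invFun e s)
        (Function.invFun e t) := by
      intro s t q
      induction q with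
      | nil => rfl
      | cons h' _ ih =>
        obtain ⟨a, b, hab, rfl, rfl⟩ := (map_adj e G _ _).1 h'
        refine Reachable.trans ?_ ih
        rw [Function.leftInverse_invFun e.injective, Function.leftInverse_invFun e.injective]
        exact hab.reachable
    simpa [Function.leftInverse_invFun e.injective _] using key q
  · intro h x y hx hy
    by_cases hx' : x ∈ Set.range e
    · by_cases hy' : y ∈ Set.range e
      · obtain ⟨x, rfl⟩ := hx'
        obtain ⟨y, rfl⟩ := hy'
        rw [dg_map] at hx hy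
        exact (h x y hx hy).map (Embedding.map e G).toHom
      · rw [dg_map_of_notMem e G hy'] at hy; omega
    · rw [dg_map_of_notMem e G hx'] at hx; omega

theorem dg_pos_of_connected [Finite V] {G : SimpleGraph V} (h : G.Connected) (h0 : 0 < cyc G)
    (v : V) : 0 < dg G v := by
  obtain ⟨w, hw⟩ := exists_two_le_dg h0
  obtain ⟨q⟩ := h v w
  cases q with
  | nil => omega
  | cons h' _ => exact dg_pos h'

theorem ex_eq [Fintype V] {G : SimpleGraph V} (h : ∀ v, 0 < dg G v) :
    ex G = ∑ v, (dg G v : ℤ) - 2 * Fintype.card V := by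
  simp [ex, (h _).ne', sum_sub_distrib, mul_comm]

theorem le_of_antitone {p q : ℕ} (hq : q ≤ p) {d : Fin p → ℕ} (hd : Antitone d) {h : Fin q → ℕ}
    (hh : Antitone h) (e : Fin q ↪ Fin p) (hle : ∀ i, h i ≤ d (e i)) (i : Fin q) :
    h i ≤ d (Fin.castLE hq i) := by
  by_contra hlt
  have : (Iic i).card ≤ (Iio (Fin.castLE hq i)).card := by
    refine card_le_card_of_injOn e (fun j hj => ?_) e.injective.injOn
    rw [mem_coe, mem_Iio]
    by_contra h1
    exact hlt ((hh (mem_Iic.1 hj)).trans ((hle j).trans (hd (not_lt.1 h1))))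
  simp at this

theorem main {k p : ℕ} (hk : 1 ≤ k) (d : Fin p → ℕ) (hd : Antitone d) :
    (∃ G : SimpleGraph (Fin p), KCyclic G k ∧ ∀ i, dg G i = d i) ↔
    (∀ i, 1 ≤ d i) ∧ ∃ (q : ℕ) (hq : q ≤ p), q + 1 ≤ 4 * k ∧ ∃ H : SimpleGraph (Fin q), Core H k ∧
      (∀ i, dg H i ≤ d (Fin.castLE hq i)) ∧ ∑ i, d i + 2 * q = ∑ i, dg H i + 2 * p := by
  classical
  constructor
  · rintro ⟨G, ⟨hc, hG⟩, hdg⟩
    have h0 : 0 < cyc G := by rw [cyc]; omega
    have h1 := dg_pos_of_connected hc h0
    refine ⟨fun i => hdg i ▸ h1 i, ?_⟩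
    obtain ⟨H, a1, a2, a3, a4, a5, a6⟩ := exists_core _ G le_rfl (fun x y _ _ => hc x y) h0
    set S := univ.filter fun v => 0 < dg H v with hS
    set e₀ := (S.orderEmbOfFin rfl).toEmbedding with he₀
    set σ := Tuple.sort fun i => OrderDual.toDual (dg H (e₀ i)) with hσ
    set e := σ.toEmbedding.trans e₀ with he
    have b1 : ∀ x, x ∈ Set.range e ↔ 0 < dg H x := by
      intro x
      have : Set.range e = Set.range e₀ := σ.surjective.range_comp e₀
      rw [this]
      have h3 : Set.range e₀ = S := range_orderEmbOfFin S rfl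
      rw [h3, mem_coe, hS, mem_filter]; simp
    have b2 : (H.comap e).map e = H := map_comap_eq e fun x y hxy => (b1 x).2 (dg_pos hxy)
    have b3 : ∀ i, dg (H.comap e) i = dg H (e i) := fun i => by rw [← dg_map e, b2]
    have b4 : ∀ i, 0 < dg (H.comap e) i := fun i => b3 i ▸ (b1 _).1 ⟨i, rfl⟩
    have b5 : cyc (H.comap e) = k := by rw [← cyc_map e, b2, a2]; exact hG
    have b6 : (H.comap e).Connected := by
      obtain ⟨w, -⟩ := exists_two_le_dg (show 0 < cyc (H.comap e) by omega)
      have : Nonempty (Fin S.card) := ⟨w⟩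
      exact ⟨fun x y => (connS_map e _).1 (b2.symm ▸ a1) x y (b4 x) (b4 y)⟩
    have b7 : ∀ i, 2 ≤ dg (H.comap e) i := fun i => by
      have := b4 i
      have := a5 (e i)
      rw [b3] at *
      omega
    have b8 : ∀ v a b, a ≠ b → (H.comap e).neighborSet v = {a, b} → (H.comap e).Adj a b := by
      intro v a b hab hN
      refine a6 (e v) (e a) (e b) (e.injective.ne hab) ?_
      ext w
      constructor
      · intro hw
        obtain ⟨u, rfl⟩ := (b1 w).2 (dg_pos (Adj.symm hw))
        rcases (Set.ext_iff.1 hN u).1 hw with rfl | rfl <;> simp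
      · rintro (rfl | rfl)
        · exact (Set.ext_iff.1 hN a).2 (by simp)
        · exact (Set.ext_iff.1 hN b).2 (by simp)
    have b9 : Antitone (dg (H.comap e)) := fun i j hij => by
      rw [b3, b3]
      exact Tuple.monotone_sort (fun i => OrderDual.toDual (dg H (e₀ i))) hij
    have hq : S.card ≤ p := by simpa using card_le_univ S
    refine ⟨S.card, hq, ?_, H.comap e, ⟨⟨b6, b5⟩, b7, b8, b9⟩,
      le_of_antitone hq hd b9 e fun i => ?_, ?_⟩
    · simpa [b5] using card_core_le b6 (by omega) b7 b8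
    · rw [b3, ← hdg]; exact a4 _
    · rw [← b2, ex_map, ex_eq b4, ex_eq h1] at a3
      simp only [hdg, Fintype.card_fin] at a3
      zify
      linarith
  · rintro ⟨h1, q, hq, -, H, ⟨⟨hc, hH⟩, h2, -, -⟩, hle, hs⟩
    have h0 : 0 < cyc H := by rw [cyc]; omega
    have h3 : ∀ v, 0 < dg H v := fun v => by have := h2 v; omega
    have c1 : H.map (Fin.castLEEmb hq) ≠ ⊥ := fun h => by
      obtain ⟨w, hw⟩ := exists_two_le_dg h0
      rw [← dg_map (Fin.castLEEmb hq), h, dg_eq_zero.2 (by simp)] at hw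
      omega
    have c2 : ∀ v, dg (H.map (Fin.castLEEmb hq)) v ≤ d v := fun v => by
      by_cases hv : v ∈ Set.range (Fin.castLEEmb hq)
      · obtain ⟨i, rfl⟩ := hv
        rw [dg_map]; exact hle i
      · rw [dg_map_of_notMem _ _ hv]; omega
    have c3 : ∑ v, ((d v : ℤ) - 2) = ex (H.map (Fin.castLEEmb hq)) := by
      rw [ex_map, ex_eq h3, sum_sub_distrib]
      zify at hs
      simp only [Fintype.card_fin, sum_const, card_univ, nsmul_eq_mul]
      linarith
    obtain ⟨G, a1, a2, a3⟩ := exists_extend d h1 _ (H.map (Fin.castLEEmb hq)) rfl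
      ((connS_map _ _).2 fun x y _ _ => hc x y) c1 c2 c3
    exact ⟨G, ⟨a1, by rw [cyc_map] at a2; exact a2.trans hH⟩, a3⟩

end Pool.Agent.MP_e633d5_co

end
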