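import Mathlib
import Pool.Agent.MP_e633d5_co.Mg.Main

-- part MP_e633d5_co.Overlap
section

/-! Fundamental cycles of a spanning tree and their overlaps. -/

namespace Pool.Agent.MP_e633d5_co

open SimpleGraph Finset
open scoped symmDiff

variable {V : Type}

/-- `H` is the graph of a cycle. -/
def Circ (H : SimpleGraph V) : Prop := Minimal (· ∈ NL (⊤ : SimpleGraph V)) H

/-- All degrees are even. -/
def Ev (H : SimpleGraph V) : Prop := ∀ v, Even (dg H v)

theorem minimal_iff {G H : SimpleGraph V} : Minimal (· ∈ NL G) H ↔ H ≤ G ∧ Circ H :=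
  ⟨fun h => ⟨h.prop.1, ⟨le_top, h.prop.2⟩, fun _ hK hle =>
      h.le_of_le ⟨hle.trans h.prop.1, hK.2⟩ hle⟩,
    fun h => ⟨⟨h.1, h.2.prop.2⟩, fun _ hK hle => h.2.le_of_le ⟨le_top, hK.2⟩ hle⟩⟩

theorem cyc_eq' [Finite V] (G : SimpleGraph V) : cyc G = {H | H ≤ G ∧ Circ H}.ncard := by
  simp only [cyc_eq, minimal_iff]

theorem Circ.ne_bot {H : SimpleGraph V} (h : Circ H) : H ≠ ⊥ := h.prop.2.1

theorem Circ.dg_eq [Finite V] {H : SimpleGraph V} (h : Circ H) (v : V) :
    dg H v = 0 ∨ dg H v = 2 := by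
  obtain ⟨u, c, hc, rfl⟩ := exists_wg_of_minimal h
  by_cases h0 : dg (wg c) v = 0
  · exact Or.inl h0
  · exact Or.inr (hc.isCycles_spanningCoe_toSubgraph (Set.nonempty_of_ncard_ne_zero h0))

theorem Circ.ev [Finite V] {H : SimpleGraph V} (h : Circ H) : Ev H := fun v => by
  rcases h.dg_eq v with h1 | h1 <;> simp [h1]

theorem Ev.ne_one {H : SimpleGraph V} (h : Ev H) (v : V) : dg H v ≠ 1 := fun h1 => by
  have := h v
  rw [h1] at this
  exact absurd this (by decide)

theorem Circ.eq_of_le {H K : SimpleGraph V} (h : Circ H) (hK : K ≤ H) (h0 : K ≠ ⊥)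
    (h1 : ∀ v, dg K v ≠ 1) : K = H := le_antisymm hK (h.le_of_le ⟨le_top, h0, h1⟩ hK)

theorem exists_circ_le [Finite V] {K : SimpleGraph V} (h0 : K ≠ ⊥) (h1 : ∀ v, dg K v ≠ 1) :
    ∃ H ≤ K, Circ H := by
  have h2 := not_isAcyclic h0 h1
  simp only [IsAcyclic, not_forall, not_not] at h2
  obtain ⟨v, c, hc⟩ := h2
  exact ⟨wg c, minimal_iff.1 (wg_minimal hc)⟩

theorem dg_sup_add [Finite V] (H K : SimpleGraph V) (v : V) :
    dg (H ⊔ K) v + dg (H ⊓ K) v = dg H v + dg K v :=
  Set.ncard_union_add_ncard_inter (H.neighborSet v) (K.neighborSet v)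

theorem dg_bot [Finite V] (v : V) : dg (⊥ : SimpleGraph V) v = 0 := dg_eq_zero.2 (by simp)

theorem dg_sup_of_disjoint [Finite V] {H K : SimpleGraph V} (h : Disjoint H K) (v : V) :
    dg (H ⊔ K) v = dg H v + dg K v := by
  rw [← dg_sup_add, h.eq_bot, dg_bot, add_zero]

theorem Ev.symmDiff [Finite V] {H K : SimpleGraph V} (h : Ev H) (h' : Ev K) : Ev (H ∆ K) := by
  intro v
  have h1 := dg_sup_of_disjoint (disjoint_symmDiff_inf H K) v
  rw [symmDiff_sup_inf] at h1
  have h2 := dg_sup_add H K v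
  obtain ⟨a, ha⟩ := h v
  obtain ⟨b, hb⟩ := h' v
  exact ⟨a + b - dg (H ⊓ K) v, by omega⟩

theorem symmDiff_adj (H K : SimpleGraph V) (x y : V) :
    (H ∆ K).Adj x y ↔ (H.Adj x y ∧ ¬K.Adj x y) ∨ (K.Adj x y ∧ ¬H.Adj x y) := by
  simp [symmDiff_def]

theorem three_le_support [Fintype V] {H : SimpleGraph V} (h0 : H ≠ ⊥) (h1 : ∀ v, dg H v ≠ 1) :
    3 ≤ (univ.filter fun v => 0 < dg H v).card := by
  classical
  obtain ⟨x, y, hxy⟩ := ne_bot_iff_exists_adj.1 h0
  have h2 : 1 < (H.neighborSet x).ncard := by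
    have := dg_pos hxy
    have := h1 x
    rw [dg] at *
    omega
  obtain ⟨z, hz, hzy⟩ := (H.neighborSet x).exists_ne_of_one_lt_ncard h2 y
  exact two_lt_card_iff.2 ⟨x, y, z, by simpa using dg_pos hxy, by simpa using dg_pos hxy.symm,
    by simpa using dg_pos (Adj.symm hz), hxy.ne, Adj.ne hz, hzy.symm⟩

theorem Circ.eq_of_support_le_three [Fintype V] {H K : SimpleGraph V} (h : Circ H) (h' : Circ K)
    (hs : (univ.filter fun v => 0 < dg (H ⊔ K) v).card ≤ 3) : H = K := by
  classical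
  have key : ∀ {H K : SimpleGraph V}, Circ H → Circ K →
      (univ.filter fun v => 0 < dg (H ⊔ K) v).card ≤ 3 → K ≤ H := by
    intro H K h h' hs x y hxy
    have a1 : (univ.filter fun v => 0 < dg H v) = univ.filter fun v => 0 < dg (H ⊔ K) v :=
      eq_of_subset_of_card_le (fun v hv => by
        simp only [mem_filter, mem_univ, true_and] at hv ⊢
        exact hv.trans_le (dg_mono le_sup_left v)) (hs.trans (three_le_support h.ne_bot h.ev.ne_one))
    have a2 : ∀ v, 0 < dg (H ⊔ K) v → 0 < dg H v := fun v hv => by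
      simpa using a1.ge (mem_filter.2 ⟨mem_univ v, hv⟩)
    have a3 : dg H x = 2 := by
      have := a2 x (dg_pos (Or.inr hxy))
      have := h.dg_eq x
      omega
    have a4 : H.neighborSet x = ↑((univ.filter fun v => 0 < dg (H ⊔ K) v).erase x) := by
      refine Set.eq_of_subset_of_ncard_le (fun w hw => ?_) ?_
      · simp only [coe_erase, coe_filter, mem_univ, true_and, Set.mem_sdiff, Set.mem_ofPred_eq,
          Set.mem_singleton_iff]
        exact ⟨dg_pos (Or.inl (Adj.symm hw)), (Adj.ne hw).symm⟩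
      · rw [Set.ncard_coe_finset, card_erase_of_mem (by simpa using dg_pos (Or.inr hxy))]
        rw [dg] at a3
        omega
    refine (Set.ext_iff.1 a4 y).2 ?_
    simp only [coe_erase, coe_filter, mem_univ, true_and, Set.mem_sdiff, Set.mem_ofPred_eq,
      Set.mem_singleton_iff]
    exact ⟨dg_pos (Or.inr hxy.symm), hxy.ne.symm⟩
  exact le_antisymm (key h' h (by rwa [sup_comm])) (key h h' hs)

/-- Two distinct cycles with a common edge have two branch vertices. -/
theorem Circ.exists_branch [Fintype V] {H K : SimpleGraph V} (h : Circ H) (h' : Circ K)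
    (hne : H ≠ K) (hd : ¬Disjoint H K) : ∃ x y, x ≠ y ∧ dg (H ⊔ K) x = 3 ∧ dg (H ⊔ K) y = 3 := by
  classical
  have a0 : H ⊓ K ≠ ⊥ := fun h0 => hd (disjoint_iff.2 h0)
  have a1 : ∀ v, dg (H ⊓ K) v = 1 → dg (H ⊔ K) v = 3 := fun v hv => by
    have := dg_sup_add H K v
    have := h.dg_eq v
    have := h'.dg_eq v
    have := dg_mono (inf_le_left : H ⊓ K ≤ H) v
    have := dg_mono (inf_le_right : H ⊓ K ≤ K) v
    omega
  obtain ⟨x, hx⟩ : ∃ x, dg (H ⊓ K) x = 1 := by
    by_contra hn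
    push Not at hn
    exact hne ((h.eq_of_le inf_le_left a0 hn).symm.trans (h'.eq_of_le inf_le_right a0 hn))
  obtain ⟨y, hyx, hy⟩ : ∃ y, y ≠ x ∧ dg (H ⊓ K) y = 1 := by
    by_contra hn
    push Not at hn
    have b1 := sum_dg (H ⊓ K)
    rw [← add_sum_erase _ _ (mem_univ x), hx] at b1
    have b2 : 2 ∣ ∑ v ∈ univ.erase x, dg (H ⊓ K) v := dvd_sum fun v hv => by
      have := hn v (mem_erase.1 hv).1
      have := h.dg_eq v
      have := dg_mono (inf_le_left : H ⊓ K ≤ H) v
      omega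
    omega
  exact ⟨x, y, hyx.symm, a1 x hx, a1 y hy⟩

theorem forest_le [Fintype V] {F : SimpleGraph V} (h : F.IsAcyclic) (S : Finset V)
    (hS : S.Nonempty) (hF : ∀ x y, F.Adj x y → x ∈ S) : F.edgeSet.ncard + 1 ≤ S.card := by
  classical
  set e := Function.Embedding.subtype (· ∈ S)
  have h1 : (F.comap e).map e = F := map_comap_eq e fun x y hxy => ⟨⟨x, hF x y hxy⟩, rfl⟩
  have : Nonempty {x // x ∈ S} := hS.to_subtype
  obtain ⟨T, hT, -, hT'⟩ := (connected_top (V := {x // x ∈ S})).exists_isTree_le_of_le_of_isAcyclic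
    le_top (h.of_comap e)
  have h2 : T.edgeSet.ncard + 1 = S.card := by
    rw [← Fintype.card_coe S, ← hT'.card_edgeFinset, ← Set.ncard_coe_finset, coe_edgeFinset]
  have h3 := Set.ncard_le_ncard (edgeSet_mono hT)
  have h4 : F.edgeSet.ncard = (F.comap e).edgeSet.ncard := by
    conv_lhs => rw [← h1, edgeSet_map]
    exact Set.ncard_image_of_injective _ e.sym2Map.injective
  omega

/-- A spanning tree together with its fundamental cycles. -/
structure Fund (G : SimpleGraph V) where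
  T : SimpleGraph V
  le : T ≤ G
  tree : T.IsTree
  C : Sym2 V → SimpleGraph V
  circ : ∀ e ∈ G.edgeSet \ T.edgeSet, Circ (C e)
  C_le : ∀ e ∈ G.edgeSet \ T.edgeSet, C e ≤ G
  mem : ∀ e ∈ G.edgeSet \ T.edgeSet, e ∈ (C e).edgeSet
  sub : ∀ e ∈ G.edgeSet \ T.edgeSet, (C e).edgeSet ⊆ insert e T.edgeSet

theorem exists_fund [Finite V] {G : SimpleGraph V} (h : G.Connected) : Nonempty (Fund G) := by
  obtain ⟨T, hT, hT'⟩ := h.exists_isTree_le
  have h2 : ∀ e ∈ G.edgeSet \ T.edgeSet, ∃ H, Circ H ∧ H ≤ G ∧ e ∈ H.edgeSet ∧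
      H.edgeSet ⊆ insert e T.edgeSet := by
    intro e he
    induction e using Sym2.ind with
    | _ x y =>
    obtain ⟨p, hp⟩ := hT'.connected.exists_isPath y x
    have hxy : G.Adj x y := he.1
    have hc : ((p.mapLe hT).cons hxy).IsCycle := by
      rw [Walk.cons_isCycle_iff, Walk.edges_mapLe_eq_edges]
      exact ⟨hp.mapLe _, fun h' => he.2 (p.edges_subset_edgeSet h')⟩
    refine ⟨wg _, (minimal_iff.1 (wg_minimal hc)).2, wg_le _, by simp [wg_edgeSet], fun f hf => ?_⟩
    simp only [wg_edgeSet, Walk.edges_cons, Walk.edges_mapLe_eq_edges, List.mem_cons,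
      Set.mem_ofPred_eq] at hf
    exact hf.imp id fun h' => p.edges_subset_edgeSet h'
  choose! C a1 a2 a3 a4 using h2
  exact ⟨⟨T, hT, hT', C, a1, a2, a3, a4⟩⟩

namespace Fund

set_option linter.unusedSectionVars false

variable [Fintype V] {G : SimpleGraph V} (F : Fund G)

open Classical in
/-- The edges of `H` outside the tree. -/
noncomputable def nt (H : SimpleGraph V) : Finset (Sym2 V) :=
  univ.filter fun e => e ∈ H.edgeSet \ F.T.edgeSet

theorem mem_nt {H : SimpleGraph V} {e : Sym2 V} : e ∈ F.nt H ↔ e ∈ H.edgeSet \ F.T.edgeSet := by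
  simp [nt]

theorem nt_mono {H K : SimpleGraph V} (h : H ≤ K) : F.nt H ⊆ F.nt K := fun e he => by
  rw [mem_nt] at *
  exact ⟨edgeSet_mono h he.1, he.2⟩

theorem card_nt : (F.nt G).card + Fintype.card V = G.edgeSet.ncard + 1 := by
  classical
  have h1 : F.T.edgeSet.ncard + 1 = Fintype.card V := by
    rw [← F.tree.card_edgeFinset, ← Set.ncard_coe_finset, coe_edgeFinset]
  have h2 := Set.ncard_sdiff_add_ncard_of_subset (edgeSet_mono F.le)
  have h3 : (F.nt G : Set (Sym2 V)) = G.edgeSet \ F.T.edgeSet := Set.ext fun e => F.mem_nt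
  rw [← h3, Set.ncard_coe_finset] at h2
  omega

open Classical in
/-- The sum of the fundamental cycles of the edges of `S`. -/
noncomputable def Z (S : Finset (Sym2 V)) : SimpleGraph V where
  Adj x y := Odd (S.filter fun e => (F.C e).Adj x y).card
  symm := ⟨fun x y h => by simpa only [adj_comm] using h⟩
  loopless := ⟨fun x h => by simp at h⟩

theorem Z_empty : F.Z ∅ = ⊥ := by ext x y; simp [Z]

theorem Z_insert [DecidableEq (Sym2 V)] {S : Finset (Sym2 V)} {e : Sym2 V} (h : e ∉ S) :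
    F.Z (insert e S) = F.C e ∆ F.Z S := by
  ext x y
  rw [symmDiff_adj]
  simp only [Z, filter_insert]
  split_ifs with h1
  · rw [card_insert_of_notMem (by simp [h]), Nat.odd_add_one]; simp [h1]
  · simp [h1]

theorem Z_singleton (e : Sym2 V) : F.Z {e} = F.C e := by
  classical
  simpa [Z_empty] using F.Z_insert (S := ∅) (e := e) (by simp)

theorem exists_of_Z_adj {S : Finset (Sym2 V)} {x y : V} (h : (F.Z S).Adj x y) :
    ∃ e ∈ S, (F.C e).Adj x y := by
  classical
  obtain ⟨e, he⟩ := card_pos.1 (Odd.pos h)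
  exact ⟨e, mem_filter.1 he⟩

theorem Z_ev {S : Finset (Sym2 V)} (h : S ⊆ F.nt G) : Ev (F.Z S) := by
  classical
  induction S using Finset.induction_on with
  | empty => intro v; simp [Z_empty, dg_bot]
  | insert e S he ih =>
    rw [F.Z_insert he]
    exact (F.circ e (F.mem_nt.1 (h (mem_insert_self _ _)))).ev.symmDiff
      (ih ((subset_insert _ _).trans h))

theorem nt_Z {S : Finset (Sym2 V)} (h : S ⊆ F.nt G) : F.nt (F.Z S) = S := by
  classical
  ext f
  induction f using Sym2.ind with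
  | _ x y =>
  rw [mem_nt]
  have key : s(x, y) ∉ F.T.edgeSet → ∀ e ∈ S, ((F.C e).Adj x y ↔ e = s(x, y)) := by
    intro hT e he
    refine ⟨fun h1 => ?_, fun h1 => ?_⟩
    · exact ((F.sub e (F.mem_nt.1 (h he)) (show s(x, y) ∈ _ from h1)).resolve_right hT).symm
    · have := F.mem e (F.mem_nt.1 (h he))
      rwa [← mem_edgeSet, ← h1]
  constructor
  · rintro ⟨h1, h2⟩
    obtain ⟨e, he, h3⟩ := F.exists_of_Z_adj h1
    exact (key h2 e he).1 h3 ▸ he
  · intro h1
    have h2 := (F.mem_nt.1 (h h1)).2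
    refine ⟨?_, h2⟩
    change Odd _
    rw [filter_congr (key h2), filter_eq' S, if_pos h1]
    simp

theorem eq_bot_of_nt {H : SimpleGraph V} (h : ∀ v, dg H v ≠ 1) (h0 : F.nt H = ∅) : H = ⊥ := by
  by_contra hne
  refine not_isAcyclic hne h (F.tree.isAcyclic.anti fun x y hxy => ?_)
  by_contra hT
  exact notMem_empty s(x, y) (h0 ▸ F.mem_nt.2 ⟨hxy, hT⟩)

theorem eq_Z {H : SimpleGraph V} (h : Ev H) (hG : H ≤ G) : H = F.Z (F.nt H) := by
  rw [← symmDiff_eq_bot]
  refine F.eq_bot_of_nt (h.symmDiff (F.Z_ev (F.nt_mono hG))).ne_one ?_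
  refine eq_empty_of_forall_notMem fun e he => ?_
  induction e using Sym2.ind with
  | _ x y =>
  have h1 := Finset.ext_iff.1 (F.nt_Z (F.nt_mono hG)) s(x, y)
  rw [mem_nt] at he
  rw [mem_nt, mem_nt] at h1
  have h2 := (symmDiff_adj _ _ _ _).1 he.1
  simp only [Set.mem_sdiff, mem_edgeSet] at h1 he
  tauto

open Classical in
/-- The sets of non-tree edges of the cycles of `G`. -/
noncomputable def N : Finset (Finset (Sym2 V)) :=
  univ.filter fun A => ∃ H, H ≤ G ∧ Circ H ∧ F.nt H = A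

theorem mem_N {A : Finset (Sym2 V)} : A ∈ F.N ↔ ∃ H, H ≤ G ∧ Circ H ∧ F.nt H = A := by simp [N]

theorem card_N : F.N.card = cyc G := by
  rw [cyc_eq', ← Set.ncard_coe_finset, ← Set.InjOn.ncard_image (f := F.nt)]
  · congr 1
    ext A
    simp [mem_N, and_assoc]
  · intro H hH K hK h
    rw [F.eq_Z hH.2.ev hH.1, h, ← F.eq_Z hK.2.ev hK.1]

theorem N_subset {A : Finset (Sym2 V)} (h : A ∈ F.N) : A ⊆ F.nt G := by
  obtain ⟨H, h1, -, rfl⟩ := F.mem_N.1 h
  exact F.nt_mono h1

theorem singleton_mem_N {e : Sym2 V} (h : e ∈ F.nt G) : {e} ∈ F.N :=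
  F.mem_N.2 ⟨F.C e, F.C_le e (F.mem_nt.1 h), F.circ e (F.mem_nt.1 h), by
    rw [← F.Z_singleton, F.nt_Z (by simpa using h)]⟩

theorem Z_le {S : Finset (Sym2 V)} (h : S ⊆ F.nt G) : F.Z S ≤ G := fun x y hxy => by
  obtain ⟨e, he, h1⟩ := F.exists_of_Z_adj hxy
  exact F.C_le e (F.mem_nt.1 (h he)) h1

theorem exists_N_subset {S : Finset (Sym2 V)} (h : S ⊆ F.nt G) (h0 : S.Nonempty) :
    ∃ A ∈ F.N, A.Nonempty ∧ A ⊆ S ∧ F.Z A ≤ F.Z S := by
  obtain ⟨H, h1, h2⟩ := exists_circ_le (K := F.Z S) (fun hb => by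
    have := F.nt_Z h
    rw [hb, ← F.Z_empty, F.nt_Z (empty_subset _)] at this
    exact h0.ne_empty this.symm) (F.Z_ev h).ne_one
  refine ⟨F.nt H, F.mem_N.2 ⟨H, h1.trans (F.Z_le h), h2, rfl⟩, ?_, F.nt_Z h ▸ F.nt_mono h1, ?_⟩
  · exact nonempty_iff_ne_empty.2 fun h3 => h2.ne_bot (F.eq_bot_of_nt h2.ev.ne_one h3)
  · rw [← F.eq_Z h2.ev (h1.trans (F.Z_le h))]; exact h1

/-- The fundamental cycles of `e` and `f` are distinct and share an edge. -/
def Ov (e f : Sym2 V) : Prop := e ≠ f ∧ ∃ x y, (F.C e).Adj x y ∧ (F.C f).Adj x y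

theorem Ov.symm {e f : Sym2 V} (h : F.Ov e f) : F.Ov f e :=
  ⟨h.1.symm, let ⟨x, y, h1, h2⟩ := h.2; ⟨x, y, h2, h1⟩⟩

theorem pair_mem_N [DecidableEq (Sym2 V)] {e f : Sym2 V} (he : e ∈ F.nt G) (hf : f ∈ F.nt G)
    (h : F.Ov e f) : {e, f} ∈ F.N := by
  obtain ⟨A, a1, a2, a3, a4⟩ := F.exists_N_subset (S := {e, f})
    (insert_subset he (singleton_subset_iff.2 hf)) (by simp)
  obtain ⟨hne, x, y, h1, h2⟩ := h
  have h3 := @a4 x y
  rw [F.Z_insert (by simpa using hne), Z_singleton, symmDiff_adj] at h3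
  have : A = {e} ∨ A = {f} ∨ A = {e, f} := by
    obtain ⟨z, hz⟩ := a2
    have b1 := fun w => @a3 w
    simp only [mem_insert, mem_singleton] at b1
    by_cases b2 : e ∈ A <;> by_cases b3 : f ∈ A
    · exact Or.inr (Or.inr (subset_antisymm a3 (insert_subset b2 (singleton_subset_iff.2 b3))))
    · exact Or.inl (eq_singleton_iff_unique_mem.2 ⟨b2, by grind⟩)
    · exact Or.inr (Or.inl (eq_singleton_iff_unique_mem.2 ⟨b3, by grind⟩))
    · grind
  rcases this with rfl | rfl | rfl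
  · rw [Z_singleton] at h3; tauto
  · rw [Z_singleton] at h3; tauto
  · exact a1

theorem triple_mem_N [DecidableEq (Sym2 V)] {e f g : Sym2 V} (he : e ∈ F.nt G) (hf : f ∈ F.nt G)
    (hg : g ∈ F.nt G) (h : F.Ov e f) (h' : F.Ov f g) (hne : e ≠ g) (hn : ¬F.Ov e g) :
    {e, f, g} ∈ F.N := by
  obtain ⟨A, a1, a2, a3, a4⟩ := F.exists_N_subset (S := {e, f, g})
    (insert_subset he (insert_subset hf (singleton_subset_iff.2 hg))) (by simp)
  obtain ⟨hef, x, y, h1, h2⟩ := h
  obtain ⟨hfg, u, v, h4, h5⟩ := h'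
  have h6 : ¬(F.C g).Adj x y := fun h => hn ⟨hne, x, y, h1, h⟩
  have h7 : ¬(F.C e).Adj u v := fun h => hn ⟨hne, u, v, h, h5⟩
  have h3 := @a4 x y
  have h8 := @a4 u v
  rw [F.Z_insert (by simp [hef, hne]), F.Z_insert (by simpa using hfg), Z_singleton, symmDiff_adj,
    symmDiff_adj] at h3 h8
  have b1 : ¬(F.Z A).Adj x y := by tauto
  have b2 : ¬(F.Z A).Adj u v := by tauto
  have b3 : e ∈ A ↔ f ∈ A := by
    by_contra hc
    refine b1 ?_
    classical
    change Odd _
    by_cases hA : e ∈ A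
    · rw [show A.filter _ = {e} from ?_]
      · simp
      ext z
      have := @a3 z
      simp only [mem_filter, mem_singleton, mem_insert] at this ⊢
      grind
    · rw [show A.filter _ = {f} from ?_]
      · simp
      ext z
      have := @a3 z
      simp only [mem_filter, mem_singleton, mem_insert] at this ⊢
      grind
  have b4 : f ∈ A ↔ g ∈ A := by
    by_contra hc
    refine b2 ?_
    classical
    change Odd _
    by_cases hA : f ∈ A
    · rw [show A.filter _ = {f} from ?_]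
      · simp
      ext z
      have := @a3 z
      simp only [mem_filter, mem_singleton, mem_insert] at this ⊢
      grind
    · rw [show A.filter _ = {g} from ?_]
      · simp
      ext z
      have := @a3 z
      simp only [mem_filter, mem_singleton, mem_insert] at this ⊢
      grind
  rwa [show ({e, f, g} : Finset (Sym2 V)) = A from ?_]
  refine subset_antisymm ?_ a3
  obtain ⟨z, hz⟩ := a2
  have := a3 hz
  intro w hw
  simp only [mem_insert, mem_singleton] at this hw
  grind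

/-- When overlaps form a matching, the cycles are the fundamental ones and the sums of two
overlapping ones. -/
theorem N_of_matching [DecidableEq (Sym2 V)]
    (hm : ∀ e ∈ F.nt G, ∀ f ∈ F.nt G, ∀ g ∈ F.nt G, F.Ov e f → F.Ov f g → e = g)
    {A : Finset (Sym2 V)} (hA : A ∈ F.N) :
    (∃ e ∈ F.nt G, A = {e}) ∨ ∃ e ∈ F.nt G, ∃ f ∈ F.nt G, F.Ov e f ∧ A = {e, f} := by
  classical
  have a0 := F.N_subset hA
  obtain ⟨H, h1, h2, h3⟩ := F.mem_N.1 hA
  obtain ⟨e, he⟩ : A.Nonempty := nonempty_iff_ne_empty.2 fun h4 =>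
    h2.ne_bot (F.eq_bot_of_nt h2.ev.ne_one (h3.trans h4))
  set B := A.filter fun f => f = e ∨ F.Ov e f with hB
  have a1 : B ⊆ F.nt G := (filter_subset _ _).trans a0
  have a2 : F.Z B ≤ H := by
    intro x y hxy
    obtain ⟨b, hb, h4⟩ := F.exists_of_Z_adj hxy
    rw [F.eq_Z h2.ev h1, h3]
    change Odd _ at hxy ⊢
    rwa [show A.filter _ = B.filter fun e => (F.C e).Adj x y from ?_]
    ext z
    simp only [hB, mem_filter] at hb ⊢
    refine ⟨fun hz => ⟨⟨hz.1, ?_⟩, hz.2⟩, fun hz => ⟨hz.1.1, hz.2⟩⟩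
    by_cases hzb : b = z
    · exact hzb ▸ hb.2
    have h5 : F.Ov b z := ⟨hzb, x, y, h4, hz.2⟩
    rcases hb.2 with rfl | h6
    · exact Or.inr h5
    · exact Or.inl (hm e (a0 he) b (a0 hb.1) z (a0 hz.1) h6 h5).symm
  have a3 : F.Z B = H := h2.eq_of_le a2 (fun hb => by
    have := F.nt_Z a1
    rw [hb, ← F.Z_empty, F.nt_Z (empty_subset _)] at this
    exact notMem_empty e (this ▸ mem_filter.2 ⟨he, Or.inl rfl⟩)) (F.Z_ev a1).ne_one
  have a4 : B = A := by rw [← F.nt_Z a1, a3, h3]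
  have a5 : ∀ f ∈ A, f = e ∨ F.Ov e f := fun f hf => (mem_filter.1 (a4.ge hf)).2
  by_cases h4 : ∃ f ∈ A, F.Ov e f
  · obtain ⟨f, hf, h4⟩ := h4
    refine Or.inr ⟨e, a0 he, f, a0 hf, h4, subset_antisymm (fun z hz => ?_)
      (insert_subset he (singleton_subset_iff.2 hf))⟩
    rcases a5 z hz with rfl | h5
    · simp
    · simp [hm f (a0 hf) e (a0 he) z (a0 hz) h4.symm h5]
  · push Not at h4
    exact Or.inl ⟨e, a0 he, eq_singleton_iff_unique_mem.2 ⟨he, fun z hz =>
      (a5 z hz).resolve_right (h4 z hz)⟩⟩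

end Fund

end Pool.Agent.MP_e633d5_co

end

-- part MP_e633d5_co.Necessary
section

/-! Necessary conditions on the degrees in terms of the number of cycles. -/

namespace Pool.Agent.MP_e633d5_co

open SimpleGraph Finset

variable {V : Type}

theorem Circ.six_le [Fintype V] {H : SimpleGraph V} (h : Circ H) :
    3 ≤ H.edgeSet.ncard ∧ 3 ≤ ∑ v, dg H v / 2 := by
  classical
  have h1 := three_le_support h.ne_bot h.ev.ne_one
  rw [card_filter] at h1
  have h2 : ∑ v, (if 0 < dg H v then 1 else 0) = ∑ v, dg H v / 2 := sum_congr rfl fun v _ => by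
    rcases h.dg_eq v with h3 | h3 <;> simp [h3]
  have h3 : 2 * ∑ v, dg H v / 2 ≤ ∑ v, dg H v := by
    rw [mul_sum]; exact sum_le_sum fun v _ => Nat.mul_div_le _ _
  have h4 := sum_dg H
  omega

theorem Circ.theta [Fintype V] {H K : SimpleGraph V} (h : Circ H) (h' : Circ K) (hne : H ≠ K)
    (hd : ¬Disjoint H K) : 5 ≤ (H ⊔ K).edgeSet.ncard ∧ 4 ≤ ∑ v, dg (H ⊔ K) v / 2 := by
  classical
  obtain ⟨x, y, hxy, hx, hy⟩ := h.exists_branch h' hne hd
  have h1 : 4 ≤ (univ.filter fun v => 0 < dg (H ⊔ K) v).card := by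
    by_contra hlt
    exact hne (h.eq_of_support_le_three h' (by omega))
  rw [card_filter] at h1
  have h2 : ∑ v, (if 0 < dg (H ⊔ K) v then 1 else 0) ≤ ∑ v, dg (H ⊔ K) v / 2 :=
    sum_le_sum fun v _ => by
      have := dg_sup_add H K v
      have := h.dg_eq v
      have := h'.dg_eq v
      have := dg_mono (le_sup_left : H ≤ H ⊔ K) v
      have := dg_mono (le_sup_right : K ≤ H ⊔ K) v
      split_ifs <;> omega
  have h3 : ∑ v, (2 * (dg (H ⊔ K) v / 2) + if v ∈ ({x, y} : Finset V) then 1 else 0) ≤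
      ∑ v, dg (H ⊔ K) v := sum_le_sum fun v _ => by
    split_ifs with hv
    · simp only [mem_insert, mem_singleton] at hv
      rcases hv with rfl | rfl <;> omega
    · omega
  rw [sum_add_distrib, ← mul_sum, ← card_filter, filter_univ_mem, card_pair hxy, sum_dg] at h3
  omega

namespace Fund

set_option linter.unusedSectionVars false

variable [Fintype V] {G : SimpleGraph V} (F : Fund G)

theorem edges_eq (H : SimpleGraph V) :
    H.edgeSet.ncard = (H ⊓ F.T).edgeSet.ncard + (F.nt H).card := by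
  have h3 : (F.nt H : Set (Sym2 V)) = H.edgeSet \ F.T.edgeSet := Set.ext fun e => F.mem_nt
  rw [edgeSet_inf, ← Set.ncard_coe_finset, h3, Set.ncard_inter_add_ncard_sdiff_eq_ncard]

open Classical in
/-- The number of cycles using only non-tree edges from `S`. -/
noncomputable def c (S : Finset (Sym2 V)) : ℕ := (F.N.filter (· ⊆ S)).card

theorem c_nt : F.c (F.nt G) = cyc G := by
  classical
  rw [c, filter_true_of_mem fun A hA => F.N_subset hA, card_N]

theorem c_add {S S' : Finset (Sym2 V)} (h : S' ⊆ S) (R : Finset (Finset (Sym2 V)))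
    (hR : ∀ A ∈ R, A ∈ F.N ∧ A ⊆ S ∧ ¬A ⊆ S') : F.c S' + R.card ≤ F.c S := by
  classical
  rw [c, c, ← card_union_of_disjoint]
  · refine card_le_card fun A hA => ?_
    simp only [mem_union, mem_filter] at hA ⊢
    rcases hA with hA | hA
    · exact ⟨hA.1, hA.2.trans h⟩
    · exact ⟨(hR A hA).1, (hR A hA).2.1⟩
  · exact disjoint_left.2 fun A hA hA' => (hR A hA').2.2 (mem_filter.1 hA).2

theorem c_add_le {S : Finset (Sym2 V)} (h : S ⊆ F.nt G) (S' : Finset (Sym2 V)) (h' : S' ⊆ S) :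
    F.c S' + S.card ≤ F.c S + S'.card := by
  classical
  have := F.c_add h' ((S \ S').map ⟨fun e => {e}, singleton_injective⟩) fun A hA => by
    obtain ⟨e, he, rfl⟩ := mem_map.1 hA
    rw [mem_sdiff] at he
    exact ⟨F.singleton_mem_N (h he.1), by simpa using he.1, by simpa using he.2⟩
  rw [card_map] at this
  have := card_sdiff_add_card_eq_card h'
  omega

theorem card_le_c {S : Finset (Sym2 V)} (h : S ⊆ F.nt G) : S.card ≤ F.c S := by
  have := F.c_add_le h ∅ (empty_subset _)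
  rw [card_empty] at this
  omega

theorem C_ne {e f : Sym2 V} (he : e ∈ F.nt G) (hf : f ∈ F.nt G) (h : e ≠ f) : F.C e ≠ F.C f := by
  intro h1
  have h2 := F.nt_Z (S := {e}) (by simpa using he)
  rw [Z_singleton, h1, ← Z_singleton, F.nt_Z (by simpa using hf)] at h2
  exact h (singleton_injective h2).symm

theorem nt_C {e : Sym2 V} (he : e ∈ F.nt G) : F.nt (F.C e) = {e} := by
  rw [← Z_singleton, F.nt_Z (by simpa using he)]

theorem Ov.not_disjoint {e f : Sym2 V} (h : F.Ov e f) : ¬Disjoint (F.C e) (F.C f) := fun hd => by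
  obtain ⟨x, y, h1, h2⟩ := h.2
  exact (hd.eq_bot.le (show (F.C e ⊓ F.C f).Adj x y from ⟨h1, h2⟩) : (⊥ : SimpleGraph V).Adj x y)

theorem disjoint_sup {e : Sym2 V} {S : Finset (Sym2 V)} (he : e ∉ S) (h : ∀ f ∈ S, ¬F.Ov e f) :
    Disjoint (F.C e) (S.sup F.C) := by
  rw [Finset.disjoint_sup_right]
  intro f hf
  rw [disjoint_iff, ← le_bot_iff]
  exact fun x y hxy => h f hf ⟨fun hef => he (hef ▸ hf), x, y, hxy⟩

theorem three_le [DecidableEq (Sym2 V)] {S : Finset (Sym2 V)} (h : S ⊆ F.nt G) {e f g : Sym2 V}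
    (he : e ∈ S) (hf : f ∈ S) (hg : g ∈ S) (h1 : F.Ov e f) (h2 : F.Ov f g) (hne : e ≠ g) :
    F.c (S.erase f) + 3 ≤ F.c S := by
  have hef := h1.1
  have hfg := h2.1
  have := F.c_add (erase_subset f S) {{f}, {e, f}, {f, g}} fun A hA => by
    simp only [mem_insert, mem_singleton] at hA
    rcases hA with rfl | rfl | rfl
    · exact ⟨F.singleton_mem_N (h hf), by simpa, by simp⟩
    · exact ⟨F.pair_mem_N (h he) (h hf) h1, by simp [insert_subset_iff, he, hf],
        by simp [insert_subset_iff]⟩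
    · exact ⟨F.pair_mem_N (h hf) (h hg) h2, by simp [insert_subset_iff, hg, hf],
        by simp [insert_subset_iff]⟩
  rwa [card_eq_three.2 ⟨_, _, _, ?_, ?_, ?_, rfl⟩] at this
  · intro h3; have := Finset.ext_iff.1 h3 e; simp [hef] at this
  · intro h3; have := Finset.ext_iff.1 h3 g; simp [hfg.symm] at this
  · intro h3; have := Finset.ext_iff.1 h3 e; simp [hef, hne] at this

theorem step_disjoint {W U : SimpleGraph V} (h : Disjoint W U) :
    ((W ⊔ U) ⊓ F.T).edgeSet.ncard = (W ⊓ F.T).edgeSet.ncard + (U ⊓ F.T).edgeSet.ncard ∧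
      ∑ v, dg W v / 2 + ∑ v, dg U v / 2 ≤ ∑ v, dg (W ⊔ U) v / 2 := by
  constructor
  · have h1 := sum_dg ((W ⊔ U) ⊓ F.T)
    rw [inf_sup_right] at h1 ⊢
    simp only [dg_sup_of_disjoint (h.mono inf_le_left inf_le_left), sum_add_distrib, sum_dg] at h1
    omega
  · rw [← sum_add_distrib]
    exact sum_le_sum fun v _ => by rw [dg_sup_of_disjoint h]; omega

theorem ineqs (S : Finset (Sym2 V)) : S ⊆ F.nt G →
    3 * S.card ≤ F.c S + (S.sup F.C ⊓ F.T).edgeSet.ncard ∧
      5 * S.card ≤ 2 * F.c S + ∑ v, dg (S.sup F.C) v / 2 := by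
  classical
  induction S using Finset.strongInduction with
  | H S ih =>
  intro h
  rcases S.eq_empty_or_nonempty with rfl | ⟨e, he⟩
  · simp
  by_cases h1 : ∃ e ∈ S, ∃ f ∈ S, ∃ g ∈ S, F.Ov e f ∧ F.Ov f g ∧ e ≠ g
  · obtain ⟨e, he, f, hf, g, hg, a1, a2, a3⟩ := h1
    have b1 := F.three_le h he hf hg a1 a2 a3
    obtain ⟨b2, b3⟩ := ih _ (erase_ssubset hf) ((erase_subset _ _).trans h)
    have b4 := card_erase_add_one hf
    have b5 : (S.erase f).sup F.C ≤ S.sup F.C := sup_mono (erase_subset _ _)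
    have b6 := Set.ncard_le_ncard (edgeSet_mono (inf_le_inf_right F.T b5))
    have b7 : ∑ v, dg ((S.erase f).sup F.C) v / 2 ≤ ∑ v, dg (S.sup F.C) v / 2 :=
      sum_le_sum fun v _ => Nat.div_le_div_right (dg_mono b5 v)
    omega
  push Not at h1
  have ce := F.circ e (F.mem_nt.1 (h he))
  by_cases h2 : ∃ f ∈ S, F.Ov e f
  · obtain ⟨f, hf, h2⟩ := h2
    have cf := F.circ f (F.mem_nt.1 (h hf))
    have hef := h2.1
    set S' := (S.erase e).erase f with hS'
    have a1 : S = insert e (insert f S') := by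
      rw [hS', insert_erase (mem_erase.2 ⟨hef.symm, hf⟩), insert_erase he]
    have a2 : S' ⊆ S := (erase_subset _ _).trans (erase_subset _ _)
    have a3 : e ∉ S' := by simp [hS']
    have a4 : f ∉ S' := by simp [hS']
    obtain ⟨b2, b3⟩ := ih S' ⟨a2, fun h' => a3 (h' he)⟩ (a2.trans h)
    have b4 : S.card = S'.card + 2 := by
      rw [a1, card_insert_of_notMem (by simp [hef, a3]), card_insert_of_notMem a4]
    have b5 : S.sup F.C = (F.C e ⊔ F.C f) ⊔ S'.sup F.C := by
      rw [a1, sup_insert, sup_insert, sup_assoc]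
    have b6 : Disjoint (F.C e ⊔ F.C f) (S'.sup F.C) := _root_.disjoint_sup_left.2
      ⟨F.disjoint_sup a3 fun g hg h3 => a4 (h1 f hf e he g (a2 hg) h2.symm h3 ▸ hg),
        F.disjoint_sup a4 fun g hg h3 => a3 (h1 e he f hf g (a2 hg) h2 h3 ▸ hg)⟩
    obtain ⟨b7, b8⟩ := F.step_disjoint b6
    obtain ⟨b9, b10⟩ := ce.theta cf (F.C_ne (h he) (h hf) hef) h2.not_disjoint
    have b11 := F.edges_eq (F.C e ⊔ F.C f)
    have b12 : (F.nt (F.C e ⊔ F.C f)).card ≤ 2 := by
      refine le_trans (card_le_card (t := {e, f}) fun z hz => ?_) card_le_two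
      rw [mem_nt, edgeSet_sup] at hz
      rcases hz.1 with h3 | h3
      · simp [mem_singleton.1 (F.nt_C (h he) ▸ F.mem_nt.2 ⟨h3, hz.2⟩)]
      · simp [mem_singleton.1 (F.nt_C (h hf) ▸ F.mem_nt.2 ⟨h3, hz.2⟩)]
    have b13 := F.c_add a2 {{e}, {f}, {e, f}} fun A hA => by
      simp only [mem_insert, mem_singleton] at hA
      rcases hA with rfl | rfl | rfl
      · exact ⟨F.singleton_mem_N (h he), by simpa, by simpa⟩
      · exact ⟨F.singleton_mem_N (h hf), by simpa, by simpa⟩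
      · exact ⟨F.pair_mem_N (h he) (h hf) h2, by simp [insert_subset_iff, he, hf],
          by simp [insert_subset_iff, a3]⟩
    rw [card_eq_three.2 ⟨_, _, _, ?_, ?_, ?_, rfl⟩] at b13
    · rw [b5]; omega
    · simpa using hef
    · intro h3; have := Finset.ext_iff.1 h3 f; simp [hef.symm] at this
    · intro h3; have := Finset.ext_iff.1 h3 e; simp [hef] at this
  · push Not at h2
    obtain ⟨b2, b3⟩ := ih _ (erase_ssubset he) ((erase_subset _ _).trans h)
    have b4 := card_erase_add_one he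
    have b5 : S.sup F.C = F.C e ⊔ (S.erase e).sup F.C := by
      rw [← sup_insert, insert_erase he]
    obtain ⟨b7, b8⟩ := F.step_disjoint (F.disjoint_sup (notMem_erase e S) fun g hg =>
      h2 g (mem_of_mem_erase hg))
    obtain ⟨b9, b10⟩ := ce.six_le
    have b11 := F.edges_eq (F.C e)
    rw [F.nt_C (h he), card_singleton] at b11
    have b13 := F.c_add_le h _ (erase_subset e S)
    rw [b5]; omega

theorem sup_le {S : Finset (Sym2 V)} (h : S ⊆ F.nt G) : S.sup F.C ≤ G :=
  Finset.sup_le fun e he => F.C_le e (F.mem_nt.1 (h he))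

theorem dichotomy : (F.nt G).card + 3 ≤ cyc G ∨
    ∀ e ∈ F.nt G, ∀ f ∈ F.nt G, ∀ g ∈ F.nt G, F.Ov e f → F.Ov f g → e = g := by
  classical
  by_contra hn
  push Not at hn
  obtain ⟨h1, e, he, f, hf, g, hg, a1, a2, a3⟩ := hn
  have hef := a1.1
  have hfg := a2.1
  obtain ⟨A, b1, b2, b3, b4, b5⟩ : ∃ A ∈ F.N, A ⊆ {e, f, g} ∧ e ∈ A ∧ g ∈ A ∧ True := by
    by_cases h2 : F.Ov e g
    · exact ⟨_, F.pair_mem_N he hg h2, by simp [insert_subset_iff], by simp, by simp, trivial⟩
    · exact ⟨_, F.triple_mem_N he hf hg a1 a2 a3 h2, subset_rfl, by simp, by simp, trivial⟩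
  have c0 : ({e, f, g} : Finset (Sym2 V)) ⊆ F.nt G := by simp [insert_subset_iff, he, hf, hg]
  have c1 := F.c_add_le subset_rfl _ c0
  have c2 := F.c_add (empty_subset {e, f, g}) {{e}, {f}, {g}, {e, f}, {f, g}, A} fun B hB => by
    simp only [mem_insert, mem_singleton] at hB
    rcases hB with rfl | rfl | rfl | rfl | rfl | rfl
    · exact ⟨F.singleton_mem_N he, by simp, by simp⟩
    · exact ⟨F.singleton_mem_N hf, by simp, by simp⟩
    · exact ⟨F.singleton_mem_N hg, by simp, by simp⟩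
    · exact ⟨F.pair_mem_N he hf a1, by simp [insert_subset_iff], by simp⟩
    · exact ⟨F.pair_mem_N hf hg a2, by simp, by simp⟩
    · exact ⟨b1, b2, fun h => notMem_empty _ (h b3)⟩
  have c3 : ({{e}, {f}, {g}, {e, f}, {f, g}, A} : Finset (Finset (Sym2 V))).card = 6 := by
    have d : ∀ B B' : Finset (Sym2 V), B = B' → (e ∈ B ↔ e ∈ B') ∧ (f ∈ B ↔ f ∈ B') ∧
        (g ∈ B ↔ g ∈ B') := by rintro B _ rfl; simp
    rw [card_insert_of_notMem, card_insert_of_notMem, card_insert_of_notMem, card_insert_of_notMem,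
      card_pair]
    all_goals
      simp only [mem_insert, mem_singleton, not_or, ne_eq]
      repeat' apply And.intro
    all_goals
      intro h
      have := d _ _ h
      simp [hef, hfg, a3, hef.symm, hfg.symm, a3.symm, b3, b4] at this
  have c4 := card_le_three (a := e) (b := f) (c := g)
  rw [c_nt] at c1
  omega

theorem cyc_le_of_matching
    (hm : ∀ e ∈ F.nt G, ∀ f ∈ F.nt G, ∀ g ∈ F.nt G, F.Ov e f → F.Ov f g → e = g) :
    2 * cyc G ≤ 3 * (F.nt G).card := by
  classical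
  set P := F.N.filter fun A => ∃ e ∈ F.nt G, ∃ f ∈ F.nt G, F.Ov e f ∧ A = {e, f} with hP
  have h1 : F.N ⊆ (F.nt G).map ⟨fun e => {e}, singleton_injective⟩ ∪ P := fun A hA => by
    rcases F.N_of_matching hm hA with ⟨e, he, rfl⟩ | h
    · exact mem_union_left _ (mem_map.2 ⟨e, he, rfl⟩)
    · exact mem_union_right _ (mem_filter.2 ⟨hA, h⟩)
  have h2 := (card_le_card h1).trans (card_union_le _ _)
  rw [card_map, card_N] at h2
  have h3 : (P.biUnion id).card = ∑ A ∈ P, (id A).card := card_biUnion fun A hA B hB hne => by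
    obtain ⟨-, e, he, f, hf, a1, rfl⟩ := mem_filter.1 hA
    obtain ⟨-, e', he', f', hf', a2, rfl⟩ := mem_filter.1 hB
    refine disjoint_left.2 fun z hz hz' => hne ?_
    simp only [id, mem_insert, mem_singleton] at hz hz'
    rcases hz with rfl | rfl <;> rcases hz' with rfl | rfl
    · rw [hm f hf z he f' hf' a1.symm a2]
    · rw [hm f hf z he e' he' a1.symm a2.symm, pair_comm]
    · rw [hm e he z hf f' hf' a1 a2, pair_comm]
    · rw [hm e he z hf e' he' a1 a2.symm]
  rw [sum_congr rfl (g := fun _ => 2) fun A hA => by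
    obtain ⟨-, e, he, f, hf, a1, rfl⟩ := mem_filter.1 hA
    exact card_pair a1.1, sum_const, smul_eq_mul] at h3
  have h4 : (P.biUnion id).card ≤ (F.nt G).card := card_le_card (biUnion_subset.2 fun A hA =>
    F.N_subset (mem_filter.1 hA).1)
  omega

theorem general (h0 : (F.nt G).Nonempty) :
    3 * (F.nt G).card + 1 ≤ cyc G + (univ.filter fun v => 2 ≤ dg G v).card ∧
      5 * (F.nt G).card ≤ 2 * cyc G + ∑ v, dg G v / 2 := by
  classical
  obtain ⟨h1, h2⟩ := F.ineqs _ subset_rfl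
  rw [c_nt] at h1 h2
  have h3 : ∑ v, dg ((F.nt G).sup F.C) v / 2 ≤ ∑ v, dg G v / 2 :=
    sum_le_sum fun v _ => Nat.div_le_div_right (dg_mono (F.sup_le subset_rfl) v)
  have key : ∀ e ∈ F.nt G, ∀ x y, (F.C e).Adj x y → x ∈ univ.filter fun v => 2 ≤ dg G v := by
    intro e he x y hxy
    have := dg_pos hxy
    have := (F.circ e (F.mem_nt.1 he)).dg_eq x
    have := dg_mono (F.C_le e (F.mem_nt.1 he)) x
    simp only [mem_filter, mem_univ, true_and]
    omega
  have h4 := forest_le (F := (F.nt G).sup F.C ⊓ F.T) (F.tree.isAcyclic.anti inf_le_right)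
    (univ.filter fun v => 2 ≤ dg G v) (by
      obtain ⟨e, he⟩ := h0
      obtain ⟨x, y, hxy⟩ := ne_bot_iff_exists_adj.1 (F.circ e (F.mem_nt.1 he)).ne_bot
      exact ⟨x, key e he x y hxy⟩) fun x y hxy => by
      have := hxy.1
      rw [Finset.sup_eq_iSup, iSup_adj] at this
      obtain ⟨e, he⟩ := this
      rw [iSup_adj] at he
      obtain ⟨he, h⟩ := he
      exact key e he x y h
  omega

theorem one_extra (h : cyc G = (F.nt G).card + 1) : 2 ≤ (F.nt G).card ∧
    (∃ x y, x ≠ y ∧ 3 ≤ dg G x ∧ 3 ≤ dg G y) ∧ (∃ v, Odd (dg G v)) ∧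
    3 * (F.nt G).card ≤ ∑ v, dg G v / 2 +
      min 2 (univ.filter fun v => Odd (dg G v) ∧ 3 ≤ dg G v).card := by
  classical
  have hm := F.dichotomy.resolve_left (by omega)
  obtain ⟨e, he, f, hf, h2⟩ : ∃ e ∈ F.nt G, ∃ f ∈ F.nt G, F.Ov e f := by
    by_contra hn
    have h1 : F.N ⊆ (F.nt G).map ⟨fun e => {e}, singleton_injective⟩ := fun A hA => by
      rcases F.N_of_matching hm hA with ⟨e, he, rfl⟩ | ⟨e, he, f, hf, h, -⟩
      · exact mem_map.2 ⟨e, he, rfl⟩
      · exact absurd ⟨e, he, f, hf, h⟩ hn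
    have h2 := card_le_card h1
    rw [card_map, card_N] at h2
    omega
  have hef := h2.1
  have ce := F.circ e (F.mem_nt.1 he)
  have cf := F.circ f (F.mem_nt.1 hf)
  obtain ⟨x, y, hxy, hx, hy⟩ := ce.exists_branch cf (F.C_ne he hf hef) h2.not_disjoint
  set S' := ((F.nt G).erase e).erase f with hS'
  have a1 : F.nt G = insert e (insert f S') := by
    rw [hS', insert_erase (mem_erase.2 ⟨hef.symm, hf⟩), insert_erase he]
  have a2 : S' ⊆ F.nt G := (erase_subset _ _).trans (erase_subset _ _)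
  have a3 : e ∉ S' := by simp [hS']
  have a4 : f ∉ S' := by simp [hS']
  have b4 : (F.nt G).card = S'.card + 2 := by
    rw [a1, card_insert_of_notMem (by simp [hef, a3]), card_insert_of_notMem a4]
  have b6 : Disjoint (F.C e ⊔ F.C f) (S'.sup F.C) := _root_.disjoint_sup_left.2
    ⟨F.disjoint_sup a3 fun g hg h3 => a4 (hm f hf e he g (a2 hg) h2.symm h3 ▸ hg),
      F.disjoint_sup a4 fun g hg h3 => a3 (hm e he f hf g (a2 hg) h2 h3 ▸ hg)⟩
  have b7 : ∀ v, dg (F.C e ⊔ F.C f) v + dg (S'.sup F.C) v ≤ dg G v := fun v => by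
    rw [← dg_sup_of_disjoint b6]
    exact dg_mono (_root_.sup_le (_root_.sup_le (F.C_le e (F.mem_nt.1 he))
      (F.C_le f (F.mem_nt.1 hf))) (F.sup_le a2)) v
  refine ⟨by omega, ⟨x, y, hxy, by have := b7 x; omega, by have := b7 y; omega⟩, ?_, ?_⟩
  · by_contra hn
    simp only [not_exists, Nat.not_odd_iff_even] at hn
    obtain ⟨-, u, v, h3, h4⟩ := h2
    have h5 : G.Adj u v := F.C_le e (F.mem_nt.1 he) h3
    rw [F.eq_Z hn le_rfl] at h5
    change Odd _ at h5
    rw [show (F.nt G).filter _ = {e, f} from ?_, card_pair hef] at h5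
    · exact absurd h5 (by decide)
    ext z
    simp only [mem_filter, mem_insert, mem_singleton]
    refine ⟨fun hz => ?_, by rintro (rfl | rfl); exacts [⟨he, h3⟩, ⟨hf, h4⟩]⟩
    by_contra hne
    push Not at hne
    exact hne.2 (hm z hz.1 e he f hf ⟨hne.1, u, v, hz.2, h3⟩ ⟨hef, u, v, h3, h4⟩)
  · have c1 := (F.ineqs S' a2).2
    have c2 := F.c_add a2 {{e}, {f}, {e, f}} fun A hA => by
      simp only [mem_insert, mem_singleton] at hA
      rcases hA with rfl | rfl | rfl
      · exact ⟨F.singleton_mem_N he, by simpa, by simpa⟩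
      · exact ⟨F.singleton_mem_N hf, by simpa, by simpa⟩
      · exact ⟨F.pair_mem_N he hf h2, by simp [insert_subset_iff, he, hf],
          by simp [insert_subset_iff, a3]⟩
    rw [card_eq_three.2 ⟨_, _, _, by simpa using hef, fun h3 => by
      have := Finset.ext_iff.1 h3 f; simp [hef.symm] at this, fun h3 => by
      have := Finset.ext_iff.1 h3 e; simp [hef] at this, rfl⟩, c_nt] at c2
    have c3 := (ce.theta cf (F.C_ne he hf hef) h2.not_disjoint).2
    have c4 : ∑ v, (dg (F.C e ⊔ F.C f) v / 2 + dg (S'.sup F.C) v / 2 +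
        if v ∈ ({x, y} : Finset V) then 1 else 0) ≤
        ∑ v, (dg G v / 2 +
          if v ∈ ({x, y} : Finset V) ∧ Odd (dg G v) ∧ 3 ≤ dg G v then 1 else 0) := by
      refine sum_le_sum fun v _ => ?_
      have := b7 v
      by_cases hv : v ∈ ({x, y} : Finset V)
      · have h3 : dg (F.C e ⊔ F.C f) v = 3 := by
          simp only [mem_insert, mem_singleton] at hv
          rcases hv with rfl | rfl <;> assumption
        simp only [hv, true_and, if_true, Nat.odd_iff]
        split_ifs <;> omega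
      · simp only [hv, false_and, if_false]; omega
    rw [sum_add_distrib, sum_add_distrib, sum_add_distrib, ← card_filter, ← card_filter,
      filter_univ_mem, card_pair hxy] at c4
    have c5 : (univ.filter fun v => v ∈ ({x, y} : Finset V) ∧ Odd (dg G v) ∧ 3 ≤ dg G v).card ≤
        min 2 (univ.filter fun v => Odd (dg G v) ∧ 3 ≤ dg G v).card :=
      le_min ((card_le_card (t := {x, y}) fun v hv => (mem_filter.1 hv).2.1).trans card_le_two)
        (card_le_card fun v hv => mem_filter.2 ⟨mem_univ _, (mem_filter.1 hv).2.2⟩)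
    omega

end Fund

end Pool.Agent.MP_e633d5_co

end
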