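import Mathlib
import Pool.Agent.MP_e633d5_co.Mg.Necessary

-- part MP_e633d5_co.Construct
section

/-! Construction of graphs whose blocks are edges, cycles and theta graphs. -/

namespace Pool.Agent.MP_e633d5_co

open SimpleGraph Finset Function

variable {V W : Type}

/-- The function `d` is the degree function of a graph with `k` cycles connected on its support. -/
def R (d : V → ℕ) (k : ℕ) : Prop := ∃ H : SimpleGraph V, ConnS H ∧ cyc H = k ∧ ∀ v, dg H v = d v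

theorem cyc_glue [Fintype V] {G K : SimpleGraph V} {w : V}
    (h : ∀ x, 0 < dg G x → 0 < dg K x → x = w) : Disjoint G K ∧ cyc (G ⊔ K) = cyc G + cyc K := by
  classical
  have hd : Disjoint G K := by
    rw [disjoint_iff, ← le_bot_iff]
    exact fun x y hxy => hxy.ne ((h x (dg_pos hxy.1) (dg_pos hxy.2)).trans
      (h y (dg_pos hxy.1.symm) (dg_pos hxy.2.symm)).symm)
  refine ⟨hd, ?_⟩
  rw [cyc_eq', cyc_eq', cyc_eq', ← Set.ncard_union_eq]
  · congr 1
    ext H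
    refine ⟨fun hH => ?_, fun hH => hH.elim (fun h1 => ⟨h1.1.trans le_sup_left, h1.2⟩)
      fun h1 => ⟨h1.1.trans le_sup_right, h1.2⟩⟩
    have a1 : H ⊓ G ⊔ H ⊓ K = H := by rw [← inf_sup_left, inf_eq_left.2 hH.1]
    by_cases h0 : H ⊓ G = ⊥
    · rw [h0, bot_sup_eq] at a1
      exact Or.inr ⟨inf_eq_left.1 a1, hH.2⟩
    refine Or.inl ⟨inf_eq_left.1 (hH.2.eq_of_le inf_le_left h0 ?_), hH.2⟩
    have a2 : ∀ x, x ≠ w → 2 ∣ dg (H ⊓ G) x := fun x hx => by
      have := dg_sup_of_disjoint (hd.mono (inf_le_right (a := H)) (inf_le_right (a := H))) x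
      have := hH.2.dg_eq x
      have := dg_mono (inf_le_right : H ⊓ G ≤ G) x
      have := dg_mono (inf_le_right : H ⊓ K ≤ K) x
      have := mt (fun h1 : _ ∧ _ => h x h1.1 h1.2) hx
      rw [a1] at *
      omega
    intro x hx
    by_cases hxw : x = w
    · have b1 := sum_dg (H ⊓ G)
      rw [← add_sum_erase _ _ (mem_univ w), ← hxw, hx] at b1
      have b2 : 2 ∣ ∑ v ∈ univ.erase x, dg (H ⊓ G) v :=
        dvd_sum fun v hv => a2 v (hxw ▸ (mem_erase.1 hv).1)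
      omega
    · have := a2 x hxw
      omega
  · exact Set.disjoint_left.2 fun H h1 h2 => h1.2.ne_bot (le_bot_iff.1 (hd h1.1 h2.1))

theorem R.glue [Fintype V] {d d' : V → ℕ} {k k' : ℕ} (h : R d k) (h' : R d' k') {w : V}
    (hw : ∀ x, 0 < d x → 0 < d' x → x = w) (h1 : 0 < d w) (h2 : 0 < d' w) :
    R (fun v => d v + d' v) (k + k') := by
  obtain ⟨G, a1, rfl, a3⟩ := h
  obtain ⟨K, b1, rfl, b3⟩ := h'
  obtain ⟨c1, c2⟩ := cyc_glue (G := G) (K := K) (w := w) (by simpa only [a3, b3] using hw)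
  refine ⟨G ⊔ K, ?_, c2, fun v => by rw [dg_sup_of_disjoint c1, a3, b3]⟩
  have key : ∀ x, 0 < dg (G ⊔ K) x → (G ⊔ K).Reachable x w := by
    intro x hx
    rw [dg_sup_of_disjoint c1] at hx
    by_cases h3 : 0 < dg G x
    · exact (a1 x w h3 (a3 w ▸ h1)).mono le_sup_left
    · exact (b1 x w (by omega) (b3 w ▸ h2)).mono le_sup_right
  exact fun x y hx hy => (key x hx).trans (key y hy).symm

theorem R.congr {d d' : V → ℕ} {k : ℕ} (h : R d k) (hd : ∀ v, d v = d' v) : R d' k := by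
  rwa [← funext hd]

theorem R.map [Finite V] [Finite W] {d : V → ℕ} {k : ℕ} (h : R d k) (e : V → W) (he : Injective e)
    (d' : W → ℕ) (h1 : ∀ v, d' (e v) = d v) (h2 : ∀ w, w ∉ Set.range e → d' w = 0) : R d' k := by
  obtain ⟨G, a1, rfl, a3⟩ := h
  refine ⟨G.map (⟨e, he⟩ : V ↪ W), (connS_map ⟨e, he⟩ G).2 a1, cyc_map ⟨e, he⟩ G, fun w => ?_⟩
  by_cases hw : w ∈ Set.range e
  · obtain ⟨v, rfl⟩ := hw
    rw [h1, ← a3]
    exact dg_map ⟨e, he⟩ G v
  · rw [dg_map_of_notMem ⟨e, he⟩ G hw, h2 w hw]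

theorem card_nt_eq [Fintype V] {G : SimpleGraph V} (F : Fund G) {μ : ℕ}
    (h : ∑ v, dg G v + 2 = 2 * Fintype.card V + 2 * μ) : (F.nt G).card = μ := by
  have := F.card_nt
  have := sum_dg G
  omega

theorem cyc_le_small [Fintype V] {G : SimpleGraph V} (F : Fund G) (h : (F.nt G).card ≤ 2) :
    2 * cyc G ≤ 3 * (F.nt G).card := by
  refine F.cyc_le_of_matching fun e he f hf g hg h1 h2 => ?_
  by_contra hne
  have := two_lt_card_iff.2 ⟨e, f, g, he, hf, hg, h1.1, hne, h2.1⟩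
  omega

theorem R_tri0 : R (fun _ : Fin 3 => 2) 1 := by
  have h1 : ∀ v, dg (⊤ : SimpleGraph (Fin 3)) v = 2 := fun v => by
    rw [dg_eq_degree]; simp
  obtain ⟨F⟩ := exists_fund (G := (⊤ : SimpleGraph (Fin 3))) connected_top
  have h2 := card_nt_eq F (μ := 1) (by simp [h1])
  have h3 := cyc_le_small F (by omega)
  have h4 := (F.general (card_pos.1 (by omega))).1
  refine ⟨⊤, fun x y _ _ => connected_top x y, ?_, h1⟩
  simp [h1] at h4
  omega

/-- The complete graph on four vertices without one edge. -/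
def th : SimpleGraph (Fin 4) where
  Adj x y := x ≠ y ∧ (x < 2 ∨ y < 2)
  symm := ⟨by decide⟩
  loopless := ⟨by decide⟩

instance : DecidableRel th.Adj := fun x y => inferInstanceAs (Decidable (x ≠ y ∧ (x < 2 ∨ y < 2)))

theorem R_th0 : R (![3, 3, 2, 2] : Fin 4 → ℕ) 3 := by
  have h1 : ∀ v, dg th v = ![3, 3, 2, 2] v := fun v => by
    rw [dg_eq_degree]; revert v; decide
  have h0 : th.Connected := by
    rw [connected_iff_exists_forall_reachable]
    refine ⟨0, fun w => ?_⟩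
    by_cases hw : w = 0
    · rw [hw]
    · exact Adj.reachable ⟨Ne.symm hw, Or.inl (by decide)⟩
  obtain ⟨F⟩ := exists_fund h0
  have h2 := card_nt_eq F (μ := 2) (by simp only [h1]; decide)
  have h3 := cyc_le_small F (by omega)
  have h4 := (F.general (card_pos.1 (by omega))).1
  have h5 := card_le_univ (univ.filter fun v => 2 ≤ dg th v)
  refine ⟨th, fun x y _ _ => h0 x y, ?_, h1⟩
  rw [Fintype.card_fin] at h5
  omega

variable [Fintype V] [DecidableEq V]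

theorem R_tri {x y z : V} (h1 : x ≠ y) (h2 : x ≠ z) (h3 : y ≠ z) :
    R (fun v => if v = x ∨ v = y ∨ v = z then 2 else 0) 1 := by
  refine R_tri0.map ![x, y, z] ?_ _ (fun i => ?_) fun w hw => ?_
  · intro i j; fin_cases i <;> fin_cases j <;> simp_all [eq_comm]
  · fin_cases i <;> simp
  · refine if_neg ?_
    rintro (rfl | rfl | rfl)
    exacts [hw ⟨0, rfl⟩, hw ⟨1, rfl⟩, hw ⟨2, rfl⟩]

theorem R_th {x y z u : V} (h1 : x ≠ y) (h2 : x ≠ z) (h3 : y ≠ z) (h4 : x ≠ u) (h5 : y ≠ u)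
    (h6 : z ≠ u) : R (fun v => if v = x ∨ v = y then 3 else if v = z ∨ v = u then 2 else 0) 3 := by
  refine R_th0.map ![x, y, z, u] ?_ _ (fun i => ?_) fun w hw => ?_
  · intro i j; fin_cases i <;> fin_cases j <;> simp_all [eq_comm]
  · fin_cases i <;> simp [h2.symm, h3.symm, h4.symm, h5.symm]
  · rw [if_neg, if_neg]
    · rintro (rfl | rfl)
      exacts [hw ⟨2, rfl⟩, hw ⟨3, rfl⟩]
    · rintro (rfl | rfl)
      exacts [hw ⟨0, rfl⟩, hw ⟨1, rfl⟩]

theorem R.leaf {d : V → ℕ} {k : ℕ} {x v : V} (hx : d x = 1) (hv : 2 ≤ d v)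
    (h : R (update (update d x 0) v (d v - 1)) k) : R d k := by
  obtain ⟨G, a1, rfl, a3⟩ := h
  have hne : x ≠ v := by rintro rfl; omega
  have b1 : ∀ w, ¬G.Adj x w := dg_eq_zero.1 (by simp [a3, hne])
  have b2 : dg G v = d v - 1 := by simp [a3]
  refine ⟨G ⊔ edge x v, (connS_pend b1 hne (by omega)).2 a1, cyc_pend b1 hne, fun w => ?_⟩
  by_cases h1 : w = x
  · rw [h1, dg_pend_self b1 hne, hx]
  by_cases h2 : w = v
  · rw [h2, dg_pend_att b1 hne]; omega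
  simp [dg_pend_ne h1 h2, a3, h1, h2]

theorem R.sub {d : V → ℕ} {k : ℕ} {x : V} (hx : d x = 2) (hk : 0 < k)
    (h : R (update d x 0) k) : R d k := by
  obtain ⟨G, a1, rfl, a3⟩ := h
  have b1 : ∀ w, ¬G.Adj x w := dg_eq_zero.1 (by simp [a3])
  obtain ⟨a, ha⟩ := exists_two_le_dg hk
  obtain ⟨b, hab⟩ : ∃ b, G.Adj a b := by
    by_contra hn
    rw [dg_eq_zero.2 (not_exists.1 hn)] at ha
    omega
  refine ⟨subdiv x a b G, (connS_subdiv b1 hab).2 a1, cyc_subdiv b1 hab, fun w => ?_⟩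
  by_cases h1 : w = x
  · rw [h1, dg_subdiv_self b1 hab, hx]
  simp [dg_subdiv_ne b1 h1, a3, h1]

theorem R.tri {d : V → ℕ} {k : ℕ} {x y v : V} (hx : d x = 2) (hy : d y = 2) (hxy : x ≠ y)
    (hv : 3 ≤ d v) (h : R (update (update (update d x 0) y 0) v (d v - 2)) k) : R d (k + 1) := by
  have h1 : x ≠ v := by rintro rfl; omega
  have h2 : y ≠ v := by rintro rfl; omega
  refine (h.glue (R_tri hxy h1 h2) (w := v) (fun u => ?_) (by simp; omega) (by simp)).congr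
    fun u => ?_ <;> simp only [update_apply] <;> grind

theorem R.theta {d : V → ℕ} {k : ℕ} {x y z v : V} (hx : d x = 3) (hy : d y = 3) (hz : d z = 2)
    (hxy : x ≠ y) (h1 : x ≠ v) (h2 : y ≠ v) (hv : 3 ≤ d v)
    (h : R (update (update (update (update d x 0) y 0) z 0) v (d v - 2)) k) : R d (k + 3) := by
  have h3 : z ≠ v := by rintro rfl; omega
  have h4 : x ≠ z := by rintro rfl; omega
  have h5 : y ≠ z := by rintro rfl; omega
  refine (h.glue (R_th hxy h4 h5 h1 h2 h3) (w := v) (fun u => ?_) (by simp; omega)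
    (by simp [h1.symm, h2.symm])).congr fun u => ?_ <;> simp only [update_apply] <;> grind

/-- The number of vertices whose value satisfies `P`. -/
def ct (P : ℕ → Prop) [DecidablePred P] (d : V → ℕ) : ℕ := (univ.filter fun v => P (d v)).card

omit [DecidableEq V] in
theorem ct_eq (P : ℕ → Prop) [DecidablePred P] (d : V → ℕ) :
    ct P d = ∑ v, if P (d v) then 1 else 0 := card_filter _ _

theorem sum_upd (f : ℕ → ℕ) (d : V → ℕ) (v : V) (a : ℕ) :
    ∑ u, f (update d v a u) + f (d v) = ∑ u, f (d u) + f a := by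
  rw [← add_sum_erase _ _ (mem_univ v), ← add_sum_erase _ (fun u => f (d u)) (mem_univ v),
    update_self, sum_congr rfl (g := fun u => f (d u)) fun u hu => by
      rw [update_of_ne (mem_erase.1 hu).1]]
  ring

/-- The hypotheses of the construction. -/
structure Inv (t s : ℕ) (S p o n A : ℕ) : Prop where
  pos : 1 ≤ t + s
  sum : S + 2 = 2 * p + 2 * (2 * t + s)
  odd : 2 * t ≤ o
  big : 3 * t + 2 * s + 1 ≤ n
  half : 4 * t + 3 * s ≤ A

/-- The effect of changing one value on the five statistics. -/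
def Ch (d d' : V → ℕ) (a b c e f : ℤ) : Prop :=
  ((∑ u, d' u : ℕ) : ℤ) + a = (∑ u, d u : ℕ) ∧ (ct (1 ≤ ·) d' : ℤ) + b = ct (1 ≤ ·) d ∧
    (ct (fun n => n % 2 = 1 ∧ 3 ≤ n) d' : ℤ) + c = ct (fun n => n % 2 = 1 ∧ 3 ≤ n) d ∧
    (ct (2 ≤ ·) d' : ℤ) + e = ct (2 ≤ ·) d ∧ ((∑ u, d' u / 2 : ℕ) : ℤ) + f = (∑ u, d u / 2 : ℕ)

theorem stats (d : V → ℕ) (v : V) (a : ℕ) : Ch d (update d v a) ((d v : ℤ) - a)
    ((min 1 (d v) : ℕ) - (min 1 a : ℕ))
    ((min (d v % 2) (d v / 2) : ℕ) - (min (a % 2) (a / 2) : ℕ))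
    ((min 1 (d v / 2) : ℕ) - (min 1 (a / 2) : ℕ)) ((d v / 2 : ℕ) - (a / 2 : ℕ)) := by
  have h1 := sum_upd id d v a
  have h2 := sum_upd (fun n => if 1 ≤ n then 1 else 0) d v a
  have h3 := sum_upd (fun n => if n % 2 = 1 ∧ 3 ≤ n then 1 else 0) d v a
  have h4 := sum_upd (fun n => if 2 ≤ n then 1 else 0) d v a
  have h5 := sum_upd (· / 2) d v a
  simp only [id] at h1
  refine ⟨by omega, ?_, ?_, ?_, by omega⟩ <;> rw [ct_eq, ct_eq]
  · split_ifs at h2 <;> omega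
  · split_ifs at h3 <;> omega
  · split_ifs at h4 <;> omega

theorem rem1 {d : V → ℕ} {v : V} (h : d v = 1) : Ch d (update d v 0) 1 1 0 0 0 := by
  simpa [h] using stats d v 0

theorem rem2 {d : V → ℕ} {v : V} (h : d v = 2) : Ch d (update d v 0) 2 1 0 1 1 := by
  simpa [h] using stats d v 0

theorem rem3 {d : V → ℕ} {v : V} (h : d v = 3) : Ch d (update d v 0) 3 1 1 1 1 := by
  simpa [h] using stats d v 0

theorem dec1 {d : V → ℕ} {v : V} {a : ℕ} (h : d v = a + 1) (h1 : a % 2 = 0) (h2 : 2 ≤ a) :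
    Ch d (update d v a) 1 0 1 0 0 := by
  convert stats d v a using 1 <;> omega

theorem dec1' {d : V → ℕ} {v : V} {a : ℕ} (h : d v = a + 1) (h1 : a % 2 = 1) (h2 : 2 ≤ a) :
    Ch d (update d v a) 1 0 (-1) 0 1 := by
  convert stats d v a using 1 <;> omega

theorem dec2 {d : V → ℕ} {v : V} {a : ℕ} (h : d v = a + 2) (h2 : 2 ≤ a) :
    Ch d (update d v a) 2 0 0 0 1 := by
  convert stats d v a using 1 <;> omega

theorem dec3 {d : V → ℕ} {v : V} {a : ℕ} (h : d v = 3) (h2 : a = 1) :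
    Ch d (update d v a) 2 0 1 1 1 := by
  convert stats d v a using 1 <;> omega

omit [DecidableEq V] in
theorem rels (d : V → ℕ) :
    ∑ u, d u = 2 * ∑ u, d u / 2 + ct (· = 1) d + ct (fun n => n % 2 = 1 ∧ 3 ≤ n) d ∧
    ct (1 ≤ ·) d = ct (· = 1) d + ct (2 ≤ ·) d ∧
    ct (2 ≤ ·) d = ct (· = 2) d + ct (· = 3) d + ct (4 ≤ ·) d ∧
    ct (· = 1) d + 2 * ct (2 ≤ ·) d + 2 * ct (4 ≤ ·) d + ct (fun n => n % 2 = 1 ∧ 3 ≤ n) d ≤
      ∑ u, d u ∧
    ct (fun n => n % 2 = 1 ∧ 3 ≤ n) d ≤ ct (· = 3) d + ct (4 ≤ ·) d ∧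
    ct (· = 3) d ≤ ct (fun n => n % 2 = 1 ∧ 3 ≤ n) d ∧
    (ct (4 ≤ ·) d = 0 → ∑ u, d u / 2 = ct (2 ≤ ·) d) := by
  simp only [ct_eq, mul_sum, ← sum_add_distrib]
  refine ⟨sum_congr rfl fun v _ => ?_, sum_congr rfl fun v _ => ?_, sum_congr rfl fun v _ => ?_,
    sum_le_sum fun v _ => ?_, sum_le_sum fun v _ => ?_, sum_le_sum fun v _ => ?_,
    fun h => sum_congr rfl fun v hv => ?_⟩
  on_goal 7 => have := sum_eq_zero_iff.1 h v hv
  all_goals split_ifs at * <;> omega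

omit [DecidableEq V] in
theorem pick1 {P : ℕ → Prop} [DecidablePred P] {d : V → ℕ} (h : 0 < ct P d) : ∃ x, P (d x) := by
  obtain ⟨x, hx⟩ := card_pos.1 h
  exact ⟨x, (mem_filter.1 hx).2⟩

omit [DecidableEq V] in
theorem pick2 {P : ℕ → Prop} [DecidablePred P] {d : V → ℕ} (h : 1 < ct P d) :
    ∃ x y, P (d x) ∧ P (d y) ∧ x ≠ y := by
  simpa using one_lt_card_iff.1 h

omit [DecidableEq V] in
theorem pick3 {P : ℕ → Prop} [DecidablePred P] {d : V → ℕ} (h : 2 < ct P d) :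
    ∃ x y z, P (d x) ∧ P (d y) ∧ P (d z) ∧ x ≠ y ∧ x ≠ z ∧ y ≠ z := by
  simpa using two_lt_card_iff.1 h

omit [DecidableEq V] in
theorem eq_zero_of_ct {d : V → ℕ} (h : ct (1 ≤ ·) d = 0) (v : V) : d v = 0 := by
  have := filter_eq_empty_iff.1 (card_eq_zero.1 h) (mem_univ v)
  omega

theorem construct (N : ℕ) : ∀ (d : V → ℕ) (t s : ℕ), ∑ u, d u = N →
    Inv t s (∑ u, d u) (ct (1 ≤ ·) d) (ct (fun n => n % 2 = 1 ∧ 3 ≤ n) d) (ct (2 ≤ ·) d)
      (∑ u, d u / 2) → R d (3 * t + s) := by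
  induction N using Nat.strong_induction_on with
  | _ N ih =>
  rintro d t s hN ⟨i0, i1, i2, i3, i4⟩
  obtain ⟨r1, r2, r3, r4, r5, r6, r7⟩ := rels d
  by_cases c1 : 0 < ct (· = 1) d
  · by_cases c2 : 2 * t < ct (fun n => n % 2 = 1 ∧ 3 ≤ n) d
    · obtain ⟨x, hx⟩ := pick1 c1
      obtain ⟨v, hv⟩ := pick1 (P := fun n => n % 2 = 1 ∧ 3 ≤ n) (d := d) (by omega)
      have hne : v ≠ x := by rintro rfl; omega
      obtain ⟨a1, a2, a3, a4, a5⟩ := rem1 hx
      obtain ⟨b1, b2, b3, b4, b5⟩ := dec1 (d := update d x 0) (v := v) (a := d v - 1)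
        (by rw [update_of_ne hne]; omega) (by omega) (by omega)
      refine R.leaf (v := v) hx (by omega) (ih _ ?_ _ t s rfl ⟨i0, ?_, ?_, ?_, ?_⟩) <;> omega
    · obtain ⟨x, y, hx, hy, hxy⟩ := pick2 (P := (· = 1)) (d := d) (by omega)
      obtain ⟨v, hv⟩ := pick1 (P := (4 ≤ ·)) (d := d) (by omega)
      have h1 : v ≠ x := by rintro rfl; omega
      have h2 : v ≠ y := by rintro rfl; omega
      have h3 : update (update (update (update d x 0) v (d v - 1)) y 0) v (d v - 1 - 1) =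
          update (update (update d x 0) y 0) v (d v - 2) := by
        funext u
        simp only [update_apply]
        split_ifs <;> rfl
      obtain ⟨a1, a2, a3, a4, a5⟩ := rem1 hx
      obtain ⟨b1, b2, b3, b4, b5⟩ := rem1 (d := update d x 0) (v := y)
        (by rw [update_of_ne hxy.symm, hy])
      obtain ⟨e1, e2, e3, e4, e5⟩ := dec2 (d := update (update d x 0) y 0) (v := v) (a := d v - 2)
        (by rw [update_of_ne h2, update_of_ne h1]; omega) (by omega)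
      refine R.leaf (v := v) hx (by omega) (R.leaf (x := y) (v := v)
        (by simp [h2.symm, hxy.symm, hy])
        (by simp; omega) ?_)
      rw [update_self, h3]
      refine ih _ ?_ _ t s rfl ⟨i0, ?_, ?_, ?_, ?_⟩ <;> omega
  by_cases c2 : t + s = 1 ∧ 3 * t + 2 * s + 1 < ct (2 ≤ ·) d
  · obtain ⟨x, hx⟩ := pick1 (P := (· = 2)) (d := d) (by omega)
    obtain ⟨a1, a2, a3, a4, a5⟩ := rem2 hx
    refine R.sub hx (by omega) (ih _ ?_ _ t s rfl ⟨i0, ?_, ?_, ?_, ?_⟩) <;> omega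
  by_cases c3 : t = 0 ∧ s = 1
  · obtain ⟨x, y, z, hx, hy, hz, h1, h2, h3⟩ := pick3 (P := (· = 2)) (d := d) (by omega)
    have u1 := (rem2 hx).2.1
    have u2 := (rem2 (d := update d x 0) (v := y) (by rw [update_of_ne h1.symm, hy])).2.1
    have u3 := (rem2 (d := update (update d x 0) y 0) (v := z)
      (by rw [update_of_ne h3.symm, update_of_ne h2.symm, hz])).2.1
    have h4 := eq_zero_of_ct (d := update (update (update d x 0) y 0) z 0) (by omega)
    rw [c3.1, c3.2]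
    refine (R_tri h1 h2 h3).congr fun v => ?_
    have := h4 v
    simp only [update_apply] at this
    grind
  by_cases c4 : t = 1 ∧ s = 0
  · obtain ⟨x, y, hx, hy, h1⟩ := pick2 (P := (· = 3)) (d := d) (by omega)
    obtain ⟨z, w, hz, hw, h6⟩ := pick2 (P := (· = 2)) (d := d) (by omega)
    have h2 : x ≠ z := by rintro rfl; omega
    have h3 : y ≠ z := by rintro rfl; omega
    have h4 : x ≠ w := by rintro rfl; omega
    have h5 : y ≠ w := by rintro rfl; omega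
    have u1 := (rem3 hx).2.1
    have u2 := (rem3 (d := update d x 0) (v := y) (by rw [update_of_ne h1.symm, hy])).2.1
    have u3 := (rem2 (d := update (update d x 0) y 0) (v := z)
      (by rw [update_of_ne h3.symm, update_of_ne h2.symm, hz])).2.1
    have u4 := (rem2 (d := update (update (update d x 0) y 0) z 0) (v := w)
      (by rw [update_of_ne h6.symm, update_of_ne h5.symm, update_of_ne h4.symm, hw])).2.1
    have h7 := eq_zero_of_ct (d := update (update (update (update d x 0) y 0) z 0) w 0) (by omega)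
    rw [c4.1, c4.2]
    refine (R_th h1 h2 h3 h4 h5 h6).congr fun v => ?_
    have := h7 v
    simp only [update_apply] at this
    grind
  rcases s with _ | s
  · obtain ⟨t, rfl⟩ : ∃ t', t = t' + 1 := ⟨t - 1, by omega⟩
    obtain ⟨z, hz⟩ := pick1 (P := (· = 2)) (d := d) (by omega)
    obtain ⟨x, y, v, hx, hy, hv, h1, h2, h3⟩ : ∃ x y v, d x = 3 ∧ d y = 3 ∧
        (4 ≤ d v ∨ d v = 3 ∧ ct (4 ≤ ·) d = 0) ∧ x ≠ y ∧ x ≠ v ∧ y ≠ v := by
      by_cases c5 : 0 < ct (4 ≤ ·) d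
      · obtain ⟨v, hv⟩ := pick1 c5
        obtain ⟨x, y, hx, hy, h1⟩ := pick2 (P := (· = 3)) (d := d) (by omega)
        exact ⟨x, y, v, hx, hy, Or.inl hv, h1, by rintro rfl; omega, by rintro rfl; omega⟩
      · obtain ⟨x, y, v, hx, hy, hv, h1, h2, h3⟩ := pick3 (P := (· = 3)) (d := d) (by omega)
        exact ⟨x, y, v, hx, hy, Or.inr ⟨hv, by omega⟩, h1, h2, h3⟩
    have h4 : z ≠ x := by rintro rfl; omega
    have h5 : z ≠ y := by rintro rfl; omega
    have h6 : v ≠ z := by rintro rfl; omega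
    obtain ⟨a1, a2, a3, a4, a5⟩ := rem3 hx
    obtain ⟨b1, b2, b3, b4, b5⟩ := rem3 (d := update d x 0) (v := y)
      (by rw [update_of_ne h1.symm, hy])
    obtain ⟨e1, e2, e3, e4, e5⟩ := rem2 (d := update (update d x 0) y 0) (v := z)
      (by rw [update_of_ne h5, update_of_ne h4, hz])
    have h7 : update (update (update d x 0) y 0) z 0 v = d v := by
      rw [update_of_ne h6, update_of_ne h3.symm, update_of_ne h2.symm]
    rcases hv with hv | ⟨hv, h8⟩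
    · obtain ⟨f1, f2, f3, f4, f5⟩ := dec2 (a := d v - 2) (h7.trans (by omega)) (by omega)
      refine R.theta hx hy hz h1 h2 h3 (by omega) (ih _ ?_ _ t 0 rfl ⟨?_, ?_, ?_, ?_, ?_⟩) <;> omega
    · obtain ⟨f1, f2, f3, f4, f5⟩ := dec3 (a := d v - 2) (h7.trans hv) (by omega)
      refine R.theta hx hy hz h1 h2 h3 (by omega) (ih _ ?_ _ t 0 rfl ⟨?_, ?_, ?_, ?_, ?_⟩) <;> omega
  · obtain ⟨x, y, hx, hy, h1⟩ := pick2 (P := (· = 2)) (d := d) (by omega)
    obtain ⟨v, hv⟩ : ∃ v, 4 ≤ d v ∨ d v = 3 ∧ ct (4 ≤ ·) d = 0 := by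
      by_cases c5 : 0 < ct (4 ≤ ·) d
      · exact (pick1 c5).imp fun _ => Or.inl
      · exact (pick1 (P := (· = 3)) (d := d) (by omega)).imp fun _ h => Or.inr ⟨h, by omega⟩
    have h2 : v ≠ x := by rintro rfl; omega
    have h3 : v ≠ y := by rintro rfl; omega
    obtain ⟨a1, a2, a3, a4, a5⟩ := rem2 hx
    obtain ⟨b1, b2, b3, b4, b5⟩ := rem2 (d := update d x 0) (v := y)
      (by rw [update_of_ne h1.symm, hy])
    have h7 : update (update d x 0) y 0 v = d v := by rw [update_of_ne h3, update_of_ne h2]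
    rcases hv with hv | ⟨hv, h8⟩
    · obtain ⟨f1, f2, f3, f4, f5⟩ := dec2 (a := d v - 2) (h7.trans (by omega)) (by omega)
      refine R.tri (v := v) hx hy h1 (by omega) (ih _ ?_ _ t s rfl ⟨?_, ?_, ?_, ?_, ?_⟩) <;> omega
    · obtain ⟨f1, f2, f3, f4, f5⟩ := dec3 (a := d v - 2) (h7.trans hv) (by omega)
      refine R.tri (v := v) hx hy h1 (by omega) (ih _ ?_ _ t s rfl ⟨?_, ?_, ?_, ?_, ?_⟩) <;> omega

end Pool.Agent.MP_e633d5_co

end

-- part MP_e633d5_co.Closed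
section

/-! Closed forms. -/

namespace Pool.Agent.MP_e633d5_co

open SimpleGraph Finset Function

variable {V : Type} [Fintype V] [DecidableEq V]

omit [DecidableEq V] in
theorem R.kc {d : V → ℕ} {k : ℕ} (h : R d k) (hk : 0 < k) (hd : ∀ i, 1 ≤ d i) :
    ∃ G : SimpleGraph V, KCyclic G k ∧ ∀ i, dg G i = d i := by
  obtain ⟨G, a1, rfl, a3⟩ := h
  obtain ⟨a, -⟩ := exists_two_le_dg hk
  have : Nonempty V := ⟨a⟩
  exact ⟨G, ⟨⟨fun x y => a1 x y (a3 x ▸ hd x) (a3 y ▸ hd y)⟩, rfl⟩, a3⟩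

omit [DecidableEq V] in
theorem ct_all {d : V → ℕ} (hd : ∀ i, 1 ≤ d i) : ct (1 ≤ ·) d = Fintype.card V := by
  rw [ct, filter_true_of_mem fun v _ => hd v, card_univ]

omit [DecidableEq V] in
theorem ct_odd (d : V → ℕ) : (univ.filter fun v => Odd (d v) ∧ 3 ≤ d v).card =
    ct (fun n => n % 2 = 1 ∧ 3 ≤ n) d := by
  simp only [ct, Nat.odd_iff]

omit [DecidableEq V] in
theorem nec {G : SimpleGraph V} {k μ : ℕ} (h : KCyclic G k) (hμ : 1 ≤ μ)
    (hs : ∑ i, dg G i + 2 = 2 * Fintype.card V + 2 * μ) :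
    (∀ i, 1 ≤ dg G i) ∧ μ ≤ k ∧ 3 * μ + 1 ≤ k + (univ.filter fun v => 2 ≤ dg G v).card ∧
      5 * μ ≤ 2 * k + ∑ v, dg G v / 2 := by
  obtain ⟨F⟩ := exists_fund h.connected
  have h1 := card_nt_eq F hs
  have h2 := F.general (card_pos.1 (by omega))
  have h3 := F.card_le_c (subset_refl (F.nt G))
  have h4 : cyc G = k := h.card_eq
  rw [F.c_nt] at h3
  rw [h1, h4] at h2 h3
  exact ⟨dg_pos_of_connected h.connected (by omega), h3, h2⟩

theorem oddRich {d : V → ℕ} {k μ : ℕ} (hμ : 1 ≤ μ) (hs : ∑ i, d i + 2 = 2 * Fintype.card V + 2 * μ)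
    (h1 : 2 * k ≤ 3 * μ) (h2 : 2 * k ≤ 2 * μ + (univ.filter fun v => Odd (d v) ∧ 3 ≤ d v).card) :
    (∃ G : SimpleGraph V, KCyclic G k ∧ ∀ i, dg G i = d i) ↔
      (∀ i, 1 ≤ d i) ∧ μ ≤ k ∧ 3 * μ + 1 ≤ k + (univ.filter fun v => 2 ≤ d v).card ∧
        5 * μ ≤ 2 * k + ∑ v, d v / 2 := by
  constructor
  · rintro ⟨G, hG, h⟩
    obtain rfl : dg G = d := funext h
    exact nec hG hμ hs
  · rintro ⟨a1, a2, a3, a4⟩
    have := construct _ d (k - μ) (3 * μ - 2 * k) rfl ⟨by omega, by rw [ct_all a1]; omega,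
      by rw [← ct_odd]; omega, by rw [ct]; omega, by omega⟩
    rw [show 3 * (k - μ) + (3 * μ - 2 * k) = k by omega] at this
    exact this.kc (by omega) a1

theorem one_odd {d : V → ℕ} {s : ℕ} {v : V} (h1 : ∑ u, d u + 2 = 2 * ct (1 ≤ ·) d + 2 * (2 + s))
    (h2 : 2 * s + 4 ≤ ct (2 ≤ ·) d) (h3 : ct (fun n => n % 2 = 1 ∧ 3 ≤ n) d = 1)
    (h4 : 3 * s + 5 ≤ ∑ u, d u / 2) (h5 : 3 ≤ d v) (h6 : d v % 2 = 0) : R d (3 * 1 + s) := by
  have r1 := (rels d).1
  obtain ⟨x, hx⟩ := pick1 (P := (· = 1)) (d := d) (by omega)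
  have hne : v ≠ x := by rintro rfl; omega
  obtain ⟨a1, a2, a3, a4, a5⟩ := rem1 hx
  obtain ⟨b1, b2, b3, b4, b5⟩ := dec1' (d := update d x 0) (v := v) (a := d v - 1)
    (by rw [update_of_ne hne]; omega) (by omega) (by omega)
  refine R.leaf (v := v) hx (by omega) (construct _ _ 1 s rfl ⟨?_, ?_, ?_, ?_, ?_⟩) <;> omega

theorem no_odd {d : V → ℕ} {s : ℕ} {v w x : V} (h1 : ∑ u, d u + 2 = 2 * ct (1 ≤ ·) d + 2 * (2 + s))
    (h2 : 2 * s + 4 ≤ ct (2 ≤ ·) d) (h3 : ct (fun n => n % 2 = 1 ∧ 3 ≤ n) d = 0)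
    (h4 : 3 * s + 6 ≤ ∑ u, d u / 2) (h5 : 3 ≤ d v) (h6 : d v % 2 = 0) (h7 : 3 ≤ d w)
    (h8 : d w % 2 = 0) (h9 : w ≠ v) (hx : d x = 1) : R d (3 * 1 + s) := by
  have hne : v ≠ x := by rintro rfl; omega
  have hne' : w ≠ x := by rintro rfl; omega
  obtain ⟨a1, a2, a3, a4, a5⟩ := rem1 hx
  obtain ⟨b1, b2, b3, b4, b5⟩ := dec1' (d := update d x 0) (v := v) (a := d v - 1)
    (by rw [update_of_ne hne]; omega) (by omega) (by omega)
  refine R.leaf (v := v) hx (by omega) (one_odd (v := w) ?_ ?_ ?_ ?_ ?_ ?_)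
  iterate 4 omega
  all_goals rwa [update_of_ne h9, update_of_ne hne']

theorem deltaOne {d : V → ℕ} {μ : ℕ} (hs : ∑ i, d i + 2 = 2 * Fintype.card V + 2 * μ) :
    (∃ G : SimpleGraph V, KCyclic G (μ + 1) ∧ ∀ i, dg G i = d i) ↔
      (∀ i, 1 ≤ d i) ∧ 2 ≤ μ ∧ 2 * μ ≤ (univ.filter fun v => 2 ≤ d v).card ∧
        (∃ x y, x ≠ y ∧ 3 ≤ d x ∧ 3 ≤ d y) ∧ (∃ v, Odd (d v)) ∧
        3 * μ ≤ ∑ v, d v / 2 + min 2 (univ.filter fun v => Odd (d v) ∧ 3 ≤ d v).card := by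
  constructor
  · rintro ⟨G, hG, h⟩
    obtain rfl : dg G = d := funext h
    obtain ⟨F⟩ := exists_fund hG.connected
    have h1 := card_nt_eq F hs
    obtain ⟨b1, b2, b3, b4⟩ := F.one_extra (h1 ▸ hG.card_eq)
    rw [h1] at b1 b4
    obtain ⟨a1, -, a3, -⟩ := nec hG (by omega) hs
    exact ⟨a1, b1, by omega, b2, b3, b4⟩
  · rintro ⟨a1, a2, a3, ⟨x, y, hxy, hx, hy⟩, ⟨v, hv⟩, a6⟩
    obtain ⟨s, rfl⟩ := Nat.exists_eq_add_of_le a2
    rw [ct_odd] at a6
    rw [← ct_all a1] at hs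
    change _ ≤ ct (2 ≤ ·) d at a3
    rw [Nat.odd_iff] at hv
    rw [show 2 + s + 1 = 3 * 1 + s by omega]
    refine R.kc ?_ (by omega) a1
    by_cases c1 : 1 < ct (fun n => n % 2 = 1 ∧ 3 ≤ n) d
    · refine construct _ _ 1 s rfl ⟨?_, ?_, ?_, ?_, ?_⟩ <;> omega
    by_cases c2 : 0 < ct (fun n => n % 2 = 1 ∧ 3 ≤ n) d
    · by_cases c3 : d x % 2 = 0
      · exact one_odd hs (by omega) (by omega) (by omega) hx c3
      refine one_odd hs (by omega) (by omega) (by omega) hy ?_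
      by_contra c4
      exact c1 (one_lt_card_iff.2 ⟨x, y, by simp; omega, by simp; omega, hxy⟩)
    · have key : ∀ u, ¬(d u % 2 = 1 ∧ 3 ≤ d u) := fun u hu =>
        c2 (card_pos.2 ⟨u, mem_filter.2 ⟨mem_univ _, hu⟩⟩)
      have := key x
      have := key y
      have := key v
      exact no_odd (x := v) hs (by omega) (by omega) (by omega) hx (by omega) hy (by omega)
        hxy.symm (by omega)

theorem five {d : V → ℕ} : (∃ G : SimpleGraph V, KCyclic G 5 ∧ ∀ i, dg G i = d i) ↔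
    (∀ i, 1 ≤ d i) ∧
      ((∑ i, d i = 2 * Fintype.card V + 8 ∧ 11 ≤ (univ.filter fun v => 2 ≤ d v).card ∧
        15 ≤ ∑ v, d v / 2) ∨
      (∑ i, d i = 2 * Fintype.card V + 6 ∧ 8 ≤ (univ.filter fun v => 2 ≤ d v).card ∧
        (∃ x y, x ≠ y ∧ 3 ≤ d x ∧ 3 ≤ d y) ∧ (∃ v, Odd (d v)) ∧
        12 ≤ ∑ v, d v / 2 + min 2 (univ.filter fun v => Odd (d v) ∧ 3 ≤ d v).card)) := by
  constructor
  · rintro ⟨G, hG, h⟩
    obtain rfl : dg G = d := funext h
    obtain ⟨F⟩ := exists_fund hG.connected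
    have h1 := F.card_nt
    have h2 := sum_dg G
    have h3 := F.card_le_c (subset_refl (F.nt G))
    have h4 : cyc G = 5 := hG.card_eq
    rw [F.c_nt] at h3
    have h5 : 4 ≤ (F.nt G).card := by
      have := cyc_le_small F
      have := F.dichotomy.imp_right F.cyc_le_of_matching
      omega
    by_cases c : (F.nt G).card = 4
    · obtain ⟨a1, -, a3⟩ := (deltaOne (μ := 4) (by omega)).1 ⟨G, hG, h⟩
      exact ⟨a1, Or.inr ⟨by omega, a3⟩⟩
    · obtain ⟨a1, -, a3, a4⟩ := nec hG (μ := 5) (by omega) (by omega)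
      exact ⟨a1, Or.inl ⟨by omega, by omega, by omega⟩⟩
  · rintro ⟨a1, ⟨a2, a3, a4⟩ | ⟨a2, a3⟩⟩
    · exact (oddRich (μ := 5) (by omega) (by omega) (by omega) (by omega)).2
        ⟨a1, le_rfl, by omega, by omega⟩
    · exact (deltaOne (μ := 4) (by omega)).2 ⟨a1, by omega, a3⟩

end Pool.Agent.MP_e633d5_co

end
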