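import Mathlib
import Pool.Agent.MP_e633d5_co.Mg.Closed

-- part MP_e633d5_co.H74.Paths
section

/-! Counting paths between two vertices and cycles through an edge. -/

namespace Pool.Agent.MP_e633d5_co.H74

open SimpleGraph Finset Function

variable {V : Type}

/-- The minimal subgraphs of `G` joining `s` and `t`. -/
def MP (G : SimpleGraph V) (s t : V) : Set (SimpleGraph V) :=
  {H | H ≤ G ∧ H.Reachable s t ∧ ∀ K, K ≤ H → K.Reachable s t → K = H}

/-- The number of paths between `s` and `t`. -/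
noncomputable def pth (G : SimpleGraph V) (s t : V) : ℕ := (MP G s t).ncard

theorem pth_comm (G : SimpleGraph V) (s t : V) : pth G s t = pth G t s := by
  unfold pth MP
  simp only [reachable_comm (u := s) (v := t)]

theorem edge_reach {s t : V} (h : s ≠ t) : (edge s t).Reachable s t :=
  Adj.reachable (by simp [edge_adj, h])

theorem edge_le {H : SimpleGraph V} {s t : V} (h : H.Adj s t) : edge s t ≤ H :=
  (edge_le_iff H).2 (Or.inr h)

theorem le_of_not_adj {G H : SimpleGraph V} {s t : V} (h : H ≤ G ⊔ edge s t) (hn : ¬H.Adj s t) :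
    H ≤ G := fun x y hxy => by
  rcases h hxy with h1 | h1
  · exact h1
  · rw [edge_adj] at h1
    rcases h1.1 with ⟨rfl, rfl⟩ | ⟨rfl, rfl⟩
    · exact absurd hxy hn
    · exact absurd hxy.symm hn

theorem edge_mem_MP {G : SimpleGraph V} {s t : V} (h : G.Adj s t) : edge s t ∈ MP G s t := by
  refine ⟨edge_le h, edge_reach h.ne, fun K hK hr => ?_⟩
  by_cases h1 : K.Adj s t
  · exact le_antisymm hK (edge_le h1)
  · have h2 : K ≤ ⊥ := le_of_not_adj (by rwa [bot_sup_eq]) h1
    exact absurd (reachable_bot.1 (hr.mono h2)) h.ne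

theorem pth_add_edge [Finite V] {G : SimpleGraph V} {s t : V} (hne : s ≠ t) (hn : ¬G.Adj s t) :
    pth (G ⊔ edge s t) s t = pth G s t + 1 := by
  have h0 : (edge s t).Adj s t := by simp [edge_adj, hne]
  rw [pth, pth, ← Set.ncard_insert_of_notMem (a := edge s t) fun h => hn (h.1 h0)]
  congr 1
  ext H
  constructor
  · rintro ⟨h1, h2, h3⟩
    by_cases h4 : H.Adj s t
    · exact Or.inl (h3 _ (edge_le h4) (edge_reach hne)).symm
    · exact Or.inr ⟨le_of_not_adj h1 h4, h2, h3⟩
  · rintro (rfl | ⟨h1, h2, h3⟩)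
    · exact edge_mem_MP (Or.inr h0)
    · exact ⟨h1.trans le_sup_left, h2, h3⟩

theorem pth_edge [Finite V] {s t : V} (hne : s ≠ t) : pth (edge s t) s t = 1 := by
  have h := pth_add_edge (G := ⊥) hne (by simp)
  rw [bot_sup_eq] at h
  rw [h, pth, show MP (⊥ : SimpleGraph V) s t = ∅ from ?_, Set.ncard_empty]
  exact Set.eq_empty_of_forall_notMem fun H hH => hne (reachable_bot.1 (hH.2.1.mono hH.1))

theorem circ_reach [Finite V] {H : SimpleGraph V} (h : Circ H) {s t : V} (hst : H.Adj s t) :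
    (H \ edge s t).Reachable s t := by
  obtain ⟨v, c, hc, h1⟩ := exists_wg_of_minimal (minimal_iff.2 ⟨le_refl H, h⟩)
  exact (adj_and_reachable_delete_edges_iff_exists_cycle.2
    ⟨v, c, hc, (wg_adj c s t).1 (h1 ▸ hst)⟩).2

theorem exists_circ [Finite V] {K : SimpleGraph V} {s t : V} (hne : s ≠ t) (hn : ¬K.Adj s t)
    (hr : K.Reachable s t) : ∃ H, H ≤ K ⊔ edge s t ∧ Circ H ∧ H.Adj s t := by
  have h0 : (edge s t).Adj s t := by simp [edge_adj, hne]
  obtain ⟨v, c, hc, h1⟩ := (adj_and_reachable_delete_edges_iff_exists_cycle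
    (G := K ⊔ edge s t)).1 ⟨Or.inr h0, hr.mono fun x y hxy => by
      rw [deleteEdges_adj]
      refine ⟨Or.inl hxy, fun h2 => hn ?_⟩
      rw [Set.mem_singleton_iff] at h2
      rw [← mem_edgeSet, ← h2]
      exact hxy⟩
  exact ⟨wg c, wg_le c, (minimal_iff.1 (wg_minimal hc)).2, (wg_adj c s t).2 h1⟩

theorem sdiff_not_adj (H : SimpleGraph V) {s t : V} : ¬(H \ edge s t).Adj s t := fun h =>
  h.2 (by simp [edge_adj, h.1.ne])

theorem cyc_add_edge [Finite V] {G : SimpleGraph V} {s t : V} (hne : s ≠ t) (hn : ¬G.Adj s t) :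
    cyc (G ⊔ edge s t) = cyc G + pth G s t := by
  have h0 : (edge s t).Adj s t := by simp [edge_adj, hne]
  have inj : Set.InjOn (· ⊔ edge s t) (MP G s t) := fun H hH K hK h => by
    have h' : H ⊔ edge s t = K ⊔ edge s t := h
    exact le_antisymm (le_of_not_adj (h' ▸ le_sup_left) fun h1 => hn (hH.1 h1))
      (le_of_not_adj (h' ▸ le_sup_left) fun h1 => hn (hK.1 h1))
  rw [cyc_eq', cyc_eq', pth, ← inj.ncard_image, ← Set.ncard_union_eq]
  · congr 1
    ext H
    constructor
    · rintro ⟨h1, h2⟩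
      by_cases h3 : H.Adj s t
      · refine Or.inr ⟨H \ edge s t, ⟨le_of_not_adj (sdiff_le.trans h1) (sdiff_not_adj H),
          circ_reach h2 h3, fun K hK hr => ?_⟩, sdiff_sup_cancel (edge_le h3)⟩
        obtain ⟨C, c1, c2, c3⟩ := exists_circ hne (fun h => sdiff_not_adj H (hK h)) hr
        have c4 : C = H := h2.eq_of_le (c1.trans (sup_le (hK.trans sdiff_le) (edge_le h3)))
          c2.ne_bot c2.ev.ne_one
        exact le_antisymm hK (le_of_not_adj (sdiff_le.trans (c4 ▸ c1)) (sdiff_not_adj H))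
      · exact Or.inl ⟨le_of_not_adj h1 h3, h2⟩
    · rintro (⟨h1, h2⟩ | ⟨K, ⟨h1, h2, h3⟩, rfl⟩)
      · exact ⟨h1.trans le_sup_left, h2⟩
      · obtain ⟨C, c1, c2, c3⟩ := exists_circ hne (fun h => hn (h1 h)) h2
        have c4 := h3 _ (le_of_not_adj (sdiff_le.trans c1) (sdiff_not_adj C)) (circ_reach c2 c3)
        refine ⟨sup_le_sup_right h1 _, ?_⟩
        change Circ (K ⊔ edge s t)
        rwa [← c4, sdiff_sup_cancel (edge_le c3)]
  · rw [Set.disjoint_left]
    rintro H ⟨h1, -⟩ ⟨K, -, rfl⟩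
    exact hn (h1 (Or.inr h0))

theorem reach_split [Finite V] {G K H : SimpleGraph V} {w s t : V}
    (h : ∀ x, 0 < dg G x → 0 < dg K x → x = w) (hs : 0 < dg G s) (ht : 0 < dg K t)
    (hH : H ≤ G ⊔ K) (hr : H.Reachable s t) : (H ⊓ G).Reachable s w := by
  classical
  have := reach_of_adj (G' := H ⊓ G) (fun v => if 0 < dg K v then w else v) (fun x y hxy => by
    rcases hH hxy with h1 | h1
    · have a1 : (if 0 < dg K x then w else x) = x := by
        split_ifs with h2
        exacts [(h x (dg_pos h1) h2).symm, rfl]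
      have a2 : (if 0 < dg K y then w else y) = y := by
        split_ifs with h2
        exacts [(h y (dg_pos h1.symm) h2).symm, rfl]
      rw [a1, a2]
      exact Adj.reachable ⟨hxy, h1⟩
    · rw [if_pos (dg_pos h1), if_pos (dg_pos h1.symm)]) hr
  rw [if_pos ht] at this
  split_ifs at this with h2
  · rw [h s hs h2]
  · exact this

theorem pth_glue [Fintype V] {G K : SimpleGraph V} {w s t : V}
    (h : ∀ x, 0 < dg G x → 0 < dg K x → x = w) (hs : 0 < dg G s) (ht : 0 < dg K t) :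
    pth (G ⊔ K) s t = pth G s w * pth K w t := by
  have hd := (cyc_glue h).1
  have l1 : ∀ {A B : SimpleGraph V}, A ≤ G → B ≤ K → (A ⊔ B) ⊓ G = A := fun {A B} hA hB => by
    rw [inf_sup_right, inf_eq_left.2 hA, (hd.symm.mono_left hB).eq_bot, sup_bot_eq]
  have l2 : ∀ {A B : SimpleGraph V}, A ≤ G → B ≤ K → (A ⊔ B) ⊓ K = B := fun {A B} hA hB => by
    rw [inf_sup_right, inf_eq_left.2 hB, (hd.mono_left hA).eq_bot, bot_sup_eq]
  have l3 : ∀ {H : SimpleGraph V}, H ≤ G ⊔ K → H ⊓ G ⊔ H ⊓ K = H := fun {H} hH => by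
    rw [← inf_sup_left, inf_eq_left.2 hH]
  have r1 : ∀ {H : SimpleGraph V}, H ≤ G ⊔ K → H.Reachable s t → (H ⊓ G).Reachable s w :=
    fun hH hr => reach_split h hs ht hH hr
  have r2 : ∀ {H : SimpleGraph V}, H ≤ G ⊔ K → H.Reachable s t → (H ⊓ K).Reachable w t :=
    fun hH hr => (reach_split (fun x h1 h2 => h x h2 h1) ht hs (by rwa [sup_comm]) hr.symm).symm
  have inj : Set.InjOn (fun q : SimpleGraph V × SimpleGraph V => q.1 ⊔ q.2)
      (MP G s w ×ˢ MP K w t) := fun q hq q' hq' h1 => by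
    have h2 : q.1 ⊔ q.2 = q'.1 ⊔ q'.2 := h1
    exact Prod.ext (by rw [← l1 hq.1.1 hq.2.1, h2, l1 hq'.1.1 hq'.2.1])
      (by rw [← l2 hq.1.1 hq.2.1, h2, l2 hq'.1.1 hq'.2.1])
  rw [pth, pth, pth, ← Set.ncard_prod, ← inj.ncard_image]
  congr 1
  ext H
  constructor
  · rintro ⟨h1, h2, h3⟩
    refine ⟨(H ⊓ G, H ⊓ K), ⟨⟨inf_le_right, r1 h1 h2, fun A hA hr => ?_⟩,
      ⟨inf_le_right, r2 h1 h2, fun B hB hr => ?_⟩⟩, l3 h1⟩
    · have := h3 (A ⊔ H ⊓ K) (sup_le (hA.trans inf_le_left) inf_le_left)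
        ((hr.mono le_sup_left).trans ((r2 h1 h2).mono le_sup_right))
      rw [← l1 (hA.trans inf_le_right) (inf_le_right (a := H)), this]
    · have := h3 (H ⊓ G ⊔ B) (sup_le inf_le_left (hB.trans inf_le_left))
        (((r1 h1 h2).mono le_sup_left).trans (hr.mono le_sup_right))
      rw [← l2 (inf_le_right (a := H)) (hB.trans inf_le_right), this]
  · rintro ⟨⟨A, B⟩, ⟨⟨a1, a2, a3⟩, b1, b2, b3⟩, rfl⟩
    refine ⟨sup_le_sup a1 b1, (a2.mono le_sup_left).trans (b2.mono le_sup_right),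
      fun H hH hr => ?_⟩
    have h1 : H ≤ G ⊔ K := hH.trans (sup_le_sup a1 b1)
    have c1 := a3 (H ⊓ G) ((inf_le_inf_right G hH).trans (l1 a1 b1).le) (r1 h1 hr)
    have c2 := b3 (H ⊓ K) ((inf_le_inf_right K hH).trans (l2 a1 b1).le) (r2 h1 hr)
    rw [← l3 h1, c1, c2]

end Pool.Agent.MP_e633d5_co.H74

end

-- part MP_e633d5_co.H74.Nets
section

/-! Two-terminal networks with a known number of paths and cycles. -/

namespace Pool.Agent.MP_e633d5_co.H74

open SimpleGraph Finset Function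
open scoped symmDiff

variable {V : Type}

theorem cyc_bot [Finite V] : cyc (⊥ : SimpleGraph V) = 0 := by
  rw [cyc_eq', show {H | H ≤ (⊥ : SimpleGraph V) ∧ Circ H} = ∅ from ?_, Set.ncard_empty]
  exact Set.eq_empty_of_forall_notMem fun H hH => hH.2.ne_bot (le_bot_iff.1 hH.1)

theorem c_le_pow [Fintype V] {G : SimpleGraph V} (F : Fund G) (S : Finset (Sym2 V)) :
    F.c S + 1 ≤ 2 ^ S.card := by
  classical
  rw [← card_powerset, Fund.c, ← card_insert_of_notMem (a := ∅)]
  · refine card_le_card fun A hA => ?_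
    rcases mem_insert.1 hA with rfl | hA
    · simp
    · exact mem_powerset.2 (mem_filter.1 hA).2
  · intro h
    obtain ⟨H, -, h2, h3⟩ := F.mem_N.1 (mem_filter.1 h).1
    exact h2.ne_bot (F.eq_bot_of_nt h2.ev.ne_one h3)

/-- An even graph is a cycle or contains two edge-disjoint cycles. -/
theorem circ_or [Fintype V] {K : SimpleGraph V} (h0 : K ≠ ⊥) (h1 : Ev K) :
    Circ K ∨ ∃ A B, Circ A ∧ Circ B ∧ Disjoint A B ∧ A ⊔ B ≤ K := by
  obtain ⟨A, a1, a2⟩ := exists_circ_le h0 h1.ne_one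
  by_cases h2 : K ∆ A = ⊥
  · rw [symmDiff_eq_bot] at h2
    exact Or.inl (h2 ▸ a2)
  obtain ⟨B, b1, b2⟩ := exists_circ_le h2 (h1.symmDiff a2.ev).ne_one
  rw [symmDiff_of_ge a1] at b1
  exact Or.inr ⟨A, B, a2, b2, disjoint_sdiff_self_right.mono_right b1,
    sup_le a1 (b1.trans sdiff_le)⟩

theorem mem_N_or [Fintype V] {G : SimpleGraph V} (F : Fund G) {S : Finset (Sym2 V)}
    (h : S ⊆ F.nt G) (h0 : S.Nonempty) :
    S ∈ F.N ∨ ∃ A B, Circ A ∧ Circ B ∧ Disjoint A B ∧ A ⊔ B ≤ F.Z S := by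
  refine (circ_or (K := F.Z S) (fun hb => ?_) (F.Z_ev h)).imp_left fun h1 =>
    F.mem_N.2 ⟨_, F.Z_le h, h1, F.nt_Z h⟩
  have := F.nt_Z h
  rw [hb, ← F.Z_empty, F.nt_Z (empty_subset _)] at this
  exact h0.ne_empty this.symm

theorem pow_le_c [Fintype V] {G : SimpleGraph V} (F : Fund G) {S : Finset (Sym2 V)}
    (h : ∀ A ⊆ S, A.Nonempty → A ∈ F.N) : 2 ^ S.card ≤ F.c S + 1 := by
  classical
  rw [← card_powerset, Fund.c]
  refine le_trans (card_le_card fun A hA => ?_) (card_insert_le ∅ _)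
  rcases A.eq_empty_or_nonempty with rfl | h1
  · simp
  · exact mem_insert_of_mem (mem_filter.2 ⟨h A (mem_powerset.1 hA) h1, mem_powerset.1 hA⟩)

theorem dg_top4 (v : Fin 4) : dg (⊤ : SimpleGraph (Fin 4)) v = 3 := by
  rw [dg_eq_degree]; simp

theorem cyc_top4 : cyc (⊤ : SimpleGraph (Fin 4)) = 7 := by
  obtain ⟨F⟩ := exists_fund (G := (⊤ : SimpleGraph (Fin 4))) connected_top
  have h2 := card_nt_eq F (μ := 3) (by simp [dg_top4])
  have h3 := c_le_pow F (F.nt ⊤)
  have h4 := pow_le_c F (S := F.nt ⊤) fun A hA h0 => (mem_N_or F hA h0).resolve_right (by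
    rintro ⟨P, Q, h1, h2, h3, -⟩
    have a1 := h1.six_le.1
    have a2 := h2.six_le.1
    have a3 : ∀ v, dg P v + dg Q v ≤ 2 := fun v => by
      have := dg_sup_of_disjoint h3 v
      have := dg_mono (le_top : P ⊔ Q ≤ ⊤) v
      have := dg_top4 v
      have := h1.dg_eq v
      have := h2.dg_eq v
      omega
    have a4 := sum_le_sum (s := univ) fun v _ => a3 v
    rw [sum_add_distrib, sum_dg, sum_dg] at a4
    simp at a4
    omega)
  rw [F.c_nt, h2] at h3 h4
  omega

theorem dg_th (v : Fin 4) : dg th v = ![3, 3, 2, 2] v := by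
  rw [dg_eq_degree]; revert v; decide

theorem th_conn : th.Connected := by
  rw [connected_iff_exists_forall_reachable]
  refine ⟨0, fun w => ?_⟩
  by_cases hw : w = 0
  · rw [hw]
  · exact Adj.reachable ⟨Ne.symm hw, Or.inl (by decide)⟩

theorem cyc_th : cyc th = 3 := by
  obtain ⟨F⟩ := exists_fund th_conn
  have h2 := card_nt_eq F (μ := 2) (by simp only [dg_th]; decide)
  have h3 := cyc_le_small F (by omega)
  have h4 := (F.general (card_pos.1 (by omega))).1
  have h5 := card_le_univ (univ.filter fun v => 2 ≤ dg th v)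
  rw [Fintype.card_fin] at h5
  omega

/-- `d` is the degree function of a graph with `a` paths from `s` to `t` and `b` cycles; if `n`
holds, the terminals are not adjacent. -/
def RN (n : Prop) (d : V → ℕ) (s t : V) (a b : ℕ) : Prop :=
  ∃ G : SimpleGraph V, ConnS G ∧ cyc G = b ∧ pth G s t = a ∧ (∀ v, dg G v = d v) ∧
    (n → ¬G.Adj s t)

theorem RN.toR {n : Prop} {d : V → ℕ} {s t : V} {a b : ℕ} (h : RN n d s t a b) : R d b :=
  let ⟨G, h1, h2, _, h4, _⟩ := h
  ⟨G, h1, h2, h4⟩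

theorem RN.symm {n : Prop} {d : V → ℕ} {s t : V} {a b : ℕ} (h : RN n d s t a b) :
    RN n d t s a b :=
  let ⟨G, h1, h2, h3, h4, h5⟩ := h
  ⟨G, h1, h2, (pth_comm G t s).trans h3, h4, fun hn h => h5 hn h.symm⟩

theorem RN.congr {n : Prop} {d d' : V → ℕ} {s t : V} {a b : ℕ} (h : RN n d s t a b)
    (hd : ∀ v, d v = d' v) : RN False d' s t a b := by
  obtain ⟨G, h1, h2, h3, h4, -⟩ := h
  exact ⟨G, h1, h2, h3, fun v => (h4 v).trans (hd v), False.elim⟩

variable [Fintype V] [DecidableEq V]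

theorem dg_edge {s t : V} (h : s ≠ t) (v : V) :
    dg (edge s t) v = if v = s ∨ v = t then 1 else 0 := by
  have h0 : ∀ w, ¬(⊥ : SimpleGraph V).Adj s w := by simp
  rw [← bot_sup_eq (edge s t)]
  by_cases h1 : v = s
  · rw [h1, dg_pend_self h0 h]; simp
  by_cases h2 : v = t
  · rw [h2, dg_pend_att h0 h, dg_bot]; simp
  rw [dg_pend_ne h1 h2, dg_bot]; simp [h1, h2]

theorem RN_edge {s t : V} (h : s ≠ t) :
    RN False (fun v => if v = s ∨ v = t then 1 else 0) s t 1 0 := by
  refine ⟨edge s t, fun x y hx hy => ?_, ?_, pth_edge h, dg_edge h, False.elim⟩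
  · rw [dg_edge h] at hx hy
    have := edge_reach h
    split_ifs at hx hy with h1 h2
    · rcases h1 with rfl | rfl <;> rcases h2 with rfl | rfl
      exacts [Reachable.refl _, this, this.symm, Reachable.refl _]
    all_goals omega
  · rw [← bot_sup_eq (edge s t), cyc_pend (by simp) h, cyc_bot]

omit [DecidableEq V] in
theorem connS_glue {G K : SimpleGraph V} {w : V} (a1 : ConnS G) (b1 : ConnS K) (c1 : Disjoint G K)
    (h1 : 0 < dg G w) (h2 : 0 < dg K w) : ConnS (G ⊔ K) := by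
  have key : ∀ x, 0 < dg (G ⊔ K) x → (G ⊔ K).Reachable x w := by
    intro x hx
    rw [dg_sup_of_disjoint c1] at hx
    by_cases h3 : 0 < dg G x
    · exact (a1 x w h3 h1).mono le_sup_left
    · exact (b1 x w (by omega) h2).mono le_sup_right
  exact fun x y hx hy => (key x hx).trans (key y hy).symm

omit [DecidableEq V] in
theorem RN.glue {n n' : Prop} {d d' : V → ℕ} {s w t : V} {a b a' b' : ℕ} (h : RN n d s w a b)
    (h' : RN n' d' w t a' b') (hw : ∀ x, 0 < d x → 0 < d' x → x = w) (h1 : 0 < d w)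
    (h2 : 0 < d' w) (hs : 0 < d s) (ht : 0 < d' t) :
    RN False (fun v => d v + d' v) s t (a * a') (b + b') := by
  obtain ⟨G, a1, rfl, rfl, a3, -⟩ := h
  obtain ⟨K, b1, rfl, rfl, b3, -⟩ := h'
  have hw' : ∀ x, 0 < dg G x → 0 < dg K x → x = w := by simpa only [a3, b3] using hw
  obtain ⟨c1, c2⟩ := cyc_glue hw'
  exact ⟨G ⊔ K, connS_glue a1 b1 c1 (a3 w ▸ h1) (b3 w ▸ h2), c2,
    pth_glue hw' (a3 s ▸ hs) (b3 t ▸ ht), fun v => by rw [dg_sup_of_disjoint c1, a3, b3],
    False.elim⟩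

theorem RN.pend {n : Prop} {d : V → ℕ} {s t x : V} {a b : ℕ} (h : RN n d s t a b) (hx : d x = 0)
    (hst : s ≠ t) (hs : 0 < d s) (ht : 0 < d t) :
    RN True (fun v => (if v = x ∨ v = s then 1 else 0) + d v) x t a b := by
  have hxs : x ≠ s := by rintro rfl; omega
  have hxt : x ≠ t := by rintro rfl; omega
  obtain ⟨K, b1, rfl, rfl, b3, -⟩ := h
  obtain ⟨G, a1, a2, a4, a3, -⟩ := RN_edge hxs
  have hw' : ∀ v, 0 < dg (edge x s) v → 0 < dg K v → v = s := fun v h1 h2 => by
    rw [dg_edge hxs] at h1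
    rw [b3] at h2
    grind
  obtain ⟨c1, c2⟩ := cyc_glue hw'
  have b4 : ∀ w, ¬K.Adj x w := dg_eq_zero.1 ((b3 x).trans hx)
  refine ⟨edge x s ⊔ K, ?_, ?_, ?_, fun v => by rw [dg_sup_of_disjoint c1, dg_edge hxs, b3],
    fun _ h => ?_⟩
  · rw [sup_comm]; exact (connS_pend b4 hxs (b3 s ▸ hs)).2 b1
  · rw [sup_comm, cyc_pend b4 hxs]
  · rw [pth_glue hw' (by simp [dg_edge hxs]) (b3 t ▸ ht), pth_edge hxs, one_mul]
  · rcases h with h | h
    · rw [edge_adj] at h
      grind
    · exact b4 t h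

theorem RN.close {d : V → ℕ} {s t : V} {a b : ℕ} (h : RN True d s t a b) (hst : s ≠ t)
    (hs : 0 < d s) (ht : 0 < d t) :
    RN False (fun v => d v + if v = s ∨ v = t then 1 else 0) s t (a + 1) (b + a) := by
  obtain ⟨G, a1, rfl, rfl, a3, a4⟩ := h
  have hn := a4 trivial
  have hd : Disjoint G (edge s t) := by
    rw [disjoint_iff, ← le_bot_iff]
    exact le_of_not_adj (s := s) (t := t) (by rw [bot_sup_eq]; exact inf_le_right)
      fun h => hn h.1
  refine ⟨G ⊔ edge s t, fun x y hx hy => ?_, cyc_add_edge hst hn, pth_add_edge hst hn,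
    fun v => by rw [dg_sup_of_disjoint hd, dg_edge hst, a3], False.elim⟩
  rw [dg_sup_of_disjoint hd, dg_edge hst] at hx hy
  refine (a1 x y ?_ ?_).mono le_sup_left <;> simp only [a3] at * <;> grind

theorem R_k4 {x y z u : V} (h1 : x ≠ y) (h2 : x ≠ z) (h3 : y ≠ z) (h4 : x ≠ u) (h5 : y ≠ u)
    (h6 : z ≠ u) : R (fun v => if v = x ∨ v = y ∨ v = z ∨ v = u then 3 else 0) 7 := by
  refine R.map (d := fun _ : Fin 4 => 3) ⟨⊤, fun x y _ _ => connected_top x y, cyc_top4, dg_top4⟩
    ![x, y, z, u] ?_ _ (fun i => ?_) fun w hw => ?_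
  · intro i j; fin_cases i <;> fin_cases j <;> simp_all [eq_comm]
  · fin_cases i <;> simp
  · refine if_neg ?_
    rintro (rfl | rfl | rfl | rfl)
    exacts [hw ⟨0, rfl⟩, hw ⟨1, rfl⟩, hw ⟨2, rfl⟩, hw ⟨3, rfl⟩]

theorem RN_th {x y z u : V} (h1 : x ≠ y) (h2 : x ≠ z) (h3 : y ≠ z) (h4 : x ≠ u) (h5 : y ≠ u)
    (h6 : z ≠ u) :
    RN False (fun v => if v = x ∨ v = y then 3 else if v = z ∨ v = u then 2 else 0) z u 4 3 := by
  have he : Injective ![x, y, z, u] := by
    intro i j; fin_cases i <;> fin_cases j <;> simp_all [eq_comm]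
  set e : Fin 4 ↪ V := ⟨![x, y, z, u], he⟩ with he'
  have a1 : cyc (th.map e) = 3 := (cyc_map e th).trans cyc_th
  have a2 : ¬(th.map e).Adj (e 2) (e 3) := by
    rw [map_adj_apply]; decide
  have a3 : th.map e ⊔ edge (e 2) (e 3) = (⊤ : SimpleGraph (Fin 4)).map e := by
    refine le_antisymm (sup_le (map_monotone e le_top) (edge_le ?_)) fun p q h => ?_
    · rw [map_adj_apply]; decide
    · obtain ⟨i, j, hij, rfl, rfl⟩ := (map_adj _ _ _ _).1 h
      by_cases hh : th.Adj i j
      · exact Or.inl (map_adj_apply.2 hh)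
      · refine Or.inr ?_
        have : (i = 2 ∧ j = 3) ∨ (i = 3 ∧ j = 2) :=
          (by decide : ∀ i j : Fin 4, i ≠ j → ¬th.Adj i j → (i = 2 ∧ j = 3) ∨ (i = 3 ∧ j = 2))
            i j hij.ne hh
        rw [edge_adj]
        refine ⟨?_, e.injective.ne hij.ne⟩
        rcases this with ⟨rfl, rfl⟩ | ⟨rfl, rfl⟩ <;> simp
  have a4 := cyc_add_edge (e.injective.ne (by decide)) a2
  rw [a3, cyc_map, cyc_top4, a1] at a4
  refine ⟨th.map e, (connS_map e th).2 fun p q _ _ => th_conn p q, a1, ?_, fun w => ?_, False.elim⟩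
  · change pth _ (e 2) (e 3) = 4
    omega
  by_cases hw : w ∈ Set.range e
  · obtain ⟨i, rfl⟩ := hw
    rw [dg_map, dg_th]
    fin_cases i <;> simp [he', h2.symm, h3.symm, h4.symm, h5.symm]
  · rw [dg_map_of_notMem e th hw]
    beta_reduce
    rw [if_neg, if_neg]
    · rintro (rfl | rfl)
      exacts [hw ⟨2, rfl⟩, hw ⟨3, rfl⟩]
    · rintro (rfl | rfl)
      exacts [hw ⟨0, rfl⟩, hw ⟨1, rfl⟩]

end Pool.Agent.MP_e633d5_co.H74

end

-- part MP_e633d5_co.H74.Links
section

/-! Subcubic graphs with a prescribed number of cycles. -/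

namespace Pool.Agent.MP_e633d5_co.H74

open SimpleGraph Finset Function

variable {V : Type} [Fintype V] [DecidableEq V]

/-- The function with value three on `S`, two on `T` and zero elsewhere. -/
def df (S T : Finset V) : V → ℕ := fun v => if v ∈ S then 3 else if v ∈ T then 2 else 0

variable (V) in
/-- There are connected graphs with `x` vertices of degree three, `y` of degree two and `k`
cycles, on any prescribed vertices. -/
def Base (x y k : ℕ) : Prop :=
  ∀ S T : Finset V, Disjoint S T → S.card = x → T.card = y → R (df S T) k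

variable (V) in
/-- Networks with cyclomatic number `μ`, `a` paths between the terminals and `b` cycles. -/
def Net (μ a b : ℕ) : Prop :=
  ∀ (S : Finset V) (s t : V), s ≠ t → s ∉ S → t ∉ S → S.card + 2 = 2 * μ →
    RN False (df S {s, t}) s t a b

theorem Net_D : Net V 2 4 3 := fun S s t h1 h2 h3 h4 => by
  obtain ⟨x, y, hxy, rfl⟩ := card_eq_two.1 (show S.card = 2 by omega)
  simp only [mem_insert, mem_singleton, not_or] at h2 h3
  exact (RN_th hxy (Ne.symm h2.1) (Ne.symm h2.2) (Ne.symm h3.1) (Ne.symm h3.2) h1).congr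
    fun v => by simp [df]

theorem Net.P {μ a b : ℕ} (h : Net V μ a b) (hμ : 1 ≤ μ) : Net V (μ + 1) (a + 1) (b + a) :=
  fun S x y h1 h2 h3 h4 => by
  obtain ⟨s, hs, t, ht, hst⟩ := one_lt_card.1 (show 1 < S.card by omega)
  have c1 := card_erase_add_one hs
  have c2 := card_erase_add_one (mem_erase.2 ⟨hst.symm, ht⟩)
  have a1 := h ((S.erase s).erase t) s t hst (by simp) (by simp) (by omega)
  have hxt : x ≠ t := by rintro rfl; exact h2 ht
  have a2 := a1.pend (x := x) (by simp only [df]; grind) hst (by simp [df]) (by simp [df])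
  have a3 := a2.symm.pend (x := y) (by simp only [df]; grind) hxt.symm (by simp [df]) (by simp)
  exact (a3.close h1.symm (by simp) (by simp)).symm.congr fun v => by simp only [df]; grind

theorem Net.S {μ a b : ℕ} (h : Net V μ a b) (hμ : 1 ≤ μ) : Net V (μ + 2) (a * 4) (b + 3) :=
  fun S s t h1 h2 h3 h4 => by
  obtain ⟨w, hw⟩ := card_pos.1 (show 0 < S.card by omega)
  have c1 := card_erase_add_one hw
  obtain ⟨p, hp⟩ := card_pos.1 (show 0 < (S.erase w).card by omega)
  have c2 := card_erase_add_one hp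
  obtain ⟨q, hq⟩ := card_pos.1 (show 0 < ((S.erase w).erase p).card by omega)
  have c3 := card_erase_add_one hq
  obtain ⟨r, hr⟩ := card_pos.1 (show 0 < (((S.erase w).erase p).erase q).card by omega)
  have c4 := card_erase_add_one hr
  simp only [mem_erase] at hp hq hr
  have hsw : s ≠ w := by rintro rfl; exact h2 hw
  have a1 := h ((((S.erase w).erase p).erase q).erase r) s w hsw (by simp [h2]) (by simp)
    (by omega)
  have a2 := a1.symm.pend (x := p) (by simp only [df]; grind) hsw.symm (by simp [df])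
    (by simp only [df]; grind)
  have a3 := a2.symm.glue (RN_th (x := q) (y := r) (z := p) (u := t) (by grind) (by grind)
    (by grind) (by grind) (by grind) (by grind)) (fun v => by simp only [df]; grind) (by simp)
    (by grind) (by simp only [df]; grind) (by grind)
  exact a3.congr fun v => by simp only [df]; grind

theorem Net.base {μ a b : ℕ} (h : Net V μ a b) (hμ : 1 ≤ μ) : Base V (2 * μ - 2) 2 b :=
  fun S T h1 h2 h3 => by
  obtain ⟨s, t, hst, rfl⟩ := card_eq_two.1 h3
  exact (h S s t hst (fun hs => disjoint_left.1 h1 hs (by simp))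
    (fun ht => disjoint_left.1 h1 ht (by simp)) (by omega)).toR

theorem Base.join {x y k x' y' k' : ℕ} (h : Base V x (y + 1) k) (h' : Base V x' (y' + 1) k') :
    Base V (x + x' + 2) (y + y') (k + k') := fun S T h1 h2 h3 => by
  obtain ⟨p, hp, q, hq, hpq⟩ := one_lt_card.1 (show 1 < S.card by omega)
  have c1 := card_erase_add_one hp
  have c2 := card_erase_add_one (mem_erase.2 ⟨hpq.symm, hq⟩)
  obtain ⟨S1, s1, s2⟩ := exists_subset_card_eq (s := (S.erase p).erase q) (n := x) (by omega)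
  obtain ⟨T1, t1, t2⟩ := exists_subset_card_eq (s := T) (n := y) (by omega)
  have s3 := card_sdiff_add_card_eq_card s1
  have t3 := card_sdiff_add_card_eq_card t1
  rw [Finset.disjoint_left] at h1
  have s4 : ∀ v, v ∈ S1 → v ≠ q ∧ v ≠ p ∧ v ∈ S := fun v hv => by simpa using s1 hv
  have t4 : ∀ v, v ∈ T1 → v ∈ T := fun v hv => t1 hv
  have a1 := h S1 (insert p T1) (Finset.disjoint_left.2 fun v => by grind) s2
    (by rw [card_insert_of_notMem (by grind), t2])
  have a2 := h' ((S.erase p).erase q \ S1) (insert q (T \ T1)) (Finset.disjoint_left.2 fun v => by grind)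
    (by omega) (by rw [card_insert_of_notMem (by grind)]; omega)
  have a3 := a1.glue (RN_edge hpq).toR (w := p) (fun v => by simp only [df]; grind)
    (by simp only [df]; grind) (by simp)
  have a4 := a3.glue a2 (w := q) (fun v => by simp only [df]; grind) (by simp)
    (by simp only [df]; grind)
  exact a4.congr fun v => by simp only [df]; grind

theorem Base.sub {x y k : ℕ} (h : Base V x y k) (hk : 0 < k) : Base V x (y + 1) k :=
  fun S T h1 h2 h3 => by
  obtain ⟨p, hp⟩ := card_pos.1 (show 0 < T.card by omega)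
  have c1 := card_erase_add_one hp
  rw [Finset.disjoint_left] at h1
  refine R.sub (x := p) (by simp only [df]; grind) hk ((h S (T.erase p)
    (Finset.disjoint_left.2 fun v => by grind) h2 (by omega)).congr fun v => ?_)
  simp only [df, update_apply]; grind

theorem Base_T : Base V 0 3 1 := fun S T _ h2 h3 => by
  obtain ⟨x, y, z, h4, h5, h6, rfl⟩ := card_eq_three.1 h3
  rw [card_eq_zero] at h2
  exact (R_tri h4 h5 h6).congr fun v => by simp [df, h2]

theorem four {S : Finset V} (h : S.card = 4) : ∃ x y z u, x ≠ y ∧ x ≠ z ∧ y ≠ z ∧ x ≠ u ∧ y ≠ u ∧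
    z ≠ u ∧ ∀ v, v ∈ S ↔ v = x ∨ v = y ∨ v = z ∨ v = u := by
  obtain ⟨u, T, h1, rfl, h2⟩ := card_eq_succ.1 h
  obtain ⟨x, y, z, h4, h5, h6, rfl⟩ := card_eq_three.1 h2
  exact ⟨x, y, z, u, h4, h5, h6, by grind, by grind, by grind, fun v => by grind⟩

theorem Base_K0 : Base V 4 0 7 := fun S T _ h2 h3 => by
  obtain ⟨x, y, z, u, h4, h5, h6, h7, h8, h9, h⟩ := four h2
  rw [card_eq_zero] at h3
  exact (R_k4 h4 h5 h6 h7 h8 h9).congr fun v => by simp [df, h3, h]

theorem Base_K : Base V 4 1 7 := Base_K0.sub (by omega)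

theorem Base_L : Base V 4 2 6 := fun S T h1 h2 h3 => by
  obtain ⟨x, y, z, u, h4, h5, h6, h7, h8, h9, h⟩ := four h2
  obtain ⟨s, t, hst, rfl⟩ := card_eq_two.1 h3
  have hs : s ∉ S := fun hs => disjoint_left.1 h1 hs (by simp)
  have ht : t ∉ S := fun ht => disjoint_left.1 h1 ht (by simp)
  rw [h] at hs ht
  have a1 := ((RN_edge (s := s) (t := y) (by grind)).pend (x := x) (by grind) (by grind)
    (by simp) (by simp)).close h4 (by simp) (by simp)
  have a2 := a1.pend (x := z) (by grind) h4 (by simp) (by simp)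
  have a3 := (a2.symm.pend (x := u) (by grind) h6 (by simp) (by simp)).close h9.symm (by simp)
    (by simp)
  have a4 := (a3.pend (x := t) (by grind) h9.symm (by simp) (by simp)).close (by grind) (by simp)
    (by simp)
  exact a4.toR.congr fun v => by simp only [df, h]; grind

end Pool.Agent.MP_e633d5_co.H74

end

-- part MP_e633d5_co.H74.Cover
section

/-! Every weight is realised by a chain of logarithmic size. -/

namespace Pool.Agent.MP_e633d5_co.H74

open Finset

variable {V : Type} [Fintype V] [DecidableEq V]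

variable (V) in
/-- A chain link of weight `w` and cyclomatic number at most `M`. -/
def W (w M : ℕ) : Prop :=
  ∃ μ k, 2 ≤ μ ∧ μ ≤ M ∧ 2 * k = 3 * μ + w ∧ Base V (2 * μ - 2) 2 k

theorem W.mono {w M M' : ℕ} (h : W V w M) (hM : M ≤ M') : W V w M' :=
  let ⟨μ, k, h1, h2, h3⟩ := h
  ⟨μ, k, h1, h2.trans hM, h3⟩

theorem W.add {w M w' M' : ℕ} (h : W V w M) (h' : W V w' M') : W V (w + w') (M + M') := by
  obtain ⟨μ, k, h1, h2, h3, h4⟩ := h
  obtain ⟨μ', k', h1', h2', h3', h4'⟩ := h'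
  refine ⟨μ + μ', k + k', by omega, by omega, by omega, ?_⟩
  have := h4.join h4'
  rwa [show 2 * μ - 2 + (2 * μ' - 2) + 2 = 2 * (μ + μ') - 2 by omega] at this

theorem W3 : W V 3 3 := ⟨3, 6, by omega, by omega, by omega, Base_L⟩

theorem W4 : W V 4 4 := ⟨4, 8, by omega, by omega, by omega, Base_T.join Base_K⟩

theorem W5 : W V 5 3 := ⟨3, 7, by omega, by omega, by omega, Base_K.sub (by omega)⟩

variable (V) in
/-- A network described by its cyclomatic number, number of paths and weight. -/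
def NW (μ a w : ℕ) : Prop := 2 ≤ μ ∧ 4 ≤ a ∧ ∃ b, 2 * b = 3 * μ + w ∧ Net V μ a b

theorem NW.toW {μ a w : ℕ} (h : NW V μ a w) : W V w μ :=
  let ⟨h1, _, b, h3, h4⟩ := h
  ⟨μ, b, h1, le_rfl, h3, h4.base (by omega)⟩

theorem NW_D : NW V 2 4 0 := ⟨le_rfl, le_rfl, 3, rfl, Net_D⟩

theorem NW.P {μ a w : ℕ} (h : NW V μ a w) : NW V (μ + 1) (a + 1) (w + 2 * a - 3) :=
  let ⟨h1, h2, b, h3, h4⟩ := h
  ⟨by omega, by omega, b + a, by omega, h4.P (by omega)⟩

theorem NW.S {μ a w : ℕ} (h : NW V μ a w) : NW V (μ + 2) (a * 4) w :=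
  let ⟨h1, h2, b, h3, h4⟩ := h
  ⟨by omega, by omega, b + 3, by omega, h4.S (by omega)⟩

/-- One operation on a network. -/
def stp (e : ℕ × ℕ × ℕ) (c : Bool) : ℕ × ℕ × ℕ :=
  if c then (e.1 + 1, e.2.1 + 1, e.2.2 + 2 * e.2.1 - 3) else (e.1 + 2, e.2.1 * 4, e.2.2)

theorem NW.foldl (l : List Bool) : ∀ e : ℕ × ℕ × ℕ, NW V e.1 e.2.1 e.2.2 →
    NW V (l.foldl stp e).1 (l.foldl stp e).2.1 (l.foldl stp e).2.2 := by
  induction l with
  | nil => exact fun _ h => h
  | cons c l ih =>
    intro e h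
    refine ih _ ?_
    cases c
    · exact h.S
    · exact h.P

variable (V) in
/-- All weights in `[3, M)` are realised with cyclomatic number at most `F`. -/
def Cover (M F : ℕ) : Prop := ∀ w, 3 ≤ w → w < M → W V w F

theorem Cover.mono {M F M' F' : ℕ} (h : Cover V M F) (hM : M' ≤ M) (hF : F ≤ F') :
    Cover V M' F' := fun w h1 h2 => (h w h1 (by omega)).mono hF

variable (V) in
/-- A table of covered ranges. -/
def Tab (t : List (ℕ × ℕ)) : Prop := ∀ p ∈ t, Cover V p.2 p.1

/-- The best range of the table for a given budget. -/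
def look : List (ℕ × ℕ) → ℕ → ℕ
  | [], _ => 0
  | p :: r, F => if p.1 ≤ F then max p.2 (look r F) else look r F

theorem Tab.look {t : List (ℕ × ℕ)} (h : Tab V t) (F : ℕ) : Cover V (look t F) F := by
  induction t with
  | nil => exact fun w _ h2 => absurd h2 (by simp [H74.look])
  | cons p r ih =>
    have h1 := ih fun q hq => h q (List.mem_cons_of_mem _ hq)
    rw [H74.look]
    split_ifs with h2
    · intro w h3 h4
      rcases lt_max_iff.1 h4 with h5 | h5
      · exact (h p List.mem_cons_self w h3 h5).mono h2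
      · exact h1 w h3 h5
    · exact h1

/-- The range reached by a list of networks. -/
def chk (t : List (ℕ × ℕ)) (F : ℕ) : ℕ → List (List Bool) → ℕ
  | cur, [] => cur
  | cur, l :: ls =>
    if (l.foldl stp (2, 4, 0)).1 ≤ F then
      if (l.foldl stp (2, 4, 0)).2.2 = cur then chk t F (cur + 1) ls
      else if (l.foldl stp (2, 4, 0)).2.2 + 3 ≤ cur then
        chk t F (max cur ((l.foldl stp (2, 4, 0)).2.2 + look t (F - (l.foldl stp (2, 4, 0)).1))) ls
      else 0
    else 0

theorem Tab.chk {t : List (ℕ × ℕ)} (h : Tab V t) (F : ℕ) (ls : List (List Bool)) :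
    ∀ cur, Cover V cur F → Cover V (chk t F cur ls) F := by
  induction ls with
  | nil => exact fun _ h => h
  | cons l ls ih =>
    intro cur hc
    have h0 := (NW.foldl (V := V) l (2, 4, 0) NW_D).toW
    rw [H74.chk]
    generalize (l.foldl stp (2, 4, 0)).1 = c at *
    generalize (l.foldl stp (2, 4, 0)).2.2 = v at *
    split_ifs with h1 h2 h3
    · refine ih _ fun w h4 h5 => ?_
      by_cases h6 : w < cur
      · exact hc w h4 h6
      · obtain rfl : w = v := by omega
        exact h0.mono h1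
    · refine ih _ fun w h4 h5 => ?_
      by_cases h6 : w < cur
      · exact hc w h4 h6
      · have := h0.add (h.look (F - c) (w - v) (by omega) (by omega))
        rwa [show v + (w - v) = w by omega, show c + (F - c) = F by omega] at this
    · exact fun w _ h2 => absurd h2 (by omega)
    · exact fun w _ h2 => absurd h2 (by omega)

theorem Tab.ext {t : List (ℕ × ℕ)} (h : Tab V t) {F M : ℕ} (ls : List (List Bool))
    (hM : M ≤ H74.chk t F (H74.look t F) ls) : Tab V ((F, M) :: t) := fun p hp => by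
  rcases List.mem_cons.1 hp with rfl | hp
  · exact (h.chk F ls _ (h.look F)).mono hM le_rfl
  · exact h p hp

theorem tab0 : Tab V [(3, 4), (4, 6), (6, 7), (7, 11), (9, 14)] := by
  have h12 : W V 12 4 := (NW_D.P.P).toW
  have key : ∀ w, 3 ≤ w → w < 14 → W V w (if w < 4 then 3 else if w < 6 then 4 else
      if w < 7 then 6 else if w < 11 then 7 else 9) := by
    intro w h1 h2
    interval_cases w
    exacts [W3, W4, W5.mono (by decide), W3.add W3, W3.add W4, (W3.add W5).mono (by decide),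
      W4.add W5, (W5.add W5).mono (by decide), (W3.add W3).add W5, h12.mono (by decide),
      (W3.add W5).add W5]
  intro p hp w h1 h2
  simp only [List.mem_cons, List.not_mem_nil, or_false] at hp
  rcases hp with rfl | rfl | rfl | rfl | rfl <;>
  · refine (key w h1 (by omega)).mono ?_
    dsimp only at h2 ⊢
    split_ifs <;> omega

theorem tab1 : Tab V [(11, 23), (3, 4), (4, 6), (6, 7), (7, 11), (9, 14)] :=
  tab0.ext (F := 11) (M := 23)
      [[true], [true, true]]
    (by decide +kernel)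

theorem tab2 : Tab V [(13, 43), (11, 23), (3, 4), (4, 6), (6, 7), (7, 11), (9, 14)] :=
  tab1.ext (F := 13) (M := 43)
      [[true, true], [true, true, true], [false, true], [true, true, true, true]]
    (by decide +kernel)

theorem tab3 : Tab V [(15, 56), (13, 43), (11, 23), (3, 4), (4, 6), (6, 7), (7, 11), (9, 14)] :=
  tab2.ext (F := 15) (M := 56)
      [[true, true, true, true], [true, false, true]]
    (by decide +kernel)

theorem tab4 : Tab V [(17, 95), (15, 56), (13, 43), (11, 23), (3, 4), (4, 6), (6, 7), (7, 11), (9, 14)] :=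
  tab3.ext (F := 17) (M := 95)
      [[true, false, true], [false, true, true], [true, true, true, false, true], [true, false,
      true, true]]
    (by decide +kernel)

theorem tab5 : Tab V [(20, 200), (17, 95), (15, 56), (13, 43), (11, 23), (3, 4), (4, 6), (6, 7), (7, 11), (9, 14)] :=
  tab4.ext (F := 20) (M := 200)
      [[true, false, true, true], [false, true, true, true], [false, false, true], [true, false,
      true, true, true, true], [true, true, true, true, true, false, true, true], [true, true,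
      true, false, true, true, true]]
    (by decide +kernel)

theorem tab6 : Tab V [(27, 1030), (20, 200), (17, 95), (15, 56), (13, 43), (11, 23), (3, 4), (4, 6), (6, 7), (7, 11), (9, 14)] :=
  tab5.ext (F := 27) (M := 1030)
      [[false, false, true], [true, false, false, true, true], [true, true, false, false, true,
      true], [true, false, false, true, true, true], [false, true, false, false, true], [true,
      false, false, false, true], [true, false, true, false, true, true, true, true], [true, true,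
      true, false, true, false, true, true, true], [true, false, false, true, false, true], [true,
      true, false, true, false, false, true], [true, true, true, true, true, false, false, true,
      true, true], [true, true, false, true, true, false, true, true, true, true], [true, true,
      false, false, true, false, true]]
    (by decide +kernel)

theorem tab7 : Tab V [(36, 4244), (27, 1030), (20, 200), (17, 95), (15, 56), (13, 43), (11, 23), (3, 4), (4, 6), (6, 7), (7, 11), (9, 14)] :=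
  tab6.ext (F := 36) (M := 4244)
      [[false, false, false, true], [false, false, false, true, true, true], [false, true, false,
      true, true, true, true, false, true, true], [false, true, true, true, false, false, true,
      true, true], [true, true, false, true, true, true, false, true, false, true, true], [true,
      true, true, false, true, true, false, true, false, true, true], [true, true, true, true,
      true, false, true, false, false, true, true], [true, true, false, true, false, true, false,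
      true, true, true], [true, true, true, false, true, false, false, true, true, true], [true,
      true, true, false, true, true, false, false, true, true, true], [true, true, true, false,
      false, true, true, false, true, true, true], [true, true, true, true, false, false, true,
      false, true, true, true], [true, true, false, false, true, true, false, true, true, true,
      true], [true, true, false, true, false, true, true, false, false, true], [true, true, true,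
      false, false, true, false, true, true, true, true], [true, true, true, false, true, false,
      true, false, false, true]]
    (by decide +kernel)

theorem NW.Ps {μ a w : ℕ} (h : NW V μ a w) (r : ℕ) :
    ∃ w', NW V (μ + r) (a + r) w' ∧ w' + 4 * r = w + r * (2 * a + r) := by
  induction r with
  | zero => exact ⟨w, h, by simp⟩
  | succ r ih =>
    obtain ⟨w', h1, h2⟩ := ih
    refine ⟨_, h1.P, ?_⟩
    have := h.2.1
    have h3 : (r + 1) * (2 * a + (r + 1)) = r * (2 * a + r) + 2 * a + 2 * r + 1 := by ring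
    omega

theorem NW.Ss {μ a w : ℕ} (h : NW V μ a w) (n : ℕ) : NW V (μ + 2 * n) (a * 4 ^ n) w := by
  induction n with
  | zero => simpa using h
  | succ n ih =>
    have := ih.S
    rwa [mul_assoc, ← pow_succ, add_assoc, ← mul_add_one] at this

theorem exists_NW (a : ℕ) : 4 ≤ a → ∃ μ w, NW V μ a w ∧ w ≤ 11 * a ∧
    ∀ J, a < 2 * 4 ^ J → μ ≤ 5 * J + 3 := by
  induction a using Nat.strong_induction_on with
  | _ a ih =>
  intro h
  by_cases h1 : a < 16
  · obtain ⟨r, rfl⟩ := Nat.exists_eq_add_of_le h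
    obtain ⟨w, h2, h3⟩ := (NW_D (V := V)).Ps r
    refine ⟨_, w, h2, by nlinarith, fun J hJ => ?_⟩
    rcases J with _ | _ | J <;> omega
  · obtain ⟨μ, w, h2, h3, h4⟩ := ih (a / 4) (by omega) (by omega)
    obtain ⟨w', h5, h6⟩ := h2.S.Ps (a % 4)
    rw [show a / 4 * 4 + a % 4 = a by omega] at h5
    refine ⟨_, w', h5, ?_, fun J hJ => ?_⟩
    · have h7 : a % 4 * (2 * (a / 4 * 4) + a % 4) ≤ 3 * (2 * a) :=
        Nat.mul_le_mul (by omega) (by omega)
      omega
    · rcases J with _ | J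
      · omega
      · have := h4 J (by rw [pow_succ] at hJ; omega)
        omega

theorem big {J n F F' : ℕ} (h : Cover V (4 ^ (n + 1)) F) (h1 : J + 2 ≤ n) (h2 : 2 ≤ J)
    (h' : Cover V (4 ^ (J + n)) F') (hF : 5 * J + 2 * n + 4 + F ≤ F') :
    Cover V (4 ^ (J + n + 1)) F' := by
  intro w h3 h4
  by_cases h5 : w < 4 ^ (J + n)
  · exact h' w h3 h5
  have a1 : 4 ^ (J + 2) ≤ 4 ^ n := Nat.pow_le_pow_right (by omega) h1
  have a2 : 4 ^ 2 ≤ 4 ^ J := Nat.pow_le_pow_right (by omega) h2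
  rw [pow_succ, pow_add] at h4
  rw [pow_add] at h5 a1
  rw [pow_succ] at h
  generalize hP : 4 ^ n = P at *
  generalize hQ : 4 ^ J = Q at *
  have a3 : 16 * P ≤ Q * P := Nat.mul_le_mul_right _ a2
  have a4 := Nat.div_add_mod (w - 22 * Q) (2 * P)
  have a5 := Nat.mod_lt (w - 22 * Q) (show 0 < 2 * P by omega)
  have a6 : 4 ≤ (w - 22 * Q) / (2 * P) := (Nat.le_div_iff_mul_le (by omega)).2 (by omega)
  have a7 : (w - 22 * Q) / (2 * P) < 2 * Q :=
    (Nat.div_lt_iff_lt_mul (by omega)).2 (by nlinarith [Nat.sub_le w (22 * Q)])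
  generalize (w - 22 * Q) / (2 * P) = a at *
  obtain ⟨μ, v, b1, b2, b3⟩ := exists_NW (V := V) a a6
  have b4 := b3 J (hQ ▸ a7)
  have b5 := (b1.Ss n).P.toW
  rw [hP] at b5
  have b6 : 2 * P * a = 2 * (a * P) := by ring
  have b7 : 4 * P ≤ a * P := Nat.mul_le_mul_right _ a6
  have := b5.add (h (w - (v + 2 * (a * P) - 3)) (by omega) (by omega))
  rw [show v + 2 * (a * P) - 3 + (w - (v + 2 * (a * P) - 3)) = w by omega] at this
  exact this.mono (by omega)

theorem cov27 : Cover V (4 ^ 5) 27 := (tab7 (27, 1030) (by simp)).mono (by norm_num) le_rfl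

theorem cov36 : Cover V (4 ^ 6) 36 := (tab7 (36, 4244) (by simp)).mono (by norm_num) le_rfl

theorem cov49 : Cover V (4 ^ 7) 49 :=
  big (J := 2) (n := 4) cov27 (by omega) (by omega) (cov36.mono le_rfl (by omega)) (by omega)

theorem cov_all (u : ℕ) : 5 ≤ u → Cover V (4 ^ u) (10 * u - 20) := by
  induction u using Nat.strong_induction_on with
  | _ u ih =>
  intro h
  by_cases h1 : u = 5
  · exact h1 ▸ cov27.mono le_rfl (by omega)
  by_cases h2 : u = 6
  · exact h2 ▸ cov36.mono le_rfl (by omega)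
  by_cases h3 : u = 7
  · exact h3 ▸ cov49.mono le_rfl (by omega)
  by_cases h4 : u = 8
  · exact h4 ▸ big (J := 2) (n := 5) cov36 (by omega) (by omega)
      (cov49.mono le_rfl (by omega)) (by omega)
  by_cases h5 : u = 10
  · subst h5
    exact big (J := 3) (n := 6) cov49 (by omega) (by omega)
      ((ih 9 (by omega) (by omega)).mono le_rfl (by omega)) (by omega)
  obtain ⟨J, n, rfl, a1, a2⟩ : ∃ J n, u = J + n + 1 ∧ J + 2 ≤ n ∧ 2 * n + 4 ≤ 5 * J :=
    ⟨u - u / 2 - 2, u / 2 + 1, by omega, by omega, by omega⟩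
  exact big (ih (n + 1) (by omega) (by omega)) a1 (by omega)
    ((ih (J + n) (by omega) (by omega)).mono le_rfl (by omega)) (by omega)

theorem le_of_pow {w m a b : ℕ} (hk : (w + 10) ^ 5 ≤ 2 ^ (m + 5)) (ha : a ≤ w + 10)
    (hb : 2 ^ (b + 4) < a ^ 5) : b ≤ m := by
  by_contra hn
  have b1 : a ^ 5 ≤ (w + 10) ^ 5 := Nat.pow_le_pow_left ha 5
  have b2 : 2 ^ (m + 5) ≤ 2 ^ (b + 4) := Nat.pow_le_pow_right (by omega) (by omega)
  omega

/-- The weights needed in the range of the theorem. -/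
theorem W_of_range {m w : ℕ} (hk : (w + 10) ^ 5 ≤ 2 ^ (m + 5)) (hm : 13 ≤ m) (hw : 3 ≤ w) :
    W V w (m - 6) := by
  by_cases h1 : w < 11
  · exact (tab7 (7, 11) (by simp) w hw h1).mono (by omega)
  have a1 := le_of_pow (a := 21) (b := 17) hk (by omega) (by norm_num)
  by_cases h2 : w < 23
  · exact (tab7 (11, 23) (by simp) w hw h2).mono (by omega)
  have a2 := le_of_pow (a := 33) (b := 21) hk (by omega) (by norm_num)
  by_cases h3 : w < 56
  · exact (tab7 (15, 56) (by simp) w hw h3).mono (by omega)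
  have a3 := le_of_pow (a := 66) (b := 26) hk (by omega) (by norm_num)
  by_cases h4 : w < 200
  · exact (tab7 (20, 200) (by simp) w hw h4).mono (by omega)
  have a4 := le_of_pow (a := 210) (b := 33) hk (by omega) (by norm_num)
  by_cases h5 : w < 4 ^ 5
  · exact (cov27 w hw h5).mono (by omega)
  have a5 := Nat.lt_pow_succ_log_self (b := 4) (by omega) w
  have a6 := Nat.pow_log_le_self 4 (x := w) (by omega)
  have a7 : 5 ≤ Nat.log 4 w := Nat.le_log_of_pow_le (by omega) (by omega)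
  generalize Nat.log 4 w = u at *
  refine (cov_all (u + 1) (by omega) w hw a5).mono ?_
  have b1 : (4 ^ u) ^ 5 < (w + 10) ^ 5 := Nat.pow_lt_pow_left (by omega) (by omega)
  rw [show 4 = 2 ^ 2 by norm_num, ← pow_mul, ← pow_mul] at b1
  have b2 := le_of_pow (b := 10 * u - 4) hk le_rfl
    (by rwa [show 10 * u - 4 + 4 = 2 * (u * 5) by omega])
  omega

end Pool.Agent.MP_e633d5_co.H74

end

-- part MP_e633d5_co.H74.Suff
section

/-! Realisations of sequences with many entries at least three. -/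

namespace Pool.Agent.MP_e633d5_co.H74

open SimpleGraph Finset Function

variable {V : Type} [Fintype V] [DecidableEq V]

theorem construct2 {x0 y0 k0 : ℕ} (hB : Base V x0 y0 k0) (hx0 : 2 ≤ x0) (hy0 : 1 ≤ y0)
    (hk0 : 0 < k0) (hev : x0 % 2 = 0) (N : ℕ) : ∀ (d : V → ℕ) (t s : ℕ), ∑ u, d u = N →
    ∑ u, d u = 2 * ct (1 ≤ ·) d + 4 * t + 2 * s + x0 →
    2 * t + x0 ≤ ct (fun n => n % 2 = 1 ∧ 3 ≤ n) d → 3 * t + 2 * s + x0 + y0 ≤ ct (2 ≤ ·) d →
    4 * t + 3 * s + x0 + y0 ≤ ∑ u, d u / 2 → R d (k0 + 3 * t + s) := by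
  induction N using Nat.strong_induction_on with
  | _ N ih =>
  rintro d t s hN i1 i2 i3 i4
  obtain ⟨r1, r2, r3, r4, r5, r6, r7⟩ := rels d
  by_cases c1 : 0 < ct (· = 1) d
  · by_cases c2 : 2 * t + x0 < ct (fun n => n % 2 = 1 ∧ 3 ≤ n) d
    · obtain ⟨x, hx⟩ := pick1 c1
      obtain ⟨v, hv⟩ := pick1 (P := fun n => n % 2 = 1 ∧ 3 ≤ n) (d := d) (by omega)
      have hne : v ≠ x := by rintro rfl; omega
      obtain ⟨a1, a2, a3, a4, a5⟩ := rem1 hx
      obtain ⟨b1, b2, b3, b4, b5⟩ := dec1 (d := update d x 0) (v := v) (a := d v - 1)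
        (by rw [update_of_ne hne]; omega) (by omega) (by omega)
      refine R.leaf (v := v) hx (by omega) (ih _ ?_ _ t s rfl ?_ ?_ ?_ ?_) <;> omega
    · obtain ⟨x, y, hx, hy, hxy⟩ := pick2 (P := (· = 1)) (d := d) (by omega)
      obtain ⟨v, hv⟩ := pick1 (P := (4 ≤ ·)) (d := d) (by omega)
      have h1 : v ≠ x := by rintro rfl; omega
      have h2 : v ≠ y := by rintro rfl; omega
      have h3 : update (update (update (update d x 0) v (d v - 1)) y 0) v (d v - 1 - 1) =
          update (update (update d x 0) y 0) v (d v - 2) := by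
        funext u
        simp only [update_apply]
        split_ifs <;> rfl
      obtain ⟨a1, a2, a3, a4, a5⟩ := rem1 hx
      obtain ⟨b1, b2, b3, b4, b5⟩ := rem1 (d := update d x 0) (v := y)
        (by rw [update_of_ne hxy.symm, hy])
      obtain ⟨e1, e2, e3, e4, e5⟩ := dec2 (d := update (update d x 0) y 0) (v := v) (a := d v - 2)
        (by rw [update_of_ne h2, update_of_ne h1]; omega) (by omega)
      refine R.leaf (v := v) hx (by omega) (R.leaf (x := y) (v := v)
        (by simp [h2.symm, hxy.symm, hy])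
        (by simp; omega) ?_)
      rw [update_self, h3]
      refine ih _ ?_ _ t s rfl ?_ ?_ ?_ ?_ <;> omega
  by_cases c2 : t + s = 0
  · obtain rfl : t = 0 := by omega
    obtain rfl : s = 0 := by omega
    by_cases c3 : y0 < ct (· = 2) d
    · obtain ⟨x, hx⟩ := pick1 (P := (· = 2)) (d := d) (by omega)
      obtain ⟨a1, a2, a3, a4, a5⟩ := rem2 hx
      refine R.sub hx (by omega) (ih _ ?_ _ 0 0 rfl ?_ ?_ ?_ ?_) <;> omega
    · have h1 : ct (· = 1) d = 0 := by omega
      have h2 : ct (4 ≤ ·) d = 0 := by omega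
      refine (hB (univ.filter fun v => d v = 3) (univ.filter fun v => d v = 2)
        (disjoint_filter.2 fun v _ h => by omega) (show ct (· = 3) d = _ by omega)
        (show ct (· = 2) d = _ by omega)).congr fun v => ?_
      have := filter_eq_empty_iff.1 (card_eq_zero.1 h1) (mem_univ v)
      have := filter_eq_empty_iff.1 (card_eq_zero.1 h2) (mem_univ v)
      simp only [df, mem_filter, mem_univ, true_and]
      split_ifs <;> omega
  rcases s with _ | s
  · obtain ⟨t, rfl⟩ : ∃ t', t = t' + 1 := ⟨t - 1, by omega⟩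
    obtain ⟨z, hz⟩ := pick1 (P := (· = 2)) (d := d) (by omega)
    obtain ⟨x, y, v, hx, hy, hv, h1, h2, h3⟩ : ∃ x y v, d x = 3 ∧ d y = 3 ∧
        (4 ≤ d v ∨ d v = 3 ∧ ct (4 ≤ ·) d = 0) ∧ x ≠ y ∧ x ≠ v ∧ y ≠ v := by
      by_cases c5 : 0 < ct (4 ≤ ·) d
      · obtain ⟨v, hv⟩ := pick1 c5
        obtain ⟨x, y, hx, hy, h1⟩ := pick2 (P := (· = 3)) (d := d) (by omega)
        exact ⟨x, y, v, hx, hy, Or.inl hv, h1, by rintro rfl; omega, by rintro rfl; omega⟩
      · obtain ⟨x, y, v, hx, hy, hv, h1, h2, h3⟩ := pick3 (P := (· = 3)) (d := d) (by omega)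
        exact ⟨x, y, v, hx, hy, Or.inr ⟨hv, by omega⟩, h1, h2, h3⟩
    have h4 : z ≠ x := by rintro rfl; omega
    have h5 : z ≠ y := by rintro rfl; omega
    have h6 : v ≠ z := by rintro rfl; omega
    obtain ⟨a1, a2, a3, a4, a5⟩ := rem3 hx
    obtain ⟨b1, b2, b3, b4, b5⟩ := rem3 (d := update d x 0) (v := y)
      (by rw [update_of_ne h1.symm, hy])
    obtain ⟨e1, e2, e3, e4, e5⟩ := rem2 (d := update (update d x 0) y 0) (v := z)
      (by rw [update_of_ne h5, update_of_ne h4, hz])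
    have h7 : update (update (update d x 0) y 0) z 0 v = d v := by
      rw [update_of_ne h6, update_of_ne h3.symm, update_of_ne h2.symm]
    rw [show k0 + 3 * (t + 1) + 0 = k0 + 3 * t + 0 + 3 by ring]
    rcases hv with hv | ⟨hv, h8⟩
    · obtain ⟨f1, f2, f3, f4, f5⟩ := dec2 (a := d v - 2) (h7.trans (by omega)) (by omega)
      refine R.theta hx hy hz h1 h2 h3 (by omega) (ih _ ?_ _ t 0 rfl ?_ ?_ ?_ ?_) <;> omega
    · obtain ⟨f1, f2, f3, f4, f5⟩ := dec3 (a := d v - 2) (h7.trans hv) (by omega)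
      refine R.theta hx hy hz h1 h2 h3 (by omega) (ih _ ?_ _ t 0 rfl ?_ ?_ ?_ ?_) <;> omega
  · obtain ⟨x, y, hx, hy, h1⟩ := pick2 (P := (· = 2)) (d := d) (by omega)
    obtain ⟨v, hv⟩ : ∃ v, 4 ≤ d v ∨ d v = 3 ∧ ct (4 ≤ ·) d = 0 := by
      by_cases c5 : 0 < ct (4 ≤ ·) d
      · exact (pick1 c5).imp fun _ => Or.inl
      · exact (pick1 (P := (· = 3)) (d := d) (by omega)).imp fun _ h => Or.inr ⟨h, by omega⟩
    have h2 : v ≠ x := by rintro rfl; omega
    have h3 : v ≠ y := by rintro rfl; omega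
    obtain ⟨a1, a2, a3, a4, a5⟩ := rem2 hx
    obtain ⟨b1, b2, b3, b4, b5⟩ := rem2 (d := update d x 0) (v := y)
      (by rw [update_of_ne h1.symm, hy])
    have h7 : update (update d x 0) y 0 v = d v := by rw [update_of_ne h3, update_of_ne h2]
    rcases hv with hv | ⟨hv, h8⟩
    · obtain ⟨f1, f2, f3, f4, f5⟩ := dec2 (a := d v - 2) (h7.trans (by omega)) (by omega)
      refine R.tri (v := v) hx hy h1 (by omega) (ih _ ?_ _ t s rfl ?_ ?_ ?_ ?_) <;> omega
    · obtain ⟨f1, f2, f3, f4, f5⟩ := dec3 (a := d v - 2) (h7.trans hv) (by omega)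
      refine R.tri (v := v) hx hy h1 (by omega) (ih _ ?_ _ t s rfl ?_ ?_ ?_ ?_) <;> omega

omit [DecidableEq V] in
theorem rels2 (d : V → ℕ) :
    2 * ct (3 ≤ ·) d ≤ ∑ u, d u / 2 + ct (fun n => n % 2 = 1 ∧ 3 ≤ n) d ∧
    ct (· = 1) d + 2 * ct (2 ≤ ·) d + ct (3 ≤ ·) d + ct (4 ≤ ·) d ≤ ∑ u, d u ∧
    ct (3 ≤ ·) d = ct (fun n => n % 2 = 1 ∧ 3 ≤ n) d + ct (fun n => n % 2 = 0 ∧ 4 ≤ n) d ∧
    ct (fun n => n % 2 = 0 ∧ 4 ≤ n) d ≤ ct (4 ≤ ·) d ∧
    ct (2 ≤ ·) d + ct (4 ≤ ·) d + ct (6 ≤ ·) d ≤ ∑ u, d u / 2 ∧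
    ct (3 ≤ ·) d ≤ ct (2 ≤ ·) d ∧ ct (3 ≤ ·) d = ct (· = 3) d + ct (4 ≤ ·) d := by
  simp only [ct_eq, mul_sum, ← sum_add_distrib]
  refine ⟨sum_le_sum fun v _ => ?_, sum_le_sum fun v _ => ?_, sum_congr rfl fun v _ => ?_,
    sum_le_sum fun v _ => ?_, sum_le_sum fun v _ => ?_, sum_le_sum fun v _ => ?_,
    sum_congr rfl fun v _ => ?_⟩
  all_goals split_ifs <;> omega

theorem ct3_upd (d : V → ℕ) (v : V) (a : ℕ) :
    ct (3 ≤ ·) (update d v a) + (if 3 ≤ d v then 1 else 0) =
      ct (3 ≤ ·) d + if 3 ≤ a then 1 else 0 := by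
  rw [ct_eq, ct_eq]
  exact sum_upd (fun n => if 3 ≤ n then 1 else 0) d v a

theorem rich {x0 y0 k0 t s : ℕ} (hB : Base V x0 y0 k0) (hx0 : 2 ≤ x0) (hy0 : 1 ≤ y0)
    (hk0 : 0 < k0) (hev : x0 % 2 = 0) (hy : y0 ≤ 2 * t + s) (N : ℕ) : ∀ d : V → ℕ, ∑ u, d u = N →
    ∑ u, d u = 2 * ct (1 ≤ ·) d + 4 * t + 2 * s + x0 →
    4 * t + 2 * s + x0 ≤ ct (3 ≤ ·) d → 3 * t + 2 * s + x0 + y0 ≤ ct (2 ≤ ·) d →
    4 * t + 3 * s + x0 + y0 ≤ ∑ u, d u / 2 → R d (k0 + 3 * t + s) := by
  induction N using Nat.strong_induction_on with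
  | _ N ih =>
  intro d hN i1 i2 i3 i4
  by_cases c : 2 * t + x0 ≤ ct (fun n => n % 2 = 1 ∧ 3 ≤ n) d
  · exact construct2 hB hx0 hy0 hk0 hev _ d t s rfl i1 c i3 i4
  obtain ⟨r1, r2, r3, r4, r5, r6, r7⟩ := rels2 d
  have r8 := (rels d).2.1
  obtain ⟨x, hx⟩ := pick1 (P := (· = 1)) (d := d) (by omega)
  obtain ⟨v, hv⟩ := pick1 (P := fun n => n % 2 = 0 ∧ 4 ≤ n) (d := d) (by omega)
  have hne : v ≠ x := by rintro rfl; omega
  obtain ⟨a1, a2, a3, a4, a5⟩ := rem1 hx
  have hv' : update d x 0 v = d v := update_of_ne hne _ _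
  obtain ⟨b1, b2, b3, b4, b5⟩ := dec1' (d := update d x 0) (v := v) (a := d v - 1)
    (by omega) (by omega) (by omega)
  have e1 := ct3_upd d x 0
  have e2 := ct3_upd (update d x 0) v (d v - 1)
  rw [if_neg (by omega), if_neg (by omega)] at e1
  rw [if_pos (by omega), if_pos (by omega)] at e2
  refine R.leaf (v := v) hx (by omega) (ih _ ?_ _ rfl ?_ ?_ ?_ ?_) <;> omega

theorem W0 : W V 0 2 := NW_D.toW

theorem W.exact {w M μ k : ℕ} (h : W V w M) (hM : M ≤ μ) (hk : 2 * k = 3 * μ + w) :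
    Base V (2 * μ - 2) 2 k := by
  obtain ⟨μ', k', h1, h2, h3, h4⟩ := h
  obtain ⟨j, rfl⟩ : ∃ j, μ = μ' + 2 * j := ⟨(μ - μ') / 2, by omega⟩
  obtain rfl : k = k' + 3 * j := by omega
  clear hM hk
  induction j with
  | zero => exact h4
  | succ j ih =>
    have := ih.join (Net_D.base (by omega))
    rwa [show 2 * (μ' + 2 * j) - 2 + (2 * 2 - 2) + 2 = 2 * (μ' + 2 * (j + 1)) - 2 by omega,
      show k' + 3 * j + 3 = k' + 3 * (j + 1) by ring] at this

theorem caseA {d : V → ℕ} {k m w M s : ℕ} (h : W V w M) (hM : M + s + 4 ≤ m)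
    (hk : 2 * k + s = 3 * m + w) (hs : ∑ u, d u + 2 = 2 * ct (1 ≤ ·) d + 2 * m)
    (h3 : 2 * m ≤ ct (3 ≤ ·) d + 2) (h4 : 2 * m + s ≤ ∑ u, d u / 2) : R d k := by
  have hM' : 2 ≤ M := let ⟨_, _, h1, h2, _⟩ := h; h1.trans h2
  have r := (rels2 d).2.2.2.2.2.1
  have := rich (t := 2) (s := s) (h.exact (μ := m - s - 4) (k := k - s - 6) (by omega) (by omega))
    (by omega) (by omega) (by omega) (by omega) (by omega) _ d rfl (by omega) (by omega)
    (by omega) (by omega)
  rwa [show k - s - 6 + 3 * 2 + s = k by omega] at this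

theorem caseB {d : V → ℕ} {k m w M : ℕ} (h : W V w M) (hM : M + 5 ≤ m)
    (hk : 2 * k = 3 * m + w + 5) (hs : ∑ u, d u + 2 = 2 * ct (1 ≤ ·) d + 2 * m)
    (h3 : 2 * m ≤ ct (3 ≤ ·) d + 2) (h4 : 2 * m ≤ ∑ u, d u / 2 + 1) : R d k := by
  have hM' : 2 ≤ M := let ⟨_, _, h1, h2, _⟩ := h; h1.trans h2
  have r := (rels2 d).2.2.2.2.2.1
  have := rich (t := 1) (s := 0)
    (Base_K.join (h.exact (μ := m - 5) (k := k - 10) (by omega) (by omega)))
    (by omega) (by omega) (by omega) (by omega) (by omega) _ d rfl (by omega) (by omega)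
    (by omega) (by omega)
  rwa [show 7 + (k - 10) + 3 * 1 + 0 = k by omega] at this

theorem caseC {d : V → ℕ} {k m w M : ℕ} (h : W V w M) (hM : M + 6 ≤ m)
    (hk : 2 * k = 3 * m + w + 10) (hd : ∀ v, 1 ≤ d v)
    (hs : ∑ u, d u + 2 = 2 * Fintype.card V + 2 * m) (h3 : 2 * m ≤ ct (3 ≤ ·) d + 2) :
    ∃ G : SimpleGraph V, KCyclic G k ∧ ∀ i, dg G i = d i := by
  have hM' : 2 ≤ M := let ⟨_, _, h1, h2, _⟩ := h; h1.trans h2
  have a1 := (Base_K.join (h.exact (μ := m - 6) (k := k - 14) (by omega) (by omega))).join Base_K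
  obtain ⟨S, s1, s2⟩ := exists_subset_card_eq (s := univ.filter fun v => 3 ≤ d v)
    (n := 2 * m - 2) (by rw [ct] at h3; omega)
  obtain ⟨G, g1, g2, g3⟩ := a1 S ∅ (by simp) (by omega) (by simp)
  obtain ⟨G', b1, b2, b3⟩ := exists_extend d hd _ G rfl g1
    (fun hb => by rw [hb, cyc_bot] at g2; omega) (fun v => by
      rw [g3, df]
      have := fun hv => (mem_filter.1 (@s1 v hv)).2
      split_ifs <;> simp_all) (by
      have e1 : ex G = ∑ v, if v ∈ S then (1 : ℤ) else 0 := sum_congr rfl fun v _ => by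
        rw [g3, df]; split_ifs <;> simp_all
      rw [e1, sum_boole, filter_univ_mem, s2, sum_sub_distrib, ← Nat.cast_sum]
      simp only [sum_const, card_univ, nsmul_eq_mul]
      omega)
  exact ⟨G', ⟨b1, by rw [← cyc, b2, g2]; omega⟩, b3⟩

theorem R.k4 {d : V → ℕ} {k : ℕ} {x y z v : V} (hx : d x = 3) (hy : d y = 3) (hz : d z = 3)
    (hxy : x ≠ y) (hxz : x ≠ z) (hyz : y ≠ z) (hv : 4 ≤ d v)
    (h : R (update (update (update (update d x 0) y 0) z 0) v (d v - 3)) k) : R d (k + 7) := by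
  have h1 : x ≠ v := by rintro rfl; omega
  have h2 : y ≠ v := by rintro rfl; omega
  have h3 : z ≠ v := by rintro rfl; omega
  refine (h.glue (R_k4 hxy hxz hyz h1 h2 h3) (w := v) (fun u => ?_) (by simp; omega)
    (by simp)).congr fun u => ?_ <;> simp only [update_apply] <;> grind

theorem dec5 {d : V → ℕ} {v : V} (h : d v = 5) : Ch d (update d v 2) 3 0 1 0 1 := by
  convert stats d v 2 using 1 <;> omega

theorem caseD {d : V → ℕ} {k m w M : ℕ} (h : W V w M) (hM : M + 8 ≤ m)
    (hk : 2 * k = 3 * m + w + 4) (hs : ∑ u, d u + 2 = 2 * ct (1 ≤ ·) d + 2 * m)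
    (h3 : 2 * m ≤ ct (3 ≤ ·) d + 2) (h4 : 2 * m = ∑ u, d u / 2 + 1) {v : V} (hv : 5 ≤ d v) :
    R d k := by
  obtain ⟨r1, r2, r3, r4, r5, r6, r7⟩ := rels2 d
  have a0 : 0 < ct (4 ≤ ·) d := card_pos.2 ⟨v, mem_filter.2 ⟨mem_univ _, by omega⟩⟩
  have a6 : d v = 5 := by
    have := filter_eq_empty_iff.1 (card_eq_zero.1 (show ct (6 ≤ ·) d = 0 by omega)) (mem_univ v)
    omega
  obtain ⟨x, y, z, hx, hy, hz, h5, h6, h7⟩ := pick3 (P := (· = 3)) (d := d) (by omega)
  have h8 : v ≠ x := by rintro rfl; omega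
  have h9 : v ≠ y := by rintro rfl; omega
  have h10 : v ≠ z := by rintro rfl; omega
  have y1 : update d x 0 y = 3 := by rw [update_of_ne h5.symm, hy]
  have z1 : update (update d x 0) y 0 z = 3 := by rw [update_of_ne h7.symm, update_of_ne h6.symm, hz]
  have v1 : update (update (update d x 0) y 0) z 0 v = 5 := by
    rw [update_of_ne h10, update_of_ne h9, update_of_ne h8, a6]
  obtain ⟨a1, a2, -, -, a5⟩ := rem3 hx
  obtain ⟨b1, b2, -, -, b5⟩ := rem3 y1
  obtain ⟨c1, c2, -, -, c5⟩ := rem3 z1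
  obtain ⟨e1, e2, -, -, e5⟩ := dec5 v1
  have f1 := ct3_upd d x 0
  have f2 := ct3_upd (update d x 0) y 0
  have f3 := ct3_upd (update (update d x 0) y 0) z 0
  have f4 := ct3_upd (update (update (update d x 0) y 0) z 0) v 2
  rw [if_pos (by omega), if_neg (by omega)] at f1 f2 f3 f4
  have := R.k4 (v := v) hx hy hz h5 h6 h7 (by omega) (k := k - 7) (by
    rw [a6]
    refine caseA (m := m - 3) (s := 1) h (by omega) (by omega) ?_ ?_ ?_ <;> norm_num only <;> omega)
  rwa [show k - 7 + 7 = k by omega] at this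

theorem suff {d : V → ℕ} {k m : ℕ} (hm : 13 ≤ m) (hk : (2 * k - 3 * m) ^ 5 ≤ 2 ^ (m + 5))
    (hd : ∀ v, 1 ≤ d v)
    (hs : ∑ u, d u + 2 = 2 * Fintype.card V + 2 * m) (h3 : 2 * m ≤ ct (3 ≤ ·) d + 2)
    (c1 : m ≤ k) (c2 : 3 * m + 1 ≤ k + ct (2 ≤ ·) d) (c3 : 5 * m ≤ 2 * k + ∑ u, d u / 2)
    (c4 : 3 * m < 2 * k → 5 * m + 3 ≤ 2 * k + ∑ u, d u / 2)
    (c5 : 3 * m + 6 ≤ 2 * k → 5 * m + 6 ≤ 2 * k + ∑ u, d u / 2)
    (c6 : (∀ v, d v ≤ 4) → 13 * m = 2 * k + 5 * ∑ u, d u / 2 ∨
      13 * m + 3 ≤ 2 * k + 5 * ∑ u, d u / 2) :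
    ∃ G : SimpleGraph V, KCyclic G k ∧ ∀ i, dg G i = d i := by
  have hs' := hs
  rw [← ct_all hd] at hs'
  obtain ⟨r1, r2, r3, r4, r5, r6, r7⟩ := rels2 d
  by_cases a1 : 2 * k = 3 * m + 10
  · exact caseC W0 (by omega) a1 hd hs h3
  by_cases a2 : 3 * m + 13 ≤ 2 * k
  · exact caseC (W_of_range (w := 2 * k - 3 * m - 10)
      (by rwa [Nat.sub_add_cancel (by omega)]) hm (by omega)) (by omega) (by omega) hd hs h3
  refine R.kc ?_ (by omega) hd
  by_cases a3 : k = m
  · have := construct _ d 0 m rfl ⟨by omega, by omega, by omega, by omega, by omega⟩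
    rwa [show 3 * 0 + m = k by omega] at this
  by_cases a4 : 2 * k ≤ 3 * m
  · have := rich (t := k - m - 1) (s := 3 * m - 2 * k) (Net_D.base (by omega)) (by omega)
      (by omega) (by omega) (by omega) (by omega) _ d rfl (by omega) (by omega) (by omega)
      (by omega)
    rwa [show 3 + 3 * (k - m - 1) + (3 * m - 2 * k) = k by omega] at this
  have cov : Cover V 14 9 := tab0 (9, 14) (by simp)
  have cov' : Cover V 11 7 := tab0 (7, 11) (by simp)
  by_cases a5 : 2 * m ≤ ∑ u, d u / 2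
  · by_cases a6 : 3 * m + 3 ≤ 2 * k
    · exact caseA (s := 0) (cov (2 * k - 3 * m) (by omega) (by omega)) (by omega) (by omega) hs' h3
        a5
    · exact caseA (s := 3 * m + 3 - 2 * k) W3 (by omega) (by omega) hs' h3 (by omega)
  by_cases a6 : 2 * k = 3 * m + 5
  · by_cases a7 : 2 * m = ∑ u, d u / 2 + 1
    · exact caseB W0 (by omega) a6 hs' h3 a7.le
    · have := c6 fun v => by
        have := filter_eq_empty_iff.1 (card_eq_zero.1 (show ct (4 ≤ ·) d = 0 by omega)) (mem_univ v)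
        omega
      omega
  by_cases a7 : ∀ v, d v ≤ 4
  · have := c6 a7
    exact caseB (cov' (2 * k - 3 * m - 5) (by omega) (by omega)) (by omega) (by omega) hs' h3
      (by omega)
  push Not at a7
  obtain ⟨v, hv⟩ := a7
  have a0 : 0 < ct (4 ≤ ·) d := card_pos.2 ⟨v, mem_filter.2 ⟨mem_univ _, by omega⟩⟩
  by_cases a8 : 3 * m + 8 ≤ 2 * k
  · exact caseB (cov' (2 * k - 3 * m - 5) (by omega) (by omega)) (by omega) (by omega) hs' h3
      (by omega)
  by_cases a9 : 2 * k = 3 * m + 4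
  · exact caseD W0 (by omega) a9 hs' h3 (by omega) hv
  · exact caseD W3 (by omega) (by omega) hs' h3 (by omega) hv

end Pool.Agent.MP_e633d5_co.H74

end

-- part MP_e633d5_co.H74.Comp
section

/-! Components of the overlap relation of fundamental cycles and their numbers of cycles. -/

namespace Pool.Agent.MP_e633d5_co.H74

open SimpleGraph Finset Function

set_option linter.unusedSectionVars false

variable {V : Type} [Fintype V] [DecidableEq V] {G : SimpleGraph V} {F : Fund G}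

theorem par {A S : Finset (Sym2 V)} (hA : A ⊆ S) (hZ : F.Z A ≤ F.Z S) {e f : Sym2 V} (he : e ∈ S)
    (hf : f ∈ S) (h : F.Ov e f) (hn : ∀ g ∈ S, g ≠ e → g ≠ f → ¬F.Ov e g ∨ ¬F.Ov f g) :
    e ∈ A ↔ f ∈ A := by
  classical
  obtain ⟨hef, x, y, h1, h2⟩ := h
  have h3 : ∀ g ∈ S, (F.C g).Adj x y → g = e ∨ g = f := fun g hg h4 => by
    by_contra hc
    push Not at hc
    exact (hn g hg hc.1 hc.2).elim (fun h => h ⟨hc.1.symm, x, y, h1, h4⟩)
      fun h => h ⟨hc.2.symm, x, y, h2, h4⟩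
  have b1 : ¬(F.Z S).Adj x y := by
    change ¬Odd _
    rw [show S.filter _ = {e, f} from ?_, card_pair hef]
    · decide
    ext z
    simp only [mem_filter, mem_insert, mem_singleton]
    grind
  by_contra hc
  refine b1 (hZ ?_)
  change Odd _
  by_cases hA' : e ∈ A
  · rw [show A.filter _ = {e} from ?_]
    · simp
    ext z
    have := @hA z
    simp only [mem_filter, mem_singleton]
    grind
  · rw [show A.filter _ = {f} from ?_]
    · simp
    ext z
    have := @hA z
    simp only [mem_filter, mem_singleton]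
    grind

theorem quad_mem_N {e f g h : Sym2 V} (he : e ∈ F.nt G) (hf : f ∈ F.nt G) (hg : g ∈ F.nt G)
    (hh : h ∈ F.nt G) (h1 : F.Ov e f) (h2 : F.Ov f g) (h3 : F.Ov g h) (n1 : ¬F.Ov e g)
    (n2 : ¬F.Ov e h) (n3 : ¬F.Ov f h) : {e, f, g, h} ∈ F.N := by
  obtain ⟨A, a1, a2, a3, a4⟩ := F.exists_N_subset (S := {e, f, g, h})
    (by simp [insert_subset_iff, *]) (by simp)
  have n4 : ¬F.Ov g e := fun h => n1 h.symm
  have n5 : ¬F.Ov h f := fun h => n3 h.symm
  have b1 := par a3 a4 (by simp) (by simp) h1 fun z hz => by grind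
  have b2 := par a3 a4 (by simp) (by simp) h2 fun z hz => by grind
  have b3 := par a3 a4 (by simp) (by simp) h3 fun z hz => by grind
  rwa [show ({e, f, g, h} : Finset (Sym2 V)) = A from ?_]
  refine subset_antisymm ?_ a3
  obtain ⟨z, hz⟩ := a2
  have := a3 hz
  intro w hw
  simp only [mem_insert, mem_singleton] at this hw
  grind

theorem lk {e f g : Sym2 V} (he : e ∈ F.nt G) (hf : f ∈ F.nt G) (hg : g ∈ F.nt G)
    (h1 : F.Ov e f) (h2 : F.Ov f g) (hne : e ≠ g) :
    ∃ A ∈ F.N, (∀ z ∈ A, z = e ∨ z = f ∨ z = g) ∧ e ∈ A ∧ g ∈ A := by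
  by_cases h3 : F.Ov e g
  · exact ⟨_, F.pair_mem_N he hg h3, by simp, by simp, by simp⟩
  · exact ⟨_, F.triple_mem_N he hf hg h1 h2 hne h3, by simp, by simp, by simp⟩

theorem add_three {B : Finset (Sym2 V)} (hB : B ⊆ F.nt G) {e f g : Sym2 V} (he : e ∈ F.nt G)
    (heB : e ∉ B) (hf : f ∈ B) (hg : g ∈ B) (h1 : F.Ov e f) (h2 : F.Ov f g) :
    F.c B + 3 ≤ F.c (insert e B) := by
  have hef := h1.1
  have hfg := h2.1
  have heg : e ≠ g := by rintro rfl; exact heB hg
  obtain ⟨A, a1, a2, a3, a4⟩ := lk he (hB hf) (hB hg) h1 h2 heg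
  have := F.c_add (subset_insert e B) {{e}, {e, f}, A} fun X hX => by
    simp only [mem_insert, mem_singleton] at hX
    rcases hX with rfl | rfl | rfl
    · exact ⟨F.singleton_mem_N he, by simp, by simpa⟩
    · exact ⟨F.pair_mem_N he (hB hf) h1, by simp [insert_subset_iff, hf],
        by simp [insert_subset_iff, heB]⟩
    · exact ⟨a1, fun z hz => by have := a2 z hz; grind, fun h => heB (h a3)⟩
  rwa [card_eq_three.2 ⟨_, _, _, ?_, ?_, ?_, rfl⟩] at this
  · intro h3; have := Finset.ext_iff.1 h3 f; grind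
  · intro h3; have := Finset.ext_iff.1 h3 g; grind
  · intro h3; have := Finset.ext_iff.1 h3 g; grind

theorem add_four_of {B : Finset (Sym2 V)} {e : Sym2 V} (heB : e ∉ B) {A1 A2 A3 A4 : Finset (Sym2 V)}
    (h1 : A1 ∈ F.N ∧ A1 ⊆ insert e B ∧ e ∈ A1) (h2 : A2 ∈ F.N ∧ A2 ⊆ insert e B ∧ e ∈ A2)
    (h3 : A3 ∈ F.N ∧ A3 ⊆ insert e B ∧ e ∈ A3) (h4 : A4 ∈ F.N ∧ A4 ⊆ insert e B ∧ e ∈ A4)
    (n1 : A1 ≠ A2) (n2 : A1 ≠ A3) (n3 : A1 ≠ A4) (n4 : A2 ≠ A3) (n5 : A2 ≠ A4) (n6 : A3 ≠ A4) :
    F.c B + 4 ≤ F.c (insert e B) := by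
  have := F.c_add (subset_insert e B) {A1, A2, A3, A4} fun X hX => by
    simp only [mem_insert, mem_singleton] at hX
    rcases hX with rfl | rfl | rfl | rfl
    exacts [⟨h1.1, h1.2.1, fun h => heB (h h1.2.2)⟩, ⟨h2.1, h2.2.1, fun h => heB (h h2.2.2)⟩,
      ⟨h3.1, h3.2.1, fun h => heB (h h3.2.2)⟩, ⟨h4.1, h4.2.1, fun h => heB (h h4.2.2)⟩]
  rwa [card_insert_of_notMem (by simp [*]), card_insert_of_notMem (by simp [*]),
    card_pair n6] at this

theorem ne_of_mem {A A' : Finset (Sym2 V)} (z : Sym2 V) (h : z ∉ A) (h' : z ∈ A') : A ≠ A' :=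
  fun h1 => h (h1 ▸ h')

theorem add_four_end {B : Finset (Sym2 V)} (hB : B ⊆ F.nt G) {e f g h : Sym2 V} (he : e ∈ F.nt G)
    (heB : e ∉ B) (hf : f ∈ B) (hg : g ∈ B) (hh : h ∈ B) (h1 : F.Ov e f) (h2 : F.Ov f g)
    (h3 : F.Ov g h) (hfh : f ≠ h) (n1 : ¬F.Ov e g) : F.c B + 4 ≤ F.c (insert e B) := by
  have hef := h1.1
  have hfg := h2.1
  have hgh := h3.1
  have heg : e ≠ g := by rintro rfl; exact heB hg
  have heh : e ≠ h := by rintro rfl; exact heB hh
  obtain ⟨A, a1, a2, a3, a4⟩ : ∃ A ∈ F.N, A ⊆ insert e B ∧ e ∈ A ∧ h ∈ A := by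
    by_cases c1 : F.Ov f h
    · obtain ⟨A, a1, a2, a3, a4⟩ := lk he (hB hf) (hB hh) h1 c1 heh
      exact ⟨A, a1, fun z hz => by have := a2 z hz; grind, a3, a4⟩
    by_cases c2 : F.Ov e h
    · exact ⟨_, F.pair_mem_N he (hB hh) c2, by simp [insert_subset_iff, hh], by simp, by simp⟩
    · exact ⟨_, quad_mem_N he (hB hf) (hB hg) (hB hh) h1 h2 h3 n1 c2 c1,
        by simp [insert_subset_iff, hf, hg, hh], by simp, by simp⟩
  exact add_four_of heB (A1 := {e}) (A2 := {e, f}) (A3 := {e, f, g}) (A4 := A)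
    ⟨F.singleton_mem_N he, by simp, by simp⟩
    ⟨F.pair_mem_N he (hB hf) h1, by simp [insert_subset_iff, hf], by simp⟩
    ⟨F.triple_mem_N he (hB hf) (hB hg) h1 h2 heg n1, by simp [insert_subset_iff, hf, hg], by simp⟩
    ⟨a1, a2, a3⟩ (ne_of_mem f (by grind) (by simp)) (ne_of_mem f (by grind) (by simp))
    (ne_of_mem h (by grind) a4) (ne_of_mem g (by grind) (by simp)) (ne_of_mem h (by grind) a4)
    (ne_of_mem h (by grind) a4)

theorem add_four {e f g h : Sym2 V} (hB : {f, g, h} ⊆ F.nt G) (he : e ∈ F.nt G)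
    (heB : e ∉ ({f, g, h} : Finset (Sym2 V))) (h2 : F.Ov f g) (h3 : F.Ov g h) (hfh : f ≠ h)
    {z : Sym2 V} (hz : z ∈ ({f, g, h} : Finset (Sym2 V))) (h1 : F.Ov e z) :
    F.c {f, g, h} + 4 ≤ F.c (insert e {f, g, h}) := by
  by_cases c1 : F.Ov e g
  · have hfg := h2.1
    have hgh := h3.1
    have heB' := heB
    simp only [mem_insert, mem_singleton, not_or] at heB'
    obtain ⟨A, a1, a2, a3, a4⟩ := lk he (hB (by simp)) (hB (by simp)) c1 h2.symm heB'.1
    obtain ⟨A', b1, b2, b3, b4⟩ := lk he (hB (by simp)) (hB (by simp)) c1 h3 heB'.2.2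
    exact add_four_of heB (A1 := {e}) (A2 := {e, g}) (A3 := A) (A4 := A')
      ⟨F.singleton_mem_N he, by simp, by simp⟩
      ⟨F.pair_mem_N he (hB (by simp)) c1, by simp [insert_subset_iff], by simp⟩
      ⟨a1, fun z hz => by have := a2 z hz; grind, a3⟩
      ⟨b1, fun z hz => by have := b2 z hz; grind, b3⟩
      (ne_of_mem g (by grind) (by simp)) (ne_of_mem f (by grind) a4)
      (ne_of_mem h (by grind) b4) (ne_of_mem f (by grind) a4) (ne_of_mem h (by grind) b4)
      (ne_of_mem h (by grind) b4)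
  simp only [mem_insert, mem_singleton] at hz
  rcases hz with rfl | rfl | rfl
  · exact add_four_end hB he heB (by simp) (by simp) (by simp) h1 h2 h3 hfh c1
  · exact absurd h1 c1
  · exact add_four_end hB he heB (by simp) (by simp) (by simp) h1 h3.symm h2.symm hfh.symm c1

variable (F) in
/-- Sets of non-tree edges which are connected for the overlap relation. -/
inductive Conn : Finset (Sym2 V) → Prop
  | single {e : Sym2 V} : e ∈ F.nt G → Conn {e}
  | ins {B : Finset (Sym2 V)} {e f : Sym2 V} : Conn B → e ∈ F.nt G → e ∉ B → f ∈ B → F.Ov e f →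
      Conn (insert e B)

theorem Conn.sub {B : Finset (Sym2 V)} (h : Conn F B) : B ⊆ F.nt G := by
  induction h with
  | single h => simpa using h
  | ins _ h2 _ _ _ ih => exact insert_subset h2 ih

theorem Conn.nonempty {B : Finset (Sym2 V)} (h : Conn F B) : B.Nonempty := by
  cases h <;> simp

theorem Conn.nbr {B : Finset (Sym2 V)} (h : Conn F B) :
    2 ≤ B.card → ∀ e ∈ B, ∃ f ∈ B, F.Ov e f := by
  induction h with
  | single h => simp
  | @ins B e f h1 h2 h3 h4 h5 ih =>
    intro _ x hx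
    rcases mem_insert.1 hx with rfl | hx
    · exact ⟨f, mem_insert_of_mem h4, h5⟩
    by_cases h6 : 2 ≤ B.card
    · obtain ⟨y, hy, h7⟩ := ih h6 x hx
      exact ⟨y, mem_insert_of_mem hy, h7⟩
    · obtain rfl : x = f := card_le_one.1 (by omega) x hx f h4
      exact ⟨e, mem_insert_self _ _, h5.symm⟩

theorem Conn.path {B : Finset (Sym2 V)} (h : Conn F B) (h3 : B.card = 3) :
    ∃ f g k, B = {f, g, k} ∧ F.Ov f g ∧ F.Ov g k ∧ f ≠ k := by
  obtain ⟨x, y, z, h4, h5, h6, rfl⟩ := card_eq_three.1 h3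
  have key := h.nbr (by omega)
  obtain ⟨a, ha, a1⟩ := key x (by simp)
  obtain ⟨b, hb, b1⟩ := key y (by simp)
  obtain ⟨c, hc, c1⟩ := key z (by simp)
  simp only [mem_insert, mem_singleton] at ha hb hc
  by_cases c2 : F.Ov x y
  · rcases hc with rfl | rfl | rfl
    · exact ⟨y, c, z, by ext; grind, c2.symm, c1.symm, h6⟩
    · exact ⟨x, c, z, rfl, c2, c1.symm, h5⟩
    · exact absurd rfl c1.1
  · rcases ha with rfl | rfl | rfl
    · exact absurd rfl a1.1
    · exact absurd a1 c2
    rcases hb with rfl | rfl | rfl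
    · exact absurd b1.symm c2
    · exact absurd rfl b1.1
    · exact ⟨x, b, y, by ext; grind, a1, b1.symm, h4⟩

theorem exists_of_sup_adj {S : Finset (Sym2 V)} {x y : V} (h : (S.sup F.C).Adj x y) :
    ∃ e ∈ S, (F.C e).Adj x y := by
  rw [Finset.sup_eq_iSup, iSup_adj] at h
  obtain ⟨e, he⟩ := h
  rw [iSup_adj] at he
  obtain ⟨he, h⟩ := he
  exact ⟨e, he, h⟩

theorem dg_sup_ne_one {S : Finset (Sym2 V)} (h : S ⊆ F.nt G) (v : V) : dg (S.sup F.C) v ≠ 1 := by
  intro h1
  obtain ⟨w, hw⟩ : ∃ w, (S.sup F.C).Adj v w := by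
    by_contra hn
    rw [dg_eq_zero.2 (not_exists.1 hn)] at h1
    omega
  obtain ⟨e, he, h2⟩ := exists_of_sup_adj hw
  have := dg_pos h2
  have := (F.circ e (F.mem_nt.1 (h he))).dg_eq v
  have := dg_mono (Finset.le_sup (f := F.C) he) v
  omega

theorem nt_sup {S : Finset (Sym2 V)} (h : S ⊆ F.nt G) : F.nt (S.sup F.C) ⊆ S := by
  intro z hz
  induction z using Sym2.ind with
  | _ x y =>
  rw [F.mem_nt] at hz
  obtain ⟨e, he, h2⟩ := exists_of_sup_adj (show (S.sup F.C).Adj x y from hz.1)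
  have : s(x, y) ∈ F.nt (F.C e) := F.mem_nt.2 ⟨h2, hz.2⟩
  rw [F.nt_C (h he), mem_singleton] at this
  exact this ▸ he

theorem circ_edges {H : SimpleGraph V} (h : Circ H) :
    H.edgeSet.ncard = (univ.filter fun v => 0 < dg H v).card := by
  have h1 := sum_dg H
  have h2 : ∑ v, dg H v = 2 * ∑ v, if 0 < dg H v then 1 else 0 := by
    rw [mul_sum]
    exact sum_congr rfl fun v _ => by rcases h.dg_eq v with h3 | h3 <;> simp [h3]
  rw [card_filter]
  omega

theorem Conn.edges {B : Finset (Sym2 V)} (h : Conn F B) :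
    B.card + (univ.filter fun v => 0 < dg (B.sup F.C) v).card ≤ (B.sup F.C).edgeSet.ncard + 1 := by
  induction h with
  | single h =>
    rw [sup_singleton, card_singleton, circ_edges (F.circ _ (F.mem_nt.1 h))]
    omega
  | @ins B e f h1 h2 h3 h4 h5 ih =>
    rw [sup_insert, card_insert_of_notMem h3]
    set U := B.sup F.C with hU
    have a1 := circ_edges (F.circ _ (F.mem_nt.1 h2))
    have a2 : (F.C e ⊔ U).edgeSet.ncard + (F.C e ⊓ U).edgeSet.ncard =
        (F.C e).edgeSet.ncard + U.edgeSet.ncard := by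
      rw [edgeSet_sup, edgeSet_inf, Set.ncard_union_add_ncard_inter]
    have a3 : F.C e ⊓ U ≤ F.T := fun x y hxy => by
      by_contra hn
      have b1 : s(x, y) ∈ F.nt (F.C e) := F.mem_nt.2 ⟨hxy.1, hn⟩
      have b2 := nt_sup h1.sub (F.mem_nt.2 ⟨(show s(x, y) ∈ U.edgeSet from hxy.2), hn⟩)
      rw [F.nt_C h2, mem_singleton] at b1
      exact h3 (b1 ▸ b2)
    obtain ⟨-, x, y, b1, b2⟩ := h5
    have a4 := forest_le (F.tree.isAcyclic.anti a3)
      ((univ.filter fun v => 0 < dg (F.C e) v) ∩ univ.filter fun v => 0 < dg U v)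
      ⟨x, by simpa using ⟨dg_pos b1, dg_pos (Finset.le_sup (f := F.C) h4 b2)⟩⟩
      fun x y hxy => by simpa using ⟨dg_pos hxy.1, dg_pos hxy.2⟩
    have a5 := card_union_add_card_inter (univ.filter fun v => 0 < dg (F.C e) v)
      (univ.filter fun v => 0 < dg U v)
    have a6 : (univ.filter fun v => 0 < dg (F.C e ⊔ U) v).card ≤
        ((univ.filter fun v => 0 < dg (F.C e) v) ∪ univ.filter fun v => 0 < dg U v).card :=
      card_le_card fun v hv => by
        have := dg_sup_add (F.C e) U v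
        simp only [mem_filter, mem_univ, true_and, mem_union] at hv ⊢
        omega
    omega

theorem Conn.types {B : Finset (Sym2 V)} (h : Conn F B) :
    (B.card = 1 ∧ F.c B = 1 ∧ 3 ≤ ∑ v, dg (B.sup F.C) v / 2) ∨
    (B.card = 2 ∧ F.c B = 3 ∧ 4 ≤ ∑ v, dg (B.sup F.C) v / 2) ∨
    (B.card = 3 ∧ F.c B = 6 ∧ 6 ≤ ∑ v, dg (B.sup F.C) v / 2) ∨
    (B.card = 3 ∧ F.c B = 7 ∧ 4 ≤ ∑ v, dg (B.sup F.C) v / 2) ∨
    (4 ≤ B.card ∧ 3 * B.card ≤ F.c B + 2 ∧
      5 * B.card + 6 ≤ 2 * F.c B + ∑ v, dg (B.sup F.C) v / 2) := by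
  induction h with
  | @single e h =>
    have h1 := c_le_pow F {e}
    have h2 := F.card_le_c (S := {e}) (by simpa using h)
    have h3 := (F.circ _ (F.mem_nt.1 h)).six_le.2
    rw [card_singleton] at *
    rw [sup_singleton]
    omega
  | @ins B e f h1 h2 h3 h4 h5 ih =>
    have h0 := Conn.ins h1 h2 h3 h4 h5
    have a1 := card_insert_of_notMem h3
    have a2 := c_le_pow F (insert e B)
    have a3 : ∑ v, dg (B.sup F.C) v / 2 ≤ ∑ v, dg ((insert e B).sup F.C) v / 2 :=
      sum_le_sum fun v _ => Nat.div_le_div_right (dg_mono (sup_mono (subset_insert _ _)) v)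
    by_cases c1 : B.card = 1
    · have := (F.ineqs _ h0.sub).2
      obtain rfl : B = {f} := eq_singleton_iff_unique_mem.2
        ⟨h4, fun x hx => card_le_one.1 (by omega) x hx f h4⟩
      have b1 := ((F.circ _ (F.mem_nt.1 h2)).theta (F.circ _ (F.mem_nt.1 (h1.sub h4)))
        (F.C_ne h2 (h1.sub h4) h5.1) h5.not_disjoint).2
      have b2 := pow_le_c F (S := insert e {f}) fun A hA hA' => by
        have : A = {e} ∨ A = {f} ∨ A = {e, f} := by
          obtain ⟨z, hz⟩ := hA'
          have b1 := fun w => @hA w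
          simp only [mem_insert, mem_singleton] at b1
          by_cases b2 : e ∈ A <;> by_cases b3 : f ∈ A
          · exact Or.inr (Or.inr (subset_antisymm hA
              (insert_subset b2 (singleton_subset_iff.2 b3))))
          · exact Or.inl (eq_singleton_iff_unique_mem.2 ⟨b2, by grind⟩)
          · exact Or.inr (Or.inl (eq_singleton_iff_unique_mem.2 ⟨b3, by grind⟩))
          · grind
        rcases this with rfl | rfl | rfl
        exacts [F.singleton_mem_N h2, F.singleton_mem_N (h1.sub h4),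
          F.pair_mem_N h2 (h1.sub h4) h5]
      rw [a1, c1] at a2 b2
      rw [sup_insert, sup_singleton]
      omega
    have a4 := card_pos.2 h1.nonempty
    obtain ⟨g, hg, a5⟩ := h1.nbr (by omega) f h4
    have a6 := add_three h1.sub h2 h3 h4 hg h5 a5
    by_cases c2 : B.card = 2
    · rw [a1, c2] at a2
      by_cases c3 : F.c (insert e B) = 7
      · omega
      have b1 : 6 ≤ ∑ v, dg ((insert e B).sup F.C) v / 2 := by
        by_contra hn
        have := pow_le_c F (S := insert e B) fun A hA hA' =>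
          (mem_N_or F (hA.trans h0.sub) hA').resolve_right (by
            rintro ⟨P, Q, p1, p2, p3, p4⟩
            have := p1.six_le.2
            have := p2.six_le.2
            have := (F.step_disjoint p3).2
            have : ∑ v, dg (P ⊔ Q) v / 2 ≤ ∑ v, dg ((insert e B).sup F.C) v / 2 :=
              sum_le_sum fun v _ => Nat.div_le_div_right (dg_mono (p4.trans fun x y hxy => by
                obtain ⟨z, hz, h6⟩ := F.exists_of_Z_adj hxy
                exact Finset.le_sup (f := F.C) (hA hz) h6) v)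
            omega)
        rw [a1, c2] at this
        omega
      omega
    by_cases c3 : B.card = 3
    · obtain ⟨p, q, r, rfl, b1, b2, b3⟩ := h1.path c3
      have := add_four h1.sub h2 h3 b1 b2 b3 h4 h5
      omega
    omega

end Pool.Agent.MP_e633d5_co.H74

end

-- part MP_e633d5_co.H74.Nec
section

/-! Necessary conditions obtained by summing over the components. -/

namespace Pool.Agent.MP_e633d5_co.H74

open SimpleGraph Finset Function

set_option linter.unusedSectionVars false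

variable {V : Type} [Fintype V] [DecidableEq V] {G : SimpleGraph V} {F : Fund G}

variable (F) in
/-- Sets of non-tree edges closed under overlaps. -/
def Cl (B : Finset (Sym2 V)) : Prop := ∀ e ∈ B, ∀ f ∈ F.nt G, F.Ov e f → f ∈ B

theorem subset_or {B A : Finset (Sym2 V)} (hB : Cl F B) (hA : A ∈ F.N) : A ⊆ B ∨ Disjoint A B := by
  classical
  have a0 := F.N_subset hA
  obtain ⟨H, h1, h2, h3⟩ := F.mem_N.1 hA
  have a1 : A ∩ B ⊆ F.nt G := inter_subset_left.trans a0
  have a2 : F.Z (A ∩ B) ≤ H := by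
    intro x y hxy
    obtain ⟨b, hb, h4⟩ := F.exists_of_Z_adj hxy
    rw [F.eq_Z h2.ev h1, h3]
    change Odd _ at hxy ⊢
    rwa [show A.filter _ = (A ∩ B).filter fun e => (F.C e).Adj x y from ?_]
    ext z
    simp only [mem_filter, mem_inter] at hb ⊢
    refine ⟨fun hz => ⟨⟨hz.1, ?_⟩, hz.2⟩, fun hz => ⟨hz.1.1, hz.2⟩⟩
    by_cases hzb : b = z
    · exact hzb ▸ hb.2
    exact hB b hb.2 z (a0 hz.1) ⟨hzb, x, y, h4, hz.2⟩
  by_cases hb : F.Z (A ∩ B) = ⊥
  · have := F.nt_Z a1
    rw [hb, ← F.Z_empty, F.nt_Z (empty_subset _)] at this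
    exact Or.inr (disjoint_iff_inter_eq_empty.2 this.symm)
  · have a3 := h2.eq_of_le a2 hb (F.Z_ev a1).ne_one
    have a4 : A ∩ B = A := by rw [← F.nt_Z a1, a3, h3]
    exact Or.inl (a4 ▸ inter_subset_right)

theorem c_union {B S : Finset (Sym2 V)} (hB : Cl F B) (hd : Disjoint B S) :
    F.c (B ∪ S) = F.c B + F.c S := by
  classical
  rw [Fund.c, Fund.c, Fund.c, ← card_union_of_disjoint]
  · congr 1
    ext A
    simp only [mem_union, mem_filter]
    refine ⟨fun h => (subset_or hB h.1).imp (fun h1 => ⟨h.1, h1⟩) fun h1 => ⟨h.1, fun z hz => ?_⟩,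
      fun h => h.elim (fun h => ⟨h.1, h.2.trans subset_union_left⟩)
        fun h => ⟨h.1, h.2.trans subset_union_right⟩⟩
    exact (mem_union.1 (h.2 hz)).resolve_left (Finset.disjoint_left.1 h1 hz)
  · refine Finset.disjoint_left.2 fun A h1 h2 => ?_
    simp only [mem_filter] at h1 h2
    obtain ⟨H, -, h4, h5⟩ := F.mem_N.1 h1.1
    refine h4.ne_bot (F.eq_bot_of_nt h4.ev.ne_one (h5.trans (eq_empty_of_forall_notMem ?_)))
    exact fun z hz => Finset.disjoint_left.1 hd (h1.2 hz) (h2.2 hz)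

theorem sup_disjoint {B S : Finset (Sym2 V)} (hB : Cl F B) (hS : S ⊆ F.nt G) (hd : Disjoint B S) :
    Disjoint (B.sup F.C) (S.sup F.C) :=
  Finset.disjoint_sup_left.2 fun e he => F.disjoint_sup (Finset.disjoint_left.1 hd he)
    fun f hf h => Finset.disjoint_left.1 hd (hB e he f (hS hf) h) hf

theorem closed_ind (P : Finset (Sym2 V) → Prop) (h0 : P ∅)
    (hs : ∀ B S, Conn F B → Cl F B → S ⊆ F.nt G → Disjoint B S → P S → P (B ∪ S)) :
    P (F.nt G) := by
  classical
  suffices ∀ S, S ⊆ F.nt G → Cl F S → P S from this _ subset_rfl fun _ _ _ hf _ => hf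
  intro S
  induction S using Finset.strongInduction with
  | H S ih =>
  intro h1 h2
  rcases S.eq_empty_or_nonempty with rfl | ⟨e, he⟩
  · exact h0
  obtain ⟨B, hB, hmax⟩ := exists_max_image (S.powerset.filter (Conn F)) card
    ⟨{e}, mem_filter.2 ⟨by simpa using he, Conn.single (h1 he)⟩⟩
  rw [mem_filter, mem_powerset] at hB
  have a1 : Cl F B := fun x hx f hf h => by
    by_contra hn
    have := hmax (insert f B) (mem_filter.2 ⟨mem_powerset.2
      (insert_subset (h2 x (hB.1 hx) f hf h) hB.1), Conn.ins hB.2 hf hn hx h.symm⟩)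
    rw [card_insert_of_notMem hn] at this
    omega
  rw [← union_sdiff_of_subset hB.1]
  refine hs B _ hB.2 a1 (sdiff_subset.trans h1) disjoint_sdiff (ih _ (sdiff_ssubset hB.1
    hB.2.nonempty) (sdiff_subset.trans h1) fun x hx f hf h => ?_)
  rw [mem_sdiff] at hx ⊢
  exact ⟨h2 x hx.1 f hf h, fun hb => hx.2 (a1 f hb x (h1 hx.1) h.symm)⟩

theorem fact1 : 2 * cyc G ≤ 3 * (F.nt G).card ∨
    (2 * cyc G ≤ 3 * (F.nt G).card + 5 ∧ 5 * (F.nt G).card + 3 ≤ 2 * cyc G + ∑ v, dg G v / 2) ∨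
    5 * (F.nt G).card + 6 ≤ 2 * cyc G + ∑ v, dg G v / 2 := by
  have key := closed_ind (F := F) (fun S => 5 * S.card ≤ 2 * F.c S + ∑ v, dg (S.sup F.C) v / 2 ∧
    (2 * F.c S ≤ 3 * S.card ∨ (2 * F.c S ≤ 3 * S.card + 5 ∧
      5 * S.card + 3 ≤ 2 * F.c S + ∑ v, dg (S.sup F.C) v / 2) ∨
      5 * S.card + 6 ≤ 2 * F.c S + ∑ v, dg (S.sup F.C) v / 2))
    (by have := c_le_pow F ∅; simp at this; simp [this]) fun B S h1 h2 h3 h4 h5 => by
      have a1 := h1.types
      have a2 := (F.step_disjoint (sup_disjoint h2 h3 h4)).2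
      rw [c_union h2 h4, card_union_of_disjoint h4, sup_union]
      rcases a1 with a1 | a1 | a1 | a1 | a1 <;> omega
  have h3 : ∑ v, dg ((F.nt G).sup F.C) v / 2 ≤ ∑ v, dg G v / 2 :=
    sum_le_sum fun v _ => Nat.div_le_div_right (dg_mono (F.sup_le subset_rfl) v)
  rw [F.c_nt] at key
  omega

theorem attach (hc : G.Connected) {B : Finset (Sym2 V)} (h : Conn F B) :
    (∃ v, 0 < dg (B.sup F.C) v ∧ dg (B.sup F.C) v < dg G v) ∨ B = F.nt G := by
  refine or_iff_not_imp_left.2 fun hn => ?_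
  push Not at hn
  have hle := F.sup_le h.sub
  have key : ∀ x, 0 < dg (B.sup F.C) x → ∀ y, G.Adj x y → (B.sup F.C).Adj x y := fun x hx y hy =>
    (Set.ext_iff.1 (Set.eq_of_subset_of_ncard_le (s := (B.sup F.C).neighborSet x)
      (t := G.neighborSet x) (fun _ hw => hle hw) (hn x hx)) y).2 hy
  have prop : ∀ {x y} (q : G.Walk x y), 0 < dg (B.sup F.C) x → 0 < dg (B.sup F.C) y := by
    intro x y q
    induction q with
    | nil => exact id
    | cons h _ ih => exact fun hx => ih (dg_pos (key _ hx _ h).symm)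
  obtain ⟨e, he⟩ := h.nonempty
  obtain ⟨a, b, hab⟩ := ne_bot_iff_exists_adj.1 (F.circ e (F.mem_nt.1 (h.sub he))).ne_bot
  have h1 : G ≤ B.sup F.C := fun x y hxy => by
    obtain ⟨q⟩ := hc a x
    exact key x (prop q (dg_pos (Finset.le_sup (f := F.C) he hab))) y hxy
  exact subset_antisymm h.sub ((F.nt_mono h1).trans (nt_sup h.sub))

/-- The charge of a vertex of degree `d` meeting `h` edges of a subgraph. -/
def ch (d h : ℕ) : ℕ := if d = 4 then (h + 1) / 2 else h / 2

theorem fact2 (hc : G.Connected) (h4 : ∀ v, dg G v ≤ 4) (h6 : 6 ≤ (F.nt G).card) :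
    13 * (F.nt G).card = 2 * cyc G + 5 * ∑ v, dg G v / 2 ∨
      13 * (F.nt G).card + 3 ≤ 2 * cyc G + 5 * ∑ v, dg G v / 2 := by
  have key := closed_ind (F := F)
    (fun S => 13 * S.card = 2 * F.c S + 5 * ∑ v, ch (dg G v) (dg (S.sup F.C) v) ∨
      13 * S.card + 3 ≤ 2 * F.c S + 5 * ∑ v, ch (dg G v) (dg (S.sup F.C) v))
    (by have := c_le_pow F ∅; simp at this; simp [this, ch, dg_bot]) fun B S h1 h2 h3 h4' h5 => by
      have a1 := h1.types
      have a2 : ∑ v, ch (dg G v) (dg (B.sup F.C) v) + ∑ v, ch (dg G v) (dg (S.sup F.C) v) ≤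
          ∑ v, ch (dg G v) (dg (B.sup F.C ⊔ S.sup F.C) v) := by
        rw [← sum_add_distrib]
        refine sum_le_sum fun v _ => ?_
        have := dg_sup_of_disjoint (sup_disjoint h2 h3 h4') v
        have := dg_mono (_root_.sup_le (F.sup_le h1.sub) (F.sup_le h3)) v
        have := dg_sup_ne_one h1.sub v
        have := dg_sup_ne_one h3 v
        simp only [ch]
        split_ifs <;> omega
      have a3 : ∑ v, dg (B.sup F.C) v / 2 ≤ ∑ v, ch (dg G v) (dg (B.sup F.C) v) :=
        sum_le_sum fun v _ => by simp only [ch]; split_ifs <;> omega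
      have a4 := h1.edges
      have a5 := sum_dg (B.sup F.C)
      have a6 : ∀ T : Finset V, (∀ v ∈ T, 0 < dg (B.sup F.C) v ∧ dg (B.sup F.C) v < dg G v) →
          ∑ v, dg (B.sup F.C) v + T.card ≤ ∑ v, ch (dg G v) (dg (B.sup F.C) v) +
            2 * (univ.filter fun v => 0 < dg (B.sup F.C) v).card := fun T hT => by
        rw [← filter_univ_mem T, card_filter, card_filter, mul_sum, ← sum_add_distrib,
          ← sum_add_distrib]
        refine sum_le_sum fun v _ => ?_
        have := h4 v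
        have := dg_mono (F.sup_le h1.sub) v
        have := dg_sup_ne_one h1.sub v
        clear a1 h5
        by_cases hv : v ∈ T
        · have := hT v hv
          rw [if_pos hv, ch]
          split_ifs <;> omega
        · rw [if_neg hv, ch]
          split_ifs <;> omega
      have a7 : 2 * B.card ≤ ∑ v, ch (dg G v) (dg (B.sup F.C) v) + 1 ∨ (6 ≤ B.card ∧
          2 * B.card ≤ ∑ v, ch (dg G v) (dg (B.sup F.C) v) + 2) := by
        rcases attach hc h1 with ⟨v, hv⟩ | hB
        · have := a6 {v} (by simpa using hv)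
          rw [card_singleton] at this
          omega
        · have := a6 ∅ (by simp)
          exact Or.inr ⟨hB ▸ h6, by omega⟩
      rw [c_union h2 h4', card_union_of_disjoint h4', sup_union]
      rcases a1 with a1 | a1 | a1 | a1 | a1 <;> omega
  have h3 : ∑ v, ch (dg G v) (dg ((F.nt G).sup F.C) v) ≤ ∑ v, dg G v / 2 :=
    sum_le_sum fun v _ => by
      have := dg_mono (F.sup_le subset_rfl) v
      simp only [ch]
      split_ifs <;> omega
  rw [F.c_nt] at key
  omega

end Pool.Agent.MP_e633d5_co.H74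

end
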