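import Pool.Agent.MP_e633d5_co.Mg.H84_Num
import Pool.Agent.MP_e633d5_co.H84.Defs
import Pool.Agent.Lib.Cx.All
import Pool.Agent.Lib.Cx.Graph

-- part MP_e633d5_co.H84.Sat
section

/-! The reduction from 3-SAT. -/

namespace Pool.Agent.MP_e633d5_co.H84

open Finset Pool.Agent.Lib.Cx

/-- Bins: kinds `0`, `1` (ring of the variable `v` at the occurrence `o`), `2`, `3` (clause). -/
abbrev Bn : Type := ℕ × ℕ × ℕ

def InB (m : ℕ) (b : Bn) : Prop :=
  (b.1 < 2 ∧ b.2.1 < 3 * m ∧ b.2.2 < 3 * m) ∨ (2 ≤ b.1 ∧ b.1 < 4 ∧ b.2.1 < m ∧ b.2.2 = 0)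

def nbT (m : ℕ) (lt : ℕ → ℕ × Bool) (b : Bn) (p : ℕ) : Bn :=
  if b.1 < 2 then
    if p = 3 then (1 - b.1, b.2.1, if b.1 = 0 then (if b.2.2 = 0 then 3 * m - 1 else b.2.2 - 1)
      else if b.2.2 + 1 = 3 * m then 0 else b.2.2 + 1)
    else if p = 4 then (1 - b.1, b.2)
    else if p = b.2.2 % 3 then
      if (lt b.2.2).1 = b.2.1 then
        (if (lt b.2.2).2 = true then 3 - b.1 else 2 + b.1, b.2.2 / 3, 0)
      else (1 - b.1, b.2)
    else b
  else if 3 ≤ p then (5 - b.1, b.2)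
  else (if (lt (3 * b.2.1 + p)).2 = true then 3 - b.1 else b.1 - 2, (lt (3 * b.2.1 + p)).1,
    3 * b.2.1 + p)

def flT (lt : ℕ → ℕ × Bool) (b : Bn) (p : ℕ) : ℕ :=
  if b.1 = 0 then (if p = 4 then 2 else if p = 3 ∨ p = b.2.2 % 3 then 1 else 0)
  else if b.1 = 1 then (if p = b.2.2 % 3 ∧ (lt b.2.2).1 = b.2.1 then 1 else 0)
  else if b.1 = 2 then (if 3 ≤ p then 1 else 0) else 0

def tauT (b : Bn) : ℕ := if b.1 = 2 then 3 else 2

section gadget

variable {m : ℕ} {lt : ℕ → ℕ × Bool}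

theorem nbT_spec (hv : ∀ o < 3 * m, (lt o).1 < 3 * m) {b : Bn} (hb : InB m b) {p : ℕ}
    (hp : p < 5) : InB m (nbT m lt b p) ∧ nbT m lt (nbT m lt b p) p = b := by
  obtain ⟨k, v, o⟩ := b
  rcases hb with ⟨h1, h2, h3⟩ | ⟨h1, h2, h3, h4⟩
  · simp only at h1 h2 h3
    by_cases c1 : p = 3
    · subst c1
      interval_cases k
      · by_cases c : o = 0
        · have : 3 * m - 1 + 1 = 3 * m := by omega
          simp [nbT, InB, c, this]
          omega
        · have e1 : o - 1 + 1 = o := by omega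
          simp [nbT, InB, c, e1, h3.ne]
          omega
      · by_cases c : o + 1 = 3 * m
        · simp [nbT, InB, c]
          omega
        · simp [nbT, InB, c]
          omega
    by_cases c2 : p = 4
    · subst c2
      interval_cases k <;> simp [nbT, InB, h2, h3]
    by_cases c3 : p = o % 3
    · have e1 : 3 * (o / 3) + p = o := by omega
      have e2 : ¬3 ≤ p := by omega
      have e3 : o / 3 < m := by omega
      by_cases c4 : (lt o).1 = v
      · cases c5 : (lt o).2 <;> interval_cases k <;>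
          simp [nbT, InB, c1, c2, ← c3, c4, c5, e1, e2, e3]
      · interval_cases k <;> simp [nbT, InB, c1, c2, ← c3, c4, h2, h3]
    · simp [nbT, InB, c1, c2, c3, h1, h2, h3]
  · simp only at h1 h2 h3 h4
    subst h4
    by_cases c1 : 3 ≤ p
    · interval_cases k <;> simp [nbT, InB, c1, h3]
    · have e1 : (3 * v + p) % 3 = p := by omega
      have e2 : (3 * v + p) / 3 = v := by omega
      have e3 : 3 * v + p < 3 * m := by omega
      have e4 : p ≠ 3 := by omega
      have e5 : p ≠ 4 := by omega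
      cases c5 : (lt (3 * v + p)).2 <;> interval_cases k <;>
        simp [nbT, InB, c1, c5, e1, e2, e3, e4, e5, hv _ e3]

theorem flT_ite (c : Prop) [Decidable c] (b b' : Bn) (p : ℕ) :
    flT lt (if c then b else b') p = if c then flT lt b p else flT lt b' p :=
  apply_ite (fun b => flT lt b p) c b b'

theorem three_ne (x : ℕ) : ¬3 = x % 3 := by omega

def SolT (m : ℕ) (lt : ℕ → ℕ × Bool) : Prop :=
  ∃ z : Bn → ℕ → Bool, (∀ b, InB m b → ∀ p < 5, z (nbT m lt b p) p = z b p) ∧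
    ∀ b, InB m b → ∑ p : Fin 5, flT lt (if z b p then nbT m lt b p else b) p = tauT b

/-- The sides given by an assignment. -/
def zT (lt : ℕ → ℕ × Bool) (a : ℕ → Bool) (b : Bn) (p : ℕ) : Bool :=
  if b.1 < 2 then
    if p = 4 ∨ (p < 3 ∧ b.1 = 1 ∧ (lt b.2.2).1 = b.2.1) then a b.2.1 else !a b.2.1
  else
    let t : ℕ → Bool := fun q => a (lt (3 * b.2.1 + q)).1 == (lt (3 * b.2.1 + q)).2
    if p = 3 then t 0 && t 1 && t 2
    else if p = 4 then (t 0 && t 1) || (t 0 && t 2) || (t 1 && t 2)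
    else if b.1 = 2 then t p else !t p

theorem solT_of_sat (hv : ∀ o < 3 * m, (lt o).1 < 3 * m) (a : ℕ → Bool)
    (ha : ∀ j < m, ∃ p < 3, a (lt (3 * j + p)).1 = (lt (3 * j + p)).2) : SolT m lt := by
  have cl : ∀ k v p, 2 ≤ k → k < 4 → p < 3 →
      zT lt a (nbT m lt (k, v, 0) p) p = zT lt a (k, v, 0) p := by
    intro k v p h1 h2 hp
    have e3 : ¬3 ≤ p := by omega
    have e4 : p ≠ 3 := by omega
    have e5 : p ≠ 4 := by omega
    cases c5 : (lt (3 * v + p)).2 <;> interval_cases k <;> simp [nbT, zT, c5, e3, e4, e5, hp]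
  refine ⟨zT lt a, fun b hb p hp => ?_, fun b hb => ?_⟩
  · obtain ⟨k, v, o⟩ := b
    have sp := nbT_spec hv hb hp
    rcases hb with ⟨h1, h2, h3⟩ | ⟨h1, h2, h3, h4⟩
    · simp only at h1 h2 h3
      by_cases c1 : p = 3
      · subst c1
        interval_cases k <;> simp [nbT, zT]
      by_cases c2 : p = 4
      · subst c2
        interval_cases k <;> simp [nbT, zT]
      by_cases c3 : p = o % 3
      · by_cases c4 : (lt o).1 = v
        · have e1 : nbT m lt (k, v, o) p =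
              (if (lt o).2 = true then 3 - k else 2 + k, o / 3, 0) := by
            simp [nbT, h1, c1, c2, ← c3, c4]
          rw [e1] at sp ⊢
          rw [← cl _ _ _ (by split_ifs <;> omega) (by split_ifs <;> omega) (by omega), sp.2]
        · interval_cases k <;> simp [nbT, zT, c1, c2, ← c3, c4]
      · simp [nbT, c1, c2, c3, h1]
    · simp only at h1 h2 h3 h4
      subst h4
      by_cases c1 : p < 3
      · exact cl _ _ _ h1 h2 c1
      · obtain rfl | rfl : p = 3 ∨ p = 4 := by omega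
        all_goals interval_cases k <;> simp [nbT, zT]
  · obtain ⟨k, v, o⟩ := b
    rw [Fin.sum_univ_five]
    rcases hb with ⟨h1, h2, h3⟩ | ⟨h1, h2, h3, h4⟩
    · simp only at h1 h2 h3
      have e : o % 3 = 0 ∨ o % 3 = 1 ∨ o % 3 = 2 := by omega
      by_cases c4 : (lt o).1 = v
      · rcases e with e | e | e <;> cases c5 : (lt o).2 <;> cases c6 : a v <;> interval_cases k <;>
          simp [nbT, zT, flT, tauT, e, c4, c5, c6, three_ne]
      · rcases e with e | e | e <;> cases c6 : a v <;> interval_cases k <;>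
          simp [nbT, zT, flT, tauT, e, c4, c6, three_ne]
    · simp only at h1 h2 h3 h4
      subst h4
      have e : (a (lt (3 * v)).1 == (lt (3 * v)).2) = true ∨
          (a (lt (3 * v + 1)).1 == (lt (3 * v + 1)).2) = true ∨
          (a (lt (3 * v + 2)).1 == (lt (3 * v + 2)).2) = true := by
        obtain ⟨p, hp, e⟩ := ha v h3
        interval_cases p <;> simp_all
      have f : ∀ p < 3, flT lt (nbT m lt (k, v, 0) p) p = 1 := by
        intro p hp
        have e1 : (3 * v + p) % 3 = p := by omega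
        have e3 : ¬3 ≤ p := by omega
        have e5 : p ≠ 4 := by omega
        cases c5 : (lt (3 * v + p)).2 <;> interval_cases k <;> simp [nbT, flT, c5, e1, e3, e5]
      have f0 := f 0 (by norm_num)
      have f1 := f 1 (by norm_num)
      have f2 := f 2 (by norm_num)
      simp only [flT_ite, Fin.val_zero, Fin.val_one, Fin.val_two, f0, f1,
        f2, zT, add_zero]
      revert e
      cases (a (lt (3 * v)).1 == (lt (3 * v)).2) <;>
        cases (a (lt (3 * v + 1)).1 == (lt (3 * v + 1)).2) <;>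
        cases (a (lt (3 * v + 2)).1 == (lt (3 * v + 2)).2) <;> interval_cases k <;>
        simp [nbT, flT, tauT]

theorem sat_of_solT (hv : ∀ o < 3 * m, (lt o).1 < 3 * m) (h : SolT m lt) :
    ∃ a : ℕ → Bool, ∀ j < m, ∃ p < 3, a (lt (3 * j + p)).1 = (lt (3 * j + p)).2 := by
  obtain ⟨z, z1, z2⟩ := h
  have a1 : ∀ v < 3 * m, ∀ o < 3 * m, z (0, v, o) (o % 3) = z (0, v, o) 3 ∧
      z (1, v, o) 3 = z (0, v, o) 3 ∧
      ((lt o).1 = v → z (1, v, o) (o % 3) = !z (0, v, o) 3) := by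
    intro v h2 o h3
    have b0 := z2 (0, v, o) (Or.inl ⟨by norm_num, h2, h3⟩)
    have b1 := z2 (1, v, o) (Or.inl ⟨by norm_num, h2, h3⟩)
    have b2 := z1 (0, v, o) (Or.inl ⟨by norm_num, h2, h3⟩) 4 (by norm_num)
    rw [Fin.sum_univ_five] at b0 b1
    simp only [flT_ite] at b0 b1
    have e : o % 3 = 0 ∨ o % 3 = 1 ∨ o % 3 = 2 := by omega
    revert b0 b1 b2
    by_cases c4 : (lt o).1 = v <;> rcases e with e | e | e <;> cases c5 : (lt o).2 <;>
      simp only [nbT, flT, tauT, e, c4, c5] <;> simp [three_ne, e, c4] <;> grind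
  have a2 : ∀ v < 3 * m, ∀ o < 3 * m, z (0, v, o) 3 = z (0, v, 0) 3 := by
    intro v h2 o
    induction o with
    | zero => exact fun _ => rfl
    | succ o ih =>
      intro h3
      have b1 := z1 (1, v, o) (Or.inl ⟨by norm_num, h2, by simp only; omega⟩) 3 (by norm_num)
      simp only [nbT, h3.ne] at b1
      rw [← ih (by omega), ← (a1 v h2 o (by omega)).2.1, ← b1]
      simp
  refine ⟨fun v => !z (0, v, 0) 3, fun j hj => ?_⟩
  have b0 := z2 (2, j, 0) (Or.inr ⟨le_rfl, by norm_num, hj, rfl⟩)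
  obtain ⟨p, hp, e⟩ : ∃ p < 3, z (2, j, 0) p = true := by
    by_contra hn
    push Not at hn
    rw [Fin.sum_univ_five] at b0
    have c0 := hn 0 (by norm_num)
    have c1 := hn 1 (by norm_num)
    have c2 := hn 2 (by norm_num)
    revert b0
    simp only [flT_ite]
    simp [c0, c1, c2, nbT, flT, tauT]
    split_ifs <;> omega
  refine ⟨p, hp, ?_⟩
  have b1 := z1 (2, j, 0) (Or.inr ⟨le_rfl, by norm_num, hj, rfl⟩) p (by omega)
  have e1 : (3 * j + p) % 3 = p := by omega
  have e2 : 3 * j + p < 3 * m := by omega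
  have e3 : ¬3 ≤ p := by omega
  obtain ⟨c1, -, c3⟩ := a1 _ (hv _ e2) _ e2
  rw [e1, a2 _ (hv _ e2) _ e2] at c1 c3
  rw [e] at b1
  cases c5 : (lt (3 * j + p)).2
  · simp only [nbT, e3, c5] at b1
    simp_all
  · simp only [nbT, e3, c5] at b1
    simp_all

theorem sol_iff (hv : ∀ o < 3 * m, (lt o).1 < 3 * m) {bs : List Bn} (hn : bs.Nodup)
    (hm : ∀ b, b ∈ bs ↔ InB m b) {nb fl : ℕ → ℕ → ℕ} {τ : ℕ → ℕ}
    (e1 : ∀ j p, nb j p = bs.idxOf (nbT m lt (bs.getD j (0, 0, 0)) p))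
    (e2 : ∀ j p, fl j p = flT lt (bs.getD j (0, 0, 0)) p)
    (e3 : ∀ j, τ j = tauT (bs.getD j (0, 0, 0))) :
    (∀ j < bs.length, ∀ p < 5, nb j p < bs.length ∧ nb (nb j p) p = j) ∧
      (SolT m lt ↔ Sol bs.length nb fl τ) := by
  have g1 : ∀ j < bs.length, InB m (bs.getD j (0, 0, 0)) := fun j hj => (hm _).1 (by simp [hj])
  have g2 : ∀ j < bs.length, bs.idxOf (bs.getD j (0, 0, 0)) = j := fun j hj => by
    simpa [hj] using hn.idxOf_getElem j hj
  have g3 : ∀ b, InB m b → bs.idxOf b < bs.length := fun b hb =>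
    List.idxOf_lt_length_of_mem ((hm b).2 hb)
  have g4 : ∀ b, InB m b → bs.getD (bs.idxOf b) (0, 0, 0) = b := fun b hb => by
    simp [g3 b hb]
  refine ⟨fun j hj p hp => ?_, ?_, ?_⟩
  · obtain ⟨a1, a2⟩ := nbT_spec hv (g1 j hj) hp
    exact ⟨e1 j p ▸ g3 _ a1, by rw [e1, e1, g4 _ a1, a2, g2 j hj]⟩
  · rintro ⟨z, z1, z2⟩
    refine ⟨fun j => z (bs.getD j (0, 0, 0)), fun j hj p hp => ?_, fun j hj => ?_⟩
    · simp only
      rw [e1, g4 _ (nbT_spec hv (g1 j hj) hp).1, z1 _ (g1 j hj) p hp]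
    · rw [e3, ← z2 _ (g1 j hj)]
      refine sum_congr rfl fun p _ => ?_
      simp only
      split_ifs
      · rw [e2, e1, g4 _ (nbT_spec hv (g1 j hj) p.2).1]
      · rw [e2]
  · rintro ⟨z, z1, z2⟩
    refine ⟨fun b => z (bs.idxOf b), fun b hb p hp => ?_, fun b hb => ?_⟩
    · simp only
      rw [← z1 _ (g3 b hb) p hp, e1, g4 b hb]
    · have := z2 _ (g3 b hb)
      rw [e3, g4 b hb] at this
      rw [← this]
      refine sum_congr rfl fun p _ => ?_
      simp only
      split_ifs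
      · rw [e2, e1, g4 b hb, g4 _ (nbT_spec hv hb p.2).1]
      · rw [e2, g4 b hb]

end gadget

/-- The instances with answer yes. -/
def Good (z : List Bool × List ℕ) : Prop :=
  z.1 = List.replicate z.1.length true ∧ z.2.Pairwise (· ≥ ·) ∧
    ∃ G : SimpleGraph (Fin z.2.length), KCyclic G z.1.length ∧ ∀ i, dg G i = z.2.get i

theorem kcyc_eq : KCYC = langOf Good := by
  funext x
  simp only [KCYC, langOf, decide_eq_decide]
  constructor
  · rintro ⟨k, d, h1, h2, h3⟩
    exact ⟨(List.replicate k true, d), h1, by simp, h2, by simpa using h3⟩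
  · rintro ⟨⟨u, d⟩, h1, h2, h3, h4⟩
    exact ⟨u.length, d, by rw [← h1, ← h2], h3, h4⟩

theorem realM_iff (l : List ℕ) (k : ℕ) : RealM l k ↔
    ∃ G : SimpleGraph (Fin l.length), KCyclic G k ∧ ∀ i, dg G i = l.get i := by
  have e0 : univ.val.map l.get = (l : Multiset ℕ) := by rw [Fin.univ_val_map, List.ofFn_get]
  constructor
  · rintro ⟨V, _, G, hG, hM⟩
    obtain ⟨e, he⟩ := exists_equiv (hM.trans e0.symm)
    refine ⟨G.map e.toEmbedding, ⟨(SimpleGraph.Iso.map e G).connected_iff.1 hG.connected,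
      (cyc_map _ _).trans hG.card_eq⟩, fun i => ?_⟩
    obtain ⟨v, rfl⟩ := e.surjective i
    rw [he]
    exact dg_map e.toEmbedding G v
  · rintro ⟨G, hG, h⟩
    exact ⟨_, inferInstance, G, hG, by rw [← e0, funext h]⟩

/-- The degree sequence and the number of cycles for items `xs` and bins `ts`. -/
def out (Q : ℕ) (xs ts : List ℕ) : List Bool × List ℕ :=
  if ts.sum = xs.sum then
    (List.replicate (min ((xs.map fun x => (Q ^ 38 + Q ^ 36 * x) * (Q ^ 38 + Q ^ 36 * x - 1) / 2).sum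
        + ts.length * (Q ^ 38 * (Q ^ 38 - 1) / 2)) (Q ^ 78)) true,
      List.insertionSort (· ≥ ·) ((xs.map fun x => Q ^ 38 + Q ^ 36 * x) ++
        (ts.length * Q ^ 38 :: ts.map fun T => 6 * Q ^ 38 + Q ^ 36 * T) ++
        List.replicate (min ((xs.map fun x => Q ^ 38 + Q ^ 36 * x).sum + ts.length * Q ^ 38)
          (Q ^ 40)) 2))
  else ([], [1])

theorem map_option {J : Type} [Fintype J] (d : Option J → ℕ) :
    univ.val.map d = d none ::ₘ univ.val.map fun j => d (some j) := by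
  simp [univ_option, insertNone]

theorem out_spec {I J : Type} [Fintype I] [Fintype J] [DecidableEq I] [DecidableEq J]
    {x : I → ℕ} {T : J → ℕ} {xs ts : List ℕ} (hx : univ.val.map x = xs) (hT : univ.val.map T = ts)
    {Q : ℕ} (hQ : 8 ≤ Q) (ht : Fintype.card (I ⊕ Option J) ≤ Q) (hX : ∑ i, x i ≤ Q)
    (h0 : ∀ i, 0 < x i) (hI : Fintype.card I = 5 * Fintype.card J) :
    ((∃ f : I → J, ∀ j, (univ.filter fun i => f i = j).card = 5 ∧ ∑ i with f i = j, x i = T j) →
      Good (out Q xs ts)) ∧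
    (Good (out Q xs ts) → ∃ f : I → J, ∀ j, ∑ i with f i = j, x i = T j) := by
  have s1 : ∀ F : ℕ → ℕ, (xs.map F).sum = ∑ i, F (x i) := fun F => by
    rw [← Multiset.sum_coe, ← Multiset.map_coe, ← hx, Multiset.map_map]; rfl
  have s2 : xs.sum = ∑ i, x i := by simpa using s1 id
  have s3 : ts.sum = ∑ j, T j := by rw [← Multiset.sum_coe, ← hT]; rfl
  have s4 : ts.length = Fintype.card J := by
    rw [← Multiset.coe_card, ← hT, Multiset.card_map]; rfl
  obtain ⟨b1, b2⟩ := wt_bounds x hQ ht hX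
  have key : ts.sum = xs.sum → (Good (out Q xs ts) ↔ RealM (univ.val.map (deg (Q ^ 38) (Q ^ 36) x
      (fun j : Option J => j.elim (Fintype.card J) fun _ => 6) fun j => j.elim 0 T) +
      Multiset.replicate (∑ c, wt (none : Option J) (Q ^ 38) (Q ^ 36) x c) 2)
      (∑ c, (wt (none : Option J) (Q ^ 38) (Q ^ 36) x c).choose 2)) := by
    intro h
    have c1 := sum_wt (J := J) (Q ^ 38) (Q ^ 36) x (fun a => a.choose 2) rfl
    have c2 := sum_wt (J := J) (Q ^ 38) (Q ^ 36) x (fun a => a) rfl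
    simp only [out, if_pos h, Good, List.length_replicate, true_and, ← realM_iff]
    rw [and_iff_right (List.pairwise_insertionSort _ _),
      Multiset.coe_eq_coe.2 (List.perm_insertionSort _ _)]
    simp only [← Nat.choose_two_right]
    rw [s1, s1, s4, ← c1, ← c2, min_eq_left b1, min_eq_left b2, map_sum_type, ← Multiset.coe_add,
      ← Multiset.coe_add, Multiset.coe_replicate, ← Multiset.cons_coe, ← Multiset.map_coe,
      ← Multiset.map_coe, ← hx, ← hT, map_option]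
    simp [deg]
  refine ⟨fun ⟨f, hf⟩ => ?_, fun h => ?_⟩
  · refine (key ?_).2 (real_of_pack x T _ (by positivity) f hf)
    rw [s2, s3, ← sum_fiberwise univ f x]
    exact sum_congr rfl fun j _ => (hf j).2.symm
  · by_cases c : ts.sum = xs.sum
    · exact pack_of_real x T hQ ht hX h0 hI (by rw [← s2, ← s3, c]) ((key c).1 h)
    · rw [out, if_neg c] at h
      obtain ⟨-, -, G, -, hG⟩ := h
      have := sum_dg G
      simp [hG] at this
      omega

/-- The literal with number `o`. -/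
def lit (φ : List (Clause3 ℕ)) (o : ℕ) : ℕ × Bool :=
  let c := φ.getD (o / 3) ((0, true), (0, true), (0, true))
  if o % 3 = 0 then c.1 else if o % 3 = 1 then c.2.1 else c.2.2

theorem sat_iff_lit (φ : List (Clause3 ℕ)) : Sat3 φ ↔
    ∃ a : ℕ → Bool, ∀ j < φ.length, ∃ p < 3, a (lit φ (3 * j + p)).1 = (lit φ (3 * j + p)).2 := by
  refine exists_congr fun a => ?_
  rw [List.forall_mem_iff_forall_getElem]
  refine forall₂_congr fun j hj => ?_
  have e1 : (3 * j + 1) / 3 = j := by omega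
  have e2 : (3 * j + 2) / 3 = j := by omega
  simp only [Nat.exists_lt_succ_right]
  simp [lit, e1, e2, hj, Clause3.Holds, or_assoc]

theorem lit_lt {φ : List (Clause3 ℕ)} (h : ∀ v ∈ vars3 φ, v < 3 * φ.length) (o : ℕ)
    (ho : o < 3 * φ.length) : (lit φ o).1 < 3 * φ.length := by
  have e : o / 3 < φ.length := by omega
  refine h _ (List.mem_flatMap.2 ⟨φ[o / 3], List.getElem_mem e, ?_⟩)
  simp only [lit, List.getD_eq_getElem?_getD, List.getElem?_eq_getElem e, Option.getD_some]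
  split_ifs <;> simp

open Classical in
noncomputable def bins (φ : List (Clause3 ℕ)) : List Bn :=
  (List.range 4 ×ˢ (List.range (3 * φ.length) ×ˢ List.range (3 * φ.length))).filter
    fun b => decide (InB φ.length b)

theorem mem_bins (φ : List (Clause3 ℕ)) (b : Bn) : b ∈ bins φ ↔ InB φ.length b := by
  obtain ⟨i, a, b⟩ := b
  simp only [bins, List.mem_filter, List.mem_product, List.mem_range, decide_eq_true_eq,
    and_iff_right_iff_imp, InB]
  omega

noncomputable def nbN (φ : List (Clause3 ℕ)) (j p : ℕ) : ℕ :=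
  (bins φ).idxOf (nbT φ.length (lit φ) ((bins φ).getD j (0, 0, 0)) p)

noncomputable def rad (φ : List (Clause3 ℕ)) : ℕ :=
  10 * (bins φ).length ^ 2 + 10 * (bins φ).length + 4

noncomputable def red (φ : List (Clause3 ℕ)) : List Bool × List ℕ :=
  out (rad φ ^ 7)
    ((List.range ((bins φ).length * 5)).map fun i => itemX (bins φ).length (rad φ) (nbN φ)
      (fun j p => flT (lit φ) ((bins φ).getD j (0, 0, 0)) p) (i / 5) (i % 5))
    ((List.range (bins φ).length).map fun j => binT (bins φ).length (rad φ) (nbN φ)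
      (fun j => tauT ((bins φ).getD j (0, 0, 0))) j)

theorem val_map_fin (n : ℕ) (F : ℕ → ℕ) :
    univ.val.map (fun i : Fin n => F i) = ((List.range n).map F : List ℕ) := by
  rw [Fin.univ_val_map]
  congr 1
  exact List.ext_getElem (by simp) (by simp)

theorem sat_iff_red {φ : List (Clause3 ℕ)} (h : ∀ v ∈ vars3 φ, v < 3 * φ.length) :
    Sat3 φ ↔ Good (red φ) := by
  obtain ⟨a1, a2⟩ := sol_iff (lit_lt h) (bs := bins φ)
    ((List.nodup_range.product (List.nodup_range.product List.nodup_range)).filter _) (mem_bins φ)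
    (nb := nbN φ) (fun _ _ => rfl) (fun _ _ => rfl) fun _ => rfl
  have a3 : ∀ b p, flT (lit φ) b p ≤ 2 := fun b p => by unfold flT; split_ifs <;> omega
  have a4 : ∀ b, tauT b ≤ 3 := fun b => by unfold tauT; split_ifs <;> omega
  have hR : 10 * (bins φ).length ^ 2 + 10 * (bins φ).length + 4 ≤ rad φ := le_rfl
  unfold red
  generalize rad φ = R at hR ⊢
  generalize (bins φ).length = n at *
  have r1 : R ≤ R ^ 7 := Nat.le_self_pow (by norm_num) R
  obtain ⟨b1, b2⟩ := out_spec (I := Fin n × Fin 5) (J := Fin n) (Q := R ^ 7)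
    (x := fun i => itemX n R (nbN φ) (fun j p => flT (lit φ) ((bins φ).getD j (0, 0, 0)) p) i.1 i.2)
    (by rw [← Multiset.map_univ_val_equiv finProdFinEquiv.symm, Multiset.map_map]
        exact val_map_fin (n * 5) fun i => itemX n R (nbN φ)
          (fun j p => flT (lit φ) ((bins φ).getD j (0, 0, 0)) p) (i / 5) (i % 5))
    (val_map_fin n fun j => binT n R (nbN φ) (fun j => tauT ((bins φ).getD j (0, 0, 0))) j)
    (le_trans (by norm_num) (Nat.pow_le_pow_left (show 4 ≤ R by omega) 7))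
    (by simp only [Fintype.card_sum, Fintype.card_prod, Fintype.card_fin, Fintype.card_option]
        omega)
    (by
      refine (sum_le_card_nsmul _ _ (R ^ 6) fun i _ => ?_).trans ?_
      · have c1 : R ^ (i.2.1 + 1) ≤ R ^ 5 := Nat.pow_le_pow_right (by omega) i.2.2
        have c2 : 0 < R ^ 5 := Nat.pow_pos (by omega)
        have c3 := Nat.mul_le_mul c1
          (show n + min i.1.1 (nbN φ i.1 i.2) ≤ 2 * n by have := i.1.2; omega)
        have c4 := Nat.mul_le_mul_left (R ^ 5) (show 2 * n + 2 ≤ R by omega)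
        have c5 := a3 ((bins φ).getD i.1 (0, 0, 0)) i.2
        rw [← pow_succ, mul_add] at c4
        simp only [itemX]
        exact le_trans (by omega) c4
      · rw [pow_succ' R 6]
        exact Nat.mul_le_mul_right _ (by simp; omega))
    (fun i => Nat.add_pos_right _ (Nat.mul_pos (Nat.pow_pos (by omega))
      (by have := i.1.2; omega))) (by simp [mul_comm])
  rw [sat_iff_lit]
  exact ⟨fun ⟨a, ha⟩ => b1 (pack_of_sol R a1 (a2.1 (solT_of_sat (lit_lt h) a ha))), fun hg =>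
    (b2 hg).elim fun f hf => sat_of_solT (lit_lt h)
      (a2.2 (sol_of_pack a1 (fun _ _ => a3 _ _) (fun _ => a4 _) hR f hf))⟩

section
variable {α : Type} [Enc α]

@[fun_prop] theorem sort_pt {l : α → List ℕ} (h : PT l) :
    PT (fun x => List.insertionSort (· ≥ ·) (l x)) := by
  refine (PT.foldr_add' (f := fun _ a (acc : List ℕ) => acc.takeWhile (fun b => decide ¬a ≥ b) ++
    a :: acc.dropWhile (fun b => decide ¬a ≥ b)) (by fun_prop) h (PT.const [])
    (fun p => 2 * size p.2 + 1) (by fun_prop) fun x a b => ?_).of_eq fun x => ?_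
  · conv_rhs => rw [← List.takeWhile_append_dropWhile (p := fun b => decide ¬a ≥ b) (l := b)]
    simp only [size_append, size_cons]
    omega
  · simp only [← List.orderedInsert_eq_take_drop]
    rfl

@[fun_prop] theorem out_pt {Q : α → ℕ} {xs ts : α → List ℕ} (h1 : PT Q) (h2 : PB Q) (h3 : PT xs)
    (h4 : PT ts) : PT (fun x => out (Q x) (xs x) (ts x)) := by
  unfold out
  fun_prop

@[fun_prop] theorem lit_pt {φ : α → List (Clause3 ℕ)} {o : α → ℕ} (h1 : PT φ) (h2 : PT o) :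
    PT (fun x => lit (φ x) (o x)) := by
  unfold lit
  fun_prop

@[fun_prop] theorem bins_pt {φ : α → List (Clause3 ℕ)} (h1 : PT φ) :
    PT (fun x => bins (φ x)) := by
  unfold bins InB
  fun_prop

@[fun_prop] theorem nbN_pt {φ : α → List (Clause3 ℕ)} {j p : α → ℕ} (h1 : PT φ) (h2 : PT j)
    (h3 : PT p) : PT (fun x => nbN (φ x) (j x) (p x)) := by
  unfold nbN nbT
  fun_prop

@[fun_prop] theorem rad_pt {φ : α → List (Clause3 ℕ)} (h1 : PT φ) : PT (fun x => rad (φ x)) := by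
  unfold rad
  fun_prop

@[fun_prop] theorem rad_pb {φ : α → List (Clause3 ℕ)} (h1 : PT φ) : PB (fun x => rad (φ x)) := by
  unfold rad
  fun_prop

end

@[fun_prop] theorem mod_pb {α : Type} [Enc α] {s : α → ℕ} : PB (fun x => s x % 5) :=
  (PB.const 5).mono fun _ => (Nat.mod_lt _ (by norm_num)).le

theorem red_pt : PT red := by
  have h : PT fun z : List (Clause3 ℕ) × ℕ => ((List.range 5).map fun p =>
      rad z.1 ^ (p + 1) * ((bins z.1).length + min z.2 (nbN z.1 z.2 p))) :=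
    PT.mapConst _ fun p _ => by fun_prop
  have h' : PT fun z : List (Clause3 ℕ) × ℕ => binT (bins z.1).length (rad z.1) (nbN z.1)
      (fun j => tauT ((bins z.1).getD j (0, 0, 0))) z.2 := by
    unfold binT tauT
    exact PT.add (by fun_prop) h.sum
  unfold red
  refine out_pt (by fun_prop) (by fun_prop) ?_ (PT.map h' (by fun_prop))
  unfold itemX flT
  fun_prop

theorem good_hard : HardOn (fun _ => True) Good :=
  hardOn_sat3.of_red red red_pt fun _ h => ⟨trivial, sat_iff_red h⟩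

end Pool.Agent.MP_e633d5_co.H84

end

-- part MP_e633d5_co.H84.Mem
section

/-! Membership in NP: a spanning tree and the list of all cycles form a certificate. -/

namespace Pool.Agent.MP_e633d5_co.H84

open SimpleGraph Finset Pool.Agent.Lib.Cx
open scoped symmDiff

section cert

variable {V : Type} [Fintype V] {G T : SimpleGraph V}

/-- A cycle with two edges outside a forest is the symmetric difference of two cycles with fewer
such edges. -/
theorem circ_split (hT : ∀ K ≤ T, (∀ v, dg K v ≠ 1) → K = ⊥) {C D0 : SimpleGraph V} (hC : Circ C)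
    (h0 : Circ D0) (h1 : D0 ≤ C ⊔ T) (h2 : D0 ≠ C) :
    ∃ D E, Circ D ∧ Circ E ∧ D ≤ C ⊔ T ∧ E ≤ C ⊔ T ∧ D ≠ E ∧ D ∆ E = C ∧
      D \ T < C \ T ∧ E \ T < C \ T := by
  obtain ⟨D, ⟨d1, d2, d3⟩, hmin⟩ := Set.exists_min_image
    {D | Circ D ∧ D ≤ C ⊔ T ∧ D ≠ C} (fun D => (D \ C).edgeSet.ncard) (Set.toFinite _)
    ⟨D0, h0, h1, h2⟩
  have nt : ∀ K, Circ K → K ≤ C ⊔ T → ∃ x y, K.Adj x y ∧ C.Adj x y ∧ ¬T.Adj x y := by
    intro K hK hle
    by_contra hn
    push Not at hn
    exact hK.ne_bot (hT K (fun x y h => (hle h).elim (hn x y h) id) hK.ev.ne_one)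
  obtain ⟨x, y, x1, x2, x3⟩ := nt D d1 d2
  have e1 : Ev (D ∆ C) := d1.ev.symmDiff hC.ev
  have e2 : D ∆ C ≤ C ⊔ T := symmDiff_le_sup.trans (sup_le d2 le_sup_left)
  have e3 : ¬(D ∆ C).Adj x y := by simp [symmDiff_adj, x1, x2]
  obtain ⟨E, f1, f2⟩ := exists_circ_le (K := D ∆ C) (fun h => d3 (symmDiff_eq_bot.1 h)) e1.ne_one
  have f3 : E \ C ≤ D \ C := fun a b h =>
    ((symmDiff_adj _ _ _ _).1 (f1 h.1)).elim id fun h' => absurd h'.1 h.2
  have f4 : E \ C = D \ C := edgeSet_injective (Set.eq_of_subset_of_ncard_le (edgeSet_mono f3)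
    (hmin E ⟨f2, f1.trans e2, fun h => e3 (f1 (h ▸ x2))⟩))
  have f5 : (D ∆ C) ∆ E ≤ C := by
    intro a b h
    by_contra hn
    rcases (symmDiff_adj _ _ _ _).1 h with h | h
    · rcases (symmDiff_adj _ _ _ _).1 h.1 with h' | h'
      · exact h.2 (f4.ge h').1
      · exact hn h'.1
    · exact h.2 (f1 h.1)
  have f6 : D ∆ C = E := by
    by_contra hn
    have := hC.eq_of_le f5 (fun h => hn (symmDiff_eq_bot.1 h)) (e1.symmDiff f2.ev).ne_one
    rcases (symmDiff_adj _ _ _ _).1 (this.ge x2) with h | h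
    · exact e3 h.1
    · exact e3 (f1 h.1)
  obtain ⟨a, b, a1, a2, a3⟩ := nt E f2 (f1.trans e2)
  have g : ∀ K, K ≤ C ⊔ T → K \ T ≤ C \ T := fun K h u v huv =>
    ⟨(h huv.1).resolve_right huv.2, huv.2⟩
  refine ⟨D, E, d1, f2, d2, f1.trans e2, fun h => e3 (f1 (h ▸ x1)),
    by rw [← f6, symmDiff_symmDiff_cancel_left], lt_of_le_of_ne (g D d2) fun h => ?_,
    lt_of_le_of_ne (g E (f1.trans e2)) fun h => e3 (f1 (h.ge ⟨x2, x3⟩).1)⟩
  have := (symmDiff_adj _ _ _ _).1 (f1 a1)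
  simp [a2, (h.ge ⟨a2, a3⟩).1] at this

theorem cyc_of_cert (hT : ∀ K ≤ T, (∀ v, dg K v ≠ 1) → K = ⊥) (hG : T ≤ G) {k : ℕ}
    (H : Fin k → SimpleGraph V) (h1 : ∀ i, H i ≤ G ∧ H i ≠ ⊥ ∧ Ev (H i))
    (h2 : ∀ i j, H i ≤ H j → i = j) (h3 : ∀ i j, i ≠ j → ∃ l, H l ≤ H i ∆ H j)
    (h4 : ∀ a b, G.Adj a b → ¬T.Adj a b → ∃ l, ∀ x y, (H l).Adj x y ∧ ¬T.Adj x y ↔
      x = a ∧ y = b ∨ x = b ∧ y = a) : cyc G = k := by
  have key : ∀ (X C : SimpleGraph V), C \ T = X → C ≤ G → Circ C → ∃ l, H l = C := by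
    intro X
    induction X using WellFoundedLT.induction with
    | _ X ih =>
    rintro C rfl c1 c2
    obtain ⟨a, b, a1, a2⟩ : ∃ a b, C.Adj a b ∧ ¬T.Adj a b := by
      by_contra hn
      push Not at hn
      exact c2.ne_bot (hT C hn c2.ev.ne_one)
    obtain ⟨l, hl⟩ := h4 a b (c1 a1) a2
    have b1 : H l ≤ C ⊔ T := fun x y h => by
      by_cases c : T.Adj x y
      · exact Or.inr c
      · rcases (hl x y).1 ⟨h, c⟩ with ⟨rfl, rfl⟩ | ⟨rfl, rfl⟩
        · exact Or.inl a1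
        · exact Or.inl a1.symm
    obtain ⟨D0, d1, d2⟩ := exists_circ_le (h1 l).2.1 (h1 l).2.2.ne_one
    by_cases c : D0 = C
    · subst c
      refine ⟨l, symmDiff_eq_bot.1 (hT _ (fun x y h => ?_) ((h1 l).2.2.symmDiff c2.ev).ne_one)⟩
      rcases (symmDiff_adj _ _ _ _).1 h with h | h
      · exact (b1 h.1).resolve_left h.2
      · exact absurd (d1 h.1) h.2
    obtain ⟨D, E, e1, e2, e3, e4, e5, e6, e7, e8⟩ := circ_split hT c2 d2 (d1.trans b1) c
    obtain ⟨i, rfl⟩ := ih _ e7 D rfl (e3.trans (sup_le c1 hG)) e1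
    obtain ⟨j, rfl⟩ := ih _ e8 E rfl (e4.trans (sup_le c1 hG)) e2
    obtain ⟨l, hl⟩ := h3 i j fun h => e5 (by rw [h])
    exact ⟨l, c2.eq_of_le (e6 ▸ hl) (h1 l).2.1 (h1 l).2.2.ne_one⟩
  have : {K | K ≤ G ∧ Circ K} = Set.range H := by
    ext K
    refine ⟨fun h => key _ K rfl h.1 h.2, ?_⟩
    rintro ⟨i, rfl⟩
    obtain ⟨C, c1, c2⟩ := exists_circ_le (h1 i).2.1 (h1 i).2.2.ne_one
    obtain ⟨j, rfl⟩ := key _ C rfl (c1.trans (h1 i).1) c2
    obtain rfl := h2 _ _ c1
    exact ⟨(h1 j).1, c2⟩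
  rw [cyc_eq', this, Set.ncard_range_of_injective fun i j h => h2 i j h.le]
  simp

theorem par_spec {r : V} {par : V → V} {rk : V → ℕ}
    (hp : ∀ a, a ≠ r → G.Adj a (par a) ∧ rk (par a) < rk a)
    (hT : ∀ x y, T.Adj x y ↔ (x ≠ r ∧ par x = y) ∨ (y ≠ r ∧ par y = x)) :
    G.Connected ∧ T ≤ G ∧ ∀ K ≤ T, (∀ v, dg K v ≠ 1) → K = ⊥ := by
  classical
  refine ⟨(connected_iff_exists_forall_reachable _).2 ⟨r, fun v => ?_⟩, fun x y h => ?_,
    fun K hK h1 => ?_⟩
  · induction hn : rk v using Nat.strong_induction_on generalizing v with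
    | _ n ih =>
    by_cases c : v = r
    · rw [c]
    · exact (ih _ (hn ▸ (hp v c).2) _ rfl).trans (hp v c).1.reachable.symm
  · rcases (hT x y).1 h with ⟨c, rfl⟩ | ⟨c, rfl⟩
    · exact (hp x c).1
    · exact (hp y c).1.symm
  · by_contra h0
    obtain ⟨a, b, hab⟩ := ne_bot_iff_exists_adj.1 h0
    obtain ⟨v, hv, hmax⟩ := exists_max_image (univ.filter fun v => ∃ w, K.Adj v w) rk
      ⟨a, mem_filter.2 ⟨mem_univ _, b, hab⟩⟩
    have key : ∀ w, K.Adj v w → w = par v := fun w hw => by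
      rcases (hT v w).1 (hK hw) with ⟨-, e⟩ | ⟨c, e⟩
      · exact e.symm
      · have t1 := hmax w (mem_filter.2 ⟨mem_univ _, v, hw.symm⟩)
        have t2 := (hp w c).2
        rw [e] at t2
        omega
    obtain ⟨w, hw⟩ := (mem_filter.1 hv).2
    exact h1 v (Set.ncard_eq_one.2 ⟨par v, Set.eq_singleton_iff_unique_mem.2
      ⟨key w hw ▸ hw, key⟩⟩)

end cert

/-- Adjacency read from a matrix. -/
def Am (M : List (List Bool)) (i j : ℕ) : Prop := i ≠ j ∧ (ent M i j = true ∨ ent M j i = true)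

/-- The graph of a matrix. -/
def gr (n : ℕ) (M : List (List Bool)) : SimpleGraph (Fin n) := fromRel fun i j => ent M i j = true

open Classical in
/-- The degree read from a matrix. -/
noncomputable def dgM (M : List (List Bool)) (n i : ℕ) : ℕ :=
  (List.range n).countP fun j => decide (Am M i j)

/-- The edges of the tree given by a list of parents. -/
def Tm (r : ℕ) (par : List ℕ) (x y : ℕ) : Prop :=
  (x ≠ r ∧ par.getD x 0 = y) ∨ (y ≠ r ∧ par.getD y 0 = x)

theorem gr_adj {n : ℕ} {M : List (List Bool)} {i j : Fin n} : (gr n M).Adj i j ↔ Am M i j := by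
  simp [gr, Am, Fin.ext_iff]

theorem gr_adjRows {n : ℕ} (G : SimpleGraph (Fin n)) : gr n (adjRows G) = G := by
  ext i j
  simp only [gr, fromRel_adj, ent_adjRows]
  exact ⟨fun h => h.2.elim id Adj.symm, fun h => ⟨h.ne, Or.inl h⟩⟩

theorem am_adjRows {n : ℕ} (G : SimpleGraph (Fin n)) (i j : Fin n) :
    Am (adjRows G) i j ↔ G.Adj i j := by rw [← gr_adj, gr_adjRows]

theorem dg_gr {n : ℕ} (M : List (List Bool)) (i : Fin n) : dg (gr n M) i = dgM M n i := by
  classical
  rw [dg, ← Set.ncard_image_of_injective _ Fin.val_injective, dgM, List.countP_eq_length_filter,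
    ← List.toFinset_card_of_nodup (List.nodup_range.filter _), ← Set.ncard_coe_finset]
  congr 1
  ext j
  simp only [Set.mem_image, mem_neighborSet, gr_adj, List.coe_toFinset, List.mem_filter,
    List.mem_range, decide_eq_true_eq, Set.mem_ofPred_eq]
  exact ⟨fun ⟨a, h, e⟩ => e ▸ ⟨a.2, h⟩, fun h => ⟨⟨j, h.1⟩, h.2, rfl⟩⟩

/-- The verifier. -/
def Ver (u : List Bool) (d : List ℕ) (M : List (List Bool)) (r : ℕ) (par rk : List ℕ)
    (Hs : List (List (List Bool))) : Prop :=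
  u = List.replicate u.length true ∧ d.Pairwise (· ≥ ·) ∧
  (∀ i < d.length, dgM M d.length i = d.getD i 0) ∧ r < d.length ∧
  (∀ a < d.length, a ≠ r → par.getD a 0 < d.length ∧ Am M a (par.getD a 0) ∧
    rk.getD (par.getD a 0) 0 < rk.getD a 0) ∧ Hs.length = u.length ∧
  (∀ i < Hs.length, (∀ x < d.length, ∀ y < d.length, Am (Hs.getD i []) x y → Am M x y) ∧
    (∃ x < d.length, ∃ y < d.length, Am (Hs.getD i []) x y) ∧
    ∀ x < d.length, Even (dgM (Hs.getD i []) d.length x)) ∧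
  (∀ i < Hs.length, ∀ j < Hs.length, (∀ x < d.length, ∀ y < d.length,
    Am (Hs.getD i []) x y → Am (Hs.getD j []) x y) → i = j) ∧
  (∀ i < Hs.length, ∀ j < Hs.length, i ≠ j → ∃ l < Hs.length, ∀ x < d.length, ∀ y < d.length,
    Am (Hs.getD l []) x y → (Am (Hs.getD i []) x y ∧ ¬Am (Hs.getD j []) x y) ∨
      (Am (Hs.getD j []) x y ∧ ¬Am (Hs.getD i []) x y)) ∧
  ∀ a < d.length, ∀ b < d.length, Am M a b → ¬Tm r par a b → ∃ l < Hs.length,
    ∀ x < d.length, ∀ y < d.length,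
      (Am (Hs.getD l []) x y ∧ ¬Tm r par x y ↔ x = a ∧ y = b ∨ x = b ∧ y = a)

theorem ver_sound {u : List Bool} {d : List ℕ} {M : List (List Bool)} {r : ℕ} {par rk : List ℕ}
    {Hs : List (List (List Bool))} (h : Ver u d M r par rk Hs) : Good (u, d) := by
  obtain ⟨h1, h2, h3, h4, h5, h6, h7, h8, h9, h10⟩ := h
  let pf : Fin d.length → Fin d.length := fun a =>
    if h : par.getD a 0 < d.length then ⟨_, h⟩ else a
  have p1 : ∀ a : Fin d.length, a ≠ ⟨r, h4⟩ → (pf a).1 = par.getD a 0 := fun a ha => by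
    simp only [pf, dif_pos (h5 a a.2 (Fin.val_ne_of_ne ha)).1]
  let T : SimpleGraph (Fin d.length) :=
    { Adj := fun x y => Tm r par x y
      symm := ⟨fun _ _ h => Or.symm h⟩
      loopless := ⟨fun a h => by
        obtain ⟨c1, c2⟩ := or_self_iff.1 h
        exact (h5 a a.2 c1).2.1.1 c2.symm⟩ }
  obtain ⟨a1, a2, a3⟩ := par_spec (G := gr d.length M) (T := T) (r := ⟨r, h4⟩) (par := pf)
    (rk := fun a => rk.getD a 0) (fun a ha => by
      rw [gr_adj, p1 a ha]
      exact (h5 a a.2 (Fin.val_ne_of_ne ha)).2) fun x y =>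
      or_congr (by
        rw [← Fin.val_ne_iff]
        exact and_congr_right fun c => by rw [Fin.ext_iff, p1 x (Fin.ne_of_val_ne c)]) (by
        rw [← Fin.val_ne_iff]
        exact and_congr_right fun c => by rw [Fin.ext_iff, p1 y (Fin.ne_of_val_ne c)])
  refine ⟨h1, h2, gr d.length M, ⟨a1, ?_⟩, fun i => by simpa [dg_gr] using h3 i i.2⟩
  refine Eq.trans (cyc_of_cert a3 a2 (fun i : Fin Hs.length => gr d.length (Hs.getD i []))
    (fun i => ?_) (fun i j h => ?_) (fun i j h => ?_) fun a b c1 c2 => ?_) h6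
  · obtain ⟨b1, ⟨x, hx, y, hy, b2⟩, b3⟩ := h7 i i.2
    exact ⟨fun x y h => gr_adj.2 (b1 x x.2 y y.2 (gr_adj.1 h)),
      ne_bot_iff_exists_adj.2 ⟨⟨x, hx⟩, ⟨y, hy⟩, gr_adj.2 b2⟩, fun x => dg_gr _ x ▸ b3 x x.2⟩
  · exact Fin.ext (h8 i i.2 j j.2 fun x hx y hy c =>
      gr_adj.1 (h (gr_adj.2 c : (gr _ _).Adj ⟨x, hx⟩ ⟨y, hy⟩)))
  · obtain ⟨l, hl, c⟩ := h9 i i.2 j j.2 (Fin.val_ne_of_ne h)
    refine ⟨⟨l, hl⟩, fun x y e => ?_⟩
    simp only [symmDiff_adj, gr_adj]
    exact c x x.2 y y.2 (gr_adj.1 e)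
  · obtain ⟨l, hl, c⟩ := h10 a a.2 b b.2 (gr_adj.1 c1) c2
    refine ⟨⟨l, hl⟩, fun x y => ?_⟩
    simp only [gr_adj, Fin.ext_iff]
    exact c x x.2 y y.2

theorem forall_lt_fin {n : ℕ} {P : ℕ → Prop} : (∀ i < n, P i) ↔ ∀ i : Fin n, P i :=
  ⟨fun h i => h i i.2, fun h i hi => h ⟨i, hi⟩⟩

theorem exists_lt_fin {n : ℕ} {P : ℕ → Prop} : (∃ i < n, P i) ↔ ∃ i : Fin n, P i :=
  ⟨fun ⟨i, hi, h⟩ => ⟨⟨i, hi⟩, h⟩, fun ⟨i, h⟩ => ⟨i, i.2, h⟩⟩

theorem size_adjRows {n : ℕ} (G : SimpleGraph (Fin n)) : size (adjRows G) ≤ n * (2 * (3 * n) + 1) := by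
  have := size_list_le (adjRows G) (3 * n) fun a ha => by
    rw [size_listBool, (isAdjRows_adjRows G).1 a ha, length_adjRows]
  rwa [length_adjRows] at this

theorem ver_complete {u : List Bool} {d : List ℕ} (h : Good (u, d)) :
    ∃ b : List (List Bool) × ℕ × List ℕ × List ℕ × List (List (List Bool)),
      size b ≤ (2 * u.length + 10) * (d.length * (2 * (3 * d.length) + 1) + 1) ∧
        Ver u d b.1 b.2.1 b.2.2.1 b.2.2.2.1 b.2.2.2.2 := by
  obtain ⟨h1, h2, G, hG, h3⟩ := h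
  simp only at h1 h2 h3 G hG
  obtain ⟨F⟩ := exists_fund hG.connected
  obtain ⟨r⟩ := hG.connected.nonempty
  obtain ⟨par, rk, p0, p1, p2⟩ := exists_par F.tree r
  obtain ⟨e⟩ : Nonempty (Fin u.length ≃ {K | K ≤ G ∧ Circ K}) :=
    Finite.card_eq.1 (by rw [Nat.card_fin, Nat.card_coe_set_eq, ← cyc_eq']; exact hG.card_eq.symm)
  have q1 : ∀ a : Fin d.length, (List.ofFn fun a => (par a).1).getD a 0 = par a := by simp
  have q2 : ∀ a : Fin d.length, (List.ofFn rk).getD a 0 = rk a := by simp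
  have q3 : ∀ i : Fin u.length, (List.ofFn fun i => adjRows (e i).1).getD i [] =
      adjRows (e i).1 := by simp
  have q4 : ∀ x y : Fin d.length, Tm r (List.ofFn fun a => (par a).1) x y ↔ F.T.Adj x y := by
    intro x y
    simp only [Tm, q1, Fin.val_ne_iff, Fin.val_inj]
    refine ⟨?_, p2 x y⟩
    rintro (⟨c, rfl⟩ | ⟨c, rfl⟩)
    · exact (p1 x c).1
    · exact (p1 y c).1.symm
  refine ⟨(adjRows G, r, List.ofFn fun a => (par a).1, List.ofFn rk,
    List.ofFn fun i => adjRows (e i).1), ?_, h1, h2, ?_⟩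
  · have a1 := size_adjRows G
    have a2 := (size_nat_le_self r.1).trans r.2.le
    have a3 := size_list_le (List.ofFn fun a => (par a).1) (3 * d.length) fun a ha => by
      obtain ⟨v, rfl⟩ := (List.mem_ofFn' _ _).1 ha
      exact (size_nat_le_self _).trans ((par v).2.le.trans (by omega))
    have a4 := size_list_le (List.ofFn rk) (3 * d.length) fun a ha => by
      obtain ⟨v, rfl⟩ := (List.mem_ofFn' _ _).1 ha
      have := p0 v
      rw [Fintype.card_fin] at this
      exact (size_nat_le_self _).trans (by omega)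
    have a5 := size_list_le (List.ofFn fun i => adjRows (e i).1) _ fun a ha => by
      obtain ⟨v, rfl⟩ := (List.mem_ofFn' _ _).1 ha
      exact size_adjRows _
    have a6 : d.length ≤ d.length * (2 * (3 * d.length) + 1) := Nat.le_mul_of_pos_right _ (by omega)
    simp only [List.length_ofFn] at a3 a4 a5
    simp only [size_prod]
    generalize d.length * (2 * (3 * d.length) + 1) = S at *
    nlinarith
  simp only [List.length_ofFn, forall_lt_fin, exists_lt_fin, q1, q2, q3, q4, am_adjRows,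
    ← dg_gr, gr_adjRows, Fin.val_ne_iff, Fin.val_inj]
  refine ⟨fun i => by simp [h3], r.2, fun a ha => ⟨(par a).2, F.le (p1 a ha).1, (p1 a ha).2⟩,
    trivial, fun i => ⟨fun x y h => (e i).2.1 h, ne_bot_iff_exists_adj.1 (e i).2.2.ne_bot,
      (e i).2.2.ev⟩, fun i j h => ?_, fun i j h => ?_, fun a b c1 c2 => ?_⟩
  · exact e.injective (Subtype.ext ((e j).2.2.eq_of_le h (e i).2.2.ne_bot (e i).2.2.ev.ne_one))
  · obtain ⟨K, k1, k2⟩ := exists_circ_le (K := (e i).1 ∆ (e j).1)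
      (fun c => h (e.injective (Subtype.ext (symmDiff_eq_bot.1 c))))
      ((e i).2.2.ev.symmDiff (e j).2.2.ev).ne_one
    obtain ⟨l, hl⟩ := e.surjective
      ⟨K, k1.trans (symmDiff_le_sup.trans (sup_le (e i).2.1 (e j).2.1)), k2⟩
    exact ⟨l, fun x y c => (symmDiff_adj _ _ _ _).1 (k1 (by rwa [hl] at c))⟩
  · have c : s(a, b) ∈ G.edgeSet \ F.T.edgeSet := ⟨c1, c2⟩
    obtain ⟨l, hl⟩ := e.surjective ⟨F.C s(a, b), F.C_le _ c, F.circ _ c⟩
    refine ⟨l, fun x y => ?_⟩
    rw [hl, ← Sym2.eq_iff]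
    refine ⟨fun h => (F.sub _ c (show s(x, y) ∈ _ from h.1)).resolve_right h.2, fun h => ?_⟩
    rw [← mem_edgeSet, ← mem_edgeSet, h]
    exact ⟨F.mem _ c, c2⟩

section
variable {α : Type} [Enc α]

@[fun_prop] theorem am_pp {M : α → List (List Bool)} {i j : α → ℕ} (h1 : PT M) (h2 : PT i)
    (h3 : PT j) : PP (fun x => Am (M x) (i x) (j x)) := by
  unfold Am
  fun_prop

@[fun_prop] theorem tm_pp {r i j : α → ℕ} {par : α → List ℕ} (h0 : PT r) (h1 : PT par) (h2 : PT i)
    (h3 : PT j) : PP (fun x => Tm (r x) (par x) (i x) (j x)) := by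
  unfold Tm
  fun_prop

@[fun_prop] theorem dgM_pt {M : α → List (List Bool)} {n i : α → ℕ} (h1 : PT M) (h2 : PT n)
    (h3 : PB n) (h4 : PT i) : PT (fun x => dgM (M x) (n x) (i x)) := by
  unfold dgM
  fun_prop

end

theorem good_mem_NP : langOf Good ∈ N68a2faeb.NP :=
  langOf_mem_NP (β := List (List Bool) × ℕ × List ℕ × List ℕ × List (List (List Bool)))
    (fun z => Ver z.1.1 z.1.2 z.2.1 z.2.2.1 z.2.2.2.1 z.2.2.2.2.1 z.2.2.2.2.2)
    (by unfold Ver; fun_prop)
    (fun a => (2 * a.1.length + 10) * (a.2.length * (2 * (3 * a.2.length) + 1) + 1)) (by fun_prop)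
    (fun _ _ h => ver_sound h) fun _ h => ver_complete h

theorem kcyc_complete : N793a5b8e.IsCompleteFor N68a2faeb.NP KCYC := by
  rw [kcyc_eq]
  exact good_hard.isComplete (fun _ _ => Iff.rfl) good_mem_NP

end Pool.Agent.MP_e633d5_co.H84

end
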