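import Pool.Agent.MP_e633d5_co.Mg.Necessary

-- part MP_e633d5_co.H84.Thick
section

/-! Bundles of parallel paths through vertices of degree two: lower bounds for the number of
cycles, and the number of cycles of a tree of bundles. -/

namespace Pool.Agent.MP_e633d5_co.H84

open SimpleGraph Finset

variable {V B : Type}

/-- Parent function and rank of a rooted tree. -/
theorem exists_par [Fintype B] {T : SimpleGraph B} (hT : T.IsTree) (h : B) :
    ∃ (par : B → B) (rk : B → ℕ), (∀ a, rk a < Fintype.card B) ∧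
      (∀ a, a ≠ h → T.Adj a (par a) ∧ rk (par a) < rk a) ∧
      ∀ a b, T.Adj a b → (a ≠ h ∧ par a = b) ∨ (b ≠ h ∧ par b = a) := by
  choose p hp hu using fun a => hT.existsUnique_path a h
  refine ⟨fun a => (p a).snd, fun a => (p a).length, fun a => (hp a).length_lt, fun a ha => ?_,
    fun a b hab => ?_⟩
  · have hn : ¬(p a).Nil := Walk.not_nil_of_ne ha
    refine ⟨(p a).adj_snd hn, ?_⟩
    have h1 := hu _ (p a).tail (hp a).tail
    have h2 := Walk.length_tail_add_one hn
    rw [h1] at h2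
    simp only
    omega
  · by_cases hm : a ∈ (p b).support
    · refine Or.inr ⟨?_, (hT.isAcyclic.eq_snd_of_adj_start (hp b) hab.symm hm).symm⟩
      rintro rfl
      rw [← hu b Walk.nil Walk.IsPath.nil] at hm
      exact hab.ne (by simpa using hm)
    · refine Or.inl ⟨?_, ?_⟩
      · rintro rfl
        exact hm (p b).end_mem_support
      · simp only [← hu a ((p b).cons hab) ((hp b).cons hm), Walk.snd_cons]

open Classical in
/-- The vertices outside the range of `β` whose neighbours are the two ends of `e`. -/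
noncomputable def mid [Fintype V] (G : SimpleGraph V) (β : B → V) (e : Sym2 B) : Finset V :=
  univ.filter fun v => v ∉ Set.range β ∧ ∀ x, G.Adj v x ↔ ∃ a ∈ e, β a = x

open Classical in
/-- A non-empty set of vertices that contains no unique neighbour of a vertex `β b`. -/
def Bal (G : SimpleGraph V) (β : B → V) (Y : Finset V) : Prop :=
  Y.Nonempty ∧ ∀ b, (Y.filter fun y => G.Adj y (β b)).card ≠ 1

section lower

variable [Fintype V] {G : SimpleGraph V} {β : B → V}

theorem mem_mid {e : Sym2 B} {v : V} :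
    v ∈ mid G β e ↔ v ∉ Set.range β ∧ ∀ x, G.Adj v x ↔ ∃ a ∈ e, β a = x := by
  simp [mid]

theorem adj_of_mid (hβ : Function.Injective β) {e : Sym2 B} {v : V} (h : v ∈ mid G β e) (a : B) :
    G.Adj v (β a) ↔ a ∈ e := by
  rw [(mem_mid.1 h).2]
  exact ⟨fun ⟨b, hb, e⟩ => hβ e ▸ hb, fun ha => ⟨a, ha, rfl⟩⟩

theorem eq_of_mid (hβ : Function.Injective β) {e e' : Sym2 B} {v : V} (h : v ∈ mid G β e)
    (h' : v ∈ mid G β e') : e = e' :=
  Sym2.ext fun a => (adj_of_mid hβ h a).symm.trans (adj_of_mid hβ h' a)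

theorem dg_of_mid (hβ : Function.Injective β) {a b : B} (hab : a ≠ b) {v : V}
    (h : v ∈ mid G β s(a, b)) : dg G v = 2 := by
  have : G.neighborSet v = {β a, β b} := by
    ext x
    simp [(mem_mid.1 h).2, eq_comm]
  rw [dg, this, Set.ncard_pair (hβ.ne hab)]

/-- The edges at the vertices of `Y`. -/
def star (G : SimpleGraph V) (Y : Finset V) : SimpleGraph V where
  Adj x y := G.Adj x y ∧ (x ∈ Y ∨ y ∈ Y)
  symm := ⟨fun _ _ h => ⟨h.1.symm, h.2.symm⟩⟩
  loopless := ⟨fun _ h => h.1.ne rfl⟩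

theorem star_NL (hβ : Function.Injective β) {Y : Finset V}
    (hY : ∀ y ∈ Y, ∃ a b, a ≠ b ∧ y ∈ mid G β s(a, b)) (hb : Bal G β Y) :
    star G Y ≠ ⊥ ∧ ∀ v, dg (star G Y) v ≠ 1 := by
  classical
  constructor
  · obtain ⟨y, hy⟩ := hb.1
    obtain ⟨a, b, -, h⟩ := hY y hy
    exact ne_bot_iff_exists_adj.2 ⟨y, β a, (adj_of_mid hβ h a).2 (by simp), Or.inl hy⟩
  intro v hv
  by_cases hvY : v ∈ Y
  · obtain ⟨a, b, hab, h⟩ := hY v hvY
    have h1 : (star G Y).neighborSet v = G.neighborSet v := by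
      ext x; simp [star, hvY]
    have h2 := dg_of_mid hβ hab h
    rw [dg] at hv h2
    rw [h1] at hv
    omega
  · have h1 : (star G Y).neighborSet v = ↑(Y.filter fun y => G.Adj y v) := by
      ext x; simp [star, hvY, G.adj_comm, and_comm]
    rw [dg, h1, Set.ncard_coe_finset] at hv
    obtain ⟨y, hy⟩ := card_pos.1 (hv ▸ Nat.one_pos)
    obtain ⟨a, b, -, h⟩ := hY y (mem_filter.1 hy).1
    obtain ⟨c, -, rfl⟩ := ((mem_mid.1 h).2 v).1 (mem_filter.1 hy).2
    exact hb.2 c (by convert hv)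

open Classical in
/-- The vertices of a subgraph outside the range of `β`. -/
noncomputable def sm (β : B → V) (Z : SimpleGraph V) : Finset V :=
  univ.filter fun v => v ∉ Set.range β ∧ 0 < dg Z v

theorem mem_sm {Z : SimpleGraph V} {v : V} : v ∈ sm β Z ↔ v ∉ Set.range β ∧ 0 < dg Z v := by
  simp [sm]

theorem nbr_eq (hβ : Function.Injective β) {Z : SimpleGraph V} (hZ : Z ≤ G) (h1 : ∀ v, dg Z v ≠ 1)
    {a b : B} (hab : a ≠ b) {y : V} (h : y ∈ mid G β s(a, b)) (h0 : 0 < dg Z y) {x : V}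
    (hx : G.Adj y x) : Z.Adj y x := by
  have h2 := dg_of_mid hβ hab h
  have h3 := h1 y
  have h4 : Z.neighborSet y = G.neighborSet y :=
    Set.eq_of_subset_of_ncard_le (fun _ hw => hZ hw) (by rw [dg] at h0 h2 h3; omega)
  exact (Set.ext_iff.1 h4 x).2 hx

theorem bal_sm (hβ : Function.Injective β) {Z : SimpleGraph V} (hZ : Z ≤ G) (h0 : Z ≠ ⊥)
    (h1 : ∀ v, dg Z v ≠ 1) (h2 : ∀ a b, ¬Z.Adj (β a) (β b))
    (hY : ∀ y ∈ sm β Z, ∃ a b, a ≠ b ∧ y ∈ mid G β s(a, b)) : Bal G β (sm β Z) := by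
  classical
  constructor
  · obtain ⟨x, y, hxy⟩ := ne_bot_iff_exists_adj.1 h0
    by_cases hx : x ∈ Set.range β
    · obtain ⟨a, rfl⟩ := hx
      exact ⟨y, mem_filter.2 ⟨mem_univ _, fun ⟨b, e⟩ => h2 a b (e ▸ hxy), dg_pos hxy.symm⟩⟩
    · exact ⟨x, mem_filter.2 ⟨mem_univ _, hx, dg_pos hxy⟩⟩
  intro c hc
  refine h1 (β c) ?_
  rw [dg, ← hc, ← Set.ncard_coe_finset]
  congr 1
  ext y
  simp only [mem_neighborSet, coe_filter, Set.mem_ofPred_eq]
  constructor
  · intro hy
    exact ⟨mem_filter.2 ⟨mem_univ _, fun ⟨b, e⟩ => h2 c b (e ▸ hy), dg_pos hy.symm⟩, (hZ hy).symm⟩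
  · rintro ⟨hy, hy'⟩
    obtain ⟨a, b, hab, h⟩ := hY y hy
    exact (nbr_eq hβ hZ h1 hab h (mem_filter.1 hy).2.2 hy').symm

/-- Minimal balanced sets of middle vertices come from distinct cycles. -/
theorem card_le_cyc (hβ : Function.Injective β) (F : Finset (Finset V))
    (hF : ∀ Y ∈ F, (∀ y ∈ Y, ∃ a b, a ≠ b ∧ y ∈ mid G β s(a, b)) ∧ Bal G β Y ∧
      ∀ Y' ⊆ Y, Bal G β Y' → Y' = Y) : F.card ≤ cyc G := by
  classical
  rw [cyc_eq', ← Set.ncard_coe_finset]
  refine le_trans (Set.ncard_le_ncard (fun Y hY => ?_)) (Set.ncard_image_le (f := sm β))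
  obtain ⟨a1, a2, a3⟩ := hF Y hY
  obtain ⟨b1, b2⟩ := star_NL hβ a1 a2
  obtain ⟨Z, hZ, hc⟩ := exists_circ_le b1 b2
  have hG : Z ≤ G := fun _ _ h => (hZ h).1
  have hs : sm β Z ⊆ Y := fun v hv => by
    obtain ⟨-, c1, c2⟩ := mem_filter.1 hv
    obtain ⟨w, hw⟩ : ∃ w, Z.Adj v w := by
      by_contra hn
      push Not at hn
      exact c2.ne' (dg_eq_zero.2 hn)
    refine (hZ hw).2.elim id fun hwY => ?_
    obtain ⟨a, b, -, h⟩ := a1 w hwY
    obtain ⟨c, -, e⟩ := ((mem_mid.1 h).2 v).1 (hG hw).symm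
    exact absurd ⟨c, e⟩ c1
  refine ⟨Z, ⟨hG, hc⟩, a3 _ hs (bal_sm hβ hG hc.ne_bot hc.ev.ne_one (fun a b h => ?_)
    fun y hy => a1 y (hs hy))⟩
  rcases (hZ h).2 with h' | h'
  · obtain ⟨_, _, -, h''⟩ := a1 _ h'
    exact (mem_mid.1 h'').1 ⟨_, rfl⟩
  · obtain ⟨_, _, -, h''⟩ := a1 _ h'
    exact (mem_mid.1 h'').1 ⟨_, rfl⟩

open Classical in
theorem filter_mid (hβ : Function.Injective β) {e : Sym2 B} {Y : Finset V} (hY : Y ⊆ mid G β e)
    (c : B) : (Y.filter fun y => G.Adj y (β c)) = if c ∈ e then Y else ∅ := by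
  split_ifs with h
  · exact filter_true_of_mem fun y hy => (adj_of_mid hβ (hY hy) c).2 h
  · exact filter_false_of_mem fun y hy h' => h ((adj_of_mid hβ (hY hy) c).1 h')

theorem bal_pair (hβ : Function.Injective β) {e : Sym2 B} {Y : Finset V} (hY : Y ⊆ mid G β e)
    (h2 : Y.card = 2) : Bal G β Y ∧ ∀ Y' ⊆ Y, Bal G β Y' → Y' = Y := by
  refine ⟨⟨card_pos.1 (by omega), fun c => ?_⟩, fun Y' hs hb => ?_⟩
  · rw [filter_mid hβ hY]
    split_ifs <;> simp [h2]
  · have h1 := hb.2 e.out.1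
    rw [filter_mid hβ (hs.trans hY), if_pos (Sym2.out_fst_mem e)] at h1
    have := card_pos.2 hb.1
    exact eq_of_subset_of_card_le hs (by omega)

/-- Pairs of parallel paths along the edges of a rooted tree. -/
theorem sum_choose_le [Fintype B] (hβ : Function.Injective β) {S : Finset B} {par : B → B}
    {rk : B → ℕ} (hr : ∀ a ∈ S, rk (par a) < rk a) :
    ∑ c ∈ S, (mid G β s(c, par c)).card.choose 2 ≤ cyc G := by
  classical
  have h1 : (S.biUnion fun c => powersetCard 2 (mid G β s(c, par c))).card =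
      ∑ c ∈ S, (mid G β s(c, par c)).card.choose 2 := by
    rw [card_biUnion, sum_congr rfl fun c _ => card_powersetCard _ _]
    intro c hc c' hc' hne
    refine disjoint_left.2 fun Y h h' => ?_
    obtain ⟨a1, a2⟩ := mem_powersetCard.1 h
    obtain ⟨y, hy⟩ := card_pos.1 (a2 ▸ Nat.two_pos)
    have := eq_of_mid hβ (a1 hy) ((mem_powersetCard.1 h').1 hy)
    rcases Sym2.eq_iff.1 this with h | h
    · exact hne h.1
    · have b1 := hr c hc
      have b2 := hr c' hc'
      rw [h.2] at b1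
      rw [← h.1] at b2
      omega
  rw [← h1]
  refine card_le_cyc hβ _ fun Y hY => ?_
  obtain ⟨c, hc, h⟩ := mem_biUnion.1 hY
  obtain ⟨a1, a2⟩ := mem_powersetCard.1 h
  exact ⟨fun y hy => ⟨c, par c, fun e => absurd (hr c hc) (by rw [← e]; simp), a1 hy⟩,
    bal_pair hβ a1 a2⟩

/-- One path for each edge of a cycle. -/
theorem bal_select [Fintype B] (hβ : Function.Injective β) {C : SimpleGraph B} (hC : Circ C)
    (σ : Sym2 B → V) (hσ : ∀ e ∈ C.edgeSet, σ e ∈ mid G β e) {Y : Finset V}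
    (hY : ∀ y, y ∈ Y ↔ ∃ e ∈ C.edgeSet, σ e = y) :
    (∀ y ∈ Y, ∃ a b, a ≠ b ∧ y ∈ mid G β s(a, b)) ∧ Bal G β Y ∧
      ∀ Y' ⊆ Y, Bal G β Y' → Y' = Y := by
  classical
  let K : Finset V → SimpleGraph B := fun Y' =>
    { Adj := fun a b => C.Adj a b ∧ σ s(a, b) ∈ Y'
      symm := ⟨fun a b h => ⟨h.1.symm, by rw [Sym2.eq_swap]; exact h.2⟩⟩
      loopless := ⟨fun _ h => h.1.ne rfl⟩ }
  have key : ∀ Y' ⊆ Y, ∀ b, dg (K Y') b = (Y'.filter fun y => G.Adj y (β b)).card := by
    intro Y' hs b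
    rw [dg, ← Set.ncard_coe_finset,
      ← Set.InjOn.ncard_image (f := fun a => σ s(b, a)) fun a ha a' ha' h => ?_]
    · congr 1
      ext y
      simp only [Set.mem_image, mem_neighborSet, coe_filter, Set.mem_ofPred_eq]
      constructor
      · rintro ⟨a, ha, rfl⟩
        exact ⟨ha.2, (adj_of_mid hβ (hσ _ ha.1) b).2 (by simp)⟩
      · rintro ⟨h1, h2⟩
        obtain ⟨e, he, rfl⟩ := (hY y).1 (hs h1)
        obtain ⟨a, rfl⟩ := Sym2.mem_iff_exists.1 ((adj_of_mid hβ (hσ _ he) b).1 h2)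
        exact ⟨a, ⟨he, h1⟩, rfl⟩
    · have h1 : σ s(b, a) ∈ mid G β s(b, a') := by
        have h2 : σ s(b, a) = σ s(b, a') := h
        rw [h2]; exact hσ _ ha'.1
      exact Sym2.congr_right.1 (eq_of_mid hβ (hσ _ ha.1) h1)
  have hK : K Y = C := by
    ext a b
    exact ⟨fun h => h.1, fun h => ⟨h, (hY _).2 ⟨_, h, rfl⟩⟩⟩
  refine ⟨fun y hy => ?_, ⟨?_, fun b => ?_⟩, fun Y' hs hb => ?_⟩
  · obtain ⟨e, he, rfl⟩ := (hY y).1 hy
    induction e using Sym2.ind with
    | _ a b => exact ⟨a, b, Adj.ne he, hσ _ he⟩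
  · obtain ⟨a, b, hab⟩ := ne_bot_iff_exists_adj.1 hC.ne_bot
    exact ⟨_, (hY _).2 ⟨s(a, b), hab, rfl⟩⟩
  · have := hC.ev.ne_one b
    rw [← hK, key Y Subset.rfl] at this
    convert this
  · have h1 : K Y' = C := by
      refine hC.eq_of_le (fun _ _ h => h.1) ?_ fun b => ?_
      · obtain ⟨y, hy⟩ := hb.1
        obtain ⟨e, he, rfl⟩ := (hY y).1 (hs hy)
        induction e using Sym2.ind with
        | _ a b => exact ne_bot_iff_exists_adj.2 ⟨a, b, he, hy⟩
      · rw [key Y' hs]
        convert hb.2 b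
    refine Subset.antisymm hs fun y hy => ?_
    obtain ⟨e, he, rfl⟩ := (hY y).1 hy
    induction e using Sym2.ind with
    | _ a b => exact (h1.ge he).2

/-- A cycle of thick bundles gives many cycles. -/
theorem cube_le [Fintype B] (hβ : Function.Injective β) {C : SimpleGraph B} (hC : Circ C) {θ : ℕ}
    (h : ∀ e ∈ C.edgeSet, θ < (mid G β e).card) : (θ + 1) ^ 3 ≤ cyc G := by
  classical
  have : Nonempty V := by
    obtain ⟨a, -, -⟩ := ne_bot_iff_exists_adj.1 hC.ne_bot
    exact ⟨β a⟩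
  let E := C.edgeSet.toFinset
  let P := Fintype.piFinset fun e : E => mid G β e
  have h1 : (θ + 1) ^ 3 ≤ P.card := by
    rw [Fintype.card_piFinset]
    refine le_trans (Nat.pow_le_pow_right (Nat.succ_pos θ) ?_) (pow_card_le_prod _ _ _ fun e _ =>
      h e (Set.mem_toFinset.1 e.2))
    have := hC.six_le.1
    rw [Set.ncard_eq_toFinset_card'] at this
    simpa [E] using this
  have h2 : Set.InjOn (fun s : E → V => univ.image s) P := by
    intro s hs s' hs' e
    funext i
    have h3 : s i ∈ univ.image s' := by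
      have : univ.image s = univ.image s' := e
      rw [← this]; exact mem_image_of_mem _ (mem_univ i)
    obtain ⟨j, -, hj⟩ := mem_image.1 h3
    have h4 := Fintype.mem_piFinset.1 hs' j
    rw [hj] at h4
    rw [← hj, Subtype.ext (eq_of_mid hβ h4 (Fintype.mem_piFinset.1 hs i))]
  rw [← card_image_of_injOn h2] at h1
  refine h1.trans (card_le_cyc hβ _ fun Y hY => ?_)
  obtain ⟨s, hs, rfl⟩ := mem_image.1 hY
  refine bal_select hβ hC (fun e => if h : e ∈ E then s ⟨e, h⟩ else Classical.arbitrary V)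
    (fun e he => ?_) fun y => ?_
  · rw [dif_pos (by simpa [E] using he)]
    exact Fintype.mem_piFinset.1 hs _
  · simp only [mem_image, mem_univ, true_and]
    constructor
    · rintro ⟨e, rfl⟩
      exact ⟨e, Set.mem_toFinset.1 e.2, by rw [dif_pos e.2]⟩
    · rintro ⟨e, he, rfl⟩
      have he' : e ∈ E := by simpa [E] using he
      exact ⟨⟨e, he'⟩, by rw [dif_pos he']⟩

/-- Few vertices of degree two are not middle vertices. -/
theorem dg_le_sum_mid [Fintype B] [DecidableEq B] (hβ : Function.Injective β)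
    (h2 : ∀ v, v ∉ Set.range β → dg G v = 2)
    (hs : ∑ b, dg G (β b) + 2 * Fintype.card B = 2 * Fintype.card V) (a : B) :
    dg G (β a) ≤ ∑ b ∈ univ.erase a, (mid G β s(a, b)).card +
      (Fintype.card B + Fintype.card B ^ 2) := by
  classical
  let Sm : Finset V := univ.filter (· ∉ Set.range β)
  let Bad : Finset V := Sm.filter fun v => ∀ a b, a ≠ b → v ∉ mid G β s(a, b)
  let cnt : V → ℕ := fun v => (univ.filter fun b => G.Adj v (β b)).card
  have e1 : (univ.filter (· ∈ Set.range β)) = univ.image β := by ext v; simp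
  have a1 : Fintype.card B + Sm.card = Fintype.card V := by
    rw [← card_univ (α := V), ← card_filter_add_card_filter_not (s := univ) (· ∈ Set.range β), e1,
      card_image_of_injective _ hβ, card_univ]
  have a2 : ∑ b, dg G (β b) = ∑ v, cnt v := by
    simp only [cnt, card_filter]
    rw [sum_comm]
    refine sum_congr rfl fun b _ => ?_
    rw [← card_filter, dg, ← Set.ncard_coe_finset]
    congr 1
    ext v
    simp [G.adj_comm]
  have a3 : ∑ v ∈ univ.filter (· ∈ Set.range β), cnt v ≤ Fintype.card B ^ 2 := by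
    refine (sum_le_card_nsmul _ _ (Fintype.card B) fun v _ => card_le_univ _).trans ?_
    rw [e1, card_image_of_injective _ hβ, card_univ, smul_eq_mul, sq]
  have a4 : ∑ v ∈ Sm, cnt v + Bad.card ≤ 2 * Sm.card := by
    rw [card_filter, ← sum_add_distrib, mul_comm, ← smul_eq_mul]
    refine sum_le_card_nsmul _ _ _ fun v hv => ?_
    have hv' := (mem_filter.1 hv).2
    have b1 : cnt v ≤ 2 := by
      rw [← h2 v hv', dg, show cnt v = _ from (Set.ncard_coe_finset _).symm]
      exact Set.ncard_le_ncard_of_injOn β (fun b hb => by simpa using hb) hβ.injOn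
    split_ifs with hb
    · have : cnt v ≤ 1 := card_le_one.2 fun a ha b hb' => by
        by_contra hab
        refine hb a b hab (mem_mid.2 ⟨hv', fun x => ⟨fun hx => ?_, ?_⟩⟩)
        · rcases nbr_of_two (h2 v hv') (hβ.ne hab) (mem_filter.1 ha).2 (mem_filter.1 hb').2 x hx
            with rfl | rfl <;> simp
        · rintro ⟨c, hc, rfl⟩
          rcases Sym2.mem_iff.1 hc with rfl | rfl
          · exact (mem_filter.1 ha).2
          · exact (mem_filter.1 hb').2
      omega
    · omega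
  have a5 := sum_filter_add_sum_filter_not univ (· ∈ Set.range β) cnt
  have a6 : Bad.card ≤ Fintype.card B ^ 2 := by
    change _ + ∑ v ∈ Sm, cnt v = _ at a5
    omega
  have a7 : G.neighborSet (β a) ⊆
      ↑((univ.erase a).biUnion (fun b => mid G β s(a, b)) ∪ (univ.image β ∪ Bad)) := by
    intro v hv
    simp only [coe_union, Set.mem_union, mem_coe]
    by_cases c1 : v ∈ Set.range β
    · exact Or.inr (Or.inl (by simpa using c1))
    by_cases c2 : v ∈ Bad
    · exact Or.inr (Or.inr c2)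
    left
    simp only [Bad, Sm, mem_filter, mem_univ, true_and, c1, not_false_eq_true, not_forall,
      not_not] at c2
    obtain ⟨x, y, hxy, hm⟩ := c2
    rcases Sym2.mem_iff.1 ((adj_of_mid hβ hm a).1 (Adj.symm hv)) with rfl | rfl
    · exact mem_biUnion.2 ⟨y, by simpa using Ne.symm hxy, hm⟩
    · exact mem_biUnion.2 ⟨x, by simpa using hxy, by rwa [Sym2.eq_swap]⟩
  have a8 := Set.ncard_le_ncard a7
  rw [Set.ncard_coe_finset] at a8
  refine a8.trans ((card_union_le _ _).trans (add_le_add card_biUnion_le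
    ((card_union_le _ _).trans (add_le_add (card_image_le.trans card_univ.le) a6))))

theorem sum_mid_le (hβ : Function.Injective β) (a : B) (S : Finset B) :
    ∑ b ∈ S, (mid G β s(a, b)).card ≤ dg G (β a) := by
  classical
  rw [← card_biUnion, dg, ← Set.ncard_coe_finset]
  · refine Set.ncard_le_ncard fun v hv => ?_
    obtain ⟨b, -, hb⟩ := mem_biUnion.1 hv
    exact ((adj_of_mid hβ hb a).2 (by simp)).symm
  · intro b _ b' _ hne
    exact disjoint_left.2 fun v h h' => hne (Sym2.congr_right.1 (eq_of_mid hβ h h'))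

/-- A graph with few cycles and as many vertices of degree two as half the sum of the other
degrees is close to a tree of bundles. -/
theorem exists_structure [Fintype B] [DecidableEq B] (hβ : Function.Injective β)
    (h2 : ∀ v, v ∉ Set.range β → dg G v = 2)
    (hs : ∑ b, dg G (β b) + 2 * Fintype.card B = 2 * Fintype.card V) {θ : ℕ}
    (hc : cyc G ≤ θ ^ 3) (h : B) :
    ∃ (par : B → B) (w : B → ℕ), w h = 0 ∧ ∑ c, (w c).choose 2 ≤ cyc G ∧
      ∀ a, w a + ∑ c with par c = a, w c ≤ dg G (β a) ∧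
        dg G (β a) ≤ w a + ∑ c with par c = a, w c +
          (Fintype.card B * θ + (Fintype.card B + Fintype.card B ^ 2)) := by
  classical
  let H : SimpleGraph B :=
    { Adj := fun a b => a ≠ b ∧ θ < (mid G β s(a, b)).card
      symm := ⟨fun a b h => ⟨h.1.symm, by rw [Sym2.eq_swap]; exact h.2⟩⟩
      loopless := ⟨fun _ h => h.1 rfl⟩ }
  have hH : H.IsAcyclic := by
    intro v c hcy
    have h1 := minimal_iff.1 (wg_minimal hcy)
    have h3 := cube_le hβ h1.2 (G := G) (θ := θ) fun e he => by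
      induction e using Sym2.ind with
      | _ a b => exact (h1.1 he).2
    have h4 : θ ^ 3 < (θ + 1) ^ 3 := Nat.pow_lt_pow_left (Nat.lt_succ_self θ) (by norm_num)
    omega
  have : Nonempty B := ⟨h⟩
  obtain ⟨T, hT, -, hT'⟩ := (connected_top (V := B)).exists_isTree_le_of_le_of_isAcyclic le_top hH
  obtain ⟨par, rk, -, p1, p2⟩ := exists_par hT' h
  let w : B → ℕ := fun c => if c = h then 0 else (mid G β s(c, par c)).card
  refine ⟨par, w, if_pos rfl, ?_, fun a => ?_⟩
  · rw [← add_sum_erase _ _ (mem_univ h)]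
    have := sum_choose_le (G := G) hβ (S := univ.erase h) (par := par) (rk := rk)
      fun a ha => (p1 a (ne_of_mem_erase ha)).2
    rw [sum_congr rfl fun c hc => by rw [show w c = _ from if_neg (ne_of_mem_erase hc)]]
    simpa [w] using this
  let N : Finset B := univ.filter fun b => (a ≠ h ∧ par a = b) ∨ (b ≠ h ∧ par b = a)
  have e1 : w a + ∑ c with par c = a, w c = ∑ b ∈ N, (mid G β s(a, b)).card := by
    have b1 : ∑ c with par c = a, w c =
        ∑ b with b ≠ h ∧ par b = a, (mid G β s(a, b)).card := by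
      rw [sum_filter, sum_filter]
      refine sum_congr rfl fun b _ => ?_
      by_cases c1 : par b = a
      · by_cases c2 : b = h
        · simp [w, c2]
        · simp [w, c1, c2, Sym2.eq_swap]
      · simp [c1]
    have b2 : w a = ∑ b with a ≠ h ∧ par a = b, (mid G β s(a, b)).card := by
      by_cases c2 : a = h
      · simp [w, c2]
      · simp [w, c2, filter_eq]
    rw [b1, b2, ← sum_union, ← filter_or]
    refine disjoint_filter.2 fun b _ c1 c2 => ?_
    have d1 := (p1 a c1.1).2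
    have d2 := (p1 b c2.1).2
    rw [c1.2] at d1
    rw [c2.2] at d2
    omega
  rw [e1]
  refine ⟨sum_mid_le hβ a N, (dg_le_sum_mid hβ h2 hs a).trans ?_⟩
  rw [← add_assoc _ (_ * θ)]
  refine Nat.add_le_add_right ?_ _
  rw [← sum_filter_add_sum_filter_not (univ.erase a) (· ∈ N)]
  refine add_le_add (sum_le_sum_of_subset fun b hb => (mem_filter.1 hb).2)
    ((sum_le_card_nsmul _ _ θ fun b hb => ?_).trans (Nat.mul_le_mul_right _ (card_le_univ _)))
  by_contra hlt
  obtain ⟨c1, c2⟩ := mem_filter.1 hb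
  exact c2 (mem_filter.2 ⟨mem_univ _,
    p2 a b (hT ⟨(ne_of_mem_erase c1).symm, not_le.1 hlt⟩)⟩)

end lower

/-- The tree of bundles: `w c` paths of length two between `c` and its parent. -/
def thick (par : B → B) (w : B → ℕ) : SimpleGraph (B ⊕ Σ c, Fin (w c)) where
  Adj
    | .inl a, .inr y => a = y.1 ∨ a = par y.1
    | .inr y, .inl a => a = y.1 ∨ a = par y.1
    | _, _ => False
  symm := ⟨by rintro (a | a) (b | b) h <;> exact h⟩
  loopless := ⟨by rintro (a | a) h <;> exact h⟩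

theorem thick_mid [Fintype B] (par : B → B) (w : B → ℕ) (y : Σ c, Fin (w c)) :
    Sum.inr y ∈ mid (thick par w) Sum.inl s(y.1, par y.1) := by
  refine mem_mid.2 ⟨by simp, ?_⟩
  rintro (a | z) <;> simp [thick, eq_comm]

theorem thick_spec [Fintype B] [DecidableEq B] {h : B} {par : B → B} {rk w : B → ℕ}
    (hr : ∀ a, a ≠ h → rk (par a) < rk a) (w0 : w h = 0) (w1 : ∀ a, a ≠ h → 0 < w a) :
    KCyclic (thick par w) (∑ c, (w c).choose 2) ∧
      (∀ a, dg (thick par w) (.inl a) = w a + ∑ c with par c = a, w c) ∧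
      ∀ y, dg (thick par w) (.inr y) = 2 := by
  classical
  have hβ : Function.Injective (Sum.inl : B → B ⊕ Σ c, Fin (w c)) := Sum.inl_injective
  have n1 : ∀ y : Σ c, Fin (w c), y.1 ≠ h := by
    rintro ⟨c, i⟩ rfl
    exact absurd i.2 (by simp [w0])
  have n2 : ∀ a, a ≠ h → a ≠ par a := fun a ha e => absurd (hr a ha) (by rw [← e]; simp)
  let M : B → Finset (B ⊕ Σ c, Fin (w c)) := fun c => univ.image fun i : Fin (w c) => .inr ⟨c, i⟩
  have m1 : ∀ c, (M c).card = w c := fun c => by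
    rw [card_image_of_injective _ fun i j e => by simpa using e]; simp
  have m2 : ∀ c, M c ⊆ mid (thick par w) Sum.inl s(c, par c) := fun c v hv => by
    obtain ⟨i, -, rfl⟩ := mem_image.1 hv
    exact thick_mid par w ⟨c, i⟩
  have m3 : ∀ y : Σ c, Fin (w c), Sum.inr y ∈ M y.1 := fun y => mem_image.2 ⟨y.2, mem_univ _, rfl⟩
  refine ⟨⟨?_, le_antisymm ?_ ?_⟩, fun a => ?_, fun y =>
    dg_of_mid hβ (n2 _ (n1 y)) (thick_mid par w y)⟩
  · have r1 : ∀ n a, rk a = n → (thick par w).Reachable (.inl a) (.inl h) := by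
      intro n
      induction n using Nat.strong_induction_on with
      | _ n ih =>
      intro a ha
      by_cases c : a = h
      · rw [c]
      · have s1 : (thick par w).Adj (.inl a) (.inr ⟨a, ⟨0, w1 a c⟩⟩) := Or.inl rfl
        have s2 : (thick par w).Adj (.inr ⟨a, ⟨0, w1 a c⟩⟩) (.inl (par a)) := Or.inr rfl
        exact (s1.reachable.trans s2.reachable).trans (ih _ (ha ▸ hr a c) _ rfl)
    have r2 : ∀ v, (thick par w).Reachable v (.inl h) := by
      rintro (a | y)
      · exact r1 _ a rfl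
      · exact (show (thick par w).Adj (.inr y) (.inl y.1) from Or.inl rfl).reachable.trans
          (r1 _ _ rfl)
    exact (connected_iff_exists_forall_reachable _).2 ⟨.inl h, fun v => (r2 v).symm⟩
  · change cyc _ ≤ _
    let F := univ.biUnion fun c => powersetCard 2 (M c)
    have f1 : F.card ≤ ∑ c, (w c).choose 2 :=
      card_biUnion_le.trans (sum_le_sum fun c _ => by rw [card_powersetCard, m1])
    refine le_trans ?_ f1
    rw [cyc_eq', ← Set.ncard_coe_finset]
    refine le_trans (Set.ncard_le_ncard ?_) (Set.ncard_image_le (f := star (thick par w)))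
    rintro Z ⟨hZ, hc⟩
    have s1 : ∀ v ∈ sm Sum.inl Z, ∃ y, v = .inr y := by
      rintro (a | y) hv
      · exact absurd ⟨a, rfl⟩ (mem_sm.1 hv).1
      · exact ⟨y, rfl⟩
    have s2 := bal_sm hβ hZ hc.ne_bot hc.ev.ne_one (fun a b h => hZ h) fun v hv => by
      obtain ⟨y, rfl⟩ := s1 v hv
      exact ⟨_, _, n2 _ (n1 y), thick_mid par w y⟩
    obtain ⟨v, hv, hmax⟩ := exists_max_image _ (Sum.elim (fun _ => 0) fun y => rk y.1) s2.1
    obtain ⟨y, rfl⟩ := s1 v hv
    have s3 : Sum.inr y ∈ (sm Sum.inl Z).filter fun v => (thick par w).Adj v (.inl y.1) :=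
      mem_filter.2 ⟨hv, Or.inl rfl⟩
    have s4 := s2.2 y.1
    have s5 := card_pos.2 ⟨_, s3⟩
    obtain ⟨v, hv', hne⟩ := exists_mem_ne (s := (sm Sum.inl Z).filter fun v =>
      (thick par w).Adj v (.inl y.1)) (lt_of_le_of_ne s5 (by convert s4.symm)) (Sum.inr y)
    obtain ⟨hv1, hv2⟩ := mem_filter.1 hv'
    obtain ⟨z, rfl⟩ := s1 v hv1
    have s6 : y.1 = z.1 := hv2.resolve_right fun e => by
      have t1 := hmax _ hv1
      have t2 := hr _ (n1 z)
      simp only [Sum.elim_inr] at t1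
      rw [← e] at t2
      omega
    have s7 : ({Sum.inr z, Sum.inr y} : Finset _) ⊆ M y.1 := by
      intro v hv
      rcases mem_insert.1 hv with rfl | hv
      · rw [s6]; exact m3 z
      · rw [mem_singleton.1 hv]; exact m3 y
    have s8 : ∀ v ∈ ({Sum.inr z, Sum.inr y} : Finset _), v ∈ sm Sum.inl Z := by
      intro v hv
      rcases mem_insert.1 hv with rfl | hv
      · exact hv1
      · rw [mem_singleton.1 hv]; assumption
    obtain ⟨t1, t2⟩ := star_NL hβ (fun v hv => ⟨_, _, n2 _ (n1 y), m2 _ (s7 hv)⟩)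
      (bal_pair hβ (s7.trans (m2 _)) (card_pair hne)).1
    refine ⟨_, mem_biUnion.2 ⟨y.1, mem_univ _, mem_powersetCard.2 ⟨s7, card_pair hne⟩⟩,
      hc.eq_of_le (fun a b hab => ?_) t1 t2⟩
    rcases hab.2 with c | c
    · exact nbr_eq hβ hZ hc.ev.ne_one (n2 _ (n1 y)) (m2 _ (s7 c)) (mem_sm.1 (s8 _ c)).2 hab.1
    · exact (nbr_eq hβ hZ hc.ev.ne_one (n2 _ (n1 y)) (m2 _ (s7 c)) (mem_sm.1 (s8 _ c)).2
        hab.1.symm).symm
  · refine le_trans ?_ (sum_choose_le (G := thick par w) hβ (S := univ.erase h) (par := par)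
      (rk := rk) fun a ha => hr a (ne_of_mem_erase ha))
    rw [← add_sum_erase _ _ (mem_univ h), w0, Nat.choose_zero_succ, zero_add]
    exact sum_le_sum fun c _ => Nat.choose_le_choose _ (m1 c ▸ card_le_card (m2 c))
  · have e1 : (thick par w).neighborSet (.inl a) =
        ↑(M a ∪ (univ.filter fun c => par c = a).biUnion M) := by
      ext (b | y)
      · simp [thick, M]
      · simp only [mem_neighborSet, coe_union, Set.mem_union, mem_coe, mem_biUnion, mem_filter,
          mem_univ, true_and]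
        constructor
        · rintro (rfl | rfl)
          · exact Or.inl (m3 y)
          · exact Or.inr ⟨_, rfl, m3 y⟩
        · rintro (c | ⟨c, rfl, c'⟩)
          · obtain ⟨i, -, e⟩ := mem_image.1 c
            obtain rfl := Sum.inr_injective e
            exact Or.inl rfl
          · obtain ⟨i, -, e⟩ := mem_image.1 c'
            obtain rfl := Sum.inr_injective e
            exact Or.inr rfl
    have e2 : ∀ c c', c ≠ c' → Disjoint (M c) (M c') := fun c c' hne =>
      disjoint_left.2 fun v h1 h2 => by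
        obtain ⟨i, -, rfl⟩ := mem_image.1 h1
        obtain ⟨j, -, e⟩ := mem_image.1 h2
        exact hne (congrArg Sigma.fst (Sum.inr_injective e)).symm
    rw [dg, e1, Set.ncard_coe_finset, card_union_of_disjoint, card_biUnion fun c _ c' _ => e2 c c',
      m1, sum_congr rfl fun c _ => m1 c]
    rw [disjoint_biUnion_right]
    intro c hc
    by_cases hca : a = c
    · subst hca
      have : a = h := by
        by_contra hn
        exact n2 a hn (mem_filter.1 hc).2.symm
      have : M a = ∅ := card_eq_zero.1 (by rw [m1, this, w0])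
      simp [this]
    · exact e2 _ _ hca

end Pool.Agent.MP_e633d5_co.H84

end

-- part MP_e633d5_co.H84.Num
section

/-! From a weighted tree that nearly has the prescribed degrees to an exact packing, and from
packings to choices of sides along involutions. -/

namespace Pool.Agent.MP_e633d5_co.H84

open Finset

theorem two_mul_choose (n : ℕ) : (2 * n.choose 2 : ℤ) = n * (n - 1) := by
  induction n with
  | zero => simp
  | succ n ih =>
    rw [Nat.choose_succ_succ, Nat.choose_one_right]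
    push_cast
    linear_combination ih

theorem digit_two {A g X M D : ℤ} (hg : 0 < g) (hA : g * X + g ≤ A) (h1 : |D| ≤ X)
    (h2 : |g * D + M * A| < g) : D = 0 := by
  obtain ⟨a1, a2⟩ := abs_le.1 h1
  obtain ⟨b1, b2⟩ := abs_lt.1 h2
  have hX : 0 ≤ X := by omega
  have hM : M = 0 := by
    rcases lt_trichotomy M 0 with h | h | h
    · nlinarith [mul_nonneg hg.le hX, mul_le_mul_of_nonneg_left a2 hg.le]
    · exact h
    · nlinarith [mul_nonneg hg.le hX, mul_le_mul_of_nonneg_left a1 hg.le]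
  subst hM
  rcases lt_trichotomy D 0 with h | h | h
  · nlinarith
  · exact h
  · nlinarith

theorem sum_sq_eq {B : Type} [Fintype B] [DecidableEq B] (h : B) (A : ℕ) (v : B → ℕ)
    (hv : v h = 0) : ∑ c ∈ univ.erase h, ((v c : ℤ) - A) ^ 2 =
      2 * (∑ c, (v c).choose 2 : ℕ) - (2 * A - 1) * (∑ c, v c : ℕ) +
        (univ.erase h).card * (A : ℤ) ^ 2 := by
  rw [← add_sum_erase _ _ (mem_univ h), ← add_sum_erase _ _ (mem_univ h), hv]
  push_cast
  simp only [Nat.choose_zero_succ, Nat.cast_zero, zero_add, mul_sum, two_mul_choose]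
  rw [← nsmul_eq_mul, ← sum_const, ← sum_sub_distrib, ← sum_add_distrib]
  exact sum_congr rfl fun c _ => by ring

variable {I J : Type} [Fintype I] [Fintype J] [DecidableEq I] [DecidableEq J]

/-- The intended multiplicities. -/
def wt (h : J) (A g : ℕ) (x : I → ℕ) : I ⊕ J → ℕ :=
  Sum.elim (fun i => A + g * x i) fun j => if j = h then 0 else A

/-- The prescribed degrees. -/
def deg (A g : ℕ) (x : I → ℕ) (m T : J → ℕ) : I ⊕ J → ℕ :=
  Sum.elim (fun i => A + g * x i) fun j => m j * A + g * T j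

theorem pack_of_structure (h : J) (x : I → ℕ) (m T : J → ℕ) {A g err η t : ℕ}
    (ht : Fintype.card (I ⊕ J) ≤ t) (hT : ∑ j, T j = ∑ i, x i)
    (hD : ∑ c, deg A g x m T c = 2 * ∑ c, wt h A g x c)
    (H1 : 16 * ((g * ∑ i, x i) ^ 2 + A * t * err) ≤ A ^ 2)
    (H2 : A * t * err + 2 * (g * ∑ i, x i) * err ≤ η ^ 2)
    (H3 : (t + 1) * (η + err) + err < g) (H4 : g * ∑ i, x i + g ≤ A)
    (par : I ⊕ J → I ⊕ J) (w : I ⊕ J → ℕ) (w0 : w (.inr h) = 0)
    (hw : ∑ c, (w c).choose 2 ≤ ∑ c, (wt h A g x c).choose 2)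
    (hd : ∀ a, w a + ∑ c with par c = a, w c ≤ deg A g x m T a ∧
      deg A g x m T a ≤ w a + ∑ c with par c = a, w c + err) :
    ∃ f : I → J, ∀ j, ∑ i with f i = j, x i = T j := by
  set X := ∑ i, x i with hX
  set u := wt h A g x with hu
  have hg : 0 < g := by omega
  have hA : 0 < A := by omega
  have a1 : 2 * ∑ c, u c ≤ 2 * ∑ c, w c + t * err := by
    rw [← hD]
    refine (sum_le_sum fun a _ => (hd a).2).trans ?_
    rw [sum_add_distrib, sum_add_distrib, sum_fiberwise, sum_const, card_univ, smul_eq_mul]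
    have := Nat.mul_le_mul_right err ht
    omega
  have split : ∀ F : I ⊕ J → ℤ, ∑ c ∈ univ.erase (.inr h), F c =
      ∑ i, F (.inl i) + ∑ j ∈ univ.erase h, F (.inr j) := by
    intro F
    have b1 := add_sum_erase univ F (mem_univ (.inr h))
    have b2 := add_sum_erase univ (fun j => F (.inr j)) (mem_univ h)
    rw [Fintype.sum_sum_type] at b1
    linear_combination b1 - b2
  have a2 : ∑ c ∈ univ.erase (.inr h), ((u c : ℤ) - A) ^ 2 = ∑ i, ((g : ℤ) * x i) ^ 2 := by
    rw [split, sum_eq_zero (s := univ.erase h) fun j hj => by simp [hu, wt, ne_of_mem_erase hj]]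
    simp [hu, wt]
  have a3 : ∑ c ∈ univ.erase (.inr h), ((w c : ℤ) - A) ^ 2 ≤
      ∑ i, ((g : ℤ) * x i) ^ 2 + A * t * err := by
    rw [← a2, sum_sq_eq _ A w w0, sum_sq_eq (.inr h) A u (by simp [hu, wt])]
    have b1 : (2 * (∑ c, u c : ℕ) : ℤ) ≤ 2 * (∑ c, w c : ℕ) + t * err := by exact_mod_cast a1
    have b2 : ((∑ c, (w c).choose 2 : ℕ) : ℤ) ≤ (∑ c, (u c).choose 2 : ℕ) := by exact_mod_cast hw
    have b3 : (1 : ℤ) ≤ A := by exact_mod_cast hA
    have b4 : (0 : ℤ) ≤ t * err := by positivity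
    linarith [mul_le_mul_of_nonneg_left b1 (show (0 : ℤ) ≤ 2 * A - 1 by omega)]
  have xX : ∀ i, x i ≤ X := fun i => single_le_sum (fun _ _ => Nat.zero_le _) (mem_univ i)
  have a4 : ∑ i, ((g : ℤ) * x i) ^ 2 ≤ ((g : ℤ) * X) ^ 2 := by
    rw [hX]
    push_cast
    rw [mul_sum]
    exact sum_sq_le_sq_sum_of_nonneg fun i _ => by positivity
  have H1' : (16 : ℤ) * ((g * X) ^ 2 + A * t * err) ≤ A ^ 2 := by exact_mod_cast H1
  have a5 : ∀ c, c ≠ .inr h → 3 * A ≤ 4 * w c := by
    intro c hc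
    have b1 := single_le_sum (f := fun c => ((w c : ℤ) - A) ^ 2) (fun _ _ => sq_nonneg _)
      (mem_erase.2 ⟨hc, mem_univ c⟩)
    have b2 : (4 * ((w c : ℤ) - A)) ^ 2 ≤ A ^ 2 := by
      rw [mul_pow]
      linarith
    have b3 := (abs_le_of_sq_le_sq' b2 (by positivity)).1
    omega
  have a6 : 4 * (g * X) ≤ A := by
    refine (Nat.pow_le_pow_iff_left two_ne_zero).1 ?_
    rw [mul_pow]
    omega
  have a7 : ∀ i c, c ≠ .inr h → par c ≠ .inl i := by
    intro i c hc e
    have b1 := (hd (.inl i)).1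
    have b2 := single_le_sum (f := w) (s := univ.filter fun c => par c = .inl i)
      (fun _ _ => Nat.zero_le _) (mem_filter.2 ⟨mem_univ c, e⟩)
    have b3 := a5 c hc
    have b4 := a5 (.inl i) (by simp)
    have b5 := Nat.mul_le_mul_left g (xX i)
    simp only [deg, Sum.elim_inl] at b1
    omega
  have a8 : ∀ i, w (.inl i) ≤ A + g * x i ∧ A + g * x i ≤ w (.inl i) + err := by
    intro i
    have b1 := hd (.inl i)
    rw [sum_eq_zero fun c hc => by
      by_cases e : c = .inr h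
      · rw [e, w0]
      · exact absurd (mem_filter.1 hc).2 (a7 i c e)] at b1
    simpa [deg] using b1
  have a9 : ∑ j ∈ univ.erase h, ((w (.inr j) : ℤ) - A) ^ 2 ≤ η ^ 2 := by
    have b1 : ∑ i, (((g : ℤ) * x i) ^ 2 - 2 * (g * x i) * err) ≤
        ∑ i, ((w (.inl i) : ℤ) - A) ^ 2 := sum_le_sum fun i _ => by
      have c1 : (w (.inl i) : ℤ) ≤ A + g * x i := by exact_mod_cast (a8 i).1
      have c2 : (A : ℤ) + g * x i ≤ w (.inl i) + err := by exact_mod_cast (a8 i).2
      have c3 : (0 : ℤ) ≤ g * x i := by positivity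
      linarith [mul_le_mul_of_nonneg_left c2 c3, sq_nonneg ((w (.inl i) : ℤ) - A - g * x i)]
    rw [sum_sub_distrib, ← sum_mul, ← mul_sum, ← mul_sum, ← Nat.cast_sum, ← hX] at b1
    rw [split] at a3
    have H2' : (A : ℤ) * t * err + 2 * (g * X) * err ≤ η ^ 2 := by exact_mod_cast H2
    linarith
  have a10 : ∀ c, |(w c : ℤ) - u c| ≤ η + err := by
    rintro (i | j)
    · have := a8 i
      simp only [hu, wt, Sum.elim_inl]
      rw [abs_le]
      omega
    · by_cases e : j = h
      · simp only [hu, wt, Sum.elim_inr, e, w0, if_true]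
        positivity
      · have b1 := (single_le_sum (f := fun j => ((w (.inr j) : ℤ) - A) ^ 2)
          (fun _ _ => sq_nonneg _) (mem_erase.2 ⟨e, mem_univ j⟩)).trans a9
        have b2 := abs_le_of_sq_le_sq b1 (by positivity)
        simp only [hu, wt, Sum.elim_inr, e, if_false]
        omega
  have a11 : ∀ i, ∃ j, par (.inl i) = .inr j := by
    intro i
    rcases e : par (.inl i) with i' | j
    · exact absurd e (a7 i' _ (by simp))
    · exact ⟨j, rfl⟩
  choose f hf using a11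
  refine ⟨f, fun j => ?_⟩
  have b1 : |((w (.inr j) + ∑ c with par c = .inr j, w c : ℕ) : ℤ) -
      (u (.inr j) + ∑ c with par c = .inr j, u c : ℕ)| ≤ (t + 1) * (η + err) := by
    push_cast
    rw [add_sub_add_comm, ← sum_sub_distrib]
    refine (abs_add_le _ _).trans ?_
    have c1 := (abs_sum_le_sum_abs (fun c => (w c : ℤ) - u c)
      (univ.filter fun c => par c = .inr j)).trans (sum_le_card_nsmul _ _ _ fun c _ => a10 c)
    have c2 : (((univ.filter fun c => par c = .inr j).card : ℕ) : ℤ) ≤ t := by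
      exact_mod_cast (card_le_univ _).trans ht
    have c3 := a10 (.inr j)
    rw [nsmul_eq_mul] at c1
    linarith [mul_le_mul_of_nonneg_right c2 (show (0 : ℤ) ≤ η + err by positivity)]
  obtain ⟨M, hM⟩ : ∃ M, u (.inr j) + ∑ c with par c = .inr j, u c =
      M * A + g * ∑ i with f i = j, x i := by
    have c1 : A ∣ u (.inr j) + ∑ j', (if par (.inr j') = .inr j then u (.inr j') else 0) +
        ∑ i with f i = j, A := by
      have c2 : ∀ j, A ∣ u (.inr j) := fun j => by
        simp only [hu, wt, Sum.elim_inr]; split_ifs <;> simp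
      exact dvd_add (dvd_add (c2 j) (dvd_sum fun j' _ => by split_ifs <;> simp [c2]))
        (dvd_sum fun _ _ => dvd_rfl)
    obtain ⟨M, hM⟩ := c1
    refine ⟨M, ?_⟩
    rw [mul_comm M, ← hM, sum_filter, Fintype.sum_sum_type, mul_sum, add_assoc, add_assoc,
      ← sum_add_distrib, add_comm (∑ i, _), sum_filter]
    simp [hf, hu, wt]
  have b2 := hd (.inr j)
  rw [hM] at b1
  simp only [deg, Sum.elim_inr] at b2
  have b3 : T j ≤ X := hT ▸ single_le_sum (fun _ _ => Nat.zero_le _) (mem_univ j)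
  have b4 : ∑ i with f i = j, x i ≤ X := sum_le_sum_of_subset (filter_subset _ _)
  have b5 := digit_two (A := A) (g := g) (X := X) (M := (m j : ℤ) - M)
    (D := (T j : ℤ) - (∑ i with f i = j, x i : ℕ)) (by exact_mod_cast hg) (by exact_mod_cast H4)
    (by rw [abs_le]; omega) (by
      have H3' : ((t : ℤ) + 1) * (η + err) + err < g := by exact_mod_cast H3
      obtain ⟨c1, c2⟩ := abs_le.1 b1
      have c3 : ((w (.inr j) + ∑ c with par c = .inr j, w c : ℕ) : ℤ) ≤
        (m j * A + g * T j : ℕ) := by exact_mod_cast b2.1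
      have c4 : ((m j * A + g * T j : ℕ) : ℤ) ≤
        (w (.inr j) + ∑ c with par c = .inr j, w c : ℕ) + err := by exact_mod_cast b2.2
      generalize ((w (.inr j) + ∑ c with par c = .inr j, w c : ℕ) : ℤ) = s at c1 c2 c3 c4
      generalize (∑ i with f i = j, x i) = Y at c1 c2 ⊢
      push_cast at c1 c2 c3 c4
      have c5 : (0 : ℤ) ≤ err := by positivity
      rw [abs_lt]
      constructor <;> linarith)
  omega

omit [DecidableEq I] in
theorem sum_wt (A g : ℕ) (x : I → ℕ) (F : ℕ → ℕ) (hF : F 0 = 0) :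
    ∑ c, F (wt (none : Option J) A g x c) = ∑ i, F (A + g * x i) + Fintype.card J * F A := by
  simp [Fintype.sum_sum_type, Fintype.sum_option, wt, hF]

theorem exists_equiv {V W : Type} [Fintype V] [Fintype W] {d : V → ℕ} {d' : W → ℕ}
    (h : univ.val.map d = univ.val.map d') : ∃ e : V ≃ W, ∀ v, d' (e v) = d v := by
  have key : ∀ c, Fintype.card {v // d v = c} = Fintype.card {w // d' w = c} := fun c => by
    have := congrArg (Multiset.count c) h
    rw [Multiset.count_map, Multiset.count_map] at this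
    simp only [Fintype.card_subtype, eq_comm (b := c)]
    exact this
  exact ⟨Equiv.ofFiberEquiv fun c => Fintype.equivOfCardEq (key c),
    fun v => Equiv.ofFiberEquiv_map _ v⟩

/-- The multiset `M` is the degree multiset of a `k`-cyclic graph. -/
def RealM (M : Multiset ℕ) (k : ℕ) : Prop :=
  ∃ (V : Type) (_ : Fintype V) (G : SimpleGraph V), KCyclic G k ∧ univ.val.map (dg G) = M

theorem map_sum_type {V W : Type} [Fintype V] [Fintype W] (d : V ⊕ W → ℕ) :
    univ.val.map d = univ.val.map (fun v => d (.inl v)) + univ.val.map fun w => d (.inr w) := by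
  rw [← univ_disjSum_univ, val_disjSum, Multiset.map_disjSum]

theorem real_of_pack (x : I → ℕ) (T : J → ℕ) {A : ℕ} (g : ℕ) (hA : 0 < A) (f : I → J)
    (hf : ∀ j, (univ.filter fun i => f i = j).card = 5 ∧ ∑ i with f i = j, x i = T j) :
    RealM (univ.val.map (deg A g x (fun j : Option J => j.elim (Fintype.card J) fun _ => 6)
      fun j => j.elim 0 T) + Multiset.replicate (∑ c, wt (none : Option J) A g x c) 2)
      (∑ c, (wt (none : Option J) A g x c).choose 2) := by
  obtain ⟨a1, a2, a3⟩ := thick_spec (h := (.inr none : I ⊕ Option J))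
    (par := Sum.elim (fun i => .inr (some (f i))) fun _ => .inr none)
    (rk := Sum.elim (fun _ => 2) fun j => j.elim 0 fun _ => 1) (w := wt none A g x)
    (by rintro (i | _ | j) <;> simp) (by simp [wt]) (by rintro (i | _ | j) <;> simp [wt, hA])
  refine ⟨_, inferInstance, _, a1, ?_⟩
  rw [map_sum_type]
  congr 1
  · refine Multiset.map_congr rfl fun c _ => ?_
    rw [a2, sum_filter, Fintype.sum_sum_type]
    rcases c with i | _ | j
    · simp [wt, deg]
    · simp [wt, deg, Fintype.sum_option]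
    · have b1 : ∑ i, (if f i = j then A + g * x i else 0) = 5 * A + g * T j := by
        rw [← sum_filter, sum_add_distrib, ← mul_sum, (hf j).2, sum_const, (hf j).1, smul_eq_mul]
      simp [wt, deg, b1]
      ring
  · simp [a3]

theorem params {Q : ℕ} (hQ : 8 ≤ Q) :
    16 * ((Q ^ 36 * Q) ^ 2 + Q ^ 38 * Q * Q ^ 28) ≤ (Q ^ 38) ^ 2 ∧
    Q ^ 38 * Q * Q ^ 28 + 2 * (Q ^ 36 * Q) * Q ^ 28 ≤ (Q ^ 34) ^ 2 ∧
    (Q + 1) * (Q ^ 34 + Q ^ 28) + Q ^ 28 < Q ^ 36 ∧ Q ^ 36 * Q + Q ^ 36 ≤ Q ^ 38 ∧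
    Q * Q ^ 26 + (Q + Q ^ 2) ≤ Q ^ 28 ∧ Q * (2 * Q ^ 38) ^ 2 ≤ Q ^ 78 ∧
    Q * (2 * Q ^ 38) ≤ Q ^ 40 := by
  have p1 : ∀ a b, a ≤ b → Q ^ a ≤ Q ^ b := fun a b => Nat.pow_le_pow_right (by omega)
  have p2 : ∀ a b, a + 1 = b → 8 * Q ^ a ≤ Q ^ b := fun a b h => by
    rw [← h, pow_succ, mul_comm]; exact Nat.mul_le_mul_left _ hQ
  have p3 : 0 < Q ^ 28 := by positivity
  refine ⟨?_, ?_, ?_, ?_, ?_, ?_, ?_⟩
  · linarith [p1 67 74 (by norm_num), p2 74 75 rfl, p2 75 76 rfl, Nat.zero_le (Q ^ 74)]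
  · linarith [p1 65 67 (by norm_num), p2 67 68 rfl, Nat.zero_le (Q ^ 67)]
  · linarith [p1 28 35 (by norm_num), p1 29 35 (by norm_num), p1 34 35 (by norm_num), p2 35 36 rfl]
  · linarith [p1 36 37 (by norm_num), p2 37 38 rfl, Nat.zero_le (Q ^ 37)]
  · linarith [p1 1 27 (by norm_num), p1 2 27 (by norm_num), p2 27 28 rfl, Nat.zero_le (Q ^ 27)]
  · linarith [p2 77 78 rfl, Nat.zero_le (Q ^ 77)]
  · linarith [p2 39 40 rfl, Nat.zero_le (Q ^ 39)]

omit [DecidableEq I] in
theorem wt_bounds (x : I → ℕ) {Q : ℕ} (hQ : 8 ≤ Q) (ht : Fintype.card (I ⊕ Option J) ≤ Q)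
    (hX : ∑ i, x i ≤ Q) :
    ∑ c, (wt (none : Option J) (Q ^ 38) (Q ^ 36) x c).choose 2 ≤ Q ^ 78 ∧
      ∑ c, wt (none : Option J) (Q ^ 38) (Q ^ 36) x c ≤ Q ^ 40 := by
  obtain ⟨-, -, -, p4, -, p6, p7⟩ := params hQ
  have a1 : ∀ c, wt (none : Option J) (Q ^ 38) (Q ^ 36) x c ≤ 2 * Q ^ 38 := by
    rintro (i | j)
    · have := Nat.mul_le_mul_left (Q ^ 36)
        ((single_le_sum (fun _ _ => Nat.zero_le _) (mem_univ i)).trans hX)
      simp only [wt, Sum.elim_inl]
      omega
    · simp only [wt, Sum.elim_inr]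
      split_ifs <;> omega
  exact ⟨((sum_le_card_nsmul _ _ _ fun c _ => (Nat.choose_le_pow _ _).trans
    (Nat.pow_le_pow_left (a1 c) 2)).trans (Nat.mul_le_mul_right _ ht)).trans p6,
    ((sum_le_card_nsmul _ _ _ fun c _ => a1 c).trans (Nat.mul_le_mul_right _ ht)).trans p7⟩

theorem pack_of_real (x : I → ℕ) (T : J → ℕ) {Q : ℕ} (hQ : 8 ≤ Q)
    (ht : Fintype.card (I ⊕ Option J) ≤ Q) (hX : ∑ i, x i ≤ Q) (hx : ∀ i, 0 < x i)
    (hI : Fintype.card I = 5 * Fintype.card J) (hT : ∑ j, T j = ∑ i, x i)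
    (h : RealM (univ.val.map (deg (Q ^ 38) (Q ^ 36) x
      (fun j : Option J => j.elim (Fintype.card J) fun _ => 6) fun j => j.elim 0 T) +
      Multiset.replicate (∑ c, wt (none : Option J) (Q ^ 38) (Q ^ 36) x c) 2)
      (∑ c, (wt (none : Option J) (Q ^ 38) (Q ^ 36) x c).choose 2)) :
    ∃ f : I → J, ∀ j, ∑ i with f i = j, x i = T j := by
  obtain ⟨V, _, G, hG, hM⟩ := h
  have hk := (wt_bounds x hQ ht hX).1
  obtain ⟨p1, p2, p3, p4, p5, -⟩ := params hQ
  set d := deg (Q ^ 38) (Q ^ 36) x (fun j : Option J => j.elim (Fintype.card J) fun _ => 6)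
    fun j => j.elim 0 T with hd
  set N := ∑ c, wt (none : Option J) (Q ^ 38) (Q ^ 36) x c with hN
  obtain ⟨e, he⟩ := exists_equiv (d := Sum.elim d fun _ : Fin N => 2) (d' := dg G)
    (by rw [map_sum_type, hM]; simp)
  have hD : ∑ c, d c = 2 * N := by
    have := sum_wt (J := J) (Q ^ 38) (Q ^ 36) x id rfl
    simp only [id] at this
    rw [hN, this, Fintype.sum_sum_type, Fintype.sum_option]
    simp only [hd, deg, Sum.elim_inl, Sum.elim_inr, Option.elim, sum_add_distrib, ← mul_sum, hT,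
      sum_const, card_univ, smul_eq_mul, hI]
    ring
  obtain ⟨par, w, w0, w1, w2⟩ := exists_structure (G := G) (β := fun b => e (.inl b))
    (e.injective.comp Sum.inl_injective) (fun v hv => by
      obtain ⟨y | y, rfl⟩ := e.surjective v
      · exact absurd ⟨y, rfl⟩ hv
      · exact he _) (by
      rw [← Fintype.card_congr e, Fintype.card_sum (α := I ⊕ Option J), Fintype.card_fin]
      simp only [he, Sum.elim_inl, hD]
      ring) (θ := Q ^ 26) (by rw [← pow_mul]; exact hG.card_eq.le.trans hk) (.inr none)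
  obtain ⟨f, hf⟩ := pack_of_structure (none : Option J) x _ (fun j => j.elim 0 T) (A := Q ^ 38)
    (g := Q ^ 36) (err := Q ^ 28) (η := Q ^ 34) ht (by simpa [Fintype.sum_option] using hT) hD
    (le_trans (by gcongr) p1) (le_trans (by gcongr) p2) p3 (le_trans (by gcongr) p4)
    par w w0 (w1.trans hG.card_eq.le) fun a => by
      have b1 := w2 a
      simp only [he, Sum.elim_inl] at b1
      exact ⟨b1.1, b1.2.trans (Nat.add_le_add_left (le_trans (by gcongr) p5) _)⟩
  have a1 : ∀ i, ∃ j, f i = some j := fun i => by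
    rcases c : f i with _ | j
    · have b1 := single_le_sum (f := x) (s := univ.filter fun i => f i = none)
        (fun _ _ => Nat.zero_le _) (mem_filter.2 ⟨mem_univ i, c⟩)
      rw [hf none] at b1
      exact absurd (hx i) (by simpa using b1)
    · exact ⟨j, rfl⟩
  choose f' hf' using a1
  exact ⟨f', fun j => by simpa [hf'] using hf (some j)⟩

/-! ### Choices of sides along involutions -/

theorem digits {R : ℕ} : ∀ (K : ℕ) (a b : Fin K → ℕ) (a0 b0 : ℕ), a0 < R → b0 < R →
    (∀ p, a p < R) → (∀ p, b p < R) →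
    a0 + ∑ p : Fin K, R ^ (p.1 + 1) * a p = b0 + ∑ p : Fin K, R ^ (p.1 + 1) * b p →
    a0 = b0 ∧ a = b := by
  intro K
  induction K with
  | zero => exact fun a b a0 b0 _ _ _ _ h => ⟨by simpa using h, Subsingleton.elim _ _⟩
  | succ K ih =>
    intro a b a0 b0 h1 h2 h3 h4 h
    have e : ∀ c : Fin (K + 1) → ℕ, ∑ p : Fin (K + 1), R ^ (p.1 + 1) * c p =
        R * (c 0 + ∑ p : Fin K, R ^ (p.1 + 1) * c p.succ) := fun c => by
      rw [Fin.sum_univ_succ, mul_add, mul_sum]
      congr 1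
      · simp
      · exact sum_congr rfl fun p _ => by rw [Fin.val_succ]; ring
    rw [e, e] at h
    have h5 := congrArg (· % R) h
    simp only [Nat.add_mul_mod_self_left, Nat.mod_eq_of_lt h1, Nat.mod_eq_of_lt h2] at h5
    subst h5
    obtain ⟨h6, h7⟩ := ih _ _ _ _ (h3 0) (h4 0) (fun p => h3 _) (fun p => h4 _)
      (Nat.eq_of_mul_eq_mul_left (by omega) (Nat.add_left_cancel h))
    exact ⟨rfl, funext fun p => Fin.cases h6 (fun p => congrFun h7 p) p⟩

/-- Every bin `j < n` has five slots; the slot `(j, p)` is tied to the slot `(nb j p, p)`; the two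
loads `fl` of tied slots may be exchanged; the total load of bin `j` has to be `τ j`. -/
def Sol (n : ℕ) (nb fl : ℕ → ℕ → ℕ) (τ : ℕ → ℕ) : Prop :=
  ∃ z : ℕ → ℕ → Bool, (∀ j < n, ∀ p < 5, z (nb j p) p = z j p) ∧
    ∀ j < n, ∑ p : Fin 5, fl (if z j p then nb j p else j) p = τ j

/-- The size of the item of a slot. -/
def itemX (n R : ℕ) (nb fl : ℕ → ℕ → ℕ) (j p : ℕ) : ℕ :=
  fl j p + R ^ (p + 1) * (n + min j (nb j p))

/-- The size of a bin. -/
def binT (n R : ℕ) (nb : ℕ → ℕ → ℕ) (τ : ℕ → ℕ) (j : ℕ) : ℕ :=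
  τ j + ((List.range 5).map fun p => R ^ (p + 1) * (n + min j (nb j p))).sum

theorem binT_eq (n R : ℕ) (nb : ℕ → ℕ → ℕ) (τ : ℕ → ℕ) (j : ℕ) :
    binT n R nb τ j = τ j + ∑ p : Fin 5, R ^ (p.1 + 1) * (n + min j (nb j p)) := by
  rw [binT, Fin.sum_univ_eq_sum_range (fun p => R ^ (p + 1) * (n + min j (nb j p))) 5]
  rfl

theorem sum_slots {n : ℕ} (f : Fin n × Fin 5 → Fin n) (j : Fin n) (F : Fin n × Fin 5 → ℕ) :
    ∑ i with f i = j, F i = ∑ p, ∑ b with f (b, p) = j, F (b, p) := by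
  rw [sum_filter, Fintype.sum_prod_type_right]
  simp only [sum_filter]

theorem pack_of_sol {n : ℕ} (R : ℕ) {nb fl : ℕ → ℕ → ℕ} {τ : ℕ → ℕ}
    (hnb : ∀ j < n, ∀ p < 5, nb j p < n ∧ nb (nb j p) p = j) (h : Sol n nb fl τ) :
    ∃ f : Fin n × Fin 5 → Fin n, ∀ j, (univ.filter fun i => f i = j).card = 5 ∧
      ∑ i with f i = j, itemX n R nb fl i.1 i.2 = binT n R nb τ j := by
  obtain ⟨z, z1, z2⟩ := h
  let f : Fin n × Fin 5 → Fin n := fun i =>
    if z i.1 i.2 then ⟨nb i.1 i.2, (hnb _ i.1.2 _ i.2.2).1⟩ else i.1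
  have f1 : ∀ b p, f (f (b, p), p) = b := fun b p => by
    by_cases c : z b p = true
    · simp [f, c, z1 _ b.2 _ p.2, (hnb _ b.2 _ p.2).2]
    · simp [f, c]
  have f2 : ∀ j p, (univ.filter fun b => f (b, p) = j) = {f (j, p)} := fun j p => by
    ext b
    simp only [mem_filter, mem_univ, true_and, mem_singleton]
    exact ⟨fun e => by rw [← e, f1], fun e => by rw [e, f1]⟩
  refine ⟨f, fun j => ⟨?_, ?_⟩⟩
  · rw [card_eq_sum_ones, sum_slots]
    simp [f2]
  · rw [sum_slots, binT_eq, ← z2 j j.2, ← sum_add_distrib]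
    refine sum_congr rfl fun p _ => ?_
    rw [f2, sum_singleton]
    by_cases c : z j p = true
    · simp [f, c, itemX, (hnb _ j.2 _ p.2).2, min_comm]
    · simp [f, c, itemX]

theorem sol_of_pack {n R : ℕ} {nb fl : ℕ → ℕ → ℕ} {τ : ℕ → ℕ}
    (hnb : ∀ j < n, ∀ p < 5, nb j p < n ∧ nb (nb j p) p = j) (hfl : ∀ j p, fl j p ≤ 2)
    (hτ : ∀ j, τ j ≤ 3) (hR : 10 * n ^ 2 + 10 * n + 4 ≤ R) (f : Fin n × Fin 5 → Fin n)
    (hf : ∀ j, ∑ i with f i = j, itemX n R nb fl i.1 i.2 = binT n R nb τ j) : Sol n nb fl τ := by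
  have key : ∀ j : Fin n, ∑ p : Fin 5, ∑ b with f (b, p) = j, fl b p = τ j ∧
      ∀ p : Fin 5, ∑ b with f (b, p) = j, (n + min b.1 (nb b p)) = n + min j.1 (nb j p) := by
    intro j
    have a1 := hf j
    rw [sum_slots, binT_eq] at a1
    simp only [itemX, sum_add_distrib (f := fun b : Fin n => fl b _), ← mul_sum] at a1
    rw [sum_add_distrib] at a1
    have a2 : ∀ (p : Fin 5) (F : Fin n → ℕ) (c : ℕ), (∀ b, F b ≤ c) →
        ∑ b with f (b, p) = j, F b ≤ n * c := fun p F c h =>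
      (sum_le_card_nsmul _ _ c fun b _ => h b).trans
        (Nat.mul_le_mul_right _ ((card_le_univ _).trans (Fintype.card_fin n).le))
    obtain ⟨a3, a4⟩ := digits 5 _ _ _ _ (by
      have := sum_le_card_nsmul univ (fun p : Fin 5 => ∑ b with f (b, p) = j, fl b p) (n * 2)
        fun p _ => a2 p _ 2 fun b => hfl _ _
      simp only [card_univ, Fintype.card_fin, smul_eq_mul] at this
      omega) (by have := hτ j; omega) (fun p => by
      have := a2 p (fun b => n + min b.1 (nb b p)) (2 * n) fun b => by have := b.2; omega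
      nlinarith) (fun p => by have := j.2; omega) a1
    exact ⟨a3, fun p => congrFun a4 p⟩
  have a1 : ∀ (j : Fin n) (p : Fin 5), ∃ b : Fin n, (univ.filter fun b => f (b, p) = j) = {b} ∧
      (b = j ∨ b.1 = nb j p) := by
    intro j p
    have b1 := (key j).2 p
    have b2 := card_nsmul_le_sum (univ.filter fun b => f (b, p) = j)
      (fun b => n + min b.1 (nb b p)) n fun b _ => Nat.le_add_right _ _
    have b3 := j.2
    rw [b1, smul_eq_mul] at b2
    have b4 : (univ.filter fun b => f (b, p) = j).card = 1 := by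
      rcases hc : (univ.filter fun b => f (b, p) = j).card with _ | _ | c
      · rw [card_eq_zero.1 hc, sum_empty] at b1
        omega
      · rfl
      · rw [hc] at b2
        have : min j.1 (nb j p) < n := by omega
        nlinarith
    obtain ⟨b, hb⟩ := card_eq_one.1 b4
    refine ⟨b, hb, ?_⟩
    rw [hb, sum_singleton] at b1
    have c1 := (hnb _ j.2 _ p.2).2
    have c2 := (hnb _ b.2 _ p.2).2
    rw [Fin.ext_iff]
    rcases min_choice b.1 (nb b p) with d1 | d1 <;> rcases min_choice j.1 (nb j p) with d2 | d2 <;>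
      rw [d1, d2] at b1
    · omega
    · omega
    · right; rw [← Nat.add_left_cancel b1, c2]
    · left; rw [← c1, ← Nat.add_left_cancel b1, c2]
  choose g g1 g2 using a1
  have g3 : ∀ j p, f (g j p, p) = j := fun j p => by
    simpa using (g1 j p).ge (mem_singleton_self _)
  refine ⟨fun j p => if h : j < n ∧ p < 5 then decide (g ⟨j, h.1⟩ ⟨p, h.2⟩ ≠ ⟨j, h.1⟩) else false,
    fun j hj p hp => ?_, fun j hj => ?_⟩
  · obtain ⟨c1, c2⟩ := hnb j hj p hp
    simp only [dif_pos (And.intro hj hp), dif_pos (And.intro c1 hp), decide_eq_decide]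
    have d1 := g2 ⟨j, hj⟩ ⟨p, hp⟩
    have d2 := g2 ⟨nb j p, c1⟩ ⟨p, hp⟩
    have d3 : (g ⟨j, hj⟩ ⟨p, hp⟩).1 = (g ⟨nb j p, c1⟩ ⟨p, hp⟩).1 → j = nb j p := fun e => by
      have e1 := g3 ⟨j, hj⟩ ⟨p, hp⟩
      rw [Fin.ext e, g3] at e1
      exact (congrArg Fin.val e1).symm
    simp only [Fin.ext_iff, ne_eq, c2] at d1 d2 ⊢
    omega
  · rw [← (key ⟨j, hj⟩).1]
    refine sum_congr rfl fun p _ => ?_
    rw [g1, sum_singleton]
    simp only [dif_pos (And.intro hj p.2)]
    by_cases c : g ⟨j, hj⟩ p = ⟨j, hj⟩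
    · simp [c]
    · simp [c, (g2 ⟨j, hj⟩ p).resolve_left c]

end Pool.Agent.MP_e633d5_co.H84

end
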